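import Mathlib

/-!
# JA: the Cauchy determinant
-/

namespace Sx

open Finset Equiv

lemma cauchy_alt {K : Type} [Field K] {n : ℕ} (z : Fin n → K) :
    ∑ σ : Perm (Fin n), ((Perm.sign σ : ℤ) : K) * ∏ i, z i ^ (n - 1 - (σ i : ℕ)) =
      ((Perm.sign (Fin.revPerm : Perm (Fin n)) : ℤ) : K) * Matrix.det (Matrix.vandermonde z) := by
  rw [← Matrix.det_permute' Fin.revPerm (Matrix.vandermonde z), ← Matrix.det_transpose,
    Matrix.det_apply']
  apply Finset.sum_congr rfl
  intro σ _
  congr 1
  apply Finset.prod_congr rfl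
  intro i _
  have h := (σ i).isLt
  simp only [Matrix.transpose_apply, Matrix.submatrix_apply, Matrix.vandermonde_apply, id_eq,
    Fin.revPerm_apply, Fin.val_rev]
  congr 1
  omega

lemma cauchy_pair {K : Type} [Field K] {n : ℕ} (y : Fin n → K) (hy0 : ∀ j, y j ≠ 0) :
    ∏ i, ∏ l ∈ univ.erase i, (1 - (y i)⁻¹ * y l) =
      Matrix.det (Matrix.vandermonde (fun i => (y i)⁻¹)) * Matrix.det (Matrix.vandermonde y) := by
  rw [Matrix.det_vandermonde, Matrix.det_vandermonde, ← Finset.prod_mul_distrib]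
  have h := Finset.prod_prod_Ioi_mul_eq_prod_prod_off_diag
    (fun (j i : Fin n) => 1 - (y i)⁻¹ * y j)
  simp_rw [Finset.compl_singleton] at h
  rw [← h]
  apply Finset.prod_congr rfl
  intro i _
  rw [← Finset.prod_mul_distrib]
  apply Finset.prod_congr rfl
  intro j _
  have h1 := hy0 i
  have h2 := hy0 j
  field_simp

theorem cauchy_det {K : Type} [Field K] {n : ℕ} (x y : Fin n → K) (hy0 : ∀ j, y j ≠ 0)
    (hy : Function.Injective y) :
    Matrix.det (Matrix.of fun i j => ∏ l ∈ univ.erase j, (1 - x i * y l)) =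
      (∑ σ : Perm (Fin n), ((Perm.sign σ : ℤ) : K) * ∏ i, x i ^ (n - 1 - (σ i : ℕ))) *
        ∑ σ : Perm (Fin n), ((Perm.sign σ : ℤ) : K) * ∏ i, y i ^ (n - 1 - (σ i : ℕ)) := by
  set q : Fin n → Polynomial K := fun j => ∏ l ∈ univ.erase j, (1 - Polynomial.C (y l) * Polynomial.X)
    with hq
  have hdeg : ∀ j, (q j).natDegree < n := by
    intro j
    have h1 : (q j).natDegree ≤ ∑ l ∈ univ.erase j, 1 := by
      refine (Polynomial.natDegree_prod_le _ _).trans (Finset.sum_le_sum fun l _ => ?_)
      compute_degree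
    rw [Finset.sum_const, smul_eq_mul, mul_one, Finset.card_erase_of_mem (Finset.mem_univ j),
      Finset.card_univ, Fintype.card_fin] at h1
    have := j.isLt
    omega
  set Q : Matrix (Fin n) (Fin n) K := Matrix.of fun m j => (q j).coeff m with hQ
  have hC : ∀ z : Fin n → K, (Matrix.of fun i j => ∏ l ∈ univ.erase j, (1 - z i * y l)) =
      Matrix.vandermonde z * Q := by
    intro z
    ext i j
    rw [Matrix.mul_apply, Matrix.of_apply]
    have h1 : ∏ l ∈ univ.erase j, (1 - z i * y l) = (q j).eval (z i) := by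
      rw [hq, Polynomial.eval_prod]
      apply Finset.prod_congr rfl
      intro l _
      rw [Polynomial.eval_sub, Polynomial.eval_one, Polynomial.eval_mul, Polynomial.eval_C,
        Polynomial.eval_X, mul_comm]
    rw [h1, Polynomial.eval_eq_sum_range' (hdeg j), Finset.sum_range]
    apply Finset.sum_congr rfl
    intro m _
    rw [Matrix.vandermonde_apply, hQ, Matrix.of_apply, mul_comm]
  have hinj : Function.Injective (fun i => (y i)⁻¹) := fun i j h => hy (inv_injective h)
  have hV : Matrix.det (Matrix.vandermonde (fun i => (y i)⁻¹)) ≠ 0 :=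
    Matrix.det_vandermonde_ne_zero_iff.mpr hinj
  have hdetQ : Q.det = Matrix.det (Matrix.vandermonde y) := by
    apply mul_left_cancel₀ hV
    rw [← Matrix.det_mul, ← hC, ← cauchy_pair y hy0]
    have h2 : (Matrix.of fun i j => ∏ l ∈ univ.erase j, (1 - (y i)⁻¹ * y l)) =
        Matrix.diagonal (fun i => ∏ l ∈ univ.erase i, (1 - (y i)⁻¹ * y l)) := by
      ext i j
      rw [Matrix.of_apply, Matrix.diagonal_apply]
      split_ifs with hij
      · rw [hij]
      · apply Finset.prod_eq_zero (i := i)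
        · exact Finset.mem_erase.mpr ⟨hij, Finset.mem_univ _⟩
        · rw [inv_mul_cancel₀ (hy0 i), sub_self]
    rw [h2, Matrix.det_diagonal]
  rw [hC, Matrix.det_mul, hdetQ, cauchy_alt x, cauchy_alt y]
  have hs : ((Perm.sign (Fin.revPerm : Perm (Fin n)) : ℤ) : K) *
      ((Perm.sign (Fin.revPerm : Perm (Fin n)) : ℤ) : K) = 1 := by
    rw [← Int.cast_mul, ← Units.val_mul, Int.units_mul_self, Units.val_one, Int.cast_one]
  linear_combination (-(Matrix.det (Matrix.vandermonde x) * Matrix.det (Matrix.vandermonde y))) * hs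

end Sx
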