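import Pool.Agent.Saxl2.JTDefs

namespace Sx

open Finset Equiv TensorProduct

open Classical in
theorem geo_mul_val {n : ℕ} (i j : Fin n) (m : (Fin n ⊕ Fin n) →₀ ℕ) :
    geo i j m = if ∃ k : ℕ, m = Finsupp.single (Sum.inl i) k + Finsupp.single (Sum.inr j) k
      then 1 else 0 := by
  unfold geo
  refine if_congr ?_ rfl rfl
  constructor
  · intro h
    exact ⟨_, h⟩
  · rintro ⟨k, hk⟩
    have : m (Sum.inl i) = k := by
      rw [hk]
      simp
    rw [this]
    exact hk

theorem geo_mul {n : ℕ} (i j : Fin n) :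
    (1 - MvPowerSeries.X (Sum.inl i) * MvPowerSeries.X (Sum.inr j)) * geo i j = 1 := by
  classical
  ext m
  rw [sub_mul, one_mul, MvPowerSeries.X_def, MvPowerSeries.X_def,
    MvPowerSeries.monomial_mul_monomial, map_sub, MvPowerSeries.coeff_monomial_mul,
    MvPowerSeries.coeff_one, MvPowerSeries.coeff_apply, MvPowerSeries.coeff_apply]
  simp only [one_mul, geo_mul_val]
  set s : (Fin n ⊕ Fin n) →₀ ℕ := Finsupp.single (Sum.inl i) 1 + Finsupp.single (Sum.inr j) 1
    with hs
  have hk : ∀ k : ℕ, (Finsupp.single (Sum.inl i) k + Finsupp.single (Sum.inr j) k :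
      (Fin n ⊕ Fin n) →₀ ℕ) = k • s := by
    intro k
    rw [hs, smul_add]
    simp
  simp only [hk]
  have hs0 : s ≠ 0 := by
    intro h
    have := DFunLike.congr_fun h (Sum.inl i)
    simp [hs] at this
  by_cases hm : ∃ k : ℕ, m = k • s
  · obtain ⟨k, rfl⟩ := hm
    rcases Nat.eq_zero_or_pos k with rfl | hk0
    · have h1 : ¬ s ≤ 0 := fun h => hs0 (le_antisymm h zero_le)
      rw [zero_smul, if_pos ⟨0, (zero_smul ℕ s).symm⟩, if_neg h1, if_pos rfl, sub_zero]
    · obtain ⟨l, rfl⟩ : ∃ l, k = l + 1 := ⟨k - 1, by omega⟩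
      have h1 : s ≤ (l + 1) • s := by
        rw [add_smul, one_smul]
        exact le_add_self
      have h2 : (l + 1) • s - s = l • s := by
        rw [add_smul, one_smul, add_tsub_cancel_right]
      have h3 : (l + 1) • s ≠ 0 := by
        intro h
        exact hs0 (le_antisymm (h ▸ h1) zero_le)
      rw [if_pos ⟨l + 1, rfl⟩, if_pos h1, h2, if_pos ⟨l, rfl⟩, if_neg h3, sub_self]
  · have h0 : m ≠ 0 := fun h => hm ⟨0, by rw [h, zero_smul]⟩
    rw [if_neg hm, if_neg h0]
    by_cases h1 : s ≤ m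
    · rw [if_pos h1, if_neg, sub_zero]
      rintro ⟨k, hk'⟩
      exact hm ⟨k + 1, by rw [add_smul, one_smul, ← hk', tsub_add_cancel_of_le h1]⟩
    · rw [if_neg h1, sub_zero]

end Sx
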