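import Pool.Agent.Saxl2.JTDefs

/-! The product of all geometric series. -/

namespace Sx

open Finset Equiv

/-- the monomial `(X_i Y_j) ^ a`. -/
noncomputable def jbMon {n : ℕ} (p : Fin n × Fin n) (a : ℕ) : (Fin n ⊕ Fin n) →₀ ℕ :=
  Finsupp.single (Sum.inl p.1) a + Finsupp.single (Sum.inr p.2) a

theorem jbMon_inl {n : ℕ} (p : Fin n × Fin n) (a : ℕ) (i : Fin n) :
    jbMon p a (Sum.inl i) = if p.1 = i then a else 0 := by
  simp [jbMon, Finsupp.single_apply]

theorem jbMon_inr {n : ℕ} (p : Fin n × Fin n) (a : ℕ) (j : Fin n) :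
    jbMon p a (Sum.inr j) = if p.2 = j then a else 0 := by
  simp [jbMon, Finsupp.single_apply]

theorem coeff_geo {n : ℕ} (p : Fin n × Fin n) (m : (Fin n ⊕ Fin n) →₀ ℕ) :
    MvPowerSeries.coeff m (geo p.1 p.2) = if m = jbMon p (m (Sum.inl p.1)) then 1 else 0 := rfl

/-- the decompositions of the exponent. -/
noncomputable def jbDec {n : ℕ} (m : (Fin n ⊕ Fin n) →₀ ℕ) :
    Finset ((Fin n × Fin n) →₀ ((Fin n ⊕ Fin n) →₀ ℕ)) :=
  (finsuppAntidiag univ m).filter fun l => ∀ p, l p = jbMon p (l p (Sum.inl p.1))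

theorem mem_jbDec {n : ℕ} (m : (Fin n ⊕ Fin n) →₀ ℕ)
    (l : (Fin n × Fin n) →₀ ((Fin n ⊕ Fin n) →₀ ℕ)) :
    l ∈ jbDec m ↔ ∑ p, l p = m ∧ ∀ p, l p = jbMon p (l p (Sum.inl p.1)) := by
  rw [jbDec, mem_filter, mem_finsuppAntidiag]
  simp only [subset_univ, and_true]

theorem jb_row {n : ℕ} (A : Fin n × Fin n → ℕ) (i : Fin n) :
    (∑ p, jbMon p (A p)) (Sum.inl i) = ∑ j, A (i, j) := by
  rw [Finsupp.finsetSum_apply, Fintype.sum_prod_type]
  simp only [jbMon_inl]
  rw [Finset.sum_eq_single i]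
  · simp
  · intro b _ hb
    simp [hb]
  · intro h
    exact absurd (mem_univ i) h

theorem jb_col {n : ℕ} (A : Fin n × Fin n → ℕ) (j : Fin n) :
    (∑ p, jbMon p (A p)) (Sum.inr j) = ∑ i, A (i, j) := by
  rw [Finsupp.finsetSum_apply, Fintype.sum_prod_type]
  simp only [jbMon_inr]
  refine Finset.sum_congr rfl fun i _ => ?_
  rw [Finset.sum_eq_single j]
  · simp
  · intro b _ hb
    simp [hb]
  · intro h
    exact absurd (mem_univ j) h

/-- decompositions correspond to matrices. -/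
noncomputable def jbEquiv {n : ℕ} (m : (Fin n ⊕ Fin n) →₀ ℕ) :
    {l // l ∈ jbDec m} ≃ {A : Fin n → Fin n → ℕ //
      (∀ i, ((∑ j, A i j : ℕ) : ℤ) = ((m (Sum.inl i) : ℕ) : ℤ)) ∧
        ∀ j, ((∑ i, A i j : ℕ) : ℤ) = ((m (Sum.inr j) : ℕ) : ℤ)} where
  toFun l := ⟨fun i j => l.1 (i, j) (Sum.inl i), by
    obtain ⟨hs, hp⟩ := (mem_jbDec m l.1).1 l.2
    have hs' : ∑ p, jbMon p (l.1 p (Sum.inl p.1)) = m :=
      (Finset.sum_congr rfl fun p _ => (hp p).symm).trans hs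
    have h1 := jb_row (fun p => l.1 p (Sum.inl p.1))
    have h2 := jb_col (fun p => l.1 p (Sum.inl p.1))
    rw [hs'] at h1 h2
    exact ⟨fun i => congrArg Nat.cast (h1 i).symm, fun j => congrArg Nat.cast (h2 j).symm⟩⟩
  invFun A := ⟨Finsupp.equivFunOnFinite.symm fun p => jbMon p (A.1 p.1 p.2), by
    rw [mem_jbDec]
    constructor
    · simp only [Finsupp.equivFunOnFinite_symm_apply_apply]
      ext x
      rcases x with i | j
      · rw [jb_row (fun p => A.1 p.1 p.2) i]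
        exact_mod_cast A.2.1 i
      · rw [jb_col (fun p => A.1 p.1 p.2) j]
        exact_mod_cast A.2.2 j
    · intro p
      simp only [Finsupp.equivFunOnFinite_symm_apply_apply]
      rw [jbMon_inl, if_pos rfl]⟩
  left_inv l := by
    obtain ⟨hs, hp⟩ := (mem_jbDec m l.1).1 l.2
    apply Subtype.ext
    ext1 p
    simp only [Finsupp.equivFunOnFinite_symm_apply_apply]
    exact (hp p).symm
  right_inv A := by
    apply Subtype.ext
    funext i j
    simp only [Finsupp.equivFunOnFinite_symm_apply_apply]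
    rw [jbMon_inl, if_pos rfl]

/-! ### JB2 -/
theorem geo_marg {n : ℕ} (m : (Fin n ⊕ Fin n) →₀ ℕ) :
    MvPowerSeries.coeff m (∏ i : Fin n, ∏ j : Fin n, geo i j) =
      (marg (fun i => (m (Sum.inl i) : ℤ)) (fun j => (m (Sum.inr j) : ℤ)) : ℚ) := by
  classical
  have h1 : ∏ i : Fin n, ∏ j : Fin n, geo i j = ∏ p : Fin n × Fin n, geo p.1 p.2 :=
    (Fintype.prod_prod_type (fun p : Fin n × Fin n => geo p.1 p.2)).symm
  rw [h1, MvPowerSeries.coeff_prod]
  have h2 : ∀ l : (Fin n × Fin n) →₀ ((Fin n ⊕ Fin n) →₀ ℕ),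
      ∏ p : Fin n × Fin n, MvPowerSeries.coeff (l p) (geo p.1 p.2)
        = if ∀ p, l p = jbMon p (l p (Sum.inl p.1)) then (1 : ℚ) else 0 := by
    intro l
    split_ifs with h
    · exact Finset.prod_eq_one fun p _ => by rw [coeff_geo, if_pos (h p)]
    · push Not at h
      obtain ⟨p, hp⟩ := h
      exact Finset.prod_eq_zero (mem_univ p) (by rw [coeff_geo, if_neg hp])
  rw [Finset.sum_congr rfl fun l _ => h2 l, ← Finset.sum_filter, Finset.sum_const, nsmul_eq_mul,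
    mul_one]
  have h3 : (marg (fun i => (m (Sum.inl i) : ℤ)) (fun j => (m (Sum.inr j) : ℤ)) : ℕ)
      = (jbDec m).card := by
    rw [marg, ← Nat.card_congr (jbEquiv m), Nat.card_eq_fintype_card, Fintype.card_coe]
  rw [h3, jbDec]

end Sx
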