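import Pool.Agent.Saxl2.JTDefs

/-! SAXL2 JB3: the product of geometric series along a permutation. -/

namespace Sx

open Finset Equiv TensorProduct

theorem jb3_coeff {n : ℕ} (i j : Fin n) (m : (Fin n ⊕ Fin n) →₀ ℕ)
    (h : MvPowerSeries.coeff m (geo i j) ≠ 0) :
    ∃ a : ℕ, m = Finsupp.single (Sum.inl i) a + Finsupp.single (Sum.inr j) a := by
  have h' : geo i j m ≠ 0 := h
  unfold geo at h'
  by_contra hc
  apply h'
  rw [if_neg]
  intro he
  exact hc ⟨_, he⟩

theorem jb3_coeff_one {n : ℕ} (i j : Fin n) (a : ℕ) :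
    MvPowerSeries.coeff (Finsupp.single (Sum.inl i) a + Finsupp.single (Sum.inr j) a)
      (geo i j) = 1 := by
  change geo i j _ = 1
  unfold geo
  simp

theorem geo_diag {n : ℕ} (σ : Perm (Fin n)) (m : (Fin n ⊕ Fin n) →₀ ℕ) :
    MvPowerSeries.coeff m (∏ i : Fin n, geo (σ i) i) =
      if ∀ i : Fin n, m (Sum.inl (σ i)) = m (Sum.inr i) then 1 else 0 := by
  classical
  rw [MvPowerSeries.coeff_prod]
  have key : ∀ l ∈ finsuppAntidiag univ m,
      (∏ i, MvPowerSeries.coeff (l i) (geo (σ i) i)) ≠ 0 →
      (∀ i, l i = Finsupp.single (Sum.inl (σ i)) (m (Sum.inr i)) +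
        Finsupp.single (Sum.inr i) (m (Sum.inr i))) ∧
      ∀ i, m (Sum.inl (σ i)) = m (Sum.inr i) := by
    intro l hl hne
    rw [mem_finsuppAntidiag] at hl
    rw [Finset.prod_ne_zero_iff] at hne
    choose a ha using fun i => jb3_coeff (σ i) i (l i) (hne i (mem_univ i))
    have h1 : ∀ k, m (Sum.inr k) = a k := by
      intro k
      rw [← hl.1, Finsupp.finsetSum_apply, Finset.sum_eq_single k]
      · rw [ha k]; simp
      · intro i _ hik
        rw [ha i]
        simp [hik]
      · intro hk; exact absurd (mem_univ k) hk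
    have h2 : ∀ k, m (Sum.inl (σ k)) = a k := by
      intro k
      rw [← hl.1, Finsupp.finsetSum_apply, Finset.sum_eq_single k]
      · rw [ha k]; simp
      · intro i _ hik
        rw [ha i]
        simp [hik]
      · intro hk; exact absurd (mem_univ k) hk
    exact ⟨fun i => by rw [h1 i]; exact ha i, fun i => by rw [h1, h2]⟩
  split_ifs with hm
  · set l₀ : Fin n →₀ ((Fin n ⊕ Fin n) →₀ ℕ) := Finsupp.equivFunOnFinite.symm
      (fun i => Finsupp.single (Sum.inl (σ i)) (m (Sum.inr i)) +
        Finsupp.single (Sum.inr i) (m (Sum.inr i))) with hl₀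
    have hl₀i : ∀ i, l₀ i = Finsupp.single (Sum.inl (σ i)) (m (Sum.inr i)) +
        Finsupp.single (Sum.inr i) (m (Sum.inr i)) := fun i => rfl
    rw [Finset.sum_eq_single l₀]
    · apply Finset.prod_eq_one
      intro i _
      rw [hl₀i, jb3_coeff_one]
    · intro l hl hne
      by_contra hc
      apply hne
      ext1 i
      rw [(key l hl hc).1 i, hl₀i]
    · intro hnot
      exfalso
      apply hnot
      rw [mem_finsuppAntidiag]
      refine ⟨?_, subset_univ _⟩
      ext x
      rw [Finsupp.finsetSum_apply]
      rcases x with x | x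
      · rw [Finset.sum_eq_single (σ.symm x)]
        · rw [hl₀i]
          simp
          have := hm (σ.symm x)
          rw [Equiv.apply_symm_apply] at this
          exact this.symm
        · intro i _ hik
          rw [hl₀i]
          have : σ i ≠ x := fun h => hik (by rw [← h]; simp)
          simp [this]
        · intro hk; exact absurd (mem_univ _) hk
      · rw [Finset.sum_eq_single x]
        · rw [hl₀i]; simp
        · intro i _ hik
          rw [hl₀i]
          simp [hik]
        · intro hk; exact absurd (mem_univ _) hk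
  · apply Finset.sum_eq_zero
    intro l hl
    by_contra hc
    exact hm (key l hl hc).2

end Sx
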