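import Pool.Agent.Saxl2.JTDefs
import Pool.Agent.Saxl2.JA
import Pool.Agent.Saxl2.JB1
import Pool.Agent.Saxl2.JB2
import Pool.Agent.Saxl2.JB3

/-!
# Module JB4: the signed sum of the numbers of matrices with given margins
-/

namespace Sx

open Finset Equiv TensorProduct

/-- exponent vectors -/
noncomputable def jb4e {n : ℕ} (a c : Fin n → ℕ) : (Fin n ⊕ Fin n) →₀ ℕ :=
  Finsupp.equivFunOnFinite.symm (Sum.elim a c)

lemma jb4e_inl {n : ℕ} (a c : Fin n → ℕ) (i : Fin n) : jb4e a c (Sum.inl i) = a i := rfl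

lemma jb4e_inr {n : ℕ} (a c : Fin n → ℕ) (i : Fin n) : jb4e a c (Sum.inr i) = c i := rfl

lemma jb4_mono {n : ℕ} (a c : Fin n → ℕ) :
    (∏ i, (MvPowerSeries.X (Sum.inl i) : MvPowerSeries (Fin n ⊕ Fin n) ℚ) ^ a i) *
      (∏ j, MvPowerSeries.X (Sum.inr j) ^ c j) = MvPowerSeries.monomial (jb4e a c) 1 := by
  rw [MvPowerSeries.monomial_one_eq, Finsupp.prod_fintype _ _ (by simp), Fintype.prod_sum_type]
  rfl

/-- the Cauchy determinant in the ring of power series -/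
lemma jb4_cauchy (n : ℕ) :
    Matrix.det (Matrix.of fun i j : Fin n => ∏ l ∈ univ.erase j,
      (1 - (MvPowerSeries.X (Sum.inl i) : MvPowerSeries (Fin n ⊕ Fin n) ℚ) *
        MvPowerSeries.X (Sum.inr l))) =
      (∑ σ : Perm (Fin n), ((Perm.sign σ : ℤ) : MvPowerSeries (Fin n ⊕ Fin n) ℚ) *
        ∏ i, MvPowerSeries.X (Sum.inl i) ^ (n - 1 - (σ i : ℕ))) *
        ∑ σ : Perm (Fin n), ((Perm.sign σ : ℤ) : MvPowerSeries (Fin n ⊕ Fin n) ℚ) *
          ∏ i, MvPowerSeries.X (Sum.inr i) ^ (n - 1 - (σ i : ℕ)) := by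
  set S := MvPowerSeries (Fin n ⊕ Fin n) ℚ
  set K := FractionRing S
  have hinj : Function.Injective (algebraMap S K) := IsFractionRing.injective S K
  apply hinj
  have hy0 : ∀ j : Fin n, algebraMap S K (MvPowerSeries.X (Sum.inr j)) ≠ 0 := by
    intro j h
    rw [← map_zero (algebraMap S K)] at h
    have h1 := hinj h
    have h2 := congrArg (MvPowerSeries.coeff (Finsupp.single (Sum.inr j) 1)) h1
    rw [MvPowerSeries.coeff_index_single_self_X] at h2
    simp at h2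
  have hy : Function.Injective (fun j : Fin n => algebraMap S K (MvPowerSeries.X (Sum.inr j))) := by
    intro j l h
    have h1 := hinj h
    rw [MvPowerSeries.X_inj] at h1
    exact Sum.inr_injective h1
  have h := cauchy_det (fun i : Fin n => algebraMap S K (MvPowerSeries.X (Sum.inl i)))
    (fun j : Fin n => algebraMap S K (MvPowerSeries.X (Sum.inr j))) hy0 hy
  rw [RingHom.map_det]
  have e1 : (algebraMap S K).mapMatrix (Matrix.of fun i j : Fin n => ∏ l ∈ univ.erase j,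
      (1 - (MvPowerSeries.X (Sum.inl i) : MvPowerSeries (Fin n ⊕ Fin n) ℚ) *
        MvPowerSeries.X (Sum.inr l))) = Matrix.of fun i j : Fin n => ∏ l ∈ univ.erase j,
      (1 - algebraMap S K (MvPowerSeries.X (Sum.inl i)) *
        algebraMap S K (MvPowerSeries.X (Sum.inr l))) := by
    ext i j
    simp only [RingHom.mapMatrix_apply, Matrix.map_apply, Matrix.of_apply, map_prod, map_sub,
      map_one, map_mul]
  have hint : ∀ z : ℤ, algebraMap S K ((z : ℤ) : MvPowerSeries (Fin n ⊕ Fin n) ℚ) = (z : K) :=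
    fun z => map_intCast (algebraMap S K) z
  rw [e1, h]
  simp only [map_mul, map_sum, map_prod, map_pow, hint]

lemma jb4_geo (n : ℕ) :
    Matrix.det (Matrix.of fun i j : Fin n => geo i j) =
      ((∑ σ : Perm (Fin n), ((Perm.sign σ : ℤ) : MvPowerSeries (Fin n ⊕ Fin n) ℚ) *
        ∏ i, MvPowerSeries.X (Sum.inl i) ^ (n - 1 - (σ i : ℕ))) *
        ∑ σ : Perm (Fin n), ((Perm.sign σ : ℤ) : MvPowerSeries (Fin n ⊕ Fin n) ℚ) *
          ∏ i, MvPowerSeries.X (Sum.inr i) ^ (n - 1 - (σ i : ℕ))) *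
      ∏ i : Fin n, ∏ j : Fin n, geo i j := by
  rw [← jb4_cauchy, mul_comm, ← Matrix.det_mul_column]
  congr 1
  ext1 i j
  simp only [Matrix.of_apply]
  rw [← mul_prod_erase univ _ (mem_univ j), mul_assoc, ← prod_mul_distrib]
  have : ∏ l ∈ univ.erase j, (geo i l * (1 - (MvPowerSeries.X (Sum.inl i) :
      MvPowerSeries (Fin n ⊕ Fin n) ℚ) * MvPowerSeries.X (Sum.inr l))) = 1 := by
    apply prod_eq_one
    intro l _
    rw [mul_comm, geo_mul]
  rw [this, mul_one]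

lemma jb4_coef_left {n : ℕ} (b : Fin n → ℕ) (hb : StrictAnti b) :
    MvPowerSeries.coeff (jb4e b b) (Matrix.det (Matrix.of fun i j : Fin n => geo i j)) = 1 := by
  rw [Matrix.det_apply']
  rw [map_sum, sum_eq_single (1 : Perm (Fin n))]
  · simp only [Perm.sign_one, Units.val_one, Int.cast_one, one_mul, Matrix.of_apply]
    rw [geo_diag, if_pos]
    intro i
    rfl
  · intro σ _ hσ
    have h1 : ((Perm.sign σ : ℤ) : MvPowerSeries (Fin n ⊕ Fin n) ℚ) =
        MvPowerSeries.C (((Perm.sign σ : ℤ) : ℚ)) := by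
      rw [map_intCast]
    rw [h1, MvPowerSeries.coeff_C_mul]
    simp only [Matrix.of_apply]
    rw [geo_diag, if_neg, mul_zero]
    intro h
    apply hσ
    ext i
    have h2 := h i
    rw [jb4e_inl, jb4e_inr] at h2
    rw [hb.injective h2]
    rfl
  · intro h
    exact absurd (mem_univ _) h

lemma jb4_marg_neg {n : ℕ} (α β : Fin n → ℤ) (h : (∃ i, α i < 0) ∨ ∃ j, β j < 0) :
    marg α β = 0 := by
  unfold marg
  rw [Nat.card_eq_zero]
  left
  constructor
  rintro ⟨A, hA, hB⟩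
  rcases h with ⟨i, hi⟩ | ⟨j, hj⟩
  · have := hA i
    have h0 : (0 : ℤ) ≤ ((∑ j, A i j : ℕ) : ℤ) := Int.natCast_nonneg _
    omega
  · have := hB j
    have h0 : (0 : ℤ) ≤ ((∑ i, A i j : ℕ) : ℤ) := Int.natCast_nonneg _
    omega

lemma jb4_coef_right {n : ℕ} (b c d : Fin n → ℕ) :
    MvPowerSeries.coeff (jb4e b b) (MvPowerSeries.monomial (jb4e c d) (1 : ℚ) *
      ∏ i : Fin n, ∏ j : Fin n, geo i j) =
      (marg (fun i => (b i : ℤ) - (c i : ℤ)) (fun j => (b j : ℤ) - (d j : ℤ)) : ℚ) := by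
  rw [MvPowerSeries.coeff_monomial_mul]
  split_ifs with h
  · rw [one_mul, geo_marg]
    congr 2
    · funext i
      have h1 : c i ≤ b i := h (Sum.inl i)
      rw [Finsupp.tsub_apply, jb4e_inl, jb4e_inl]
      omega
    · funext i
      have h1 : d i ≤ b i := h (Sum.inr i)
      rw [Finsupp.tsub_apply, jb4e_inr, jb4e_inr]
      omega
  · rw [jb4_marg_neg, Nat.cast_zero]
    by_contra hcon
    push Not at hcon
    apply h
    intro x
    rcases x with i | j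
    · have := hcon.1 i
      rw [jb4e_inl, jb4e_inl]
      omega
    · have := hcon.2 j
      rw [jb4e_inr, jb4e_inr]
      omega

theorem marg_sum {n : ℕ} (b : Fin n → ℕ) (hb : StrictAnti b) :
    ∑ σ : Perm (Fin n), ∑ τ : Perm (Fin n), ((Perm.sign σ : ℤˣ) : ℤ) * ((Perm.sign τ : ℤˣ) : ℤ) *
      (marg (fun i => (b i : ℤ) - ((n - 1 - (σ i : ℕ) : ℕ) : ℤ))
        (fun j => (b j : ℤ) - ((n - 1 - (τ j : ℕ) : ℕ) : ℤ)) : ℤ) = 1 := by
  have h1 := jb4_coef_left b hb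
  rw [jb4_geo] at h1
  rw [sum_mul_sum, sum_mul, map_sum] at h1
  have h2 : ∀ σ : Perm (Fin n), MvPowerSeries.coeff (jb4e b b)
      ((∑ τ : Perm (Fin n), ((Perm.sign σ : ℤ) : MvPowerSeries (Fin n ⊕ Fin n) ℚ) *
        (∏ i, MvPowerSeries.X (Sum.inl i) ^ (n - 1 - (σ i : ℕ))) *
        (((Perm.sign τ : ℤ) : MvPowerSeries (Fin n ⊕ Fin n) ℚ) *
          ∏ i, MvPowerSeries.X (Sum.inr i) ^ (n - 1 - (τ i : ℕ)))) *
      ∏ i : Fin n, ∏ j : Fin n, geo i j) =
      ∑ τ : Perm (Fin n), (((Perm.sign σ : ℤˣ) : ℤ) : ℚ) * (((Perm.sign τ : ℤˣ) : ℤ) : ℚ) *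
      (marg (fun i => (b i : ℤ) - ((n - 1 - (σ i : ℕ) : ℕ) : ℤ))
        (fun j => (b j : ℤ) - ((n - 1 - (τ j : ℕ) : ℕ) : ℤ)) : ℚ) := by
    intro σ
    rw [sum_mul, map_sum]
    refine sum_congr rfl fun τ _ => ?_
    have h3 : ((Perm.sign σ : ℤ) : MvPowerSeries (Fin n ⊕ Fin n) ℚ) *
        (∏ i, MvPowerSeries.X (Sum.inl i) ^ (n - 1 - (σ i : ℕ))) *
        (((Perm.sign τ : ℤ) : MvPowerSeries (Fin n ⊕ Fin n) ℚ) *
          ∏ i, MvPowerSeries.X (Sum.inr i) ^ (n - 1 - (τ i : ℕ))) *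
        (∏ i : Fin n, ∏ j : Fin n, geo i j) =
        MvPowerSeries.C ((((Perm.sign σ : ℤ) : ℚ)) * (((Perm.sign τ : ℤ) : ℚ))) *
        (MvPowerSeries.monomial (jb4e (fun i => n - 1 - (σ i : ℕ)) (fun i => n - 1 - (τ i : ℕ)))
          (1 : ℚ) * ∏ i : Fin n, ∏ j : Fin n, geo i j) := by
      rw [← jb4_mono, map_mul, map_intCast, map_intCast]
      ring
    rw [h3, MvPowerSeries.coeff_C_mul, jb4_coef_right]
  rw [sum_congr rfl fun σ _ => h2 σ] at h1
  exact_mod_cast h1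

end Sx
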