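import Pool.Agent.Saxl2.JTDefs

/-!
# SAXL2 JC: Burnside for pairs of words
-/

namespace Sx

open Finset Equiv TensorProduct

/-- number of positions with a given pair of letters -/
def jcCnt {n : ℕ} (f : Fin n → Fin n × Fin n) (i j : Fin n) : ℕ :=
  (univ.filter (fun x => f x = (i, j))).card

/-- the content conditions for a pair of words -/
def JcC {n : ℕ} (α β : Fin n → ℤ) (f : Fin n → Fin n × Fin n) : Prop :=
  (∀ i : Fin n, (((univ.filter (fun x : Fin n => (f x).1 = i)).card : ℕ) : ℤ) = α i) ∧
    ∀ j : Fin n, (((univ.filter (fun x : Fin n => (f x).2 = j)).card : ℕ) : ℤ) = β j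

instance {n : ℕ} (α β : Fin n → ℤ) (f : Fin n → Fin n × Fin n) : Decidable (JcC α β f) :=
  inferInstanceAs (Decidable (_ ∧ _))

theorem jc_row {n : ℕ} (f : Fin n → Fin n × Fin n) (i : Fin n) :
    (univ.filter (fun x : Fin n => (f x).1 = i)).card = ∑ j, jcCnt f i j := by
  unfold jcCnt
  rw [Finset.card_eq_sum_card_fiberwise (f := fun x => (f x).2) (t := univ)
    (fun x _ => Finset.mem_univ _)]
  refine Finset.sum_congr rfl fun j _ => ?_
  congr 1
  ext x
  simp [Prod.ext_iff]

theorem jc_col {n : ℕ} (f : Fin n → Fin n × Fin n) (j : Fin n) :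
    (univ.filter (fun x : Fin n => (f x).2 = j)).card = ∑ i, jcCnt f i j := by
  unfold jcCnt
  rw [Finset.card_eq_sum_card_fiberwise (f := fun x => (f x).1) (t := univ)
    (fun x _ => Finset.mem_univ _)]
  refine Finset.sum_congr rfl fun i _ => ?_
  congr 1
  ext x
  simp [Prod.ext_iff, and_comm]

theorem jc_iff {n : ℕ} (α β : Fin n → ℤ) (f : Fin n → Fin n × Fin n) :
    JcC α β f ↔ (∀ i, ((∑ j, jcCnt f i j : ℕ) : ℤ) = α i) ∧
      ∀ j, ((∑ i, jcCnt f i j : ℕ) : ℤ) = β j := by
  unfold JcC
  simp only [jc_row, jc_col]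

/-- two words with the same counts differ by a permutation -/
theorem jc_perm {n : ℕ} {f f' : Fin n → Fin n × Fin n} (h : jcCnt f = jcCnt f') :
    ∃ σ : Perm (Fin n), ∀ x, f' (σ x) = f x := by
  classical
  have hc : ∀ c : Fin n × Fin n, Nonempty ({a // f a = c} ≃ {b // f' b = c}) := by
    intro c
    refine Fintype.card_eq.1 ?_
    rw [Fintype.card_subtype, Fintype.card_subtype]
    exact congrFun (congrFun h c.1) c.2
  exact ⟨Equiv.ofFiberEquiv fun c => (hc c).some, fun x => Equiv.ofFiberEquiv_map _ x⟩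

/-- every matrix with total `n` is the matrix of a word -/
theorem jc_exists {n : ℕ} (A : Fin n → Fin n → ℕ) (hA : ∑ i, ∑ j, A i j = n) :
    ∃ f : Fin n → Fin n × Fin n, jcCnt f = A := by
  classical
  have hc : Fintype.card (Fin n) = Fintype.card (Σ c : Fin n × Fin n, Fin (A c.1 c.2)) := by
    rw [Fintype.card_fin, Fintype.card_sigma]
    simp only [Fintype.card_fin]
    rw [Fintype.sum_prod_type]
    exact hA.symm
  obtain ⟨e⟩ := Fintype.card_eq.1 hc
  refine ⟨fun x => (e x).1, ?_⟩
  funext i j
  unfold jcCnt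
  rw [← Fintype.card_subtype]
  have h1 : Fintype.card {x : Fin n // (e x).1 = (i, j)} =
      Fintype.card {y : Σ c : Fin n × Fin n, Fin (A c.1 c.2) // y.1 = (i, j)} :=
    Fintype.card_congr (e.subtypeEquiv fun x => Iff.rfl)
  rw [h1]
  have h2 : Fintype.card {y : Σ c : Fin n × Fin n, Fin (A c.1 c.2) // y.1 = (i, j)} =
      Fintype.card (Fin (A i j)) :=
    Fintype.card_congr (Equiv.sigmaSubtype (i, j))
  rw [h2, Fintype.card_fin]

/-- orbit-stabilizer, summed over one orbit -/
theorem jc_orbit {n : ℕ} (f₀ : Fin n → Fin n × Fin n) :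
    ∑ f ∈ univ.filter (fun f : Fin n → Fin n × Fin n => jcCnt f = jcCnt f₀),
      (univ.filter (fun g : Perm (Fin n) => ∀ x, f (g x) = f x)).card = n.factorial := by
  classical
  have h1 : ∀ f ∈ univ.filter (fun f : Fin n → Fin n × Fin n => jcCnt f = jcCnt f₀),
      (univ.filter (fun g : Perm (Fin n) => ∀ x, f (g x) = f x)).card =
        (univ.filter (fun g : Perm (Fin n) => (fun x => f₀ (g x)) = f)).card := by
    intro f hf
    obtain ⟨σ, hσ⟩ := jc_perm (Finset.mem_filter.1 hf).2
    refine Finset.card_bij (fun g _ => σ * g) ?_ ?_ ?_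
    · intro g hg
      simp only [Finset.mem_filter, Finset.mem_univ, true_and] at hg ⊢
      funext x
      rw [Perm.mul_apply, hσ, hg]
    · intro g _ g' _ h
      exact mul_left_cancel h
    · intro g hg
      simp only [Finset.mem_filter, Finset.mem_univ, true_and] at hg
      refine ⟨σ⁻¹ * g, ?_, by group⟩
      simp only [Finset.mem_filter, Finset.mem_univ, true_and]
      intro x
      have h2 := hσ ((σ⁻¹ * g) x)
      rw [← Perm.mul_apply, mul_inv_cancel_left] at h2
      rw [← h2]
      exact congrFun hg x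
  rw [Finset.sum_congr rfl h1, ← Finset.card_eq_sum_card_fiberwise
    (f := fun g : Perm (Fin n) => fun x => f₀ (g x)) (s := univ)]
  · rw [Finset.card_univ, Fintype.card_perm, Fintype.card_fin]
  · intro g _
    simp only [Finset.coe_filter, Finset.mem_univ, true_and, Set.mem_ofPred_eq]
    funext i j
    unfold jcCnt
    refine Finset.card_bij (fun x _ => g x) ?_ ?_ ?_
    · intro x hx
      simpa using hx
    · intro x _ y _ h
      exact g.injective h
    · intro y hy
      refine ⟨g⁻¹ y, ?_, by simp⟩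
      simpa using hy

theorem jc_pair {n : ℕ} (α β : Fin n → ℤ) (g : Perm (Fin n)) :
    xi α g * xi β g = (((univ.filter (fun f : Fin n → Fin n × Fin n =>
      JcC α β f ∧ ∀ x, f (g x) = f x)).card : ℕ) : ℤ) := by
  classical
  unfold xi
  rw [← Nat.cast_mul, ← Finset.card_product]
  congr 1
  refine Finset.card_bij (fun p _ => fun x => (p.1 x, p.2 x)) ?_ ?_ ?_
  · intro p hp
    simp only [Finset.mem_product, Finset.mem_filter, Finset.mem_univ, true_and] at hp ⊢
    exact ⟨⟨hp.1.1, hp.2.1⟩, fun x => by rw [hp.1.2, hp.2.2]⟩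
  · intro p _ p' _ h
    apply Prod.ext
    · funext x
      exact congrArg Prod.fst (congrFun h x)
    · funext x
      exact congrArg Prod.snd (congrFun h x)
  · intro f hf
    simp only [Finset.mem_filter, Finset.mem_univ, true_and] at hf
    refine ⟨(fun x => (f x).1, fun x => (f x).2), ?_, rfl⟩
    simp only [Finset.mem_product, Finset.mem_filter, Finset.mem_univ, true_and]
    exact ⟨⟨hf.1.1, fun x => by rw [hf.2]⟩, ⟨hf.1.2, fun x => by rw [hf.2]⟩⟩

theorem xi_inner {n : ℕ} (α β : Fin n → ℤ) (hα : ∑ i, α i = n) :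
    ∑ g : Perm (Fin n), xi α g * xi β g = (n.factorial : ℤ) * (marg α β : ℤ) := by
  classical
  have h0 : ∑ g : Perm (Fin n), (univ.filter (fun f : Fin n → Fin n × Fin n =>
      JcC α β f ∧ ∀ x, f (g x) = f x)).card =
      ∑ f ∈ univ.filter (fun f : Fin n → Fin n × Fin n => JcC α β f),
        (univ.filter (fun g : Perm (Fin n) => ∀ x, f (g x) = f x)).card := by
    simp only [Finset.card_filter, Finset.sum_filter]
    rw [Finset.sum_comm]
    refine Finset.sum_congr rfl fun f _ => ?_
    by_cases hf : JcC α β f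
    · simp [hf]
    · simp [hf]
  have h1 : ∑ f ∈ univ.filter (fun f : Fin n → Fin n × Fin n => JcC α β f),
        (univ.filter (fun g : Perm (Fin n) => ∀ x, f (g x) = f x)).card =
      ((univ.filter (fun f : Fin n → Fin n × Fin n => JcC α β f)).image jcCnt).card *
        n.factorial := by
    rw [← Finset.sum_fiberwise_of_maps_to (g := jcCnt)
      (t := (univ.filter (fun f : Fin n → Fin n × Fin n => JcC α β f)).image jcCnt)
      (fun f hf => Finset.mem_image_of_mem _ hf), Finset.sum_const_nat]
    intro A hA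
    obtain ⟨f₀, hf₀, rfl⟩ := Finset.mem_image.1 hA
    rw [← jc_orbit f₀]
    refine Finset.sum_congr ?_ fun _ _ => rfl
    ext f
    simp only [Finset.mem_filter, Finset.mem_univ, true_and, and_iff_right_iff_imp] at hf₀ ⊢
    intro h
    rw [jc_iff, h, ← jc_iff]
    exact hf₀
  have h2 : marg α β =
      ((univ.filter (fun f : Fin n → Fin n × Fin n => JcC α β f)).image jcCnt).card := by
    unfold marg
    refine Nat.subtype_card _ fun A => ?_
    simp only [Finset.mem_image, Finset.mem_filter, Finset.mem_univ, true_and]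
    constructor
    · rintro ⟨f, hf, rfl⟩
      exact (jc_iff α β f).1 hf
    · rintro ⟨hr, hc⟩
      have ht : ∑ i, ∑ j, A i j = n := by
        have : ((∑ i, ∑ j, A i j : ℕ) : ℤ) = n := by
          rw [Nat.cast_sum, Finset.sum_congr rfl (fun i _ => hr i), hα]
        exact_mod_cast this
      obtain ⟨f, rfl⟩ := jc_exists A ht
      exact ⟨f, (jc_iff α β f).2 ⟨hr, hc⟩, rfl⟩
  rw [Finset.sum_congr rfl (fun g _ => jc_pair α β g), ← Nat.cast_sum, h0, h1, h2]
  push_cast
  ring

end Sx
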