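import Pool.Agent.Saxl2.JTDefs
import Pool.Agent.Saxl2.JB4
import Pool.Agent.Saxl2.JC

/-! SAXL2 JD: the Jacobi-Trudi class function has norm one. -/

namespace Sx

open Finset Equiv TensorProduct

theorem jd_jtv {n : ℕ} (lam : Fin n → ℕ) (σ : Perm (Fin n)) : jtv lam σ =
    fun i => (((lam i + (n - 1 - (i : ℕ)) : ℕ) : ℤ)) - ((n - 1 - (σ i : ℕ) : ℕ) : ℤ) := by
  funext i
  unfold jtv
  have h1 := i.2
  have h2 := (σ i).2
  omega

theorem jd_sum {n : ℕ} {lam : Fin n → ℕ} (hs : ∑ i, lam i = n) (σ : Perm (Fin n)) :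
    ∑ i, jtv lam σ i = n := by
  unfold jtv
  rw [Finset.sum_add_distrib, Finset.sum_sub_distrib]
  have h1 : ∑ i : Fin n, (((σ i).val : ℕ) : ℤ) = ∑ i : Fin n, ((i.val : ℕ) : ℤ) :=
    Equiv.sum_comp σ (fun i : Fin n => ((i.val : ℕ) : ℤ))
  have h2 : ∑ i : Fin n, ((lam i : ℕ) : ℤ) = n := by exact_mod_cast hs
  rw [h1, h2]
  ring

theorem JT_norm {n : ℕ} {lam : Fin n → ℕ} (ha : Antitone lam) (hs : ∑ i, lam i = n) :
    ∑ g : Perm (Fin n), JT lam g * JT lam g = (n.factorial : ℤ) := by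
  have hb : StrictAnti (fun i : Fin n => lam i + (n - 1 - (i : ℕ))) := by
    intro i j hij
    have h1 := ha hij.le
    have h2 : (i : ℕ) < j := hij
    have h3 := j.2
    simp only
    omega
  have key := marg_sum (fun i : Fin n => lam i + (n - 1 - (i : ℕ))) hb
  have h1 : ∀ g : Perm (Fin n), JT lam g * JT lam g = ∑ σ : Perm (Fin n), ∑ τ : Perm (Fin n),
      ((Perm.sign σ : ℤˣ) : ℤ) * ((Perm.sign τ : ℤˣ) : ℤ) *
        (xi (jtv lam σ) g * xi (jtv lam τ) g) := by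
    intro g
    unfold JT
    rw [Finset.sum_mul_sum]
    apply Finset.sum_congr rfl
    intro σ _
    apply Finset.sum_congr rfl
    intro τ _
    ring
  simp_rw [h1]
  rw [Finset.sum_comm]
  have h2 : ∀ σ : Perm (Fin n), ∑ g : Perm (Fin n), ∑ τ : Perm (Fin n),
      ((Perm.sign σ : ℤˣ) : ℤ) * ((Perm.sign τ : ℤˣ) : ℤ) *
        (xi (jtv lam σ) g * xi (jtv lam τ) g) = ∑ τ : Perm (Fin n), (n.factorial : ℤ) *
      (((Perm.sign σ : ℤˣ) : ℤ) * ((Perm.sign τ : ℤˣ) : ℤ) *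
        (marg (jtv lam σ) (jtv lam τ) : ℤ)) := by
    intro σ
    rw [Finset.sum_comm]
    apply Finset.sum_congr rfl
    intro τ _
    rw [← Finset.mul_sum, xi_inner _ _ (jd_sum hs σ)]
    ring
  simp_rw [h2, ← Finset.mul_sum]
  simp_rw [jd_jtv]
  rw [key, mul_one]

end Sx
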