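import Pool.Agent.Saxl2.JTDefs

/-! SAXL2 JE1: characters of Specht modules are real and invariant under inversion. -/

namespace Sx

open Finset Equiv TensorProduct

theorem je1_polytabloid_real {n : ℕ} (t : Fin n → ℕ × ℕ) (w : Fin n → ℕ) :
    (starRingEnd ℂ) (polytabloid t w) = polytabloid t w := by
  unfold polytabloid
  rw [map_sum]
  apply Finset.sum_congr rfl
  intro c _
  rw [map_mul, map_intCast]
  split_ifs <;> simp

/-- the polytabloids as elements of the Specht module -/
def je1S (n : ℕ) (lam : YoungDiagram) : Set (Specht n lam) :=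
  Subtype.val ⁻¹' {e | ∃ t : Fin n → ℕ × ℕ, IsTab t lam ∧ e = polytabloid t}

theorem je1_span (n : ℕ) (lam : YoungDiagram) : ⊤ ≤ Submodule.span ℂ (je1S n lam) := by
  rw [top_le_iff]
  exact Submodule.span_span_coe_preimage

theorem je1_coord {n : ℕ} {lam : YoungDiagram} {ι : Type} [Fintype ι]
    (b : Module.Basis ι ℂ (Specht n lam))
    (hb : ∀ i w, (starRingEnd ℂ) ((b i : (Fin n → ℕ) → ℂ) w) = (b i : (Fin n → ℕ) → ℂ) w)
    (f : Specht n lam)
    (hf : ∀ w, (starRingEnd ℂ) ((f : (Fin n → ℕ) → ℂ) w) = (f : (Fin n → ℕ) → ℂ) w) (i : ι) :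
    (b.repr f i).im = 0 := by
  have h1 : ∑ j, (starRingEnd ℂ) (b.repr f j) • b j = f := by
    apply Subtype.ext
    funext w
    have h2 : (f : (Fin n → ℕ) → ℂ) w = ∑ j, b.repr f j * (b j : (Fin n → ℕ) → ℂ) w := by
      have h := congrFun (congrArg Subtype.val (b.sum_repr f)) w
      simp only [Submodule.coe_sum, Finset.sum_apply, Submodule.coe_smul, Pi.smul_apply,
        smul_eq_mul] at h
      exact h.symm
    have h3 := hf w
    rw [h2, map_sum] at h3
    rw [h2, ← h3]
    simp only [Submodule.coe_sum, Finset.sum_apply, Submodule.coe_smul, Pi.smul_apply,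
      smul_eq_mul, map_mul, hb]
  have h4 := congrArg (fun x => b.repr x i) h1
  simp only [b.repr_sum_self] at h4
  exact Complex.conj_eq_iff_im.1 h4

theorem chS_real {n : ℕ} (lam : YoungDiagram) (g : Perm (Fin n)) : (chS n lam g).im = 0 := by
  classical
  set b := Module.Basis.ofSpan (je1_span n lam) with hb
  have hbS : ∀ i, b i ∈ je1S n lam := fun i =>
    Module.Basis.ofSpan_subset (je1_span n lam) ⟨i, rfl⟩
  have : Fintype ((linearIndepOn_empty ℂ id).extend (Set.empty_subset (je1S n lam))) :=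
    FiniteDimensional.fintypeBasisIndex b
  have hreal : ∀ i w, (starRingEnd ℂ) ((b i : (Fin n → ℕ) → ℂ) w) =
      (b i : (Fin n → ℕ) → ℂ) w := by
    intro i w
    obtain ⟨t, _, ht⟩ := hbS i
    rw [ht]
    exact je1_polytabloid_real t w
  have h1 : chS n lam g = ∑ i, b.repr (spechtAct lam g (b i)) i := by
    unfold chS Representation.character
    rw [LinearMap.trace_eq_matrix_trace ℂ b, Matrix.trace]
    apply Finset.sum_congr rfl
    intro i _
    rw [Matrix.diag_apply, LinearMap.toMatrix_apply]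
    rfl
  rw [h1, Complex.im_sum]
  apply Finset.sum_eq_zero
  intro i _
  refine je1_coord b hreal _ ?_ i
  intro w
  exact hreal i (w ∘ g)

theorem chS_inv {n : ℕ} (lam : YoungDiagram) (g : Perm (Fin n)) : chS n lam g⁻¹ = chS n lam g := by
  have h1 : IsConj g g⁻¹ := by
    rw [Equiv.Perm.isConj_iff_cycleType_eq, Equiv.Perm.cycleType_inv]
  obtain ⟨c, hc⟩ := isConj_iff.1 h1
  unfold chS
  rw [← hc, Representation.char_conj]

end Sx
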