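import Pool.Agent.Saxl2.JTDefs
import Pool.Agent.Helper87.Saxl.Irr

/-! SAXL2 JE2: the Specht module is irreducible and its character has norm one. -/

namespace Sx

open Finset Equiv TensorProduct

theorem je2_tab {n : ℕ} {lam : YoungDiagram} (hl : lam.card = n) :
    ∃ t : Fin n → ℕ × ℕ, IsTab t lam := by
  have hc : Fintype.card {x // x ∈ lam.cells} = n := by
    rw [Fintype.card_coe]; exact hl
  let e : Fin n ≃ {x // x ∈ lam.cells} := (Fintype.equivFinOfCardEq hc).symm
  refine ⟨fun x => (e x).1, ⟨?_, ?_⟩⟩
  · intro x y hxy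
    exact e.injective (Subtype.ext hxy)
  · intro p
    constructor
    · intro hp
      exact ⟨e.symm ⟨p, hp⟩, by simp⟩
    · rintro ⟨x, rfl⟩
      exact (e x).2

theorem je2_irr {n : ℕ} {lam : YoungDiagram} (hl : lam.card = n) :
    (spRep n lam).IsIrreducible := by
  obtain ⟨t, ht⟩ := je2_tab hl
  have hmem : polytabloid t ∈ Specht n lam := Submodule.subset_span ⟨t, ht, rfl⟩
  have h1 : (1 : Perm (Fin n)) ∈ colS t := by simp [colS]
  have hne : polytabloid t ≠ 0 := by
    intro h0
    have h2 := irr_polytabloid_apply ht h1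
    rw [h0] at h2
    simp [irrSg] at h2
  have hnt : Nontrivial (Subrepresentation (spRep n lam)) := by
    refine ⟨⟨⊥, ⊤, fun h => ?_⟩⟩
    have h3 : (⟨polytabloid t, hmem⟩ : Specht n lam) ∈
        (⊤ : Subrepresentation (spRep n lam)).toSubmodule := Submodule.mem_top
    rw [← h] at h3
    have h4 : (⟨polytabloid t, hmem⟩ : Specht n lam) ∈ (⊥ : Submodule ℂ (Specht n lam)) := h3
    rw [Submodule.mem_bot] at h4
    exact hne (congrArg Subtype.val h4)
  refine { hnt with eq_bot_or_eq_top := fun S => ?_ }
  set K : Submodule ℂ ((Fin n → ℕ) → ℂ) := S.toSubmodule.map (Specht n lam).subtype with hK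
  have hKle : K ≤ Specht n lam := by
    rintro _ ⟨x, _, rfl⟩
    exact x.2
  have hKg : ∀ (g : Perm (Fin n)), ∀ f ∈ K, permAct g f ∈ K := by
    rintro g _ ⟨x, hx, rfl⟩
    exact ⟨spechtAct lam g x, S.apply_mem_toSubmodule g hx, rfl⟩
  by_cases hn : polytabloid t ∈ K
  · right
    apply Subrepresentation.toSubmodule_injective
    rw [eq_top_iff.2 (show (⊤ : Submodule ℂ (Specht n lam)) ≤ S.toSubmodule from ?_)]
    · rfl
    · have hle : Specht n lam ≤ K := by
        unfold Specht
        rw [Submodule.span_le]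
        rintro e ⟨t', ht', rfl⟩
        obtain ⟨τ, hτ⟩ := irr_tab_perm ht ht'
        have h3 := hKg τ.symm _ hn
        rw [permAct_polytabloid] at h3
        have e : t ∘ (Equiv.symm τ.symm) = t' := by
          funext x
          rw [Equiv.symm_symm, Function.comp_apply, hτ]
        rwa [e] at h3
      intro x _
      obtain ⟨y, hy, hyx⟩ := hle x.2
      have : y = x := Subtype.ext hyx
      rw [← this]
      exact hy
  · left
    have h5 := irr K hKle hKg ht hn
    apply Subrepresentation.toSubmodule_injective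
    have h6 : S.toSubmodule = ⊥ := by
      rw [eq_bot_iff]
      intro x hx
      have : (x : (Fin n → ℕ) → ℂ) ∈ K := ⟨x, hx, rfl⟩
      rw [h5, Submodule.mem_bot] at this
      rw [Submodule.mem_bot]
      exact Subtype.ext this
    rw [h6]
    rfl

theorem chS_norm {n : ℕ} {lam : YoungDiagram} (hl : lam.card = n) :
    ∑ g : Perm (Fin n), chS n lam g * chS n lam g⁻¹ = (n.factorial : ℂ) := by
  classical
  have := je2_irr hl
  have hcard : Nat.card (Perm (Fin n)) = n.factorial := by
    rw [Nat.card_eq_fintype_card, Fintype.card_perm, Fintype.card_fin]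
  have hcard0 : (Nat.card (Perm (Fin n)) : ℂ) ≠ 0 := by
    rw [hcard]
    exact_mod_cast n.factorial_ne_zero
  have : Invertible (Nat.card (Perm (Fin n)) : ℂ) := invertibleOfNonzero hcard0
  have key := Representation.card_inv_mul_sum_char_mul_char_eq_finrank (spRep n lam) (spRep n lam)
  rw [Representation.IsIrreducible.finrank_intertwiningMap_self, inv_mul_eq_iff_eq_mul₀ hcard0,
    hcard] at key
  simpa [chS] using key

end Sx
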