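import Mathlib
import Pool.Agent.Helper87.Saxl.Defs

/-!
Definitions for the second part of the proof of the refined Saxl conjecture (MP_2a22ca_al):
good functions and two-column blocks.  Words are maps `X → ℕ` (letters start at `0`).
-/

namespace Sx

open Finset Equiv

variable {X Y Z : Type} [Fintype X] [DecidableEq X] [Fintype Y] [DecidableEq Y]
  [Fintype Z] [DecidableEq Z]

/-- functions on words supported on the words of content `α` and killed by all raising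
operators. -/
structure InA (α : ℕ → ℕ) (f : (X → ℕ) → ℚ) : Prop where
  cont : ∀ w, f w ≠ 0 → ∀ j, cnt w j = α j
  hw : ∀ i w, R i f w = 0

/-- functions of two words lying in `InA α` in each variable. -/
structure InAA (α : ℕ → ℕ) (F : (X → ℕ) → (X → ℕ) → ℚ) : Prop where
  left : ∀ w₂, InA α (fun w₁ => F w₁ w₂)
  right : ∀ w₁, InA α (F w₁)

/-- outer product of functions of two words. -/
def tens (F : (Y → ℕ) → (Y → ℕ) → ℚ) (E : (Z → ℕ) → (Z → ℕ) → ℚ) (S₁ S₂ : Y ⊕ Z → ℕ) : ℚ :=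
  F (S₁ ∘ Sum.inl) (S₂ ∘ Sum.inl) * E (S₁ ∘ Sum.inr) (S₂ ∘ Sum.inr)

/-- the weight of a pair of words. -/
def Phi (S₁ S₂ : X → ℕ) : ℕ := ∑ x, (S₁ x + S₂ x) ^ 2

/-- the weight of the staircase. -/
def phik (k : ℕ) : ℕ := ∑ p ∈ (stair k).cells, (p.1 + p.2) ^ 2

/-- `x ↦ (S₁ x, S₂ x)` is a bijection onto the set of cells `(i, j)` with `a ≤ i + j < b`. -/
def StP (a b : ℕ) (S₁ S₂ : X → ℕ) : Prop :=
  (∀ x y, S₁ x = S₁ y → S₂ x = S₂ y → x = y) ∧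
    ∀ i j : ℕ, (a ≤ i + j ∧ i + j < b) ↔ ∃ x, S₁ x = i ∧ S₂ x = j

/-- good functions. -/
structure GoodF (k : ℕ) (F : (X → ℕ) → (X → ℕ) → ℚ) : Prop where
  vv : InVV k F
  phi : ∀ S₁ S₂, F S₁ S₂ ≠ 0 → phik k ≤ Phi S₁ S₂
  inj : ∀ a : Perm X → ℚ,
    (∀ S₁ S₂, StP 0 k S₁ S₂ → ∑ g, a g * F (S₁ ∘ g) (S₂ ∘ g) = 0) →
    ∀ S₁ S₂, ∑ g, a g * F (S₁ ∘ g) (S₂ ∘ g) = 0

/-- blocks: what can be added to a good function of level `k'` to get one of level `k`. -/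
structure BlockE (k' k : ℕ) (E : (Z → ℕ) → (Z → ℕ) → ℚ) : Prop where
  aa : InAA (fun j => (k - j) - (k' - j)) E
  phi : ∀ S₁ S₂, E S₁ S₂ ≠ 0 → phik k ≤ phik k' + Phi S₁ S₂
  eq : ∀ S₁ S₂, E S₁ S₂ ≠ 0 → phik k = phik k' + Phi S₁ S₂ → ∀ z, k' ≤ S₁ z + S₂ z
  inj : ∀ a : Perm Z → ℚ,
    (∀ S₁ S₂, StP k' k S₁ S₂ → ∑ g, a g * E (S₁ ∘ g) (S₂ ∘ g) = 0) →
    ∀ S₁ S₂, ∑ g, a g * E (S₁ ∘ g) (S₂ ∘ g) = 0

/-- `lam` is a good constituent of sign `e` at level `k`. -/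
def GoodW (k : ℕ) (e : ℚ) (lam : YoungDiagram) : Prop :=
  ∃ (X : Type) (_ : Fintype X) (_ : DecidableEq X) (t : X → ℕ × ℕ) (F : (X → ℕ) → (X → ℕ) → ℚ),
    IsTab t lam ∧ GoodF k F ∧ (∀ w₁ w₂, F w₂ w₁ = e * F w₁ w₂) ∧ ∃ w₁ w₂, YS t F w₁ w₂ ≠ 0

/-- the content `(2, ..., 2, 1)` with `K` letters. -/
def be (K j : ℕ) : ℕ := if j + 1 < K then 2 else if j + 1 = K then 1 else 0

/-- the content `(m₀, m₁)`. -/
def uc (m₀ m₁ j : ℕ) : ℕ := if j = 0 then m₀ else if j = 1 then m₁ else 0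

/-- the polynomial attached to a function of two words in the letters `0, 1`. -/
noncomputable def PP (q : Z → ℕ × ℕ) (E : (Z → ℕ) → (Z → ℕ) → ℚ) :
    MvPolynomial (Fin 2 × Fin 2 × ℕ) ℚ :=
  ∑ S₁ : Z → Fin 2, ∑ S₂ : Z → Fin 2,
    MvPolynomial.C (E (fun z => (S₁ z : ℕ)) (fun z => (S₂ z : ℕ))) *
      ∏ z, MvPolynomial.X (S₁ z, S₂ z, (q z).1)

/-- column-alternating functions with non-zero polynomial. -/
structure UE (m₀ m₁ : ℕ) (e : ℚ) (q : Z → ℕ × ℕ) (E : (Z → ℕ) → (Z → ℕ) → ℚ) : Prop where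
  aa : InAA (uc m₀ m₁) E
  sym : ∀ w₁ w₂, E w₂ w₁ = e * E w₁ w₂
  alt : ∀ c ∈ colS q, ∀ w₁ w₂, E (w₁ ∘ c) (w₂ ∘ c) = sg c * E w₁ w₂
  pp : PP q E ≠ 0

/-- existence of such a function. -/
def UEx (m₀ m₁ : ℕ) (e : ℚ) (q : Z → ℕ × ℕ) : Prop :=
  ∃ E : (Z → ℕ) → (Z → ℕ) → ℚ, UE m₀ m₁ e q E

/-- number of cells in column `j`. -/
def ch (q : Z → ℕ × ℕ) (j : ℕ) : ℕ := (univ.filter fun z => (q z).2 = j).card

/-- number of columns with `h` cells (`h` positive). -/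
def nh (q : Z → ℕ × ℕ) (h : ℕ) : ℕ :=
  ((univ.image fun z => (q z).2).filter fun j => ch q j = h).card

/-- the sign of a set of columns. -/
def dl (q : Z → ℕ × ℕ) : ℚ :=
  (-1) ^ nh q 4 * (if nh q 3 % 2 = 1 ∧ nh q 2 % 2 = 0 then -1 else 1)

/-- `lam / nu` has `m` cells and at most four cells in each column. -/
structure CStrip (m : ℕ) (nu lam : YoungDiagram) : Prop where
  le : nu ≤ lam
  card : lam.card = nu.card + m
  col : ∀ j, lam.colLen j ≤ nu.colLen j + 4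

/-- number of columns of `lam / nu` with `h` cells (`h` positive). -/
def nc (nu lam : YoungDiagram) (h : ℕ) : ℕ :=
  ((range (lam.rowLen 0)).filter fun j => lam.colLen j - nu.colLen j = h).card

/-- the sign of a skew shape. -/
def dlt (nu lam : YoungDiagram) : ℚ :=
  (-1) ^ nc nu lam 4 * (if nc nu lam 3 % 2 = 1 ∧ nc nu lam 2 % 2 = 0 then -1 else 1)

end Sx
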