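import Mathlib
import Pool.Agent.Helper87.Saxl.Defs
import Pool.Agent.Helper87.Saxl.Inv
import Pool.Agent.Saxl2.XDefs

/-! Module JE3: straightening. -/

namespace Sx

open Finset Equiv

theorem inv_uni {X : Type} [Fintype X] [DecidableEq X] {mu : ℕ → ℕ} {f : (X → ℕ) → ℚ}
    (hf : InA mu f) (a : X → ℕ) (m : ℕ) (hlt : ∀ i < m, cnt a i = mu i)
    (hinv : ∀ g : Perm X, a ∘ g = a → ∀ w, f (w ∘ g) = f w)
    (h0 : ∀ w, (∀ x, a x ≤ m → w x = a x) → f w = 0) : ∀ w, f w = 0 := by
  have key : ∀ d j, j + d = m + 1 → ∀ w, (∀ x, a x < j → w x = a x) → f w = 0 := by
    intro d
    induction d with
    | zero =>
      intro j hj w hw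
      exact h0 w fun x hx => hw x (by omega)
    | succ d ih =>
      intro j hj
      have key2 : ∀ n w, ∑ x ∈ univ.filter (fun x => a x = j), w x = n →
          (∀ x, a x < j → w x = a x) → f w = 0 := by
        intro n
        induction n using Nat.strong_induction_on with
        | _ n ih2 =>
          intro w hn hw
          by_contra hfw
          have hc := hf.cont w hfw
          have hge : ∀ x, j ≤ a x → j ≤ w x := by
            intro x hx
            by_contra hlt'
            push Not at hlt'
            have hsub : (univ.filter fun y => a y = w x) ⊆ univ.filter fun y => w y = w x := by
              intro y hy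
              rw [Finset.mem_filter] at hy ⊢
              refine ⟨hy.1, ?_⟩
              rw [hw y (by omega), hy.2]
            have hcard : (univ.filter fun y => w y = w x).card ≤
                (univ.filter fun y => a y = w x).card := by
              have h1 : cnt w (w x) = mu (w x) := hc (w x)
              have h2 : cnt a (w x) = mu (w x) := hlt (w x) (by omega)
              unfold cnt at h1 h2
              rw [h1, h2]
            have heq := Finset.eq_of_subset_of_card_le hsub hcard
            have hmem : x ∈ univ.filter fun y => w y = w x := by simp
            rw [← heq, Finset.mem_filter] at hmem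
            omega
          by_cases hall : ∀ x, a x = j → w x = j
          · refine hfw (ih (j + 1) (by omega) w fun x hx => ?_)
            rcases Nat.lt_succ_iff_lt_or_eq.1 hx with h | h
            · exact hw x h
            · rw [hall x h, h]
          · push Not at hall
            obtain ⟨x₀, hx₀, hne⟩ := hall
            have h3 := hge x₀ (by omega)
            obtain ⟨i, hi⟩ : ∃ i, w x₀ = i + 1 := ⟨w x₀ - 1, by omega⟩
            have hB : x₀ ∈ univ.filter (fun x => a x = j) := by simp [hx₀]
            refine hfw (inv_step hf.hw _ w x₀ hB i hi (fun x hx => ?_) (fun x hx hwx => ?_))
            · refine hinv _ ?_ w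
              rw [Finset.mem_filter] at hx
              funext y
              show a (swap x₀ x y) = a y
              by_cases hy : y = x₀
              · subst hy
                rw [swap_apply_left, hx.2, hx₀]
              · by_cases hy' : y = x
                · subst hy'
                  rw [swap_apply_right, hx.2, hx₀]
                · rw [swap_apply_of_ne_of_ne hy hy']
            · have hlt' := inv_sum_lt _ w x₀ hB i hi x hx
              refine ih2 _ (hn ▸ hlt') _ rfl fun y hy => ?_
              have hyx : y ≠ x := by
                rintro rfl
                have := hw y hy
                omega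
              have hyx0 : y ≠ x₀ := by
                rintro rfl
                omega
              rw [Function.update_of_ne hyx, Function.update_of_ne hyx0]
              exact hw y hy
      exact fun w hw => key2 _ w rfl hw
  exact fun w => key (m + 1) 0 (by omega) w fun x hx => absurd hx (by omega)

end Sx
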