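import Mathlib
import Pool.Agent.Helper87.Saxl.Defs
import Pool.Agent.Helper87.Saxl.Inv
import Pool.Agent.Saxl2.XDefs

/-!
Module XM2: uniqueness of the row-invariant function for a general shape.
-/

namespace Sx

open Finset Equiv

variable {X Y Z : Type} [Fintype X] [DecidableEq X] [Fintype Y] [DecidableEq Y]
  [Fintype Z] [DecidableEq Z]

omit [DecidableEq X] in
theorem XM2_cnt_row {mu : YoungDiagram} {b : X → ℕ × ℕ} (hb : IsTab b mu) (j : ℕ) :
    cnt (fun x => (b x).1) j = mu.rowLen j := by
  unfold cnt
  rw [← Finset.card_range (mu.rowLen j)]
  refine Finset.card_bij (fun x _ => (b x).2) ?_ ?_ ?_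
  · intro x hx
    rw [Finset.mem_filter] at hx
    have h : ((b x).1, (b x).2) ∈ mu := (hb.mem (b x)).2 ⟨x, rfl⟩
    rw [YoungDiagram.mem_iff_lt_rowLen] at h
    rw [Finset.mem_range]
    have h2 : (b x).1 = j := hx.2
    rw [← h2]
    exact h
  · intro x hx y hy h
    rw [Finset.mem_filter] at hx hy
    have h1 : (b x).1 = j := hx.2
    have h2 : (b y).1 = j := hy.2
    refine hb.inj (Prod.ext ?_ h)
    rw [h1, h2]
  · intro c hc
    rw [Finset.mem_range] at hc
    obtain ⟨x, hx⟩ := (hb.mem (j, c)).1 (YoungDiagram.mem_iff_lt_rowLen.2 hc)
    exact ⟨x, by simp [hx], by simp [hx]⟩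

omit [Fintype X] [DecidableEq X] in
theorem XM2_row_lt {mu : YoungDiagram} {b : X → ℕ × ℕ} (hb : IsTab b mu) (x : X) :
    (b x).1 < mu.colLen 0 := by
  have h : ((b x).1, (b x).2) ∈ mu := (hb.mem (b x)).2 ⟨x, rfl⟩
  rw [YoungDiagram.mem_iff_lt_colLen] at h
  exact lt_of_lt_of_le h (mu.colLen_anti _ _ (Nat.zero_le _))

theorem uniA {b : X → ℕ × ℕ} {mu : YoungDiagram} (hb : IsTab b mu) {f : (X → ℕ) → ℚ}
    (hf : InA mu.rowLen f) (hinv : ∀ r ∈ rowS b, ∀ w, f (w ∘ r) = f w)
    (h0 : f (fun x => (b x).1) = 0) : ∀ w, f w = 0 := by
  have key : ∀ d a, a + d = mu.colLen 0 →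
      ∀ w, (∀ x, (b x).1 < a → w x = (b x).1) → f w = 0 := by
    intro d
    induction d with
    | zero =>
      intro a ha w hw
      have : w = fun x => (b x).1 := by
        funext x
        have h := XM2_row_lt hb x
        exact hw x (by omega)
      rw [this]
      exact h0
    | succ d ih =>
      intro a ha
      have key2 : ∀ n w, ∑ x ∈ univ.filter (fun x => (b x).1 = a), w x = n →
          (∀ x, (b x).1 < a → w x = (b x).1) → f w = 0 := by
        intro n
        induction n using Nat.strong_induction_on with
        | _ n ih2 =>
          intro w hn hw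
          by_contra hfw
          have hc := hf.cont w hfw
          -- the letters smaller than `a` are used up
          have hge : ∀ x, a ≤ (b x).1 → a ≤ w x := by
            intro x hx
            by_contra hlt
            push Not at hlt
            have hsub : (univ.filter fun y => (b y).1 = w x) ⊆ univ.filter fun y => w y = w x := by
              intro y hy
              rw [Finset.mem_filter] at hy ⊢
              refine ⟨hy.1, ?_⟩
              rw [hw y (by omega), hy.2]
            have hcard : (univ.filter fun y => w y = w x).card ≤
                (univ.filter fun y => (b y).1 = w x).card := by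
              have h1 : cnt w (w x) = mu.rowLen (w x) := hc (w x)
              have h2 := XM2_cnt_row hb (w x)
              unfold cnt at h1 h2
              rw [h1, h2]
            have heq := Finset.eq_of_subset_of_card_le hsub hcard
            have hmem : x ∈ univ.filter fun y => w y = w x := by simp
            rw [← heq, Finset.mem_filter] at hmem
            omega
          by_cases hall : ∀ x, (b x).1 = a → w x = a
          · refine hfw (ih (a + 1) (by omega) w fun x hx => ?_)
            rcases Nat.lt_succ_iff_lt_or_eq.1 hx with h | h
            · exact hw x h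
            · rw [hall x h, h]
          · push Not at hall
            obtain ⟨x₀, hx₀, hne⟩ := hall
            have h3 := hge x₀ (by omega)
            obtain ⟨i, hi⟩ : ∃ i, w x₀ = i + 1 := ⟨w x₀ - 1, by omega⟩
            have hB : x₀ ∈ univ.filter (fun x => (b x).1 = a) := by simp [hx₀]
            refine hfw (inv_step hf.hw _ w x₀ hB i hi (fun x hx => ?_) (fun x hx hwx => ?_))
            · refine hinv _ ?_ w
              rw [Finset.mem_filter] at hx
              unfold rowS
              rw [Finset.mem_filter]
              refine ⟨Finset.mem_univ _, fun y => ?_⟩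
              by_cases hy : y = x₀
              · subst hy
                rw [swap_apply_left, hx.2, hx₀]
              · by_cases hy' : y = x
                · subst hy'
                  rw [swap_apply_right, hx.2, hx₀]
                · rw [swap_apply_of_ne_of_ne hy hy']
            · have hlt := inv_sum_lt _ w x₀ hB i hi x hx
              refine ih2 _ (hn ▸ hlt) _ rfl fun y hy => ?_
              have hyx : y ≠ x := by
                rintro rfl
                have := hw y hy
                omega
              have hyx0 : y ≠ x₀ := by
                rintro rfl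
                omega
              rw [Function.update_of_ne hyx, Function.update_of_ne hyx0]
              exact hw y hy
      exact fun w hw => key2 _ w rfl hw
  exact fun w => key (mu.colLen 0) 0 (by omega) w fun x hx => absurd hx (by omega)

end Sx
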