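import Mathlib
import Pool.Agent.Helper87.Saxl.Defs
import Pool.Agent.Helper87.Saxl.Jinj
import Pool.Agent.Saxl2.XDefs
import Pool.Agent.Saxl2.XM2

/-!
Module XM3: the map `J` is injective, general shape.
-/

set_option linter.unusedSectionVars false

namespace Sx

open Finset Equiv

variable {X Y : Type} [Fintype X] [DecidableEq X] [Fintype Y] [DecidableEq Y]

/-- words with the same content differ by a permutation of positions. -/
lemma XM3_exists_perm {α : ℕ → ℕ} {w v : X → ℕ} (hw : ∀ j, cnt w j = α j)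
    (hv : ∀ j, cnt v j = α j) :
    ∃ g : Perm X, w = v ∘ g := by
  have h : ∀ j, Nonempty ({x // w x = j} ≃ {x // v x = j}) := by
    intro j
    rw [← Fintype.card_eq]
    have h1 := hw j
    have h2 := hv j
    unfold cnt at h1 h2
    rw [Fintype.card_subtype, Fintype.card_subtype, h1, h2]
  refine ⟨Equiv.ofFiberEquiv (f := w) (g := v) (fun j => (h j).some), ?_⟩
  funext x
  exact (Equiv.ofFiberEquiv_map (fun j => (h j).some) x).symm

lemma XM3_inA_act {α : ℕ → ℕ} {f : (X → ℕ) → ℚ} (hf : InA α f) (g : Perm X) :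
    InA α (fun w => f (w ∘ g)) := by
  refine ⟨?_, ?_⟩
  · intro w hw
    intro j
    rw [← jinj_cnt_comp w g j]
    exact hf.cont _ hw j
  · intro i w
    rw [jinj_R_act]
    exact hf.hw i _

lemma XM3_inA_sum {α : ℕ → ℕ} {ι : Type} (s : Finset ι) (f : ι → (X → ℕ) → ℚ)
    (hf : ∀ a ∈ s, InA α (f a)) : InA α (fun w => ∑ a ∈ s, f a w) := by
  refine ⟨?_, ?_⟩
  · intro w hw
    obtain ⟨a, ha, h⟩ := Finset.exists_ne_zero_of_sum_ne_zero hw
    exact (hf a ha).cont w h
  · intro i w
    unfold R
    rw [Finset.sum_comm]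
    refine Finset.sum_eq_zero fun a ha => ?_
    exact (hf a ha).hw i w

lemma XM3_inA_lin {α : ℕ → ℕ} {f g : (X → ℕ) → ℚ} (hf : InA α f) (hg : InA α g) (a b : ℚ) :
    InA α (fun w => a * f w + b * g w) := by
  refine ⟨?_, ?_⟩
  · intro w hw
    by_cases h : f w = 0
    · have h' : g w ≠ 0 := by
        intro h'
        apply hw
        simp [h, h']
      exact hg.cont w h'
    · exact hf.cont w h
  · intro i w
    have h1 := hf.hw i w
    have h2 := hg.hw i w
    unfold R at h1 h2 ⊢
    rw [Finset.sum_add_distrib, ← Finset.mul_sum, ← Finset.mul_sum, h1, h2]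
    ring

theorem XM3_pt_inA {mu : YoungDiagram} {b : X → ℕ × ℕ} (hb : IsTab b mu) :
    InA mu.rowLen (pt b) := by
  refine ⟨?_, ?_⟩
  · intro w hw
    obtain ⟨c, _, h⟩ := Finset.exists_ne_zero_of_sum_ne_zero hw
    have h' : w = (fun x => (b (c x)).1) := by
      by_contra hne
      apply h
      simp [hne]
    have h'' : w = (fun x => (b x).1) ∘ c := h'
    intro j
    rw [h'', jinj_cnt_comp]
    exact XM2_cnt_row hb j
  · intro i W
    have he : ∀ x, ∃ y, (b x).1 = i + 1 → b y = (i, (b x).2) := by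
      intro x
      by_cases h : (b x).1 = i + 1
      · have h2 : ((b x).1, (b x).2) ∈ mu := (hb.mem _).2 ⟨x, rfl⟩
        have h1 : ((i, (b x).2) : ℕ × ℕ) ∈ mu := mu.up_left_mem (by omega) le_rfl h2
        obtain ⟨y, hy⟩ := (hb.mem _).1 h1
        exact ⟨y, fun _ => hy⟩
      · exact ⟨x, fun h' => absurd h' h⟩
    choose e he using he
    unfold R pt
    rw [← Finset.sum_product']
    have hfil : ∑ p ∈ (univ.filter fun x => W x = i) ×ˢ colS b,
        sg p.2 * (if Function.update W p.1 (i + 1) = (fun x => (b (p.2 x)).1) then (1 : ℚ) else 0)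
        = ∑ p ∈ ((univ.filter fun x => W x = i) ×ˢ colS b).filter
            (fun p => Function.update W p.1 (i + 1) = (fun x => (b (p.2 x)).1)), sg p.2 := by
      rw [Finset.sum_filter]
      refine Finset.sum_congr rfl fun p _ => ?_
      split_ifs <;> simp
    rw [hfil]
    -- key facts
    have key : ∀ (x : X) (c : Perm X), W x = i → c ∈ colS b →
        Function.update W x (i + 1) = (fun x => (b (c x)).1) →
        (b (c x)).1 = i + 1 ∧ b (c (c⁻¹ (e (c x)))) = (i, (b (c x)).2) ∧
        c⁻¹ (e (c x)) ≠ x ∧ W (c⁻¹ (e (c x))) = i ∧ c * swap x (c⁻¹ (e (c x))) ∈ colS b ∧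
        Function.update W (c⁻¹ (e (c x))) (i + 1)
          = (fun z => (b ((c * swap x (c⁻¹ (e (c x)))) z)).1) := by
      intro x c hx hc hu
      have h1 : (b (c x)).1 = i + 1 := by
        have := congrFun hu x
        simpa using this.symm
      have h2 : b (c (c⁻¹ (e (c x)))) = (i, (b (c x)).2) := by
        have : c (c⁻¹ (e (c x))) = e (c x) := by simp
        rw [this]
        exact he _ h1
      set y := c⁻¹ (e (c x)) with hy
      have h3 : y ≠ x := by
        intro hyx
        rw [hyx] at h2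
        have : (b (c x)).1 = i := by rw [h2]
        omega
      have h4 : W y = i := by
        have := congrFun hu y
        rw [Function.update_of_ne h3] at this
        rw [this, h2]
      have h5 : c * swap x y ∈ colS b := by
        rw [jinj_mem_colS] at hc ⊢
        intro z
        rw [Perm.mul_apply]
        have hcy : (b y).2 = (b x).2 := by
          have a1 := hc y
          have a2 := hc x
          rw [h2] at a1
          rw [← a1, ← a2]
        by_cases hzx : z = x
        · subst hzx
          rw [swap_apply_left, hc y]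
          exact hcy
        · by_cases hzy : z = y
          · subst hzy
            rw [swap_apply_right, hc x]
            exact hcy.symm
          · rw [swap_apply_of_ne_of_ne hzx hzy, hc z]
      refine ⟨h1, h2, h3, h4, h5, ?_⟩
      funext z
      by_cases hzx : z = x
      · subst hzx
        rw [Function.update_of_ne h3.symm, hx, Perm.mul_apply, swap_apply_left, h2]
      · by_cases hzy : z = y
        · subst hzy
          rw [Function.update_self, Perm.mul_apply, swap_apply_right, h1]
        · rw [Function.update_of_ne hzy, Perm.mul_apply, swap_apply_of_ne_of_ne hzx hzy]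
          have := congrFun hu z
          rw [Function.update_of_ne hzx] at this
          exact this
    refine Finset.sum_involution
      (fun p _ => (p.2⁻¹ (e (p.2 p.1)), p.2 * swap p.1 (p.2⁻¹ (e (p.2 p.1))))) ?_ ?_ ?_ ?_
    · rintro ⟨x, c⟩ hp
      simp only [Finset.mem_filter, Finset.mem_product, Finset.mem_univ, true_and] at hp
      obtain ⟨⟨hx, hc⟩, hu⟩ := hp
      obtain ⟨h1, h2, h3, h4, h5, h6⟩ := key x c hx hc hu
      show sg c + sg (c * swap x (c⁻¹ (e (c x)))) = 0
      rw [sg_mul, sg_swap (Ne.symm h3)]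
      ring
    · rintro ⟨x, c⟩ hp _
      simp only [Finset.mem_filter, Finset.mem_product, Finset.mem_univ, true_and] at hp
      obtain ⟨⟨hx, hc⟩, hu⟩ := hp
      obtain ⟨h1, h2, h3, h4, h5, h6⟩ := key x c hx hc hu
      intro hh
      exact h3 (congrArg Prod.fst hh)
    · rintro ⟨x, c⟩ hp
      simp only [Finset.mem_filter, Finset.mem_product, Finset.mem_univ, true_and] at hp ⊢
      obtain ⟨⟨hx, hc⟩, hu⟩ := hp
      obtain ⟨h1, h2, h3, h4, h5, h6⟩ := key x c hx hc hu
      exact ⟨⟨h4, h5⟩, h6⟩
    · rintro ⟨x, c⟩ hp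
      simp only [Finset.mem_filter, Finset.mem_product, Finset.mem_univ, true_and] at hp
      obtain ⟨⟨hx, hc⟩, hu⟩ := hp
      obtain ⟨h1, h2, h3, h4, h5, h6⟩ := key x c hx hc hu
      set y := c⁻¹ (e (c x)) with hy
      have hc1 : (c * swap x y) y = c x := by
        rw [Perm.mul_apply, swap_apply_right]
      have hc2 : (c * swap x y) x = c y := by
        rw [Perm.mul_apply, swap_apply_left]
      have hcy : c y = e (c x) := by
        rw [hy]
        simp
      have h7 : (c * swap x y)⁻¹ (e ((c * swap x y) y)) = x := by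
        rw [hc1, ← hcy, ← hc2]
        simp
      refine Prod.ext ?_ ?_
      · exact h7
      · show (c * swap x y) * swap y ((c * swap x y)⁻¹ (e ((c * swap x y) y))) = c
        rw [h7, swap_comm y x, mul_assoc, swap_mul_self, mul_one]

theorem J_injA {b : X → ℕ × ℕ} {mu : YoungDiagram} (hb : IsTab b mu) {f : (X → ℕ) → ℚ}
    (hf : InA mu.rowLen f)
    (h : ∀ S, J b f S = 0) : ∀ w, f w = 0 := by
  intro w₀
  by_contra hw₀
  obtain ⟨g, hg⟩ := XM3_exists_perm (hf.cont w₀ hw₀) (XM2_cnt_row hb)
  -- the translate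
  set row : X → ℕ := fun x => (b x).1 with hrow
  have hpos := jinj_card_rowS_pos b
  -- symmetrised function
  set f' : (X → ℕ) → ℚ := fun w => ∑ r ∈ rowS b, f ((w ∘ r) ∘ g) with hf'
  have hf'V : InA mu.rowLen f' := by
    refine XM3_inA_sum (rowS b) (fun r w => f ((w ∘ r) ∘ g)) ?_
    intro r _
    exact XM3_inA_act (XM3_inA_act hf g) r
  have hf'inv : ∀ r ∈ rowS b, ∀ w, f' (w ∘ r) = f' w := by
    intro r hr w
    exact jinj_sum_rowS_inv (fun v => f (v ∘ g)) hr w
  have hf'row : f' row = ((rowS b).card : ℚ) * f w₀ := by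
    have h1 : ∀ r ∈ rowS b, f ((row ∘ r) ∘ g) = f w₀ := by
      intro r hr
      have h2 : row ∘ r = row := by
        funext x
        exact jinj_mem_rowS.1 hr x
      rw [h2, ← hg]
    show ∑ r ∈ rowS b, f ((row ∘ r) ∘ g) = _
    rw [Finset.sum_congr rfl h1, Finset.sum_const, nsmul_eq_mul]
  have hf'J : ∀ S, J b f' S = 0 := by
    intro S
    have h1 : J b f' S = ∑ r ∈ rowS b, J b (fun w => f ((w ∘ r) ∘ g)) S :=
      jinj_J_sum b (rowS b) (fun r w => f ((w ∘ r) ∘ g)) S
    rw [h1]
    refine Finset.sum_eq_zero fun r _ => ?_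
    have h2 := J_act b (fun w => f (w ∘ g)) r S
    rw [h2, J_act b f g, h]
    simp
  -- symmetrised polytabloid
  set z : (X → ℕ) → ℚ := fun w => ∑ r ∈ rowS b, pt b (w ∘ r) with hz
  have hzV : InA mu.rowLen z := by
    refine XM3_inA_sum (rowS b) (fun r w => pt b (w ∘ r)) ?_
    intro r _
    exact XM3_inA_act (XM3_pt_inA hb) r
  have hzinv : ∀ r ∈ rowS b, ∀ w, z (w ∘ r) = z w := by
    intro r hr w
    exact jinj_sum_rowS_inv (pt b) hr w
  have hzrow : z row = ((rowS b).card : ℚ) := by
    have h1 : ∀ r ∈ rowS b, pt b (row ∘ r) = 1 := by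
      intro r hr
      have h2 : row ∘ r = row := by
        funext x
        exact jinj_mem_rowS.1 hr x
      rw [h2]
      exact jinj_pt_row hb.inj
    show ∑ r ∈ rowS b, pt b (row ∘ r) = _
    rw [Finset.sum_congr rfl h1, Finset.sum_const, nsmul_eq_mul, mul_one]
  -- uniqueness
  have huni : ∀ w, (1 : ℚ) * f' w + (-(f w₀)) * z w = 0 := by
    refine uniA hb (XM3_inA_lin hf'V hzV 1 (-(f w₀))) ?_ ?_
    · intro r hr w
      show 1 * f' (w ∘ r) + -(f w₀) * z (w ∘ r) = _
      rw [hf'inv r hr w, hzinv r hr w]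
    · show 1 * f' row + -(f w₀) * z row = 0
      rw [hf'row, hzrow]
      ring
  have hf'z : f' = fun w => f w₀ * z w := by
    funext w
    have := huni w
    linarith
  have hJz : ∀ S, J b z S = 0 := by
    intro S
    have h1 := hf'J S
    rw [hf'z, jinj_J_smul] at h1
    exact (mul_eq_zero.1 h1).resolve_left hw₀
  have hcol : ∑ c ∈ colS b, sg c * z (fun x => (b (c x)).1) = 0 := by
    rw [← jinj_J_col]
    exact hJz _
  -- the norm of z
  have hN : ∀ c : Perm X, ∑ σ : Perm X, z (fun x => (b (σ x)).1) *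
      (if (fun x => (b (σ x)).1) = (fun x => (b (c x)).1) then (1 : ℚ) else 0)
      = ((rowS b).card : ℚ) * z (fun x => (b (c x)).1) := by
    intro c
    have h1 : ∀ σ : Perm X, z (fun x => (b (σ x)).1) *
        (if (fun x => (b (σ x)).1) = (fun x => (b (c x)).1) then (1 : ℚ) else 0)
        = if (fun x => (b (σ x)).1) = (fun x => (b (c x)).1) then z (fun x => (b (c x)).1)
          else 0 := by
      intro σ
      split_ifs with hh
      · rw [hh, mul_one]
      · rw [mul_zero]
    rw [Finset.sum_congr rfl fun σ _ => h1 σ, ← Finset.sum_filter, Finset.sum_const, nsmul_eq_mul]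
    congr 2
    refine Finset.card_bij (fun σ _ => σ * c⁻¹) ?_ ?_ ?_
    · intro σ hσ
      have h2 : (fun x => (b (σ x)).1) = (fun x => (b (c x)).1) := by simpa using hσ
      rw [jinj_mem_rowS]
      intro x
      have h3 := congrFun h2 (c⁻¹ x)
      simpa using h3
    · intro σ _ τ _ hh
      exact mul_right_cancel hh
    · intro ρ hρ
      refine ⟨ρ * c, ?_, by simp⟩
      simp only [Finset.mem_filter, Finset.mem_univ, true_and]
      funext x
      exact jinj_mem_rowS.1 hρ (c x)
  have hnorm : ∑ σ : Perm X, z (fun x => (b (σ x)).1) * z (fun x => (b (σ x)).1) = 0 := by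
    have h1 : ∀ σ : Perm X, z (fun x => (b (σ x)).1) * z (fun x => (b (σ x)).1)
        = ∑ r ∈ rowS b, z (fun x => (b ((σ * r) x)).1) * pt b (fun x => (b ((σ * r) x)).1) := by
      intro σ
      have h2 : z (fun x => (b (σ x)).1)
          = ∑ r ∈ rowS b, pt b (fun x => (b ((σ * r) x)).1) := rfl
      have h3 : ∀ r ∈ rowS b, z (fun x => (b ((σ * r) x)).1) = z (fun x => (b (σ x)).1) := by
        intro r hr
        exact hzinv r hr (fun x => (b (σ x)).1)
      rw [Finset.sum_congr rfl fun r hr => by rw [h3 r hr], ← Finset.mul_sum, ← h2]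
    rw [Finset.sum_congr rfl fun σ _ => h1 σ, Finset.sum_comm]
    refine Finset.sum_eq_zero fun r _ => ?_
    have h4 : ∑ σ : Perm X, z (fun x => (b ((σ * r) x)).1) * pt b (fun x => (b ((σ * r) x)).1)
        = ∑ σ : Perm X, z (fun x => (b (σ x)).1) * pt b (fun x => (b (σ x)).1) :=
      Fintype.sum_equiv (Equiv.mulRight r) _ _ (fun σ => rfl)
    rw [h4]
    have h5 : ∀ σ : Perm X, z (fun x => (b (σ x)).1) * pt b (fun x => (b (σ x)).1)
        = ∑ c ∈ colS b, sg c * (z (fun x => (b (σ x)).1) *
          (if (fun x => (b (σ x)).1) = (fun x => (b (c x)).1) then (1 : ℚ) else 0)) := by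
      intro σ
      unfold pt
      rw [Finset.mul_sum]
      refine Finset.sum_congr rfl fun c _ => ?_
      ring
    rw [Finset.sum_congr rfl fun σ _ => h5 σ, Finset.sum_comm]
    have h6 : ∀ c ∈ colS b, ∑ σ : Perm X, sg c * (z (fun x => (b (σ x)).1) *
          (if (fun x => (b (σ x)).1) = (fun x => (b (c x)).1) then (1 : ℚ) else 0))
        = ((rowS b).card : ℚ) * (sg c * z (fun x => (b (c x)).1)) := by
      intro c _
      rw [← Finset.mul_sum, hN c]
      ring
    rw [Finset.sum_congr rfl h6, ← Finset.mul_sum, hcol, mul_zero]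
  have hzero := (Finset.sum_eq_zero_iff_of_nonneg (fun σ _ => mul_self_nonneg _)).1 hnorm
    (1 : Perm X) (Finset.mem_univ _)
  have h7 : z row = 0 := mul_self_eq_zero.1 hzero
  rw [hzrow] at h7
  exact absurd h7 hpos.ne'

end Sx
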