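import Mathlib
import Pool.Agent.Helper87.Saxl.Defs
import Pool.Agent.Helper87.Saxl.FinDefs
import Pool.Agent.Helper87.Saxl.Jinj
import Pool.Agent.Saxl2.XDefs
import Pool.Agent.Saxl2.XM3
import Pool.Agent.Saxl2.JE3

/-! Module JE4: Young invariants in the Specht module. -/

namespace Sx

open Finset Equiv TensorProduct

lemma JE4_poly {n : ℕ} (t : Fin n → ℕ × ℕ) (w : Fin n → ℕ) :
    polytabloid t w = ((pt t w : ℚ) : ℂ) := by
  unfold polytabloid pt sg
  push_cast
  refine Finset.sum_congr rfl fun c _ => ?_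
  split_ifs <;> simp

/-- a function in the Specht module gives functions in `InA` by composing with `ℚ`-linear maps. -/
theorem specht_inA {n : ℕ} {lam : YoungDiagram} {f : (Fin n → ℕ) → ℂ} (hf : f ∈ Specht n lam)
    (l : ℂ →ₗ[ℚ] ℚ) : InA lam.rowLen (fun w => l (f w)) := by
  revert l
  refine Submodule.span_induction
    (p := fun f _ => ∀ l : ℂ →ₗ[ℚ] ℚ, InA lam.rowLen (fun w => l (f w))) ?_ ?_ ?_ ?_ hf
  · rintro e ⟨t, ht, rfl⟩ l
    have h1 := XM3_inA_lin (XM3_pt_inA ht) (XM3_pt_inA ht) (l 1) 0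
    have h2 : (fun w => l (polytabloid t w)) = fun w => l 1 * pt t w + 0 * pt t w := by
      funext w
      rw [JE4_poly, zero_mul, add_zero]
      have h3 : ((pt t w : ℚ) : ℂ) = (pt t w) • (1 : ℂ) := by
        rw [Rat.smul_def, mul_one]
      rw [h3, map_smul, smul_eq_mul, mul_comm]
    rw [h2]
    exact h1
  · intro l
    refine ⟨?_, ?_⟩
    · intro w hw
      exfalso
      apply hw
      simp
    · intro i w
      unfold R
      simp
  · intro f g _ _ hf hg l
    have h1 := XM3_inA_lin (hf l) (hg l) 1 1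
    have h2 : (fun w => l ((f + g) w)) = fun w => 1 * l (f w) + 1 * l (g w) := by
      funext w
      rw [Pi.add_apply, map_add, one_mul, one_mul]
    rw [h2]
    exact h1
  · intro c f _ hf l
    exact hf (l ∘ₗ (LinearMap.mulLeft ℚ c))

lemma JE4_zero {z : ℂ} (h : ∀ l : ℂ →ₗ[ℚ] ℚ, l z = 0) : z = 0 :=
  (Module.forall_dual_apply_eq_zero_iff ℚ z).1 h

theorem specht_inv_zero {n : ℕ} {lam : YoungDiagram} (a : Fin n → ℕ) (m : ℕ)
    (hlt : ∀ i < m, cnt a i = lam.rowLen i) (hm : lam.rowLen m < cnt a m)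
    {f : (Fin n → ℕ) → ℂ} (hf : f ∈ Specht n lam)
    (hinv : ∀ g : Perm (Fin n), a ∘ g = a → permAct g f = f) : f = 0 := by
  funext w
  refine JE4_zero fun l => ?_
  refine inv_uni (specht_inA hf l) a m hlt ?_ ?_ w
  · intro g hg w
    have h1 : f (w ∘ g) = f w := congrFun (hinv g hg) w
    show l (f (w ∘ g)) = l (f w)
    rw [h1]
  · intro w hw
    by_contra hne
    have h1 := (specht_inA hf l).cont w hne m
    have h2 : cnt a m ≤ cnt w m := by
      unfold cnt
      refine Finset.card_le_card fun x hx => ?_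
      rw [Finset.mem_filter] at hx ⊢
      exact ⟨hx.1, by rw [hw x hx.2.le, hx.2]⟩
    omega

lemma JE4_tab {n : ℕ} {lam : YoungDiagram} (a : Fin n → ℕ)
    (ha : ∀ i, cnt a i = lam.rowLen i) :
    ∃ t : Fin n → ℕ × ℕ, IsTab t lam ∧ (fun x => (t x).1) = a := by
  have h : ∀ i, Nonempty ({x // a x = i} ≃ Fin (lam.rowLen i)) := by
    intro i
    rw [← Fintype.card_eq, Fintype.card_fin, ← ha i, Fintype.card_subtype]
    rfl
  let E : ∀ i, {x // a x = i} ≃ Fin (lam.rowLen i) := fun i => (h i).some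
  have hE : ∀ i (x y : {x // a x = i}), ((E i x : Fin _) : ℕ) = (E i y : ℕ) → x = y := by
    intro i x y hxy
    exact (E i).injective (Fin.ext hxy)
  refine ⟨fun x => (a x, (E (a x) ⟨x, rfl⟩ : ℕ)), ⟨?_, ?_⟩, rfl⟩
  · intro x y hxy
    have h1 : a x = a y := congrArg Prod.fst hxy
    have h2 : ((E (a x) ⟨x, rfl⟩ : Fin _) : ℕ) = (E (a y) ⟨y, rfl⟩ : ℕ) := congrArg Prod.snd hxy
    have h3 : ∀ i (hx : a x = i) (hy : a y = i),
        ((E (a x) ⟨x, rfl⟩ : Fin _) : ℕ) = (E (a y) ⟨y, rfl⟩ : ℕ) → x = y := by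
      intro i hx hy
      subst hx
      intro h4
      have h5 : ∀ j (hj : a y = j), ((E (a y) ⟨y, rfl⟩ : Fin _) : ℕ) = (E j ⟨y, hj⟩ : ℕ) := by
        intro j hj
        subst hj
        rfl
      rw [h5 _ hy] at h4
      exact congrArg Subtype.val (hE _ _ _ h4)
    exact h3 (a y) h1 rfl h2
  · rintro ⟨i, j⟩
    rw [YoungDiagram.mem_iff_lt_rowLen]
    constructor
    · intro hj
      refine ⟨((E i).symm ⟨j, hj⟩).1, ?_⟩
      have hx : a ((E i).symm ⟨j, hj⟩).1 = i := ((E i).symm ⟨j, hj⟩).2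
      have h5 : ∀ (x : Fin n) k (hk : a x = k),
          ((E (a x) ⟨x, rfl⟩ : Fin _) : ℕ) = (E k ⟨x, hk⟩ : ℕ) := by
        intro x k hk
        subst hk
        rfl
      refine Prod.ext hx ?_
      show ((E (a ((E i).symm ⟨j, hj⟩).1) ⟨_, rfl⟩ : Fin _) : ℕ) = j
      rw [h5 _ i hx]
      simp
    · rintro ⟨x, hx⟩
      have h1 : a x = i := congrArg Prod.fst hx
      have h2 : ((E (a x) ⟨x, rfl⟩ : Fin _) : ℕ) = j := congrArg Prod.snd hx
      rw [← h1, ← h2]
      exact (E (a x) ⟨x, rfl⟩).2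

theorem specht_inv_one {n : ℕ} {lam : YoungDiagram} (a : Fin n → ℕ)
    (ha : ∀ i, cnt a i = lam.rowLen i) :
    ∃ e ∈ Specht n lam, e ≠ 0 ∧ (∀ g : Perm (Fin n), a ∘ g = a → permAct g e = e) ∧
      ∀ f ∈ Specht n lam, (∀ g : Perm (Fin n), a ∘ g = a → permAct g f = f) →
        ∃ c : ℂ, f = c • e := by
  obtain ⟨t, ht, hta⟩ := JE4_tab a ha
  set St : Finset (Perm (Fin n)) := univ.filter (fun g : Perm (Fin n) => a ∘ g = a) with hSt
  set e : (Fin n → ℕ) → ℂ := ∑ g ∈ St, permAct g (polytabloid t) with he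
  have hmem : ∀ g, g ∈ St ↔ a ∘ g = a := by
    intro g
    simp [hSt]
  have hpt : polytabloid t a = 1 := by
    rw [JE4_poly, ← hta, jinj_pt_row ht.inj]
    simp
  have hea : e a = (St.card : ℂ) := by
    rw [he, Finset.sum_apply]
    have h1 : ∀ g ∈ St, permAct g (polytabloid t) a = 1 := by
      intro g hg
      show polytabloid t (a ∘ g) = 1
      rw [(hmem g).1 hg, hpt]
    rw [Finset.sum_congr rfl h1, Finset.sum_const, nsmul_eq_mul, mul_one]
  have hcard : (St.card : ℂ) ≠ 0 := by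
    have : St.card ≠ 0 := by
      refine (Finset.card_pos.2 ⟨1, ?_⟩).ne'
      rw [hmem]
      rfl
    exact_mod_cast this
  have heS : e ∈ Specht n lam :=
    Submodule.sum_mem _ fun g _ => permAct_mem lam g _ (Submodule.subset_span ⟨t, ht, rfl⟩)
  have hinv : ∀ g : Perm (Fin n), a ∘ g = a → permAct g e = e := by
    intro g hg
    rw [he, map_sum]
    refine Finset.sum_bij (fun h _ => g * h) ?_ ?_ ?_ ?_
    · intro h hh
      rw [hmem] at hh ⊢
      show (a ∘ g) ∘ h = a
      rw [hg, hh]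
    · intro h _ h' _ hhh
      exact mul_left_cancel hhh
    · intro h hh
      refine ⟨g⁻¹ * h, ?_, by simp⟩
      rw [hmem] at hh ⊢
      have h1 : a ∘ (g⁻¹ : Perm (Fin n)) = a := by
        funext x
        have := congrFun hg (g⁻¹ x)
        simpa using this.symm
      show (a ∘ (g⁻¹ : Perm (Fin n))) ∘ h = a
      rw [h1, hh]
    · intro h _
      rfl
  refine ⟨e, heS, ?_, hinv, ?_⟩
  · intro h0
    apply hcard
    rw [← hea, h0]
    rfl
  · intro f hf hfinv
    refine ⟨f a / e a, ?_⟩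
    have hF : f - (f a / e a) • e ∈ Specht n lam :=
      Submodule.sub_mem _ hf (Submodule.smul_mem _ _ heS)
    have hFa : (f - (f a / e a) • e) a = 0 := by
      show f a - (f a / e a) * e a = 0
      rw [div_mul_cancel₀, sub_self]
      rw [hea]
      exact hcard
    have hzero : f - (f a / e a) • e = 0 := by
      funext w
      refine JE4_zero fun l => ?_
      refine inv_uni (specht_inA hF l) a (univ.sup a) (fun i _ => ha i) ?_ ?_ w
      · intro g hg w
        have h1 : permAct g (f - (f a / e a) • e) = f - (f a / e a) • e := by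
          rw [map_sub, map_smul, hfinv g hg, hinv g hg]
        have h2 : (f - (f a / e a) • e) (w ∘ g) = (f - (f a / e a) • e) w := congrFun h1 w
        show l ((f - (f a / e a) • e) (w ∘ g)) = l ((f - (f a / e a) • e) w)
        rw [h2]
      · intro w hw
        have h1 : w = a := by
          funext x
          exact hw x (Finset.le_sup (Finset.mem_univ x))
        show l ((f - (f a / e a) • e) w) = 0
        rw [h1, hFa, map_zero]
    exact sub_eq_zero.1 hzero

end Sx
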