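import Pool.Agent.Saxl2.JTDefs

/-! SAXL2 JE5: Frobenius reciprocity for permutation characters. -/

namespace Sx

open Finset Equiv TensorProduct

/-- the stabiliser of a word -/
def je5H {n : ℕ} (a : Fin n → Fin n) : Subgroup (Perm (Fin n)) where
  carrier := {g | a ∘ g = a}
  mul_mem' := by
    intro g h hg hh
    have hg' : a ∘ (g : Fin n → Fin n) = a := hg
    have hh' : a ∘ (h : Fin n → Fin n) = a := hh
    change a ∘ ((g * h : Perm (Fin n)) : Fin n → Fin n) = a
    rw [Perm.coe_mul, ← Function.comp_assoc, hg', hh']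
  one_mem' := rfl
  inv_mem' := by
    intro g hg
    have hg' : a ∘ (g : Fin n → Fin n) = a := hg
    change a ∘ ((g⁻¹ : Perm (Fin n)) : Fin n → Fin n) = a
    funext x
    have := congrFun hg' (g⁻¹ x)
    simp only [Function.comp_apply] at this ⊢
    rw [← this]
    simp

theorem je5_mem {n : ℕ} (a : Fin n → Fin n) (g : Perm (Fin n)) : g ∈ je5H a ↔ a ∘ g = a := Iff.rfl

/-- the words of content `α` -/
def je5C {n : ℕ} (α : Fin n → ℤ) : Finset (Fin n → Fin n) :=
  univ.filter (fun f : Fin n → Fin n =>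
    ∀ i : Fin n, (((univ.filter (fun x : Fin n => f x = i)).card : ℕ) : ℤ) = α i)

theorem je5_sum {n : ℕ} (α : Fin n → ℤ) (χ : Perm (Fin n) → ℂ) :
    ∑ g : Perm (Fin n), (xi α g : ℂ) * χ g =
      ∑ a ∈ je5C α, ∑ g ∈ univ.filter (fun g : Perm (Fin n) => ∀ x, a (g x) = a x), χ g := by
  classical
  have h1 : ∀ g : Perm (Fin n), (xi α g : ℂ) * χ g =
      ∑ a ∈ je5C α, if ∀ x, a (g x) = a x then χ g else 0 := by
    intro g
    have h2 : xi α g = (((je5C α).filter (fun a => ∀ x, a (g x) = a x)).card : ℤ) := by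
      unfold xi je5C
      rw [Finset.filter_filter]
    rw [h2, ← Finset.sum_filter, Finset.sum_const, nsmul_eq_mul]
    push_cast
    rfl
  simp_rw [h1]
  rw [Finset.sum_comm]
  apply Finset.sum_congr rfl
  intro a _
  rw [Finset.sum_filter]

theorem je5_stab {n : ℕ} {W : Type} [AddCommGroup W] [Module ℂ W] [FiniteDimensional ℂ W]
    (ρ : Representation ℂ (Perm (Fin n)) W) (a : Fin n → Fin n) :
    ∑ g ∈ univ.filter (fun g : Perm (Fin n) => ∀ x, a (g x) = a x), ρ.character g =
      ((univ.filter (fun g : Perm (Fin n) => ∀ x, a (g x) = a x)).card : ℂ) *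
        (Module.finrank ℂ (Representation.invariants (ρ.comp (je5H a).subtype)) : ℂ) := by
  classical
  have hmem : ∀ g : Perm (Fin n),
      g ∈ univ.filter (fun g : Perm (Fin n) => ∀ x, a (g x) = a x) ↔ g ∈ je5H a := by
    intro g
    rw [je5_mem, funext_iff]
    simp
  have hcard : Nat.card (je5H a) =
      (univ.filter (fun g : Perm (Fin n) => ∀ x, a (g x) = a x)).card := by
    rw [Nat.card_eq_fintype_card, ← Fintype.card_coe]
    apply Fintype.card_congr
    exact Equiv.subtypeEquivRight (fun g => (hmem g).symm)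
  have hcard0 : (Nat.card (je5H a) : ℂ) ≠ 0 := by
    have : Nat.card (je5H a) ≠ 0 := Nat.card_pos.ne'
    exact_mod_cast this
  have : Invertible (Nat.card (je5H a) : ℂ) := invertibleOfNonzero hcard0
  have key := Representation.card_inv_mul_sum_char_eq_finrank (ρ.comp (je5H a).subtype)
  rw [inv_mul_eq_iff_eq_mul₀ hcard0] at key
  rw [← hcard, ← key]
  rw [Finset.sum_subtype (p := fun g => g ∈ je5H a) _ hmem]
  rfl

theorem xi_char {n : ℕ} {W : Type} [AddCommGroup W] [Module ℂ W] [FiniteDimensional ℂ W]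
    (ρ : Representation ℂ (Perm (Fin n)) W) (α : Fin n → ℤ)
    (h : ∀ a : Fin n → Fin n, (∀ i : Fin n, (((univ.filter (fun x : Fin n => a x = i)).card : ℕ) : ℤ)
      = α i) → ∀ v : W, (∀ g : Perm (Fin n), a ∘ g = a → ρ g v = v) → v = 0) :
    ∑ g : Perm (Fin n), (xi α g : ℂ) * ρ.character g = 0 := by
  rw [je5_sum]
  apply Finset.sum_eq_zero
  intro a ha
  rw [je5_stab]
  have h1 : Representation.invariants (ρ.comp (je5H a).subtype) = ⊥ := by
    rw [eq_bot_iff]
    intro v hv
    rw [Representation.mem_invariants] at hv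
    rw [Submodule.mem_bot]
    refine h a (by simpa [je5C] using ha) v (fun g hg => ?_)
    exact hv ⟨g, hg⟩
  rw [h1, finrank_bot]
  simp

theorem je5_perm {n : ℕ} (a b : Fin n → Fin n)
    (h : ∀ i : Fin n, (univ.filter (fun x : Fin n => a x = i)).card =
      (univ.filter (fun x : Fin n => b x = i)).card) : ∃ g : Perm (Fin n), b ∘ g = a := by
  classical
  have h1 : ∀ i : Fin n, Fintype.card {x // a x = i} = Fintype.card {x // b x = i} := by
    intro i
    rw [Fintype.card_subtype, Fintype.card_subtype]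
    exact h i
  let e : ∀ i : Fin n, {x // a x = i} ≃ {x // b x = i} := fun i => Fintype.equivOfCardEq (h1 i)
  refine ⟨(Equiv.sigmaFiberEquiv a).symm.trans ((Equiv.sigmaCongrRight e).trans
    (Equiv.sigmaFiberEquiv b)), ?_⟩
  funext x
  simp only [Function.comp_apply, Equiv.trans_apply]
  exact (e (a x) ⟨x, rfl⟩).2

theorem je5_count {n : ℕ} (α : Fin n → ℤ) (a₀ : Fin n → Fin n) (ha₀ : a₀ ∈ je5C α) :
    ∑ a ∈ je5C α, (univ.filter (fun g : Perm (Fin n) => ∀ x, a (g x) = a x)).card =
      n.factorial := by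
  classical
  have h1 : (univ : Finset (Perm (Fin n))).card = n.factorial := by
    rw [Finset.card_univ, Fintype.card_perm, Fintype.card_fin]
  rw [← h1, Finset.card_eq_sum_card_fiberwise (f := fun g : Perm (Fin n) => a₀ ∘ g)
    (t := je5C α)]
  · apply Finset.sum_congr rfl
    intro a ha
    have hc : ∀ i : Fin n, (univ.filter (fun x : Fin n => a x = i)).card =
        (univ.filter (fun x : Fin n => a₀ x = i)).card := by
      intro i
      simp only [je5C, Finset.mem_filter, Finset.mem_univ, true_and] at ha ha₀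
      exact_mod_cast (ha i).trans (ha₀ i).symm
    obtain ⟨h, hh⟩ := je5_perm a a₀ hc
    apply Finset.card_bij (fun g _ => h * g)
    · intro g hg
      simp only [Finset.mem_filter, Finset.mem_univ, true_and] at hg ⊢
      rw [Perm.coe_mul, ← Function.comp_assoc, hh]
      funext x
      exact hg x
    · intro g _ g' _ hgg
      exact mul_left_cancel hgg
    · intro g hg
      simp only [Finset.mem_filter, Finset.mem_univ, true_and] at hg
      refine ⟨h⁻¹ * g, ?_, by simp⟩
      simp only [Finset.mem_filter, Finset.mem_univ, true_and]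
      intro x
      rw [← hh]
      have := congrFun (hg.trans hh.symm) x
      simpa using this
  · intro g _
    simp only [je5C, Finset.coe_filter, Finset.mem_univ, true_and, Set.mem_ofPred_eq,
      Finset.mem_filter] at ha₀ ⊢
    intro i
    rw [← ha₀ i]
    congr 1
    apply Finset.card_bij (fun x _ => g x)
    · intro x hx
      simpa using hx
    · intro x _ y _ hxy
      exact g.injective hxy
    · intro y hy
      refine ⟨g⁻¹ y, ?_, by simp⟩
      simpa using hy

theorem xi_char_one {n : ℕ} {W : Type} [AddCommGroup W] [Module ℂ W] [FiniteDimensional ℂ W]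
    (ρ : Representation ℂ (Perm (Fin n)) W) (α : Fin n → ℤ)
    (h : ∀ a : Fin n → Fin n, (∀ i : Fin n, (((univ.filter (fun x : Fin n => a x = i)).card : ℕ) : ℤ)
      = α i) → ∃ e : W, e ≠ 0 ∧ (∀ g : Perm (Fin n), a ∘ g = a → ρ g e = e) ∧
        ∀ v : W, (∀ g : Perm (Fin n), a ∘ g = a → ρ g v = v) → ∃ c : ℂ, v = c • e)
    (a₀ : Fin n → Fin n)
    (ha₀ : ∀ i : Fin n, (((univ.filter (fun x : Fin n => a₀ x = i)).card : ℕ) : ℤ) = α i) :
    ∑ g : Perm (Fin n), (xi α g : ℂ) * ρ.character g = (n.factorial : ℂ) := by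
  rw [je5_sum]
  have h1 : ∀ a ∈ je5C α, ∑ g ∈ univ.filter (fun g : Perm (Fin n) => ∀ x, a (g x) = a x),
      ρ.character g = ((univ.filter (fun g : Perm (Fin n) => ∀ x, a (g x) = a x)).card : ℂ) := by
    intro a ha
    rw [je5_stab]
    obtain ⟨e, he0, he1, he2⟩ := h a (by simpa [je5C] using ha)
    have h2 : Module.finrank ℂ (Representation.invariants (ρ.comp (je5H a).subtype)) = 1 := by
      apply finrank_eq_one (⟨e, fun g => he1 g.1 g.2⟩ :
        Representation.invariants (ρ.comp (je5H a).subtype))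
      · intro h0
        exact he0 (congrArg Subtype.val h0)
      · intro w
        obtain ⟨c, hc⟩ := he2 w.1 (fun g hg => w.2 ⟨g, hg⟩)
        exact ⟨c, Subtype.ext hc.symm⟩
    rw [h2]
    simp
  rw [Finset.sum_congr rfl h1]
  have := je5_count α a₀ (by simpa [je5C] using ha₀)
  rw [← this]
  push_cast
  rfl

end Sx
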