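import Pool.Agent.Saxl2.JTDefs
import Pool.Agent.Saxl2.JE4
import Pool.Agent.Saxl2.JE5
import Pool.Agent.Saxl2.JE2

/-! SAXL2 JE6: the inner product of the Jacobi-Trudi class function and the Specht character. -/

namespace Sx

open Finset Equiv TensorProduct

theorem je6_row {n : ℕ} {lam : YoungDiagram} (hl : lam.card = n) {i : ℕ} (hi : n ≤ i) :
    lam.rowLen i = 0 := by
  by_contra hne
  have h0 : 0 < lam.rowLen i := Nat.pos_of_ne_zero hne
  have h1 : (Finset.range (i + 1)).card ≤ lam.cells.card := by
    refine Finset.card_le_card_of_injOn (fun k => (k, 0)) ?_ ?_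
    · intro k hk
      have hk' : k ≤ i := by
        have := Finset.mem_range.1 (Finset.mem_coe.1 hk)
        omega
      have h2 : (k, 0) ∈ lam := by
        rw [YoungDiagram.mem_iff_lt_rowLen]
        exact lt_of_lt_of_le h0 (lam.rowLen_anti k i hk')
      exact h2
    · intro k _ k' _ h
      exact congrArg Prod.fst h
  rw [Finset.card_range] at h1
  have h3 : lam.cells.card = n := hl
  omega

theorem je6_cnt {n : ℕ} (a : Fin n → Fin n) (i : Fin n) :
    cnt (fun x => (a x : ℕ)) (i : ℕ) = (univ.filter (fun x : Fin n => a x = i)).card := by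
  unfold cnt
  congr 1
  ext x
  simp [Fin.ext_iff]

theorem je6_comp {n : ℕ} (a : Fin n → Fin n) (g : Perm (Fin n)) :
    a ∘ g = a ↔ (fun x => (a x : ℕ)) ∘ g = fun x => (a x : ℕ) := by
  constructor
  · intro h
    funext x
    have := congrFun h x
    simp only [Function.comp_apply] at this ⊢
    rw [this]
  · intro h
    funext x
    have := congrFun h x
    exact Fin.ext this

theorem je6_one {n : ℕ} {lam : YoungDiagram} (hl : lam.card = n) :
    ∑ g : Perm (Fin n), (xi (jtv (rv n lam) 1) g : ℂ) * chS n lam g = (n.factorial : ℂ) := by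
  have hj : ∀ i, jtv (rv n lam) 1 i = (lam.rowLen i : ℤ) := by
    intro i
    unfold jtv rv
    rw [Perm.one_apply]
    ring
  obtain ⟨t, ht⟩ := je2_tab hl
  have hlt : ∀ x, (t x).1 < n := by
    intro x
    by_contra hcon
    have h1 : t x ∈ lam := (ht.mem (t x)).2 ⟨x, rfl⟩
    have h2 : (t x).2 < lam.rowLen (t x).1 := by
      rw [← YoungDiagram.mem_iff_lt_rowLen]
      exact h1
    rw [je6_row hl (not_lt.1 hcon)] at h2
    omega
  refine xi_char_one (spRep n lam) (jtv (rv n lam) 1) ?_ (fun x => ⟨(t x).1, hlt x⟩) ?_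
  · intro a ha
    have hc : ∀ i, cnt (fun x => (a x : ℕ)) i = lam.rowLen i := by
      intro i
      by_cases hi : i < n
      · have h1 := je6_cnt a ⟨i, hi⟩
        have h2 := ha ⟨i, hi⟩
        rw [hj] at h2
        simp only at h1
        rw [h1]
        exact_mod_cast h2
      · rw [je6_row hl (not_lt.1 hi)]
        unfold cnt
        rw [Finset.card_eq_zero, Finset.filter_eq_empty_iff]
        intro x _ hx
        exact hi (hx ▸ (a x).2)
    obtain ⟨e, he, hne, hinv, huni⟩ := specht_inv_one (lam := lam) _ hc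
    refine ⟨⟨e, he⟩, ?_, ?_, ?_⟩
    · intro h
      exact hne (congrArg Subtype.val h)
    · intro g hg
      exact Subtype.ext (hinv g ((je6_comp a g).1 hg))
    · intro v hv
      obtain ⟨c, hc'⟩ := huni v.1 v.2 (fun g hg =>
        congrArg Subtype.val (hv g ((je6_comp a g).2 hg)))
      exact ⟨c, Subtype.ext hc'⟩
  · intro i
    rw [hj]
    have h1 : (univ.filter (fun x : Fin n => (⟨(t x).1, hlt x⟩ : Fin n) = i)).card =
        lam.rowLen i := by
      have h2 : lam.rowLen i = (Finset.range (lam.rowLen i)).card := (Finset.card_range _).symm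
      rw [h2]
      refine Finset.card_bij (fun x _ => (t x).2) ?_ ?_ ?_
      · intro x hx
        rw [Finset.mem_filter] at hx
        have h3 : t x ∈ lam := (ht.mem (t x)).2 ⟨x, rfl⟩
        have h4 : (t x).2 < lam.rowLen (t x).1 := by
          rw [← YoungDiagram.mem_iff_lt_rowLen]
          exact h3
        have h5 : (t x).1 = (i : ℕ) := congrArg Fin.val hx.2
        rw [h5] at h4
        exact Finset.mem_range.2 h4
      · intro x hx y hy hxy
        rw [Finset.mem_filter] at hx hy
        have h5 : (t x).1 = (i : ℕ) := congrArg Fin.val hx.2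
        have h6 : (t y).1 = (i : ℕ) := congrArg Fin.val hy.2
        exact ht.inj (Prod.ext (h5.trans h6.symm) hxy)
      · intro j hj'
        have h3 : ((i : ℕ), j) ∈ lam := by
          rw [YoungDiagram.mem_iff_lt_rowLen]
          exact Finset.mem_range.1 hj'
        obtain ⟨x, hx⟩ := (ht.mem _).1 h3
        refine ⟨x, ?_, congrArg Prod.snd hx⟩
        rw [Finset.mem_filter]
        exact ⟨Finset.mem_univ _, Fin.ext (congrArg Prod.fst hx)⟩
    exact_mod_cast h1

theorem je6_ne {n : ℕ} {lam : YoungDiagram} (σ : Perm (Fin n)) (hσ : σ ≠ 1) :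
    ∑ g : Perm (Fin n), (xi (jtv (rv n lam) σ) g : ℂ) * chS n lam g = 0 := by
  classical
  have hex : (univ.filter (fun i : Fin n => σ i ≠ i)).Nonempty := by
    by_contra hcon
    rw [Finset.not_nonempty_iff_eq_empty, Finset.filter_eq_empty_iff] at hcon
    apply hσ
    ext i
    have := hcon (Finset.mem_univ i)
    push Not at this
    rw [this]
    rfl
  obtain ⟨m, hm, hmin⟩ := Finset.exists_min_image _ (fun i : Fin n => (i : ℕ)) hex
  rw [Finset.mem_filter] at hm
  have hlt : ∀ i : Fin n, i < m → σ i = i := by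
    intro i hi
    by_contra hne
    have := hmin i (Finset.mem_filter.2 ⟨Finset.mem_univ _, hne⟩)
    have h2 : (i : ℕ) < m := hi
    omega
  have hgt : m < σ m := by
    rcases lt_trichotomy (σ m) m with h | h | h
    · exact absurd (σ.injective (hlt _ h)) hm.2
    · exact absurd h hm.2
    · exact h
  refine xi_char (spRep n lam) (jtv (rv n lam) σ) ?_
  intro a ha v hv
  apply Subtype.ext
  refine specht_inv_zero (lam := lam) (fun x => (a x : ℕ)) m ?_ ?_ v.2 ?_
  · intro i hi
    have hin : i < n := lt_trans hi m.2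
    have h1 := je6_cnt a ⟨i, hin⟩
    have h2 := ha ⟨i, hin⟩
    have h3 : σ ⟨i, hin⟩ = ⟨i, hin⟩ := hlt _ hi
    unfold jtv rv at h2
    rw [h3] at h2
    simp only at h1 h2
    rw [h1]
    have h4 : (((univ.filter (fun x : Fin n => a x = ⟨i, hin⟩)).card : ℕ) : ℤ) =
        (lam.rowLen i : ℤ) := by
      rw [h2]
      ring
    exact_mod_cast h4
  · have h1 := je6_cnt a m
    have h2 := ha m
    unfold jtv rv at h2
    rw [h1]
    have h3 : (m : ℕ) < σ m := hgt
    omega
  · intro g hg
    exact congrArg Subtype.val (hv g ((je6_comp a g).2 hg))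

theorem jt_chS {n : ℕ} {lam : YoungDiagram} (hl : lam.card = n) :
    ∑ g : Perm (Fin n), (JT (rv n lam) g : ℂ) * chS n lam g = (n.factorial : ℂ) := by
  classical
  have h1 : ∀ g : Perm (Fin n), (JT (rv n lam) g : ℂ) * chS n lam g =
      ∑ σ : Perm (Fin n), ((Perm.sign σ : ℤˣ) : ℂ) *
        ((xi (jtv (rv n lam) σ) g : ℂ) * chS n lam g) := by
    intro g
    unfold JT
    push_cast
    rw [Finset.sum_mul]
    apply Finset.sum_congr rfl
    intro σ _
    ring
  simp_rw [h1]
  rw [Finset.sum_comm]
  simp_rw [← Finset.mul_sum]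
  rw [Finset.sum_eq_single (1 : Perm (Fin n))]
  · rw [je6_one hl]
    simp
  · intro σ _ hσ
    rw [je6_ne σ hσ, mul_zero]
  · intro h
    exact absurd (Finset.mem_univ _) h

end Sx
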