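import Pool.Agent.Saxl2.JTDefs
import Pool.Agent.Saxl2.JD
import Pool.Agent.Saxl2.JE1
import Pool.Agent.Saxl2.JE2
import Pool.Agent.Saxl2.JE6

/-! SAXL2 JF: the Jacobi-Trudi class function is the character of the Specht module. -/

namespace Sx

open Finset Equiv TensorProduct

theorem rv_sum {n : ℕ} {lam : YoungDiagram} (hl : lam.card = n) : ∑ i, rv n lam i = n := by
  have h1 : (Finset.univ.sigma (fun i : Fin n => Finset.range (rv n lam i))).card =
      lam.cells.card := by
    refine Finset.card_bij (fun p _ => ((p.1 : ℕ), p.2)) ?_ ?_ ?_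
    · intro p hp
      rw [Finset.mem_sigma] at hp
      have h2 : p.2 < lam.rowLen p.1 := Finset.mem_range.1 hp.2
      rw [YoungDiagram.mem_cells, YoungDiagram.mem_iff_lt_rowLen]
      exact h2
    · intro p _ q _ h
      rw [Prod.mk.injEq] at h
      exact Sigma.ext (Fin.ext h.1) (heq_of_eq h.2)
    · rintro ⟨i, j⟩ hp
      rw [YoungDiagram.mem_cells, YoungDiagram.mem_iff_lt_rowLen] at hp
      have hi : i < n := by
        by_contra hcon
        rw [je6_row hl (not_lt.1 hcon)] at hp
        omega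
      refine ⟨⟨⟨i, hi⟩, j⟩, ?_, rfl⟩
      rw [Finset.mem_sigma]
      exact ⟨Finset.mem_univ _, Finset.mem_range.2 hp⟩
  rw [Finset.card_sigma] at h1
  simp only [Finset.card_range] at h1
  rw [h1]
  exact hl

theorem rv_anti (n : ℕ) (lam : YoungDiagram) : Antitone (rv n lam) := by
  intro i j hij
  exact lam.rowLen_anti _ _ hij

theorem jt_eq {n : ℕ} {lam : YoungDiagram} (hl : lam.card = n) (g : Perm (Fin n)) :
    (JT (rv n lam) g : ℂ) = chS n lam g := by
  have h1 : ∑ g : Perm (Fin n), (JT (rv n lam) g : ℂ) * (JT (rv n lam) g : ℂ) =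
      (n.factorial : ℂ) := by
    have := JT_norm (rv_anti n lam) (rv_sum hl)
    exact_mod_cast this
  have h2 := jt_chS hl
  have h3 : ∑ g : Perm (Fin n), chS n lam g * chS n lam g = (n.factorial : ℂ) := by
    rw [← chS_norm hl]
    apply Finset.sum_congr rfl
    intro g _
    rw [chS_inv]
  have h4 : ∑ g : Perm (Fin n), ((JT (rv n lam) g : ℂ) - chS n lam g) ^ 2 = 0 := by
    have h5 : ∀ g : Perm (Fin n), ((JT (rv n lam) g : ℂ) - chS n lam g) ^ 2 =
        (JT (rv n lam) g : ℂ) * (JT (rv n lam) g : ℂ) -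
          2 * ((JT (rv n lam) g : ℂ) * chS n lam g) + chS n lam g * chS n lam g := by
      intro g
      ring
    simp_rw [h5]
    rw [Finset.sum_add_distrib, Finset.sum_sub_distrib, ← Finset.mul_sum, h1, h2, h3]
    ring
  have h6 : ∀ g : Perm (Fin n), (JT (rv n lam) g : ℂ) - chS n lam g =
      ((((JT (rv n lam) g : ℝ)) - (chS n lam g).re : ℝ) : ℂ) := by
    intro g
    have h7 : chS n lam g = ((chS n lam g).re : ℂ) := by
      apply Complex.ext
      · simp
      · simp [chS_real]
    rw [h7]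
    push_cast
    simp
  have h8 : ∑ g : Perm (Fin n), ((JT (rv n lam) g : ℝ) - (chS n lam g).re) ^ 2 = 0 := by
    have h9 : ((∑ g : Perm (Fin n), ((JT (rv n lam) g : ℝ) - (chS n lam g).re) ^ 2 : ℝ) : ℂ) =
        0 := by
      rw [← h4]
      push_cast
      apply Finset.sum_congr rfl
      intro g _
      rw [h6]
      push_cast
      rfl
    exact_mod_cast h9
  have h10 := (Finset.sum_eq_zero_iff_of_nonneg (fun g _ => sq_nonneg _)).1 h8 g
    (Finset.mem_univ _)
  have h11 : (JT (rv n lam) g : ℝ) - (chS n lam g).re = 0 := by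
    exact pow_eq_zero_iff (two_ne_zero) |>.1 h10
  have h12 := h6 g
  rw [h11, Complex.ofReal_zero, sub_eq_zero] at h12
  exact h12

end Sx
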