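import Pool.Agent.Saxl2.JTDefs

/-! SAXL2 JG1: the trace of the swap composed with `A ⊗ A`. -/

namespace Sx

open Finset Equiv TensorProduct

theorem trace_comm_map {V : Type} [AddCommGroup V] [Module ℂ V] [FiniteDimensional ℂ V]
    (A : V →ₗ[ℂ] V) :
    LinearMap.trace ℂ (V ⊗[ℂ] V) ((TensorProduct.comm ℂ V V).toLinearMap ∘ₗ
      TensorProduct.map A A) = LinearMap.trace ℂ V (A ∘ₗ A) := by
  classical
  set b := Module.finBasis ℂ V with hb
  rw [LinearMap.trace_eq_matrix_trace ℂ (b.tensorProduct b), LinearMap.trace_eq_matrix_trace ℂ b,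
    LinearMap.toMatrix_comp b b b, Matrix.trace, Matrix.trace]
  simp only [Matrix.diag_apply, Matrix.mul_apply, LinearMap.toMatrix_apply]
  rw [Fintype.sum_prod_type]
  apply Finset.sum_congr rfl
  intro i _
  apply Finset.sum_congr rfl
  intro j _
  simp only [LinearMap.comp_apply, Module.Basis.tensorProduct_apply, TensorProduct.map_tmul,
    LinearEquiv.coe_coe, TensorProduct.comm_tmul, Module.Basis.tensorProduct_repr_tmul_apply,
    smul_eq_mul]
  ring

end Sx
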