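import Pool.Agent.Saxl2.JTDefs
import Pool.Agent.Saxl2.JG1

/-! SAXL2 JG2: multiplicities in the symmetric and exterior square. -/

namespace Sx

open Finset Equiv TensorProduct

/-- the action of the group with two elements on the tensor square -/
noncomputable def jg2b (V : Type) [AddCommGroup V] [Module ℂ V] (e : ℂ) (he : e * e = 1) :
    ℤˣ →* Module.End ℂ (V ⊗[ℂ] V) where
  toFun s := if s = 1 then 1 else e • (TensorProduct.comm ℂ V V).toLinearMap
  map_one' := by simp
  map_mul' s t := by
    rcases Int.units_eq_one_or s with rfl | rfl <;> rcases Int.units_eq_one_or t with rfl | rfl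
    · simp
    · simp
    · simp
    · have h1 : ((-1 : ℤˣ) * -1) = 1 := by simp
      have h2 : ¬ ((-1 : ℤˣ) = 1) := by decide
      rw [h1, if_pos rfl, if_neg h2]
      ext x y
      simp [smul_smul, he]

theorem jg2_commute {G V : Type} [Group G] [AddCommGroup V] [Module ℂ V]
    (ρ : Representation ℂ G V) (e : ℂ) (he : e * e = 1) (g : G) (s : ℤˣ) :
    Commute (Representation.tprod ρ ρ g) (jg2b V e he s) := by
  unfold Commute SemiconjBy
  rcases Int.units_eq_one_or s with rfl | rfl
  · simp
  · have h2 : ¬ ((-1 : ℤˣ) = 1) := by decide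
    have e1 : jg2b V e he (-1) = e • (TensorProduct.comm ℂ V V).toLinearMap := by
      simp [jg2b, h2]
    rw [e1]
    ext x y
    simp [Representation.tprod_apply]

/-- the action of `G × {1, -1}` on the tensor square -/
noncomputable def jg2tau {G V : Type} [Group G] [AddCommGroup V] [Module ℂ V]
    (ρ : Representation ℂ G V) (e : ℂ) (he : e * e = 1) :
    Representation ℂ (G × ℤˣ) (V ⊗[ℂ] V) :=
  MonoidHom.noncommCoprod (Representation.tprod ρ ρ) (jg2b V e he) (jg2_commute ρ e he)

theorem jg2tau_one {G V : Type} [Group G] [AddCommGroup V] [Module ℂ V]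
    (ρ : Representation ℂ G V) (e : ℂ) (he : e * e = 1) (g : G) :
    jg2tau ρ e he (g, 1) = TensorProduct.map (ρ g) (ρ g) := by
  simp [jg2tau, Representation.tprod_apply]

theorem jg2tau_neg {G V : Type} [Group G] [AddCommGroup V] [Module ℂ V]
    (ρ : Representation ℂ G V) (e : ℂ) (he : e * e = 1) (g : G) :
    jg2tau ρ e he (g, -1) = e • ((TensorProduct.comm ℂ V V).toLinearMap ∘ₗ
      TensorProduct.map (ρ g) (ρ g)) := by
  have h2 : ¬ ((-1 : ℤˣ) = 1) := by decide
  have e1 : jg2b V e he (-1) = e • (TensorProduct.comm ℂ V V).toLinearMap := by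
    simp [jg2b, h2]
  have e2 : jg2tau ρ e he (g, -1) = Representation.tprod ρ ρ g * jg2b V e he (-1) := rfl
  rw [e2, (jg2_commute ρ e he g (-1)).eq, e1]
  rfl

theorem square_mult {G V W : Type} [Group G] [Fintype G]
    [AddCommGroup V] [Module ℂ V] [FiniteDimensional ℂ V]
    [AddCommGroup W] [Module ℂ W] [FiniteDimensional ℂ W]
    (ρ : Representation ℂ G V) (σ : Representation ℂ G W) (e : ℂ) (he : e * e = 1)
    (U : Submodule ℂ (W →ₗ[ℂ] (V ⊗[ℂ] V)))
    (hU : ∀ φ : W →ₗ[ℂ] (V ⊗[ℂ] V), φ ∈ U ↔
      ((∀ v, TensorProduct.comm ℂ V V (φ v) = e • φ v) ∧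
        ∀ g v, φ (σ g v) = TensorProduct.map (ρ g) (ρ g) (φ v))) :
    ∑ g : G, (ρ.character g ^ 2 + e * ρ.character (g * g)) * σ.character g⁻¹ =
      2 * (Fintype.card G : ℂ) * (Module.finrank ℂ U : ℂ) := by
  classical
  set σ' : Representation ℂ (G × ℤˣ) W := σ.comp (MonoidHom.fst G ℤˣ) with hσ'
  have hσ'a : ∀ g s, σ' (g, s) = σ g := fun g s => rfl
  have hinv : (Representation.linHom σ' (jg2tau ρ e he)).invariants = U := by
    ext φ
    rw [Representation.mem_invariants, hU]
    simp only [Representation.linHom_apply]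
    constructor
    · intro h
      refine ⟨fun v => ?_, fun g v => ?_⟩
      · have h1 := LinearMap.congr_fun (h (1, -1)) v
        simp only [jg2tau_neg, LinearMap.comp_apply, Prod.inv_mk, hσ'a, inv_one, map_one,
          Module.End.one_apply, LinearMap.smul_apply, TensorProduct.map_one,
          LinearEquiv.coe_coe] at h1
        calc TensorProduct.comm ℂ V V (φ v) = (e * e) • TensorProduct.comm ℂ V V (φ v) := by
              rw [he, one_smul]
          _ = e • (e • TensorProduct.comm ℂ V V (φ v)) := mul_smul _ _ _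
          _ = e • φ v := by rw [h1]
      · have h1 := LinearMap.congr_fun (h (g, 1)) (σ g v)
        simp only [jg2tau_one, LinearMap.comp_apply, Prod.inv_mk, hσ'a] at h1
        rw [← h1]
        congr 1
        rw [← Module.End.mul_apply, ← map_mul]
        simp
    · rintro ⟨h1, h2⟩ ⟨g, s⟩
      have h3 : TensorProduct.map (ρ g) (ρ g) ∘ₗ φ ∘ₗ σ g⁻¹ = φ := by
        ext v
        simp only [LinearMap.comp_apply]
        rw [← h2 g, ← Module.End.mul_apply, ← map_mul]
        simp
      rcases Int.units_eq_one_or s with rfl | rfl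
      · rw [jg2tau_one]
        exact h3
      · rw [jg2tau_neg]
        have h4 : (e • ((TensorProduct.comm ℂ V V).toLinearMap ∘ₗ
            TensorProduct.map (ρ g) (ρ g))) ∘ₗ φ ∘ₗ σ' (g, -1)⁻¹ =
            e • ((TensorProduct.comm ℂ V V).toLinearMap ∘ₗ
              (TensorProduct.map (ρ g) (ρ g) ∘ₗ φ ∘ₗ σ g⁻¹)) := rfl
        rw [h4, h3]
        ext v
        simp only [LinearMap.smul_apply, LinearMap.comp_apply, LinearEquiv.coe_coe]
        rw [h1 v, smul_smul, he, one_smul]
  have hcard : (Nat.card (G × ℤˣ) : ℂ) = 2 * (Fintype.card G : ℂ) := by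
    rw [Nat.card_eq_fintype_card, Fintype.card_prod]
    have : Fintype.card ℤˣ = 2 := by decide
    rw [this]; push_cast; ring
  have hcard0 : (Nat.card (G × ℤˣ) : ℂ) ≠ 0 := by
    have : Nat.card (G × ℤˣ) ≠ 0 := Nat.card_pos.ne'
    exact_mod_cast this
  have : Invertible (Nat.card (G × ℤˣ) : ℂ) := invertibleOfNonzero hcard0
  have key := Representation.card_inv_mul_sum_char_eq_finrank
    (Representation.linHom σ' (jg2tau ρ e he))
  rw [hinv, inv_mul_eq_iff_eq_mul₀ hcard0, hcard] at key
  rw [← key, Fintype.sum_prod_type]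
  apply Finset.sum_congr rfl
  intro g _
  have hsum : ∀ f : ℤˣ → ℂ, ∑ s, f s = f 1 + f (-1) := by
    intro f
    have : (univ : Finset ℤˣ) = {1, -1} := by decide
    rw [this, Finset.sum_pair (by decide)]
  rw [hsum]
  simp only [Representation.char_linHom]
  have c1 : σ'.character (g, (1 : ℤˣ))⁻¹ = σ.character g⁻¹ := rfl
  have c2 : σ'.character (g, (-1 : ℤˣ))⁻¹ = σ.character g⁻¹ := rfl
  have c3 : (jg2tau ρ e he).character (g, 1) = ρ.character g ^ 2 := by
    unfold Representation.character
    rw [jg2tau_one, LinearMap.trace_tensorProduct']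
    ring
  have c4 : (jg2tau ρ e he).character (g, -1) = e * ρ.character (g * g) := by
    unfold Representation.character
    rw [jg2tau_neg, map_smul, trace_comm_map, smul_eq_mul, map_mul]
    rfl
  rw [c1, c2, c3, c4]
  ring

end Sx
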