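import Pool.Agent.Saxl2.JTDefs
import Pool.Agent.Saxl2.JF
import Pool.Agent.Saxl2.JG2

/-! SAXL2 JH: positivity of the character sums and constituents of the tensor square. -/

namespace Sx

open Finset Equiv TensorProduct

/-- the space of equivariant maps into the `e`-symmetric part of the tensor square. -/
noncomputable def jhU (n : ℕ) (lam mu : YoungDiagram) (e : ℂ) :
    Submodule ℂ (Specht n lam →ₗ[ℂ] (Specht n mu ⊗[ℂ] Specht n mu)) where
  carrier := {φ | (∀ v, TensorProduct.comm ℂ (Specht n mu) (Specht n mu) (φ v) = e • φ v) ∧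
    ∀ (g : Perm (Fin n)) (v : Specht n lam),
      φ (spechtAct lam g v) = TensorProduct.map (spechtAct mu g) (spechtAct mu g) (φ v)}
  add_mem' := by
    rintro φ ψ ⟨h1, h2⟩ ⟨h3, h4⟩
    refine ⟨fun v => ?_, fun g v => ?_⟩
    · rw [LinearMap.add_apply, map_add, h1, h3, smul_add]
    · rw [LinearMap.add_apply, LinearMap.add_apply, map_add, h2, h4]
  zero_mem' := by
    refine ⟨fun v => ?_, fun g v => ?_⟩
    · simp
    · simp
  smul_mem' := by
    rintro c φ ⟨h1, h2⟩
    refine ⟨fun v => ?_, fun g v => ?_⟩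
    · rw [LinearMap.smul_apply, map_smul, h1, smul_comm]
    · rw [LinearMap.smul_apply, LinearMap.smul_apply, map_smul, h2]

theorem jh_key {n : ℕ} (lam mu : YoungDiagram) (e : ℂ) (he : e * e = 1) :
    ∑ g : Perm (Fin n), (chS n mu g ^ 2 + e * chS n mu (g * g)) * chS n lam g =
      2 * (n.factorial : ℂ) * (Module.finrank ℂ (jhU n lam mu e) : ℂ) := by
  have h1 := square_mult (spRep n mu) (spRep n lam) e he (jhU n lam mu e) (fun φ => Iff.rfl)
  rw [Fintype.card_perm, Fintype.card_fin] at h1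
  rw [← h1]
  apply Finset.sum_congr rfl
  intro g _
  have h2 : (spRep n lam).character g⁻¹ = chS n lam g := chS_inv lam g
  rw [h2]
  rfl

theorem jh_inj {n : ℕ} {lam : YoungDiagram} (hl : lam.card = n) {M : Type} [AddCommGroup M]
    [Module ℂ M] (φ : Specht n lam →ₗ[ℂ] M) (B : Perm (Fin n) → M →ₗ[ℂ] M)
    (hB : ∀ g v, φ (spechtAct lam g v) = B g (φ v)) (hne : φ ≠ 0) : Function.Injective φ := by
  have hirr := je2_irr hl
  let K : Subrepresentation (spRep n lam) :=
    { toSubmodule := LinearMap.ker φ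
      apply_mem_toSubmodule := by
        intro g v hv
        have hv' : φ v = 0 := hv
        change φ (spechtAct lam g v) = 0
        rw [hB, hv', map_zero] }
  rcases eq_bot_or_eq_top K with h | h
  · rw [← LinearMap.ker_eq_bot]
    have : K.toSubmodule = (⊥ : Subrepresentation (spRep n lam)).toSubmodule := by rw [h]
    exact this
  · exfalso
    apply hne
    have : K.toSubmodule = (⊤ : Subrepresentation (spRep n lam)).toSubmodule := by rw [h]
    exact LinearMap.ker_eq_top.1 this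

theorem jh_inj2 {n : ℕ} {lam mu : YoungDiagram} (hl : lam.card = n)
    (φ : Specht n lam →ₗ[ℂ] (Specht n mu ⊗[ℂ] Specht n mu))
    (hB : ∀ (g : Perm (Fin n)) (v : Specht n lam),
      φ (spechtAct lam g v) = TensorProduct.map (spechtAct mu g) (spechtAct mu g) (φ v))
    (hne : φ ≠ 0) : Function.Injective φ := by
  refine jh_inj (M := Specht n mu ⊗[ℂ] Specht n mu) hl φ
    (fun g => TensorProduct.map (spechtAct mu g) (spechtAct mu g)) hB hne

theorem jh_ntr {n : ℕ} {lam : YoungDiagram} (hl : lam.card = n) :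
    Nontrivial (Specht n lam) := by
  by_contra hcon
  rw [not_nontrivial_iff_subsingleton] at hcon
  have h1 := chS_norm hl
  have h2 : ∀ g : Perm (Fin n), chS n lam g = 0 := by
    intro g
    unfold chS Representation.character
    rw [Subsingleton.elim (spRep n lam g) 0, map_zero]
  simp_rw [h2] at h1
  simp only [mul_zero, Finset.sum_const_zero] at h1
  exact n.factorial_ne_zero (by exact_mod_cast h1.symm)

theorem jh_pos {V W : Type} [AddCommGroup V] [Module ℂ V] [FiniteDimensional ℂ V]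
    [AddCommGroup W] [Module ℂ W] [FiniteDimensional ℂ W]
    (U : Submodule ℂ (W →ₗ[ℂ] (V ⊗[ℂ] V))) : 0 < Module.finrank ℂ U ↔ U ≠ ⊥ := by
  rw [pos_iff_ne_zero, ne_eq, ne_eq, not_iff_not]
  exact Submodule.finrank_eq_zero

theorem jh_iff {n : ℕ} {lam mu : YoungDiagram} (hl : lam.card = n) (e : ℂ) :
    0 < Module.finrank ℂ (jhU n lam mu e) ↔
      ∃ φ : Specht n lam →ₗ[ℂ] (Specht n mu ⊗[ℂ] Specht n mu),
        Function.Injective φ ∧
        (∀ v, TensorProduct.comm ℂ (Specht n mu) (Specht n mu) (φ v) = e • φ v) ∧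
        ∀ (g : Perm (Fin n)) (v : Specht n lam),
          φ (spechtAct lam g v) = TensorProduct.map (spechtAct mu g) (spechtAct mu g) (φ v) := by
  rw [jh_pos]
  constructor
  · intro h
    obtain ⟨φ, hφ, hne'⟩ := Submodule.exists_mem_ne_zero_of_ne_bot h
    have hinj : Function.Injective φ := jh_inj2 hl φ hφ.2 hne'
    exact ⟨φ, hinj, hφ.1, hφ.2⟩
  · rintro ⟨φ, hinj, h1, h2⟩
    have := jh_ntr hl
    obtain ⟨v, hv⟩ := exists_ne (0 : Specht n lam)
    intro h0
    have hmem : φ ∈ jhU n lam mu e := ⟨h1, h2⟩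
    rw [h0] at hmem
    have h3 : φ = 0 := (Submodule.mem_bot ℂ).1 hmem
    apply hv
    apply hinj
    rw [h3]
    rfl

theorem pos_iff_constSym {n : ℕ} {lam mu : YoungDiagram} (hl : lam.card = n) (hm : mu.card = n) :
    (0 < ∑ g : Perm (Fin n),
      (JT (rv n mu) g ^ 2 + JT (rv n mu) (g * g)) * JT (rv n lam) g) ↔ ConstSym n lam mu := by
  have h1 : ((∑ g : Perm (Fin n),
      (JT (rv n mu) g ^ 2 + JT (rv n mu) (g * g)) * JT (rv n lam) g : ℤ) : ℂ) =
      ((2 * (n.factorial : ℤ) * (Module.finrank ℂ (jhU n lam mu 1) : ℤ) : ℤ) : ℂ) := by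
    push_cast
    rw [← jh_key lam mu 1 (one_mul 1)]
    apply Finset.sum_congr rfl
    intro g _
    rw [jt_eq hl, jt_eq hm, jt_eq hm, one_mul]
  have h2 : ∑ g : Perm (Fin n),
      (JT (rv n mu) g ^ 2 + JT (rv n mu) (g * g)) * JT (rv n lam) g =
      2 * (n.factorial : ℤ) * (Module.finrank ℂ (jhU n lam mu 1) : ℤ) := by exact_mod_cast h1
  rw [h2]
  have h3 : (0 : ℤ) < 2 * (n.factorial : ℤ) := by
    have := n.factorial_pos
    positivity
  rw [mul_pos_iff_of_pos_left h3]
  have h4 : (0 : ℤ) < (Module.finrank ℂ (jhU n lam mu 1) : ℤ) ↔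
      0 < Module.finrank ℂ (jhU n lam mu 1) := by exact_mod_cast Iff.rfl
  rw [h4, jh_iff hl]
  unfold ConstSym
  simp only [one_smul]

theorem pos_iff_constAlt {n : ℕ} {lam mu : YoungDiagram} (hl : lam.card = n) (hm : mu.card = n) :
    (0 < ∑ g : Perm (Fin n),
      (JT (rv n mu) g ^ 2 - JT (rv n mu) (g * g)) * JT (rv n lam) g) ↔ ConstAlt n lam mu := by
  have h1 : ((∑ g : Perm (Fin n),
      (JT (rv n mu) g ^ 2 - JT (rv n mu) (g * g)) * JT (rv n lam) g : ℤ) : ℂ) =
      ((2 * (n.factorial : ℤ) * (Module.finrank ℂ (jhU n lam mu (-1)) : ℤ) : ℤ) : ℂ) := by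
    push_cast
    rw [← jh_key lam mu (-1) (by ring)]
    apply Finset.sum_congr rfl
    intro g _
    rw [jt_eq hl, jt_eq hm, jt_eq hm]
    ring
  have h2 : ∑ g : Perm (Fin n),
      (JT (rv n mu) g ^ 2 - JT (rv n mu) (g * g)) * JT (rv n lam) g =
      2 * (n.factorial : ℤ) * (Module.finrank ℂ (jhU n lam mu (-1)) : ℤ) := by exact_mod_cast h1
  rw [h2]
  have h3 : (0 : ℤ) < 2 * (n.factorial : ℤ) := by
    have := n.factorial_pos
    positivity
  rw [mul_pos_iff_of_pos_left h3]
  have h4 : (0 : ℤ) < (Module.finrank ℂ (jhU n lam mu (-1)) : ℤ) ↔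
      0 < Module.finrank ℂ (jhU n lam mu (-1)) := by exact_mod_cast Iff.rfl
  rw [h4, jh_iff hl]
  unfold ConstAlt
  have h5 : ∀ x : Specht n mu ⊗[ℂ] Specht n mu, (-1 : ℂ) • x = -x := fun x => neg_one_smul ℂ x
  simp only [h5]

end Sx
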