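import Mathlib
import Pool.Agent.Helper87.Saxl.FinDefs

/-!
Definitions for the comparison of the Jacobi-Trudi characters of the frozen statement S01025 with
the characters of the Specht modules of `FinDefs`.
-/

namespace Sx

open Finset Equiv TensorProduct

/-- the number of words `f : Fin n → Fin n` of content `α` fixed by `g`. -/
def xi {n : ℕ} (α : Fin n → ℤ) (g : Perm (Fin n)) : ℤ :=
  ((univ.filter (fun f : Fin n → Fin n =>
    (∀ i : Fin n, (((univ.filter (fun x : Fin n => f x = i)).card : ℕ) : ℤ) = α i) ∧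
      ∀ x : Fin n, f (g x) = f x)).card : ℤ)

/-- the content `lam i - i + σ i`. -/
def jtv {n : ℕ} (lam : Fin n → ℕ) (σ : Perm (Fin n)) (i : Fin n) : ℤ :=
  ((lam i : ℕ) : ℤ) - ((i.val : ℕ) : ℤ) + (((σ i).val : ℕ) : ℤ)

/-- the Jacobi-Trudi class function. -/
def JT {n : ℕ} (lam : Fin n → ℕ) (g : Perm (Fin n)) : ℤ :=
  ∑ σ : Perm (Fin n), ((Perm.sign σ : ℤˣ) : ℤ) * xi (jtv lam σ) g

/-- the number of matrices of natural numbers with given row sums and column sums. -/
noncomputable def marg {n : ℕ} (α β : Fin n → ℤ) : ℕ :=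
  Nat.card {A : Fin n → Fin n → ℕ // (∀ i, ((∑ j, A i j : ℕ) : ℤ) = α i) ∧
    ∀ j, ((∑ i, A i j : ℕ) : ℤ) = β j}

/-- the geometric series `∑ a, (X_i Y_j) ^ a`; the variables `X_i` are `Sum.inl i`, the variables
`Y_j` are `Sum.inr j`. -/
noncomputable def geo {n : ℕ} (i j : Fin n) : MvPowerSeries (Fin n ⊕ Fin n) ℚ := fun m =>
  if m = Finsupp.single (Sum.inl i) (m (Sum.inl i)) + Finsupp.single (Sum.inr j) (m (Sum.inl i))
  then 1 else 0

/-- the row lengths of a Young diagram. -/
def rv (n : ℕ) (lam : YoungDiagram) (i : Fin n) : ℕ := lam.rowLen i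

theorem permAct_one {n : ℕ} (f : (Fin n → ℕ) → ℂ) : permAct (1 : Perm (Fin n)) f = f := by
  funext w
  rfl

theorem permAct_mul {n : ℕ} (g h : Perm (Fin n)) (f : (Fin n → ℕ) → ℂ) :
    permAct (g * h) f = permAct g (permAct h f) := by
  funext w
  rfl

/-- the Specht module as a representation. -/
noncomputable def spRep (n : ℕ) (lam : YoungDiagram) :
    Representation ℂ (Perm (Fin n)) (Specht n lam) where
  toFun := fun g => spechtAct lam g
  map_one' := by
    ext f
    exact congrFun (permAct_one (f : (Fin n → ℕ) → ℂ)) _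
  map_mul' := fun g h => by
    ext f
    exact congrFun (permAct_mul g h (f : (Fin n → ℕ) → ℂ)) _

theorem tab_finite (n : ℕ) (lam : YoungDiagram) :
    {t : Fin n → ℕ × ℕ | IsTab t lam}.Finite := by
  refine Set.Finite.subset (Set.Finite.pi' (t := fun _ : Fin n => ((lam.cells : Finset (ℕ × ℕ)) : Set (ℕ × ℕ)))
    (fun _ => lam.cells.finite_toSet)) ?_
  intro t ht x
  have : t x ∈ lam := (ht.mem (t x)).2 ⟨x, rfl⟩
  exact this

instance specht_fd (n : ℕ) (lam : YoungDiagram) : FiniteDimensional ℂ (Specht n lam) := by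
  unfold Specht
  refine FiniteDimensional.span_of_finite ℂ ?_
  refine Set.Finite.subset ((tab_finite n lam).image polytabloid) ?_
  rintro e ⟨t, ht, rfl⟩
  exact ⟨t, ht, rfl⟩

/-- the character of the Specht module. -/
noncomputable def chS (n : ℕ) (lam : YoungDiagram) (g : Perm (Fin n)) : ℂ :=
  (spRep n lam).character g

end Sx
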