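import Mathlib
import Pool.Agent.Saxl2.JTDefs
import Pool.Agent.Helper87.Saxl.Defs

/-!
JI: Young diagrams from antitone functions; the staircase.
-/

namespace Sx

open Finset Equiv

/-- the diagram of an antitone function. -/
def diagOf {n : ℕ} (lam : Fin n → ℕ) (ha : Antitone lam) : YoungDiagram where
  cells := (univ : Finset (Fin n)).biUnion fun i => (range (lam i)).map
    ⟨fun j => (i.val, j), fun a b h => by simpa using h⟩
  isLowerSet := by
    rintro ⟨a, b⟩ ⟨c, d⟩ h hab
    simp only [Finset.coe_biUnion, Finset.coe_univ, Set.mem_univ, Set.iUnion_true,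
      Finset.coe_map, Function.Embedding.coeFn_mk, Set.mem_iUnion, Set.mem_image,
      Finset.coe_range, Set.mem_Iio, Prod.mk.injEq] at hab ⊢
    obtain ⟨h1, h2⟩ := Prod.mk_le_mk.1 h
    obtain ⟨i, j, hj, hi, rfl⟩ := hab
    refine ⟨⟨c, by omega⟩, d, ?_, rfl, rfl⟩
    have : lam i ≤ lam ⟨c, by omega⟩ := ha (by rw [Fin.le_def]; simp only; omega)
    omega

lemma mem_diagOf {n : ℕ} {lam : Fin n → ℕ} {ha : Antitone lam} {p : ℕ × ℕ} :
    p ∈ diagOf lam ha ↔ ∃ i : Fin n, i.val = p.1 ∧ p.2 < lam i := by
  show p ∈ (diagOf lam ha).cells ↔ _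
  simp only [diagOf, Finset.mem_biUnion, Finset.mem_univ, true_and, Finset.mem_map,
    Finset.mem_range, Function.Embedding.coeFn_mk]
  constructor
  · rintro ⟨i, j, hj, rfl⟩
    exact ⟨i, rfl, hj⟩
  · rintro ⟨i, hi, hp⟩
    exact ⟨i, p.2, hp, Prod.ext hi rfl⟩

theorem exists_diagram {n : ℕ} (lam : Fin n → ℕ) (ha : Antitone lam) (hs : ∑ i, lam i = n) :
    ∃ D : YoungDiagram, D.card = n ∧ rv n D = lam := by
  refine ⟨diagOf lam ha, ?_, ?_⟩
  · show (diagOf lam ha).cells.card = n
    unfold diagOf
    simp only
    rw [Finset.card_biUnion]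
    · simp only [Finset.card_map, Finset.card_range]
      exact hs
    · intro i _ j _ hij
      rw [Function.onFun, Finset.disjoint_left]
      intro p hp hq
      simp only [Finset.mem_map, Finset.mem_range, Function.Embedding.coeFn_mk] at hp hq
      obtain ⟨a, _, rfl⟩ := hp
      obtain ⟨b, _, hb⟩ := hq
      rw [Prod.mk.injEq] at hb
      exact hij (Fin.ext hb.1.symm)
  · funext i
    show (diagOf lam ha).rowLen i = lam i
    apply le_antisymm
    · by_contra hcon
      push Not at hcon
      have h1 : ((i : ℕ), lam i) ∈ diagOf lam ha := by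
        rw [YoungDiagram.mem_iff_lt_rowLen]
        exact hcon
      rw [mem_diagOf] at h1
      obtain ⟨i', hi', h2⟩ := h1
      have : i' = i := Fin.ext hi'
      rw [this] at h2
      simp at h2
    · by_contra hcon
      push Not at hcon
      have h1 : ¬ ((i : ℕ), (diagOf lam ha).rowLen i) ∈ diagOf lam ha := by
        rw [YoungDiagram.mem_iff_lt_rowLen]
        simp
      apply h1
      rw [mem_diagOf]
      exact ⟨i, rfl, hcon⟩

lemma stair_rowLen (k i : ℕ) : (stair k).rowLen i = k - i := by
  apply le_antisymm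
  · by_contra hcon
    push Not at hcon
    have h1 : (i, k - i) ∈ stair k := by
      rw [YoungDiagram.mem_iff_lt_rowLen]
      exact hcon
    rw [mem_stair] at h1
    simp only at h1
    omega
  · by_contra hcon
    push Not at hcon
    have h1 : ¬ (i, (stair k).rowLen i) ∈ stair k := by
      rw [YoungDiagram.mem_iff_lt_rowLen]
      simp
    apply h1
    rw [mem_stair]
    simp only
    omega

theorem rv_stair {k n : ℕ} (hn : n = k * (k + 1) / 2) :
    rv n (stair k) = fun i => k - i.val := by
  funext i
  exact stair_rowLen k i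

theorem stair_card (k : ℕ) : (stair k).card = k * (k + 1) / 2 := by
  have h1 : (stair k).card = ∑ i ∈ range k, (k - i) := by
    show (stair k).cells.card = _
    have h2 : (stair k).cells = ((range k).sigma (fun i => range (k - i))).map
        ⟨fun p => (p.1, p.2), fun a b h => by
          simp only [Prod.mk.injEq] at h
          exact Sigma.ext h.1 (heq_of_eq h.2)⟩ := by
      ext p
      simp only [Finset.mem_map, Finset.mem_sigma, Finset.mem_range,
        Function.Embedding.coeFn_mk]
      rw [YoungDiagram.mem_cells, mem_stair]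
      constructor
      · intro h
        exact ⟨⟨p.1, p.2⟩, ⟨by simp only; omega, by simp only; omega⟩, rfl⟩
      · rintro ⟨q, ⟨hq1, hq2⟩, rfl⟩
        simp only
        omega
    rw [h2, Finset.card_map, Finset.card_sigma]
    simp
  rw [h1]
  have h3 : ∑ i ∈ range k, (k - i) = ∑ i ∈ range k, (i + 1) := by
    rw [← Finset.sum_range_reflect (fun i => i + 1) k]
    apply Finset.sum_congr rfl
    intro i hi
    rw [Finset.mem_range] at hi
    omega
  rw [h3]
  have h4 : ∀ m : ℕ, (∑ i ∈ range m, (i + 1)) * 2 = m * (m + 1) := by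
    intro m
    induction m with
    | zero => simp
    | succ m ih =>
      rw [Finset.sum_range_succ, add_mul, ih]
      ring
  have h5 := h4 k
  omega

end Sx
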