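import Pool.Agent.Saxl2.JTDefs
import Pool.Agent.Saxl2.JH
import Pool.Agent.Saxl2.JI

/-! SAXL2 JJ: from the equivalence for Young diagrams to the frozen statement. -/

namespace Sx

open Finset Equiv TensorProduct

theorem jj_col {n : ℕ} (hn : 0 < n) (lam : Fin n → ℕ) (ha : Antitone lam)
    (hs : ∑ i, lam i = n) : lam ⟨0, hn⟩ = 1 ↔ lam = fun _ => 1 := by
  constructor
  · intro h
    have hle : ∀ i, lam i ≤ 1 := by
      intro i
      rw [← h]
      exact ha (Fin.mk_le_of_le_val (Nat.zero_le _))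
    funext i
    by_contra hne
    have hlt : ∑ i, lam i < ∑ _i : Fin n, 1 := by
      refine Finset.sum_lt_sum (fun i _ => hle i) ⟨i, Finset.mem_univ _, ?_⟩
      have := hle i
      omega
    rw [hs] at hlt
    simp at hlt
  · intro h
    rw [h]

theorem frozen_of_iff
    (H : ∀ k : ℕ, 1 ≤ k → ∀ lam : YoungDiagram, lam.card = k * (k + 1) / 2 →
      (ConstSym (k * (k + 1) / 2) lam (stair k) ↔ ¬ (k % 4 = 2 ∧ lam.rowLen 0 = 1))) :
    ∀ k : ℕ, 1 ≤ k → ∀ n : ℕ, n = k * (k + 1) / 2 →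
      ∀ χ : (Fin n → ℕ) → Equiv.Perm (Fin n) → ℤ,
        (∀ (lam : Fin n → ℕ) (g : Equiv.Perm (Fin n)),
          χ lam g = ∑ σ : Equiv.Perm (Fin n), ((Equiv.Perm.sign σ : ℤˣ) : ℤ) *
            ((Finset.univ.filter (fun f : Fin n → Fin n =>
                (∀ i : Fin n, (((Finset.univ.filter (fun x : Fin n => f x = i)).card : ℕ) : ℤ)
                    = ((lam i : ℕ) : ℤ) - ((i.val : ℕ) : ℤ) + (((σ i).val : ℕ) : ℤ)) ∧
                ∀ x : Fin n, f (g x) = f x)).card : ℤ)) →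
        ∀ lam : Fin n → ℕ, Antitone lam → ∑ i, lam i = n →
          (0 < ∑ g : Equiv.Perm (Fin n),
              (χ (fun i => k - i.val) g ^ 2 + χ (fun i => k - i.val) (g * g)) * χ lam g
            ↔ ¬ (k % 4 = 2 ∧ lam = fun _ => 1)) := by
  intro k hk n hn χ hχ lam ha hs
  have hχ' : ∀ (lam : Fin n → ℕ) (g : Perm (Fin n)), χ lam g = JT lam g := by
    intro lam g
    rw [hχ]
    rfl
  obtain ⟨D, hD, hrD⟩ := exists_diagram lam ha hs
  have hst : (stair k).card = n := by rw [stair_card, hn]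
  have h1 := pos_iff_constSym (n := n) (lam := D) (mu := stair k) hD hst
  rw [rv_stair hn, hrD] at h1
  simp_rw [hχ']
  rw [h1]
  have h2 := H k hk D (by rw [hD, hn])
  rw [← hn] at h2
  rw [h2]
  have hn0 : 0 < n := by
    rw [hn]
    have : 1 * (1 + 1) ≤ k * (k + 1) := Nat.mul_le_mul hk (by omega)
    omega
  have h3 : D.rowLen 0 = 1 ↔ lam = fun _ => 1 := by
    rw [← jj_col hn0 lam ha hs, ← hrD]
    rfl
  rw [h3]

end Sx
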