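import Mathlib
import Pool.Agent.Helper87.Saxl.Defs
import Pool.Agent.Helper87.Saxl.Jmap

namespace Sx

open Finset Equiv

/-! ### NA: the transposition of the staircase -/

theorem na_card {X : Type} [Fintype X] [DecidableEq X] {k : ℕ} {b : X → ℕ × ℕ}
    (hb : IsTab b (stair k)) : Fintype.card X = ∑ j ∈ range k, (k - j) := by
  rw [← Finset.card_univ, Finset.card_eq_sum_card_fiberwise (f := fun x => (b x).2) (t := range k)]
  · refine Finset.sum_congr rfl fun j _ => ?_
    exact jmap_cont hb 1 j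
  · intro x _
    have hm : b x ∈ stair k := (hb.mem _).2 ⟨x, rfl⟩
    rw [mem_stair] at hm
    simp only [coe_range, Set.mem_Iio]
    omega

theorem na_sum (k : ℕ) : ∑ j ∈ range k, (k - j) = k * (k + 1) / 2 := by
  have h1 : ∑ j ∈ range k, (k - j) = ∑ j ∈ range k, (j + 1) := by
    rw [← Finset.sum_range_reflect (fun j => j + 1) k]
    refine Finset.sum_congr rfl fun j hj => ?_
    rw [Finset.mem_range] at hj
    omega
  have h2 : ∑ j ∈ range k, (j + 1) = ∑ j ∈ range (k + 1), j := by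
    rw [Finset.sum_range_succ' (fun j => j) k]
    simp
  rw [h1, h2, Finset.sum_range_id]
  congr 1
  rw [Nat.add_sub_cancel, mul_comm]

theorem na_parity (k : ℕ) : ((-1 : ℤ) ^ ((k * (k + 1) / 2 - (k + 1) / 2) / 2)) =
    if k % 4 = 2 then -1 else 1 := by
  obtain ⟨q, hq⟩ : ∃ q, k = 4 * q + k % 4 := ⟨k / 4, (Nat.div_add_mod k 4).symm⟩
  have hr : k % 4 < 4 := Nat.mod_lt _ (by norm_num)
  obtain ⟨r, hr'⟩ : ∃ r, r = k % 4 := ⟨_, rfl⟩
  rw [← hr'] at hq hr
  interval_cases r
  · have e1 : k * (k + 1) / 2 = 2 * q * (4 * q + 1) := by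
      rw [hq, show (4 * q + 0) * (4 * q + 0 + 1) = 2 * (2 * q * (4 * q + 1)) by ring]
      exact Nat.mul_div_cancel_left _ (by norm_num)
    have e2 : (k + 1) / 2 = 2 * q := by omega
    have e3 : (2 * q * (4 * q + 1) - 2 * q) / 2 = 4 * q ^ 2 := by
      rw [show 2 * q * (4 * q + 1) = 2 * (4 * q ^ 2) + 2 * q by ring, Nat.add_sub_cancel]
      exact Nat.mul_div_cancel_left _ (by norm_num)
    rw [e1, e2, e3, ← hr', if_neg (by norm_num)]
    exact Even.neg_one_pow ⟨2 * q ^ 2, by ring⟩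
  · have e1 : k * (k + 1) / 2 = (4 * q + 1) * (2 * q + 1) := by
      rw [hq, show (4 * q + 1) * (4 * q + 1 + 1) = 2 * ((4 * q + 1) * (2 * q + 1)) by ring]
      exact Nat.mul_div_cancel_left _ (by norm_num)
    have e2 : (k + 1) / 2 = 2 * q + 1 := by omega
    have e3 : ((4 * q + 1) * (2 * q + 1) - (2 * q + 1)) / 2 = 2 * (q * (2 * q + 1)) := by
      rw [show (4 * q + 1) * (2 * q + 1) = 2 * (2 * (q * (2 * q + 1))) + (2 * q + 1) by ring,
        Nat.add_sub_cancel]
      exact Nat.mul_div_cancel_left _ (by norm_num)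
    rw [e1, e2, e3, ← hr', if_neg (by norm_num)]
    exact Even.neg_one_pow ⟨q * (2 * q + 1), by ring⟩
  · have e1 : k * (k + 1) / 2 = (2 * q + 1) * (4 * q + 3) := by
      rw [hq, show (4 * q + 2) * (4 * q + 2 + 1) = 2 * ((2 * q + 1) * (4 * q + 3)) by ring]
      exact Nat.mul_div_cancel_left _ (by norm_num)
    have e2 : (k + 1) / 2 = 2 * q + 1 := by omega
    have e3 : ((2 * q + 1) * (4 * q + 3) - (2 * q + 1)) / 2 = (2 * q + 1) ^ 2 := by
      rw [show (2 * q + 1) * (4 * q + 3) = 2 * (2 * q + 1) ^ 2 + (2 * q + 1) by ring,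
        Nat.add_sub_cancel]
      exact Nat.mul_div_cancel_left _ (by norm_num)
    rw [e1, e2, e3, ← hr', if_pos rfl]
    exact Odd.neg_one_pow ⟨2 * q ^ 2 + 2 * q, by ring⟩
  · have e1 : k * (k + 1) / 2 = (4 * q + 3) * (2 * q + 2) := by
      rw [hq, show (4 * q + 3) * (4 * q + 3 + 1) = 2 * ((4 * q + 3) * (2 * q + 2)) by ring]
      exact Nat.mul_div_cancel_left _ (by norm_num)
    have e2 : (k + 1) / 2 = 2 * q + 2 := by omega
    have e3 : ((4 * q + 3) * (2 * q + 2) - (2 * q + 2)) / 2 = 2 * ((q + 1) * (2 * q + 1)) := by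
      rw [show (4 * q + 3) * (2 * q + 2) = 2 * (2 * ((q + 1) * (2 * q + 1))) + (2 * q + 2) by ring,
        Nat.add_sub_cancel]
      exact Nat.mul_div_cancel_left _ (by norm_num)
    rw [e1, e2, e3, ← hr', if_neg (by norm_num)]
    exact Even.neg_one_pow ⟨(q + 1) * (2 * q + 1), by ring⟩

theorem exists_tau {X : Type} [Fintype X] [DecidableEq X] {k : ℕ} {b : X → ℕ × ℕ}
    (hb : IsTab b (stair k)) : ∃ τ : Perm X, (∀ x, b (τ x) = (b x).swap) ∧
      sg τ = if k % 4 = 2 then -1 else 1 := by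
  have hex : ∀ x, ∃ y, b y = (b x).swap := by
    intro x
    have hm : b x ∈ stair k := (hb.mem _).2 ⟨x, rfl⟩
    rw [mem_stair] at hm
    apply (hb.mem _).1
    rw [mem_stair]
    show (b x).2 + (b x).1 < k
    omega
  choose f hf using hex
  have hinv : Function.Involutive f := by
    intro x
    apply hb.inj
    rw [hf, hf, Prod.swap_swap]
  refine ⟨hinv.toPerm f, hf, ?_⟩
  have hsq : (hinv.toPerm f) ^ 2 = 1 := by
    ext x
    rw [pow_two, Perm.mul_apply, Perm.one_apply]
    exact hinv x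
  have hfix : Fintype.card (Function.fixedPoints (hinv.toPerm f)) = (k + 1) / 2 := by
    rw [← Fintype.card_fin ((k + 1) / 2)]
    have hdiag : ∀ i : Fin ((k + 1) / 2), ∃ x, b x = ((i : ℕ), (i : ℕ)) := by
      intro i
      apply (hb.mem _).1
      rw [mem_stair]
      show (i : ℕ) + (i : ℕ) < k
      have := i.2
      omega
    choose d hd using hdiag
    symm
    apply Fintype.card_of_bijective (f := fun i => (⟨d i, by
      show hinv.toPerm f (d i) = d i
      apply hb.inj
      show b (f (d i)) = b (d i)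
      rw [hf, hd]
      rfl⟩ : Function.fixedPoints (hinv.toPerm f)))
    constructor
    · intro i j h
      have h1 : d i = d j := congrArg Subtype.val h
      have h2 := hd i
      rw [h1, hd] at h2
      exact Fin.ext (congrArg Prod.fst h2).symm
    · rintro ⟨x, hx⟩
      have h1 : f x = x := hx
      have h2 := hf x
      rw [h1] at h2
      have h3 : (b x).1 = (b x).2 := congrArg Prod.fst h2
      have hm : b x ∈ stair k := (hb.mem _).2 ⟨x, rfl⟩
      rw [mem_stair] at hm
      refine ⟨⟨(b x).1, by omega⟩, ?_⟩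
      apply Subtype.ext
      apply hb.inj
      show b (d _) = b x
      rw [hd]
      exact Prod.ext rfl h3
  have hsign := Perm.sign_of_pow_two_eq_one hsq
  rw [hfix, na_card hb, na_sum] at hsign
  unfold sg
  rw [hsign]
  have := na_parity k
  push_cast
  have h4 : (((-1 : ℤ) ^ ((k * (k + 1) / 2 - (k + 1) / 2) / 2) : ℤ) : ℚ) =
      ((if k % 4 = 2 then -1 else 1 : ℤ) : ℚ) := by rw [this]
  push_cast at h4
  exact h4

end Sx
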