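import Mathlib
import Pool.Agent.Helper87.Saxl.Defs
import Pool.Agent.Helper87.Saxl.Jmap
import Pool.Agent.Helper87.Saxl.Inv
import Pool.Agent.Helper87.Saxl.Jinj
import Pool.Agent.Helper87.Saxl.Strip
import Pool.Agent.Saxl2.NA

/-!
NB: the sign character in the symmetric and exterior square of the staircase character.
-/

namespace Sx

open Finset Equiv

section

variable {X : Type} [Fintype X] [DecidableEq X]

theorem nb_main {k : ℕ} {b : X → ℕ × ℕ} (hb : IsTab b (stair k))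
    {F : (X → ℕ) → (X → ℕ) → ℚ} (hF : InVV k F)
    (halt : ∀ (g : Perm X) w₁ w₂, F (w₁ ∘ g) (w₂ ∘ g) = sg g * F w₁ w₂)
    {e : ℚ} (he : ∀ w₁ w₂, F w₂ w₁ = e * F w₁ w₂)
    {τ : Perm X} (hτ : ∀ x, b (τ x) = (b x).swap) (hne : e ≠ sg τ) :
    ∀ w₁ w₂, F w₁ w₂ = 0 := by
  set row : X → ℕ := fun x => (b x).1 with hrow
  set col : X → ℕ := fun x => (b x).2 with hcol
  have hrt : row ∘ τ = col := by
    funext x
    show (b (τ x)).1 = (b x).2
    rw [hτ]
    rfl
  have hct : col ∘ τ = row := by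
    funext x
    show (b (τ x)).2 = (b x).1
    rw [hτ]
    rfl
  have h1 : F row col = 0 := by
    have h2 := halt τ row col
    rw [hrt, hct, he] at h2
    have h3 : (e - sg τ) * F row col = 0 := by linarith
    exact (mul_eq_zero.1 h3).resolve_left (sub_ne_zero.2 hne)
  have hfV : InV k (F row) := hF.right row
  have hfr : ∀ r ∈ rowS b, ∀ w, F row (w ∘ r) = sg r * F row w := by
    intro r hr w
    have h2 : row ∘ r = row := by
      funext x
      exact jinj_mem_rowS.1 hr x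
    have h3 := halt r row w
    rwa [h2] at h3
  have hJr : ∀ r ∈ rowS b, ∀ w, J b (F row) (w ∘ r) = J b (F row) w := by
    intro r hr w
    have h2 := J_act b (F row) r w
    have h3 : (fun w => F row (w ∘ r)) = fun w => sg r * F row w := funext fun w => hfr r hr w
    rw [h3, jinj_J_smul] at h2
    exact (mul_left_cancel₀ (sg_ne_zero r) h2).symm
  have hJ0 : J b (F row) (fun x => (b x).1) = 0 := by
    unfold J
    refine Finset.sum_eq_zero fun σ _ => ?_
    split_ifs with h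
    · have hr : τ * σ ∈ rowS b := by
        rw [jinj_mem_rowS]
        intro x
        have h2 := congrFun h x
        rw [Perm.mul_apply, hτ]
        exact h2.symm
      have h3 : (fun x => (b (σ x)).1) = col ∘ (τ * σ : Perm X) := by
        funext x
        show (b (σ x)).1 = (b ((τ * σ) x)).2
        rw [Perm.mul_apply, hτ]
        rfl
      rw [h3, hfr _ hr, h1]
      ring
    · ring
  have hJ := uni hb (J_inV hb (F row)) hJr hJ0
  have hf := J_inj hb hfV hJ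
  intro w₁ w₂
  by_contra hw
  obtain ⟨g, hg⟩ := jinj_exists_perm ((hF.left w₂).cont w₁ hw) (jinj_cont_row hb)
  apply hw
  have h2 : w₂ = (w₂ ∘ (g⁻¹ : Perm X)) ∘ g := by
    funext x
    simp
  have h3 : w₁ = row ∘ g := hg
  rw [h2, h3, halt, hf]
  ring

/-- the signed sum over all permutations. -/
def nb_alt (F : (X → ℕ) → (X → ℕ) → ℚ) (w₁ w₂ : X → ℕ) : ℚ :=
  ∑ g : Perm X, sg g * F (w₁ ∘ g) (w₂ ∘ g)

theorem nb_alt_act (F : (X → ℕ) → (X → ℕ) → ℚ) (g : Perm X) (w₁ w₂ : X → ℕ) :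
    nb_alt F (w₁ ∘ g) (w₂ ∘ g) = sg g * nb_alt F w₁ w₂ := by
  unfold nb_alt
  rw [Finset.mul_sum, ← Equiv.sum_comp (Equiv.mulLeft g)
    (fun h : Perm X => sg g * (sg h * F (w₁ ∘ h) (w₂ ∘ h)))]
  refine Finset.sum_congr rfl fun h _ => ?_
  show sg h * F ((w₁ ∘ g) ∘ h) ((w₂ ∘ g) ∘ h) =
    sg g * (sg (g * h) * F (w₁ ∘ (g * h : Perm X)) (w₂ ∘ (g * h : Perm X)))
  have h1 : sg g * (sg (g * h)) = sg h := by
    rw [sg_mul, ← mul_assoc, sg_mul_self, one_mul]
  rw [← mul_assoc, h1]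
  rfl

theorem nb_alt_inVV {k : ℕ} {F : (X → ℕ) → (X → ℕ) → ℚ} (hF : InVV k F) :
    InVV k (nb_alt F) := by
  have hs : ∀ {f : (X → ℕ) → ℚ} (a : ℚ), InV k f → InV k (fun w => a * f w) := by
    intro f a hf
    have := jinj_inV_lin hf hf a 0
    simpa using this
  constructor
  · intro w₂
    exact jinj_inV_sum univ (fun (g : Perm X) w₁ => sg g * F (w₁ ∘ g) (w₂ ∘ g))
      (fun g _ => hs (sg g) (jinj_inV_act (hF.left (w₂ ∘ g)) g))
  · intro w₁
    exact jinj_inV_sum univ (fun (g : Perm X) w₂ => sg g * F (w₁ ∘ g) (w₂ ∘ g))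
      (fun g _ => hs (sg g) (jinj_inV_act (hF.right (w₁ ∘ g)) g))

theorem nb_YS {lam : YoungDiagram} (h1 : lam.rowLen 0 ≤ 1) {t : X → ℕ × ℕ} (ht : IsTab t lam)
    (F : (X → ℕ) → (X → ℕ) → ℚ) (w₁ w₂ : X → ℕ) : YS t F w₁ w₂ = nb_alt F w₁ w₂ := by
  have h0 : ∀ x, (t x).2 = 0 := by
    intro x
    have hm : t x ∈ lam := (ht.mem _).2 ⟨x, rfl⟩
    have h2 : ((t x).1, (t x).2) ∈ lam := hm
    rw [YoungDiagram.mem_iff_lt_rowLen] at h2
    have h3 := lam.rowLen_anti 0 (t x).1 (Nat.zero_le _)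
    omega
  have hc : colS t = univ := by
    ext c
    simp only [colS, Finset.mem_filter, Finset.mem_univ, true_and, iff_true]
    intro x
    rw [h0, h0]
  have hr : rowS t = {1} := by
    ext r
    simp only [rowS, Finset.mem_filter, Finset.mem_univ, true_and, Finset.mem_singleton]
    constructor
    · intro h
      ext x
      rw [Perm.one_apply]
      exact ht.inj (Prod.ext (h x) (by rw [h0, h0]))
    · rintro rfl x
      rfl
  unfold YS nb_alt
  rw [hc, hr]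
  refine Finset.sum_congr rfl fun c _ => ?_
  rw [Finset.sum_singleton]
  rfl

theorem nb_zero {k : ℕ} {lam : YoungDiagram} (h1 : lam.rowLen 0 ≤ 1) {t : X → ℕ × ℕ}
    (ht : IsTab t lam) {F : (X → ℕ) → (X → ℕ) → ℚ} (hF : InVV k F) {e : ℚ}
    (he : ∀ w₁ w₂, F w₂ w₁ = e * F w₁ w₂) (hne : e ≠ if k % 4 = 2 then -1 else 1) :
    ∀ w₁ w₂, YS t F w₁ w₂ = 0 := by
  intro w₁ w₂
  by_contra hw
  rw [nb_YS h1 ht] at hw
  have hV := nb_alt_inVV hF
  obtain ⟨b, hb⟩ := exists_tab_stair ((hV.left w₂).cont w₁ hw)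
  obtain ⟨τ, hτ, hs⟩ := exists_tau hb
  refine hw (nb_main hb hV (nb_alt_act F) (e := e) ?_ hτ (by rw [hs]; exact hne) w₁ w₂)
  intro v₁ v₂
  unfold nb_alt
  rw [Finset.mul_sum]
  refine Finset.sum_congr rfl fun g _ => ?_
  rw [he]
  ring

end

theorem not_symW_col {k : ℕ} {lam : YoungDiagram} (h1 : lam.rowLen 0 = 1) (hk : k % 4 = 2) :
    ¬ SymW k lam := by
  rintro ⟨X, _, _, t, F, ht, hF, hs, w₁, w₂, hw⟩
  refine hw (nb_zero h1.le ht hF (e := 1) (fun w₁ w₂ => by rw [hs, one_mul]) ?_ w₁ w₂)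
  rw [if_pos hk]
  norm_num

theorem not_altW_col {k : ℕ} {lam : YoungDiagram} (h1 : lam.rowLen 0 ≤ 1) (hk : k % 4 ≠ 2) :
    ¬ AltW k lam := by
  rintro ⟨X, _, _, t, F, ht, hF, hs, w₁, w₂, hw⟩
  refine hw (nb_zero h1 ht hF (e := -1) (fun w₁ w₂ => by rw [hs]; ring) ?_ w₁ w₂)
  rw [if_neg hk]
  norm_num

end Sx
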