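import Mathlib
import Pool.Agent.Helper87.Saxl.Defs
import Pool.Agent.Saxl2.XDefs

/-! Module XI: positivity. -/

namespace Sx

open Finset Equiv

variable {X Y Z : Type} [Fintype X] [DecidableEq X] [Fintype Y] [DecidableEq Y]
  [Fintype Z] [DecidableEq Z]

/-- relabelling of pairs of words. -/
def xi_act {L : Type} (g : Perm X) : ((X → L) × (X → L)) ≃ ((X → L) × (X → L)) where
  toFun u := (u.1 ∘ g, u.2 ∘ g)
  invFun u := (u.1 ∘ g.symm, u.2 ∘ g.symm)
  left_inv u := by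
    refine Prod.ext ?_ ?_ <;> funext x <;> simp
  right_inv u := by
    refine Prod.ext ?_ ?_ <;> funext x <;> simp

lemma xi_rowS_one (t : X → ℕ × ℕ) : (1 : Perm X) ∈ rowS t := by simp [rowS]

lemma xi_rowS_mul {t : X → ℕ × ℕ} {r s : Perm X} (hr : r ∈ rowS t) (hs : s ∈ rowS t) :
    r * s ∈ rowS t := by
  unfold rowS at *
  rw [Finset.mem_filter] at *
  refine ⟨Finset.mem_univ _, fun x => ?_⟩
  rw [Perm.mul_apply, hr.2, hs.2]

lemma xi_rowS_inv {t : X → ℕ × ℕ} {r : Perm X} (hr : r ∈ rowS t) : r⁻¹ ∈ rowS t := by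
  unfold rowS at *
  rw [Finset.mem_filter] at *
  refine ⟨Finset.mem_univ _, fun x => ?_⟩
  have := hr.2 (r⁻¹ x)
  rw [show r (r⁻¹ x) = x from r.apply_symm_apply x] at this
  exact this.symm

lemma xi_colS_inv {t : X → ℕ × ℕ} {r : Perm X} (hr : r ∈ colS t) : r⁻¹ ∈ colS t := by
  unfold colS at *
  rw [Finset.mem_filter] at *
  refine ⟨Finset.mem_univ _, fun x => ?_⟩
  have := hr.2 (r⁻¹ x)
  rw [show r (r⁻¹ x) = x from r.apply_symm_apply x] at this
  exact this.symm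

lemma xi_BF_inv {t : X → ℕ × ℕ} (F : (X → ℕ) → (X → ℕ) → ℚ) {s : Perm X} (hs : s ∈ rowS t)
    (w₁ w₂ : X → ℕ) :
    ∑ r ∈ rowS t, F ((w₁ ∘ s) ∘ r) ((w₂ ∘ s) ∘ r) = ∑ r ∈ rowS t, F (w₁ ∘ r) (w₂ ∘ r) := by
  refine Finset.sum_bij (fun r _ => s * r) ?_ ?_ ?_ ?_
  · intro r hr
    exact xi_rowS_mul hs hr
  · intro r _ r' _ h
    exact mul_left_cancel h
  · intro r hr
    exact ⟨s⁻¹ * r, xi_rowS_mul (xi_rowS_inv hs) hr, by simp⟩
  · intro r _
    rfl

theorem pos_ys {t : X → ℕ × ℕ} {F : (X → ℕ) → (X → ℕ) → ℚ} (N : ℕ)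
    (hN : ∀ w₁ w₂, F w₁ w₂ ≠ 0 → (∀ x, w₁ x < N) ∧ ∀ x, w₂ x < N)
    (ha : ∀ c ∈ colS t, ∀ w₁ w₂, F (w₁ ∘ c) (w₂ ∘ c) = sg c * F w₁ w₂)
    (h : ∃ w₁ w₂, ∑ r ∈ rowS t, F (w₁ ∘ r) (w₂ ∘ r) ≠ 0) : ∃ w₁ w₂, YS t F w₁ w₂ ≠ 0 := by
  by_contra hcon
  push Not at hcon
  obtain ⟨v₁, v₂, hv⟩ := h
  let W := (X → Fin N) × (X → Fin N)
  let T : (X → Fin N) → (X → ℕ) := fun u x => (u x : ℕ)
  let A : W → ℚ := fun u => F (T u.1) (T u.2)
  let B : W → ℚ := fun u => ∑ r ∈ rowS t, F (T u.1 ∘ r) (T u.2 ∘ r)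
  -- step 1
  have h1 : ((colS t).card : ℚ) * ∑ u, B u * A u = 0 := by
    have h2 : ∀ u : W, (∑ c ∈ colS t, sg c * B (xi_act c u)) = 0 := by
      intro u
      have := hcon (T u.1) (T u.2)
      unfold YS at this
      rw [← this]
      refine Finset.sum_congr rfl fun c _ => ?_
      rw [Finset.mul_sum]
      rfl
    have h3 : ∑ u : W, (∑ c ∈ colS t, sg c * B (xi_act c u)) * A u = 0 := by
      refine Finset.sum_eq_zero fun u _ => ?_
      rw [h2, zero_mul]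
    have h4 : ∑ u : W, (∑ c ∈ colS t, sg c * B (xi_act c u)) * A u =
        ∑ c ∈ colS t, ∑ u : W, B u * A u := by
      simp only [Finset.sum_mul]
      rw [Finset.sum_comm]
      refine Finset.sum_congr rfl fun c hc => ?_
      refine Fintype.sum_equiv (xi_act c) _ _ fun u => ?_
      have h5 : A (xi_act c u) = sg c * A u := ha c hc (T u.1) (T u.2)
      rw [h5]
      ring
    rw [h3, Finset.sum_const, nsmul_eq_mul] at h4
    exact h4.symm
  have hc : ((colS t).card : ℚ) ≠ 0 := by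
    rw [Nat.cast_ne_zero]
    apply Finset.card_ne_zero_of_mem (a := (1 : Perm X))
    simp [colS]
  have h6 : ∑ u, B u * A u = 0 := (mul_eq_zero.1 h1).resolve_left hc
  -- step 2
  have h7 : ∑ u, B u * B u = 0 := by
    have h8 : ∑ u, B u * B u = ∑ r ∈ rowS t, ∑ u : W, B u * A u := by
      have h9 : ∀ u : W, B u * B u = ∑ r ∈ rowS t, B u * A (xi_act r u) := by
        intro u
        rw [← Finset.mul_sum]
        rfl
      simp only [h9]
      rw [Finset.sum_comm]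
      refine Finset.sum_congr rfl fun r hr => ?_
      refine Fintype.sum_equiv (xi_act r) _ _ fun u => ?_
      have h10 : B (xi_act r u) = B u := xi_BF_inv F hr (T u.1) (T u.2)
      rw [h10]
    rw [h8, h6, Finset.sum_const, smul_zero]
  have h11 : ∀ u : W, B u = 0 := by
    intro u
    have h12 := (Finset.sum_eq_zero_iff_of_nonneg
      (fun u _ => mul_self_nonneg (B u))).1 h7 u (Finset.mem_univ u)
    exact mul_self_eq_zero.1 h12
  -- step 3
  obtain ⟨r, hr, hne⟩ := Finset.exists_ne_zero_of_sum_ne_zero hv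
  obtain ⟨k1, k2⟩ := hN _ _ hne
  have g1 : ∀ x, v₁ x < N := fun x => by
    have := k1 (r⁻¹ x)
    simpa using this
  have g2 : ∀ x, v₂ x < N := fun x => by
    have := k2 (r⁻¹ x)
    simpa using this
  have := h11 (fun x => ⟨v₁ x, g1 x⟩, fun x => ⟨v₂ x, g2 x⟩)
  exact hv this

lemma xi_uc_lt {m₀ m₁ : ℕ} {w : Z → ℕ} (h : ∀ j, cnt w j = uc m₀ m₁ j) (x : Z) : w x < 2 := by
  by_contra hx
  have h1 := h (w x)
  have h2 : uc m₀ m₁ (w x) = 0 := by
    unfold uc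
    rw [if_neg (by omega), if_neg (by omega)]
  rw [h2] at h1
  unfold cnt at h1
  rw [Finset.card_eq_zero, Finset.filter_eq_empty_iff] at h1
  exact h1 (Finset.mem_univ x) rfl

theorem ue_ys {m₀ m₁ : ℕ} {e : ℚ} {q : Z → ℕ × ℕ} {E : (Z → ℕ) → (Z → ℕ) → ℚ}
    (h : UE m₀ m₁ e q E) : ∃ w₁ w₂, YS q E w₁ w₂ ≠ 0 := by
  refine pos_ys 2 ?_ h.alt ?_
  · intro w₁ w₂ hw
    exact ⟨xi_uc_lt ((h.aa.left w₂).cont w₁ hw), xi_uc_lt ((h.aa.right w₁).cont w₂ hw)⟩
  · by_contra hcon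
    push Not at hcon
    apply h.pp
    let T : (Z → Fin 2) → (Z → ℕ) := fun u x => (u x : ℕ)
    let M : (Z → Fin 2) × (Z → Fin 2) → MvPolynomial (Fin 2 × Fin 2 × ℕ) ℚ :=
      fun u => ∏ z, MvPolynomial.X (u.1 z, u.2 z, (q z).1)
    have h0 : PP q E = ∑ u : (Z → Fin 2) × (Z → Fin 2), MvPolynomial.C (E (T u.1) (T u.2)) * M u := by
      unfold PP
      rw [Fintype.sum_prod_type]
    have h1 : ∀ r ∈ rowS q, PP q E =
        ∑ u : (Z → Fin 2) × (Z → Fin 2), MvPolynomial.C (E (T u.1 ∘ r) (T u.2 ∘ r)) * M u := by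
      intro r hr
      rw [h0]
      refine (Fintype.sum_equiv (xi_act r) _ _ fun u => ?_).symm
      have h2 : M (xi_act r u) = M u := by
        show ∏ z, MvPolynomial.X (u.1 (r z), u.2 (r z), (q z).1) =
          ∏ z, MvPolynomial.X (u.1 z, u.2 z, (q z).1)
        rw [← Equiv.prod_comp r (fun z => (MvPolynomial.X (u.1 z, u.2 z, (q z).1) :
          MvPolynomial (Fin 2 × Fin 2 × ℕ) ℚ))]
        refine Finset.prod_congr rfl fun z _ => ?_
        have h3 : (q (r z)).1 = (q z).1 := by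
          unfold rowS at hr
          exact (Finset.mem_filter.1 hr).2 z
        rw [h3]
      rw [h2]
      rfl
    have h4 : ((rowS q).card : MvPolynomial (Fin 2 × Fin 2 × ℕ) ℚ) * PP q E = 0 := by
      have h5 : ∑ r ∈ rowS q, PP q E = ∑ r ∈ rowS q,
          ∑ u : (Z → Fin 2) × (Z → Fin 2), MvPolynomial.C (E (T u.1 ∘ r) (T u.2 ∘ r)) * M u :=
        Finset.sum_congr rfl h1
      rw [Finset.sum_const, nsmul_eq_mul, Finset.sum_comm] at h5
      rw [h5]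
      refine Finset.sum_eq_zero fun u _ => ?_
      rw [← Finset.sum_mul, ← map_sum, hcon (T u.1) (T u.2), map_zero, zero_mul]
    have hc : ((rowS q).card : MvPolynomial (Fin 2 × Fin 2 × ℕ) ℚ) ≠ 0 := by
      rw [Nat.cast_ne_zero]
      exact Finset.card_ne_zero_of_mem (xi_rowS_one q)
    exact (mul_eq_zero.1 h4).resolve_left hc

end Sx
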