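import Mathlib
import Pool.Agent.Saxl2.XDefs

/-!
Definitions for the last part of the proof of the refined Saxl conjecture (MP_2a22ca_al):
shapes and lists of row lengths.
-/

namespace Sx

open Finset Equiv

/-- `lam` is a constituent of the tensor square at level `k`. -/
def VW (k : ℕ) (lam : YoungDiagram) : Prop :=
  ∃ (X : Type) (_ : Fintype X) (_ : DecidableEq X) (t : X → ℕ × ℕ) (F : (X → ℕ) → (X → ℕ) → ℚ),
    IsTab t lam ∧ InVV k F ∧ ∃ w₁ w₂, YS t F w₁ w₂ ≠ 0

/-- number of cells of the staircase. -/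
def nk (k : ℕ) : ℕ := k * (k + 1) / 2

/-- number of cells below the first row. -/
def rest (lam : YoungDiagram) : ℕ := lam.card - lam.rowLen 0

/-- the shapes `(5,5)`, `(5,5,5)`, `(6,5,5,5)`, `(7,6,5,5,5)`, ... at the levels `4, 5, 6, ...`. -/
def Chain (k : ℕ) (lam : YoungDiagram) : Prop :=
  4 ≤ k ∧ ∀ i, lam.rowLen i = if i + 5 < k then k - i else if i + 2 < k then 5 else 0

/-- good shapes at level `k`: all shapes with at least three and at most `k` rows, both signs. -/
def GG (k : ℕ) : Prop :=
  ∀ lam : YoungDiagram, lam.card = nk k → 3 ≤ lam.colLen 0 → lam.colLen 0 ≤ k →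
    GoodW k 1 lam ∧ GoodW k (-1) lam

/-- symmetric square at level `k`. -/
def SS (k : ℕ) : Prop :=
  ∀ lam : YoungDiagram, lam.card = nk k → ¬ (lam.rowLen 0 = 1 ∧ k % 4 = 2) → SymW k lam

/-- the exceptions in the exterior square at level `k`. -/
def ExcA (k : ℕ) (lam : YoungDiagram) : Prop :=
  rest lam ≤ 1 ∨ (rest lam = 2 ∧ lam.rowLen 1 = 2) ∨ (lam.rowLen 0 = 1 ∧ k % 4 ≠ 2) ∨
    (k = 3 ∧ lam.rowLen 0 = 2 ∧ lam.rowLen 2 = 2)

/-- exterior square at level `k`. -/
def AA (k : ℕ) : Prop :=
  ∀ lam : YoungDiagram, lam.card = nk k → ¬ ExcA k lam → AltW k lam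

/-- the `Zfree` part at level `k`. -/
def WWk (k : ℕ) : Prop :=
  ∀ lam : YoungDiagram, lam.card = nk k → 2 ≤ rest lam → ¬ Chain k lam → WW k lam

/-- the Young diagram with row lengths `l` (empty if `l` is not weakly decreasing). -/
def YD (l : List ℕ) : YoungDiagram :=
  if h : l.SortedGE then YoungDiagram.ofRowLens l h else ⊥

/-- the list of the partitions of `n` with parts at most `m` (with fuel `f`). -/
def partsAux : ℕ → ℕ → ℕ → List (List ℕ)
  | 0, n, _ => if n = 0 then [[]] else []
  | f + 1, n, m =>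
    if n = 0 then [[]] else
      ((List.range (min n m)).reverse.map (· + 1)).flatMap fun i =>
        (partsAux f (n - i) i).map (i :: ·)

/-- the list of the partitions of `n`. -/
def parts (n : ℕ) : List (List ℕ) := partsAux n n n

/-- row length of a list. -/
def rl (l : List ℕ) (i : ℕ) : ℕ := l.getD i 0

/-- column length of a list. -/
def cl (l : List ℕ) (j : ℕ) : ℕ := (l.filter fun a => decide (j < a)).length

/-- check of a horizontal strip (row criterion). -/
def hsL (m : ℕ) (nu lam : List ℕ) : Bool :=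
  (decide (lam.sum = nu.sum + m)) && (List.range (lam.length + nu.length + 1)).all fun i =>
    decide (rl nu i ≤ rl lam i) && decide (rl lam (i + 1) ≤ rl nu i)

/-- check of a skew shape with at most four cells in each column. -/
def csL (m : ℕ) (nu lam : List ℕ) : Bool :=
  (decide (lam.sum = nu.sum + m)) && (List.range (lam.length + nu.length + 1)).all fun i =>
    decide (rl nu i ≤ rl lam i) && decide (rl lam (i + 4) ≤ rl nu i)

/-- number of columns with `h` cells. -/
def ncL (nu lam : List ℕ) (h : ℕ) : ℕ :=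
  ((List.range (rl lam 0)).filter fun j => decide (cl lam j - cl nu j = h)).length

/-- the sign: `true` for `+1`. -/
def dlL (nu lam : List ℕ) : Bool :=
  (decide (ncL nu lam 4 % 2 = 0)) == !(decide (ncL nu lam 3 % 2 = 1 ∧ ncL nu lam 2 % 2 = 0))

end Sx
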