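import Mathlib
import Pool.Agent.Helper87.Saxl.Defs
import Pool.Agent.Helper87.Saxl.Both
import Pool.Agent.Saxl2.NA
import Pool.Agent.Saxl2.JI
import Pool.Agent.Saxl2.XI
import Pool.Agent.Saxl2.YDefs

/-!
Module YB2: the shape `(2, 1, ..., 1)`.
-/

namespace Sx

open Finset Equiv

variable {X : Type} [Fintype X] [DecidableEq X]

/-- the sign function of the tensor square. -/
def YB2F (b : X → ℕ × ℕ) (w₁ w₂ : X → ℕ) : ℚ :=
  ∑ s : Perm X, sg s * (if w₂ = (fun x => (b (s x)).2) then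
    (if w₁ = (fun x => (b (s x)).1) then 1 else 0) else 0)

/-- partial class sums applied to the first variable. -/
def YB2G (b : X → ℕ × ℕ) (A : Finset (Perm X)) (w₁ w₂ : X → ℕ) : ℚ :=
  ∑ g ∈ A, YB2F b (w₁ ∘ g) w₂

lemma YB2F_right {k : ℕ} {b : X → ℕ × ℕ} (hb : IsTab b (stair k)) (w₁ : X → ℕ) :
    InV k (YB2F b w₁) :=
  J_inV hb (fun w => if w₁ = w then 1 else 0)

lemma YB2F_swap {b : X → ℕ × ℕ} {τ : Perm X} (hτ : ∀ x, b (τ x) = (b x).swap) (w₁ w₂ : X → ℕ) :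
    YB2F b w₂ w₁ = sg τ * YB2F b w₁ w₂ := by
  unfold YB2F
  rw [Finset.mul_sum]
  refine Fintype.sum_equiv (Equiv.mulLeft τ⁻¹) _ _ fun s => ?_
  have hτ' : ∀ x, b (τ⁻¹ x) = (b x).swap := fun x => by
    have := hτ (τ⁻¹ x)
    rw [show τ (τ⁻¹ x) = x from τ.apply_symm_apply x] at this
    rw [this, Prod.swap_swap]
  simp only [Equiv.coe_mulLeft, sg_mul, sg_inv, Perm.mul_apply, hτ', Prod.fst_swap, Prod.snd_swap]
  have h := sg_mul_self τ
  rw [← mul_assoc, ← mul_assoc, h, one_mul]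
  congr 1
  by_cases h1 : w₁ = fun x => (b (s x)).2 <;> by_cases h2 : w₂ = fun x => (b (s x)).1 <;>
    simp [h1, h2]

lemma YB2F_inVV {k : ℕ} {b : X → ℕ × ℕ} (hb : IsTab b (stair k)) : InVV k (YB2F b) := by
  obtain ⟨τ, hτ, -⟩ := exists_tau hb
  refine ⟨fun w₂ => ?_, YB2F_right hb⟩
  have h : (fun w₁ => YB2F b w₁ w₂) = fun w₁ => sg τ * YB2F b w₂ w₁ := by
    funext w₁
    exact YB2F_swap hτ w₂ w₁
  rw [h]
  exact (YB2F_right hb w₂).both_smul (sg τ)

lemma YB2F_comp (b : X → ℕ × ℕ) (w₁ w₂ : X → ℕ) (g : Perm X) :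
    YB2F b (w₁ ∘ g) (w₂ ∘ g) = sg g * YB2F b w₁ w₂ := by
  unfold YB2F
  rw [Finset.mul_sum]
  refine Fintype.sum_equiv (Equiv.mulRight g⁻¹) _ _ fun s => ?_
  have e : ∀ (w v : X → ℕ), (w ∘ g = fun x => v x) ↔ w = fun x => v (g⁻¹ x) := by
    intro w v
    constructor
    · intro h
      funext x
      have := congrFun h (g⁻¹ x)
      simpa using this
    · intro h
      funext x
      rw [h]
      simp
  show sg s * (if w₂ ∘ g = (fun x => (b (s x)).2) then
      (if w₁ ∘ g = (fun x => (b (s x)).1) then 1 else 0) else 0) =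
    sg g * (sg (s * g⁻¹) * (if w₂ = (fun x => (b ((s * g⁻¹) x)).2) then
      (if w₁ = (fun x => (b ((s * g⁻¹) x)).1) then 1 else 0) else 0))
  have h := sg_mul_self g
  rw [sg_mul, sg_inv, ← mul_assoc, show sg g * (sg s * sg g) = sg s * (sg g * sg g) by ring, h,
    mul_one]
  congr 1
  have e1 : (w₂ ∘ g = fun x => (b (s x)).2) ↔ w₂ = fun x => (b ((s * g⁻¹) x)).2 :=
    e w₂ (fun x => (b (s x)).2)
  have e2 : (w₁ ∘ g = fun x => (b (s x)).1) ↔ w₁ = fun x => (b ((s * g⁻¹) x)).1 :=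
    e w₁ (fun x => (b (s x)).1)
  by_cases h1 : w₂ ∘ g = fun x => (b (s x)).2
  · rw [if_pos h1, if_pos (e1.1 h1)]
    by_cases h2 : w₁ ∘ g = fun x => (b (s x)).1
    · rw [if_pos h2, if_pos (e2.1 h2)]
    · rw [if_neg h2, if_neg fun h3 => h2 (e2.2 h3)]
  · rw [if_neg h1, if_neg fun h3 => h1 (e1.2 h3)]

lemma YB2G_inVV {k : ℕ} {b : X → ℕ × ℕ} (hb : IsTab b (stair k)) (A : Finset (Perm X)) :
    InVV k (YB2G b A) := by
  refine ⟨fun w₂ => ?_, fun w₁ => ?_⟩
  · exact InV.both_sum A fun g _ => ((YB2F_inVV hb).left w₂).both_comp g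
  · exact InV.both_sum A fun g _ => (YB2F_inVV hb).right (w₁ ∘ g)

lemma YB2G_swap {b : X → ℕ × ℕ} {τ : Perm X} (hτ : ∀ x, b (τ x) = (b x).swap)
    {A : Finset (Perm X)} {e : ℚ} (hA : ∀ g ∈ A, g⁻¹ ∈ A) (he : ∀ g ∈ A, sg g = e)
    (w₁ w₂ : X → ℕ) : YB2G b A w₂ w₁ = (e * sg τ) * YB2G b A w₁ w₂ := by
  unfold YB2G
  rw [Finset.mul_sum]
  refine Finset.sum_bij (fun g _ => g⁻¹) hA ?_ ?_ ?_
  · intro a _ c _ h
    exact inv_injective h
  · intro c hc
    exact ⟨c⁻¹, hA c hc, inv_inv c⟩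
  · intro g hg
    rw [YB2F_swap hτ w₁ (w₂ ∘ g)]
    have h1 : YB2F b w₁ (w₂ ∘ g) = sg g * YB2F b (w₁ ∘ (g⁻¹ : Perm X)) w₂ := by
      rw [← YB2F_comp]
      congr 1
      funext x
      simp
    rw [h1, he g hg]
    ring

lemma YB2G_comp {b : X → ℕ × ℕ} {A : Finset (Perm X)} {c : Perm X}
    (hA : ∀ g, c * g * c⁻¹ ∈ A ↔ g ∈ A) (w₁ w₂ : X → ℕ) :
    YB2G b A (w₁ ∘ c) (w₂ ∘ c) = sg c * YB2G b A w₁ w₂ := by
  unfold YB2G
  rw [Finset.mul_sum]
  refine Finset.sum_bij (fun g _ => c * g * c⁻¹) ?_ ?_ ?_ ?_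
  · intro g hg
    exact (hA g).2 hg
  · intro a _ a' _ h
    simpa using h
  · intro g hg
    refine ⟨c⁻¹ * g * c, ?_, ?_⟩
    · rw [← hA]
      have : c * (c⁻¹ * g * c) * c⁻¹ = g := by group
      rwa [this]
    · group
  · intro g _
    rw [← YB2F_comp]
    congr 1
    funext x
    simp

lemma YB2F_val {b : X → ℕ × ℕ} (hb : Function.Injective b) :
    YB2F b (fun x => (b x).1) (fun x => (b x).2) = 1 := by
  unfold YB2F
  rw [Finset.sum_eq_single 1]
  · simp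
  · intro s _ hs
    have : ¬ ((fun x => (b x).2) = (fun x => (b (s x)).2) ∧
        (fun x => (b x).1) = (fun x => (b (s x)).1)) := by
      rintro ⟨h1, h2⟩
      apply hs
      ext x
      rw [Perm.one_apply]
      exact (hb (Prod.ext (congrFun h2 x) (congrFun h1 x))).symm
    by_cases h1 : (fun x => (b x).2) = (fun x => (b (s x)).2)
    · rw [if_pos h1, if_neg fun h2 => this ⟨h1, h2⟩, mul_zero]
    · rw [if_neg h1, mul_zero]
  · intro h
    exact absurd (Finset.mem_univ _) h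

lemma YB2F_ne {k : ℕ} {b : X → ℕ × ℕ} (hb : IsTab b (stair k)) {w₁ : X → ℕ}
    (h : YB2F b w₁ (fun x => (b x).2) ≠ 0) (x : X) : w₁ x + (b x).2 < k := by
  unfold YB2F at h
  obtain ⟨s, -, hs⟩ := Finset.exists_ne_zero_of_sum_ne_zero h
  have h1 : (fun x => (b x).2) = (fun x => (b (s x)).2) := by
    by_contra h1
    exact hs (by rw [if_neg h1, mul_zero])
  have h2 : w₁ = (fun x => (b (s x)).1) := by
    by_contra h2
    exact hs (by rw [if_pos h1, if_neg h2, mul_zero])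
  have h3 := congrFun h1 x
  have h4 := congrFun h2 x
  have h5 : b (s x) ∈ stair k := (hb.mem _).2 ⟨_, rfl⟩
  rw [mem_stair] at h5
  have h6 : (b x).2 = (b (s x)).2 := h3
  have h7 : w₁ x = (b (s x)).1 := h4
  omega

lemma YB2G_val {k : ℕ} {b : X → ℕ × ℕ} (hb : IsTab b (stair k)) {A : Finset (Perm X)}
    {g₀ : Perm X} (h0 : g₀ ∈ A)
    (hu : ∀ g ∈ A, (∀ x, (b (g₀⁻¹ (g x))).1 + (b x).2 < k) → g = g₀) :
    YB2G b A (fun x => (b (g₀⁻¹ x)).1) (fun x => (b x).2) = 1 := by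
  unfold YB2G
  rw [Finset.sum_eq_single g₀]
  · rw [← YB2F_val hb.inj]
    congr 1
    funext x
    simp
  · intro g hg hne
    by_contra h
    exact hne (hu g hg fun x => YB2F_ne hb h x)
  · intro h
    exact absurd h0 h

omit [DecidableEq X] in
lemma YB2_tab {k : ℕ} (hk : 3 ≤ k) (hX : Fintype.card X = nk k) {x₀ x₁ : X} (hx : x₀ ≠ x₁) :
    ∃ b : X → ℕ × ℕ, IsTab b (stair k) ∧ b x₀ = (k - 1, 0) ∧ b x₁ = (0, 0) := by
  have hc : Fintype.card X = Fintype.card (stair k).cells := by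
    rw [hX, Fintype.card_coe]
    exact (stair_card k).symm
  have p0 : (k - 1, 0) ∈ (stair k).cells := by
    show (k - 1, 0) ∈ stair k
    rw [mem_stair]
    show k - 1 + 0 < k
    omega
  have p1 : (0, 0) ∈ (stair k).cells := by
    show (0, 0) ∈ stair k
    rw [mem_stair]
    show 0 + 0 < k
    omega
  let e : X ≃ (stair k).cells := Fintype.equivOfCardEq hc
  let e1 : X ≃ (stair k).cells := e.trans (swap (e x₀) ⟨_, p0⟩)
  let e2 : X ≃ (stair k).cells := e1.trans (swap (e1 x₁) ⟨_, p1⟩)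
  have h1 : e1 x₀ = ⟨_, p0⟩ := by simp [e1]
  have h2 : e2 x₁ = ⟨_, p1⟩ := by simp [e2]
  have h3 : e2 x₀ = ⟨_, p0⟩ := by
    show swap (e1 x₁) ⟨_, p1⟩ (e1 x₀) = _
    rw [h1]
    apply swap_apply_of_ne_of_ne
    · rw [← h1]
      exact fun h => hx (e1.injective h)
    · intro h
      have h4 : (k - 1, 0) = ((0, 0) : ℕ × ℕ) := congrArg Subtype.val h
      have h5 : k - 1 = 0 := congrArg Prod.fst h4
      omega
  refine ⟨fun x => (e2 x : ℕ × ℕ), ⟨?_, ?_⟩, ?_, ?_⟩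
  · intro x y h
    exact e2.injective (Subtype.ext h)
  · intro p
    constructor
    · intro hp
      exact ⟨e2.symm ⟨p, hp⟩, by simp⟩
    · rintro ⟨x, rfl⟩
      exact (e2 x).2
  · show (e2 x₀ : ℕ × ℕ) = _
    rw [h3]
  · show (e2 x₁ : ℕ × ℕ) = _
    rw [h2]

/-- transpositions moving `x₀`. -/
def YB2A (x₀ : X) : Finset (Perm X) := univ.filter fun g => ∃ y, x₀ ≠ y ∧ g = swap x₀ y

open Classical in
/-- three-cycles moving `x₀`. -/
noncomputable def YB2B (x₀ : X) : Finset (Perm X) :=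
  univ.filter fun g => g.IsThreeCycle ∧ g x₀ ≠ x₀

lemma YB2_main {k : ℕ} {b t : X → ℕ × ℕ} (hb : IsTab b (stair k)) {x₀ x₁ : X}
    {A : Finset (Perm X)}
    (hcol : ∀ c ∈ colS t, c x₀ = x₀)
    (hconj : ∀ c : Perm X, c x₀ = x₀ → ∀ g, c * g * c⁻¹ ∈ A ↔ g ∈ A)
    (hrow : ∀ r ∈ rowS t, ∀ w : X → ℕ, w x₀ = w x₁ → w ∘ r = w)
    {g₀ : Perm X} (h0 : g₀ ∈ A)
    (hu : ∀ g ∈ A, (∀ x, (b (g₀⁻¹ (g x))).1 + (b x).2 < k) → g = g₀)
    (h1 : (b (g₀⁻¹ x₀)).1 = (b (g₀⁻¹ x₁)).1) (h2 : (b x₀).2 = (b x₁).2) :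
    ∃ w₁ w₂, YS t (YB2G b A) w₁ w₂ ≠ 0 := by
  have hV := YB2G_inVV hb A
  refine pos_ys k ?_ ?_ ?_
  · intro w₁ w₂ hw
    exact ⟨dir_cont_lt ((hV.left w₂).cont w₁ hw), dir_cont_lt ((hV.right w₁).cont w₂ hw)⟩
  · intro c hc w₁ w₂
    exact YB2G_comp (hconj c (hcol c hc)) w₁ w₂
  · refine ⟨fun x => (b (g₀⁻¹ x)).1, fun x => (b x).2, ?_⟩
    have h3 : ∀ r ∈ rowS t, YB2G b A ((fun x => (b (g₀⁻¹ x)).1) ∘ r) ((fun x => (b x).2) ∘ r)
        = 1 := by
      intro r hr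
      rw [hrow r hr _ h1, hrow r hr _ h2]
      exact YB2G_val hb h0 hu
    rw [Finset.sum_congr rfl h3, Finset.sum_const, nsmul_eq_mul, mul_one, Nat.cast_ne_zero]
    exact Finset.card_ne_zero_of_mem (xi_rowS_one t)

theorem special_two {k : ℕ} (hk : 3 ≤ k) {lam : YoungDiagram} (hc : lam.card = nk k)
    (h0 : lam.rowLen 0 = 2) (h1 : lam.rowLen 1 = 1) : SymW k lam ∧ AltW k lam := by
  classical
  have hm0 : (0, 1) ∈ lam.cells := by
    show (0, 1) ∈ lam
    rw [YoungDiagram.mem_iff_lt_rowLen, h0]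
    norm_num
  have hm1 : (0, 0) ∈ lam.cells := by
    show (0, 0) ∈ lam
    rw [YoungDiagram.mem_iff_lt_rowLen, h0]
    norm_num
  have hcell : ∀ x : lam.cells, (x : ℕ × ℕ).2 < 2 ∧ ((x : ℕ × ℕ).1 ≠ 0 → (x : ℕ × ℕ).2 = 0) := by
    rintro ⟨⟨i, j⟩, hx⟩
    have hx' : (i, j) ∈ lam := hx
    rw [YoungDiagram.mem_iff_lt_rowLen] at hx'
    show j < 2 ∧ (i ≠ 0 → j = 0)
    by_cases hi : i = 0
    · subst hi
      exact ⟨by omega, fun h => absurd rfl h⟩
    · have := lam.rowLen_anti 1 i (by omega)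
      exact ⟨by omega, fun _ => by omega⟩
  let X : Type := lam.cells
  let t : X → ℕ × ℕ := fun x => (x : ℕ × ℕ)
  let x₀ : X := ⟨_, hm0⟩
  let x₁ : X := ⟨_, hm1⟩
  have ht : IsTab t lam := by
    refine ⟨fun x y h => Subtype.ext h, fun p => ⟨fun hp => ⟨⟨p, hp⟩, rfl⟩, ?_⟩⟩
    rintro ⟨x, rfl⟩
    exact x.2
  have hx : x₀ ≠ x₁ := by
    intro h
    have := congrArg (fun p : X => (p : ℕ × ℕ).2) h
    exact absurd this (by show ¬ (1 = 0); norm_num)
  have hX : Fintype.card X = nk k := by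
    show Fintype.card lam.cells = nk k
    rw [Fintype.card_coe]
    exact hc
  obtain ⟨b, hb, hb0, hb1⟩ := YB2_tab hk hX hx
  obtain ⟨τ, hτ, -⟩ := exists_tau hb
  have hcol : ∀ c ∈ colS t, c x₀ = x₀ := by
    intro c hc'
    have h2 : (t (c x₀)).2 = 1 := (Finset.mem_filter.1 hc').2 x₀
    obtain ⟨h3, h4⟩ := hcell (c x₀)
    have h5 : (t (c x₀)).1 = 0 := by
      by_contra h5
      have h6 : (t (c x₀)).2 = 0 := h4 h5
      omega
    exact ht.inj (Prod.ext h5 h2)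
  have hrow : ∀ r ∈ rowS t, ∀ w : X → ℕ, w x₀ = w x₁ → w ∘ r = w := by
    intro r hr w hw
    have hr' : ∀ x, (t (r x)).1 = (t x).1 := (Finset.mem_filter.1 hr).2
    have hz : ∀ x : X, (t x).1 = 0 → w x = w x₀ := by
      intro x hx0
      obtain ⟨h3, h4⟩ := hcell x
      have h5 : (t x).2 < 2 := h3
      rcases Nat.lt_or_ge (t x).2 1 with h6 | h6
      · have : x = x₁ := ht.inj (Prod.ext hx0 (by show (t x).2 = 0; omega))
        rw [this, hw]
      · have : x = x₀ := ht.inj (Prod.ext hx0 (by show (t x).2 = 1; omega))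
        rw [this]
    funext x
    show w (r x) = w x
    by_cases hx0 : (t x).1 = 0
    · rw [hz x hx0, hz (r x) ((hr' x).trans hx0)]
    · have h5 : (t x).2 = 0 := (hcell x).2 hx0
      have h6 : (t (r x)).2 = 0 := (hcell (r x)).2 (by
        show ¬ (t (r x)).1 = 0
        rw [hr' x]
        exact hx0)
      rw [ht.inj (Prod.ext (hr' x) (h6.trans h5.symm))]
  -- other positions
  obtain ⟨y, hy⟩ := (hb.mem (k - 2, 1)).1 (by rw [mem_stair]; show k - 2 + 1 < k; omega)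
  obtain ⟨v, hv⟩ := (hb.mem (0, 2)).1 (by rw [mem_stair]; show 0 + 2 < k; omega)
  obtain ⟨u, hu⟩ := (hb.mem (0, 1)).1 (by rw [mem_stair]; show 0 + 1 < k; omega)
  have hne : ∀ {p q : X} {i j i' j' : ℕ}, b p = (i, j) → b q = (i', j') → ¬ (i = i' ∧ j = j') →
      p ≠ q := by
    rintro p q i j i' j' h2 h3 h4 rfl
    rw [h2] at h3
    exact h4 ⟨congrArg Prod.fst h3, congrArg Prod.snd h3⟩
  have n0y : x₀ ≠ y := hne hb0 hy (by omega)
  have n0v : x₀ ≠ v := hne hb0 hv (by omega)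
  have n0u : x₀ ≠ u := hne hb0 hu (by omega)
  have nyv : y ≠ v := hne hy hv (by omega)
  have n1y : x₁ ≠ y := hne hb1 hy (by omega)
  have n1v : x₁ ≠ v := hne hb1 hv (by omega)
  have n1u : x₁ ≠ u := hne hb1 hu (by omega)
  -- the class of transpositions
  have A1 : ∀ g ∈ YB2A x₀, g⁻¹ ∈ YB2A x₀ := by
    intro g hg
    obtain ⟨-, z, hz, rfl⟩ := Finset.mem_filter.1 hg
    rw [swap_inv]
    exact hg
  have A2 : ∀ g ∈ YB2A x₀, sg g = -1 := by
    intro g hg
    obtain ⟨-, z, hz, rfl⟩ := Finset.mem_filter.1 hg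
    exact sg_swap hz
  have A3' : ∀ c : Perm X, c x₀ = x₀ → ∀ g, g ∈ YB2A x₀ → c * g * c⁻¹ ∈ YB2A x₀ := by
    intro c hc' g hg
    obtain ⟨-, z, hz, rfl⟩ := Finset.mem_filter.1 hg
    refine Finset.mem_filter.2 ⟨Finset.mem_univ _, c z, ?_, ?_⟩
    · intro h
      rw [← hc'] at h
      exact hz (c.injective h)
    · have h3 := Equiv.swap_apply_apply c x₀ z
      rw [hc'] at h3
      exact h3.symm
  have conj : ∀ {A : Finset (Perm X)}, (∀ c : Perm X, c x₀ = x₀ → ∀ g, g ∈ A → c * g * c⁻¹ ∈ A) →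
      ∀ c : Perm X, c x₀ = x₀ → ∀ g, c * g * c⁻¹ ∈ A ↔ g ∈ A := by
    intro A hA c hc' g
    refine ⟨fun h => ?_, hA c hc' g⟩
    have h2 : c⁻¹ x₀ = x₀ := by
      rw [Perm.inv_eq_iff_eq]
      exact hc'.symm
    have h3 := hA c⁻¹ h2 _ h
    have h4 : c⁻¹ * (c * g * c⁻¹) * c⁻¹⁻¹ = g := by group
    rwa [h4] at h3
  have A4 : swap x₀ u ∈ YB2A x₀ := Finset.mem_filter.2 ⟨Finset.mem_univ _, u, n0u, rfl⟩
  have A5 : ∀ g ∈ YB2A x₀, (∀ x, (b ((swap x₀ u)⁻¹ (g x))).1 + (b x).2 < k) → g = swap x₀ u := by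
    intro g hg h
    obtain ⟨-, z, hz, rfl⟩ := Finset.mem_filter.1 hg
    by_cases hzu : z = u
    · rw [hzu]
    · exfalso
      have h2 := h u
      rw [swap_apply_of_ne_of_ne n0u.symm (Ne.symm hzu), swap_inv, swap_apply_right, hb0, hu] at h2
      simp only at h2
      omega
  have A6 := YB2_main (t := t) hb (x₁ := x₁) hcol (conj A3') hrow A4 A5
    (by rw [swap_inv, swap_apply_left, swap_apply_of_ne_of_ne hx.symm n1u, hu, hb1])
    (by rw [hb0, hb1])
  -- the class of three-cycles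
  have B1 : ∀ g ∈ YB2B x₀, g⁻¹ ∈ YB2B x₀ := by
    intro g hg
    obtain ⟨-, h2, h3⟩ := Finset.mem_filter.1 hg
    refine Finset.mem_filter.2 ⟨Finset.mem_univ _, h2.inv, fun h4 => h3 ?_⟩
    rw [Perm.inv_eq_iff_eq] at h4
    exact h4.symm
  have B2 : ∀ g ∈ YB2B x₀, sg g = 1 := by
    intro g hg
    obtain ⟨-, h2, -⟩ := Finset.mem_filter.1 hg
    unfold sg
    rw [h2.sign]
    simp
  have B3 : ∀ c : Perm X, c x₀ = x₀ → ∀ g, g ∈ YB2B x₀ → c * g * c⁻¹ ∈ YB2B x₀ := by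
    intro c hc' g hg
    obtain ⟨-, h2, h3⟩ := Finset.mem_filter.1 hg
    refine Finset.mem_filter.2 ⟨Finset.mem_univ _, ?_, ?_⟩
    · unfold Perm.IsThreeCycle
      rw [Perm.cycleType_conj]
      exact h2
    · intro h4
      have h5 : c⁻¹ x₀ = x₀ := by
        rw [Perm.inv_eq_iff_eq]
        exact hc'.symm
      rw [Perm.mul_apply, Perm.mul_apply, h5] at h4
      have h6 : c (g x₀) = c x₀ := h4.trans hc'.symm
      exact h3 (c.injective h6)
  obtain ⟨g₀, hg₀⟩ : ∃ g₀ : Perm X, g₀ = swap x₀ v * swap x₀ y := ⟨_, rfl⟩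
  have g0 : g₀ x₀ = y := by
    rw [hg₀, Perm.mul_apply, swap_apply_left, swap_apply_of_ne_of_ne n0y.symm nyv]
  have gy : g₀ y = v := by
    rw [hg₀, Perm.mul_apply, swap_apply_right, swap_apply_left]
  have gv : g₀ v = x₀ := by
    rw [hg₀, Perm.mul_apply, swap_apply_of_ne_of_ne n0v.symm nyv.symm, swap_apply_right]
  have g1 : g₀ x₁ = x₁ := by
    rw [hg₀, Perm.mul_apply, swap_apply_of_ne_of_ne hx.symm n1y,
      swap_apply_of_ne_of_ne hx.symm n1v]
  have hg3 : g₀.IsThreeCycle := by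
    rw [hg₀]
    exact Perm.isThreeCycle_swap_mul_swap_same n0v n0y nyv.symm
  have iy : g₀⁻¹ y = x₀ := by rw [Perm.inv_eq_iff_eq, g0]
  have iv : g₀⁻¹ v = y := by rw [Perm.inv_eq_iff_eq, gy]
  have i0 : g₀⁻¹ x₀ = v := by rw [Perm.inv_eq_iff_eq, gv]
  have i1 : g₀⁻¹ x₁ = x₁ := by rw [Perm.inv_eq_iff_eq, g1]
  have B4 : g₀ ∈ YB2B x₀ := Finset.mem_filter.2 ⟨Finset.mem_univ _, hg3, by
    rw [g0]
    exact n0y.symm⟩
  have B5 : ∀ g ∈ YB2B x₀, (∀ x, (b (g₀⁻¹ (g x))).1 + (b x).2 < k) → g = g₀ := by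
    intro g hg h
    obtain ⟨-, h2, h3⟩ := Finset.mem_filter.1 hg
    -- preimages of y and v
    obtain ⟨p, hp⟩ := g.surjective y
    obtain ⟨q, hq⟩ := g.surjective v
    have hp1 := h p
    rw [hp, iy, hb0] at hp1
    have hq1 := h q
    rw [hq, iv, hy] at hq1
    simp only at hp1 hq1
    have hpy : p ≠ y := by
      rintro rfl
      rw [hy] at hp1
      simp only at hp1
      omega
    have hpv : p ≠ v := by
      rintro rfl
      rw [hv] at hp1
      simp only at hp1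
      omega
    have hqv : q ≠ v := by
      rintro rfl
      rw [hv] at hq1
      simp only at hq1
      omega
    have my : g y ≠ y := fun h4 => hpy (g.injective (hp.trans h4.symm))
    have mv : g v ≠ v := fun h4 => hqv (g.injective (hq.trans h4.symm))
    have hsup : g.support = {x₀, y, v} := by
      symm
      apply Finset.eq_of_subset_of_card_le
      · intro z hz
        simp only [Finset.mem_insert, Finset.mem_singleton] at hz
        rw [Perm.mem_support]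
        rcases hz with rfl | rfl | rfl
        · exact h3
        · exact my
        · exact mv
      · rw [h2.card_support, Finset.card_eq_three.2 ⟨x₀, y, v, n0y, n0v, nyv, rfl⟩]
    have hpm : p ∈ g.support := by
      rw [Perm.mem_support, hp]
      exact hpy.symm
    have hqm : q ∈ g.support := by
      rw [Perm.mem_support, hq]
      exact hqv.symm
    rw [hsup] at hpm hqm
    simp only [Finset.mem_insert, Finset.mem_singleton] at hpm hqm
    have hp0 : p = x₀ := by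
      rcases hpm with h4 | h4 | h4
      · exact h4
      · exact absurd h4 hpy
      · exact absurd h4 hpv
    have hqy : q = y := by
      rcases hqm with h4 | h4 | h4
      · exfalso
        rw [h4, ← hp0, hp] at hq
        exact nyv hq
      · exact h4
      · exact absurd h4 hqv
    rw [hp0] at hp
    rw [hqy] at hq
    -- the image of v
    have hgv : g v = x₀ := by
      have h4 : g v ∈ g.support := by
        rw [Perm.apply_mem_support, Perm.mem_support]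
        exact mv
      rw [hsup] at h4
      simp only [Finset.mem_insert, Finset.mem_singleton] at h4
      rcases h4 with h4 | h4 | h4
      · exact h4
      · exfalso
        exact n0v (g.injective (hp.trans h4.symm))
      · exact absurd h4 mv
    have hg3' : g₀.support = {x₀, y, v} := by
      symm
      apply Finset.eq_of_subset_of_card_le
      · intro z hz
        simp only [Finset.mem_insert, Finset.mem_singleton] at hz
        rw [Perm.mem_support]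
        rcases hz with rfl | rfl | rfl
        · rw [g0]
          exact n0y.symm
        · rw [gy]
          exact nyv.symm
        · rw [gv]
          exact n0v
      · rw [hg3.card_support, Finset.card_eq_three.2 ⟨x₀, y, v, n0y, n0v, nyv, rfl⟩]
    ext1 z
    by_cases hz : z ∈ ({x₀, y, v} : Finset X)
    · simp only [Finset.mem_insert, Finset.mem_singleton] at hz
      rcases hz with rfl | rfl | rfl
      · rw [hp, g0]
      · rw [hq, gy]
      · rw [hgv, gv]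
    · have h5 : z ∉ g.support := by rwa [hsup]
      have h6 : z ∉ g₀.support := by rwa [hg3']
      rw [Perm.notMem_support] at h5 h6
      rw [h5, h6]
  have B6 := YB2_main (t := t) hb (x₁ := x₁) hcol (conj B3) hrow B4 B5
    (by rw [i0, i1, hv, hb1]) (by rw [hb0, hb1])
  -- conclusion
  have hVA := YB2G_inVV hb (YB2A x₀)
  have hVB := YB2G_inVV hb (YB2B x₀)
  have hsA := fun w₁ w₂ => YB2G_swap hτ A1 A2 w₁ w₂
  have hsB := fun w₁ w₂ => YB2G_swap hτ B1 B2 w₁ w₂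
  have hs : sg τ = 1 ∨ sg τ = -1 := by
    unfold sg
    rcases Int.units_eq_one_or (Perm.sign τ) with h | h <;> simp [h]
  rcases hs with hs | hs
  · refine ⟨⟨X, inferInstance, inferInstance, t, YB2G b (YB2B x₀), ht, hVB, ?_, B6⟩,
      ⟨X, inferInstance, inferInstance, t, YB2G b (YB2A x₀), ht, hVA, ?_, A6⟩⟩
    · intro w₁ w₂
      rw [hsB w₁ w₂, hs]
      ring
    · intro w₁ w₂
      rw [hsA w₁ w₂, hs]
      ring
  · refine ⟨⟨X, inferInstance, inferInstance, t, YB2G b (YB2A x₀), ht, hVA, ?_, A6⟩,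
      ⟨X, inferInstance, inferInstance, t, YB2G b (YB2B x₀), ht, hVB, ?_, B6⟩⟩
    · intro w₁ w₂
      rw [hsA w₁ w₂, hs]
      ring
    · intro w₁ w₂
      rw [hsB w₁ w₂, hs]
      ring

end Sx
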