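import Mathlib
import Pool.Agent.Saxl2.YB2
import Pool.Agent.Saxl2.XI

/-!
Module BFK: the shape `(2, 2, 2, 2, 2)` is a constituent of the exterior square at level 4.
-/

namespace Sx

open Finset Equiv

/-! ### evaluation of `sgnw` -/

/-- recursive evaluation of the sign of a word. -/
def bfkS : ℕ → List ℕ → ℤ
  | 0, _ => 1
  | m + 1, l => match l with
    | [] => 1
    | a :: l => if (decide (a ≤ m) && !(l.elem a)) then
        (if a % 2 = 0 then 1 else -1) * bfkS m (l.map (fun x => if a < x then x - 1 else x)) else 0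

lemma bfkS_cons (m a : ℕ) (l : List ℕ) : bfkS (m + 1) (a :: l) =
    if (decide (a ≤ m) && !(l.elem a)) then
      (if a % 2 = 0 then 1 else -1) * bfkS m (l.map (fun x => if a < x then x - 1 else x)) else 0 :=
  rfl

lemma bfk_det {k : ℕ} (n : Fin k → ℕ) :
    sgnw n = Matrix.det (Matrix.of fun i j : Fin k => if n i = (j : ℕ) then (1 : ℚ) else 0) := by
  rw [← Matrix.det_transpose, Matrix.det_apply]
  unfold sgnw
  refine Finset.sum_congr rfl fun π _ => ?_
  rw [Units.smul_def, zsmul_eq_mul]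
  rfl

lemma bfk_sgnw : ∀ (k : ℕ) (n : Fin k → ℕ), sgnw n = (bfkS k (List.ofFn n) : ℚ)
  | 0, n => by
    rw [bfk_det]
    simp [bfkS]
  | m + 1, n => by
    rw [bfk_det, Matrix.det_succ_row_zero, List.ofFn_succ, bfkS_cons]
    by_cases h0 : n 0 ≤ m
    · have hlt : n 0 < m + 1 := Nat.lt_succ_of_le h0
      rw [Finset.sum_eq_single (⟨n 0, hlt⟩ : Fin (m + 1))]
      · by_cases h1 : ∃ i : Fin m, n i.succ = n 0
        · obtain ⟨i, hi⟩ := h1
          have hel : (List.ofFn fun i : Fin m => n i.succ).elem (n 0) = true := by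
            rw [List.elem_eq_mem, decide_eq_true_eq, List.mem_ofFn']
            exact ⟨i, hi⟩
          rw [hel]
          have hz : ((Matrix.of fun i j : Fin (m + 1) => if n i = (j : ℕ) then (1 : ℚ) else 0).submatrix
              Fin.succ (Fin.succAbove (⟨n 0, hlt⟩ : Fin (m + 1)))).det = 0 := by
            apply Matrix.det_eq_zero_of_row_eq_zero i
            intro j
            simp only [Matrix.submatrix_apply, Matrix.of_apply]
            rw [if_neg]
            rw [hi]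
            intro h
            exact Fin.succAbove_ne (⟨n 0, hlt⟩ : Fin (m + 1)) j (Fin.ext h.symm)
          rw [hz]
          simp
        · push Not at h1
          have hel : (List.ofFn fun i : Fin m => n i.succ).elem (n 0) = false := by
            rw [List.elem_eq_mem, decide_eq_false_iff_not, List.mem_ofFn']
            rintro ⟨i, hi⟩
            exact h1 i hi
          rw [hel]
          have ih := bfk_sgnw m (fun i => if n 0 < n i.succ then n i.succ - 1 else n i.succ)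
          have hmap : (List.ofFn fun i : Fin m => n i.succ).map
              (fun x => if n 0 < x then x - 1 else x) =
              List.ofFn (fun i : Fin m => if n 0 < n i.succ then n i.succ - 1 else n i.succ) := by
            rw [List.map_ofFn]
            rfl
          rw [hmap]
          have hcond : (decide (n 0 ≤ m) && !false) = true := by simp [h0]
          rw [if_pos hcond]
          push_cast
          rw [← ih, bfk_det]
          have hsub : (Matrix.of fun i j : Fin (m + 1) => if n i = (j : ℕ) then (1 : ℚ) else 0).submatrix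
              Fin.succ (Fin.succAbove (⟨n 0, hlt⟩ : Fin (m + 1))) =
              Matrix.of fun i j : Fin m => if (if n 0 < n i.succ then n i.succ - 1 else n i.succ) =
                (j : ℕ) then (1 : ℚ) else 0 := by
            ext i j
            simp only [Matrix.submatrix_apply, Matrix.of_apply]
            have hne := h1 i
            have hsa : ((Fin.succAbove (⟨n 0, hlt⟩ : Fin (m + 1)) j : Fin (m + 1)) : ℕ) =
                if (j : ℕ) < n 0 then (j : ℕ) else j + 1 := by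
              unfold Fin.succAbove
              simp only [Fin.lt_def, Fin.val_castSucc]
              split_ifs <;> simp
            rw [hsa]
            congr 1
            apply propext
            split_ifs <;> omega
          rw [hsub]
          simp only [Matrix.of_apply, if_true, mul_one]
          congr 1
          split_ifs with h2
          · rw [Even.neg_one_pow (Nat.even_iff.2 h2)]
          · rw [Odd.neg_one_pow (Nat.odd_iff.2 (by omega))]
      · intro j _ hj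
        have : ¬ n 0 = (j : ℕ) := fun h => hj (Fin.ext h.symm)
        simp [this]
      · intro h
        exact absurd (mem_univ _) h
    · have hcond : (decide (n 0 ≤ m) && !(List.ofFn fun i : Fin m => n i.succ).elem (n 0)) = false := by
        simp [h0]
      rw [hcond]
      simp only [Bool.false_eq_true, if_false, Int.cast_zero]
      apply Finset.sum_eq_zero
      intro j _
      have : ¬ n 0 = (j : ℕ) := by
        intro h
        have := j.2
        omega
      simp [this]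

/-! ### the tableau of the staircase -/

/-- index of a cell of the staircase of size 4. -/
def bfkI (i j : ℕ) : ℕ :=
  if i + j < 4 then (if i = 0 then j else if i = 1 then 4 + j else if i = 2 then 7 + j else 9)
  else 20

/-- positions -/
abbrev BFX := Fin 5 ⊕ Fin 5

/-- enumeration of the positions. -/
def bfkE : BFX ≃ Fin 10 := finSumFinEquiv

/-- the tableau of the staircase. -/
def bfkB : BFX → ℕ × ℕ :=
  Sum.elim ![(0, 0), (0, 1), (0, 2), (0, 3), (1, 0)] ![(1, 1), (1, 2), (2, 0), (2, 1), (3, 0)]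

lemma bfk_idx (y : BFX) : bfkI (bfkB y).1 (bfkB y).2 = (bfkE y : ℕ) := by
  revert y
  decide

lemma bfk_inj : Function.Injective bfkB := by
  intro x y h
  apply bfkE.injective
  apply Fin.ext
  rw [← bfk_idx, ← bfk_idx, h]

lemma bfk_surj : ∀ i j : ℕ, i + j < 4 → ∃ y, bfkB y = (i, j) := by
  intro i j h
  have hi : i < 4 := by omega
  have hj : j < 4 := by omega
  interval_cases i <;> interval_cases j <;> first | omega | decide

lemma bfk_tab : IsTab bfkB (stair 4) := by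
  refine ⟨bfk_inj, fun p => ?_⟩
  rw [mem_stair]
  constructor
  · intro h
    obtain ⟨y, hy⟩ := bfk_surj p.1 p.2 h
    exact ⟨y, hy⟩
  · rintro ⟨y, rfl⟩
    revert y
    decide

lemma bfk_idx_iff (i j : ℕ) (y : BFX) :
    (j = (bfkB y).2 ∧ i = (bfkB y).1) ↔ bfkI i j = (bfkE y : ℕ) := by
  constructor
  · rintro ⟨rfl, rfl⟩
    exact bfk_idx y
  · intro h
    have h1 : i + j < 4 := by
      by_contra hc
      unfold bfkI at h
      rw [if_neg hc] at h
      have := (bfkE y).2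
      omega
    obtain ⟨z, hz⟩ := bfk_surj i j h1
    have h2 : bfkI i j = (bfkE z : ℕ) := by rw [← bfk_idx, hz]
    have h3 : z = y := bfkE.injective (Fin.ext (h2.symm.trans h))
    rw [← h3, hz]
    exact ⟨rfl, rfl⟩

lemma bfk_K (u v : BFX → ℕ) :
    YB2F bfkB u v = sgnw (fun i : Fin 10 => bfkI (u (bfkE.symm i)) (v (bfkE.symm i))) := by
  unfold YB2F sgnw
  refine Fintype.sum_equiv (bfkE.permCongr) _ _ fun s => ?_
  have hs : sg (bfkE.permCongr s) = sg s := by
    unfold sg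
    rw [Equiv.Perm.sign_permCongr]
  rw [hs]
  congr 1
  by_cases h : ∀ x, bfkI (u x) (v x) = (bfkE (s x) : ℕ)
  · have h1 : v = fun x => (bfkB (s x)).2 := by
      funext x
      exact ((bfk_idx_iff _ _ _).2 (h x)).1
    have h2 : u = fun x => (bfkB (s x)).1 := by
      funext x
      exact ((bfk_idx_iff _ _ _).2 (h x)).2
    rw [if_pos h1, if_pos h2]
    symm
    apply Finset.prod_eq_one
    intro i _
    rw [if_pos]
    show bfkI (u (bfkE.symm i)) (v (bfkE.symm i)) = _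
    rw [h (bfkE.symm i)]
    simp [Equiv.permCongr_apply]
  · have h0 : ¬ (v = (fun x => (bfkB (s x)).2) ∧ u = fun x => (bfkB (s x)).1) := by
      rintro ⟨h1, h2⟩
      apply h
      intro x
      rw [← bfk_idx_iff]
      exact ⟨congrFun h1 x, congrFun h2 x⟩
    have hL : (if v = (fun x => (bfkB (s x)).2) then
        (if u = (fun x => (bfkB (s x)).1) then (1 : ℚ) else 0) else 0) = 0 := by
      by_cases h1 : v = (fun x => (bfkB (s x)).2)
      · rw [if_pos h1, if_neg fun h2 => h0 ⟨h1, h2⟩]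
      · rw [if_neg h1]
    rw [hL]
    push Not at h
    obtain ⟨x, hx⟩ := h
    symm
    apply Finset.prod_eq_zero (mem_univ (bfkE x))
    rw [if_neg]
    simpa [Equiv.permCongr_apply] using hx

/-! ### the class -/

/-- permutations of cycle type `(3, 2)`. -/
def bfkCa : Finset (Perm (Fin 5)) := univ.filter fun a => (∀ x, a x ≠ x) ∧ ∃ x, a (a x) = x

/-- permutations of cycle type `(2, 2, 1)`. -/
def bfkCc : Finset (Perm (Fin 5)) :=
  univ.filter fun c => (∀ x, c (c x) = x) ∧ (univ.filter fun x => c x = x).card = 1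

lemma bfkCa_conj (p a : Perm (Fin 5)) (ha : a ∈ bfkCa) : p * a * p⁻¹ ∈ bfkCa := by
  simp only [bfkCa, mem_filter, mem_univ, true_and] at ha ⊢
  obtain ⟨h1, x, hx⟩ := ha
  refine ⟨fun y hy => h1 (p⁻¹ y) ?_, p x, ?_⟩
  · apply p.injective
    simpa [Perm.mul_apply] using hy
  · simp [Perm.mul_apply, hx]

lemma bfkCc_conj (p a : Perm (Fin 5)) (ha : a ∈ bfkCc) : p * a * p⁻¹ ∈ bfkCc := by
  simp only [bfkCc, mem_filter, mem_univ, true_and] at ha ⊢
  obtain ⟨h1, h2⟩ := ha
  refine ⟨fun y => ?_, ?_⟩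
  · simp [Perm.mul_apply, h1]
  · rw [← h2]
    refine Finset.card_bij (fun x _ => p⁻¹ x) ?_ ?_ ?_
    · intro x hx
      simp only [mem_filter, mem_univ, true_and] at hx ⊢
      apply p.injective
      simpa [Perm.mul_apply] using hx
    · intro x _ y _ h
      exact p⁻¹.injective h
    · intro y hy
      simp only [mem_filter, mem_univ, true_and] at hy
      refine ⟨p y, ?_, by simp⟩
      simp [Perm.mul_apply, hy]

/-- the class. -/
def bfkA : Finset (Perm BFX) := (bfkCa ×ˢ bfkCc).image fun p => Perm.sumCongr p.1 p.2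

/-- the shape. -/
def bfkT : BFX → ℕ × ℕ := Sum.elim (fun i => ((i : ℕ), 0)) (fun i => ((i : ℕ), 1))

lemma bfk_col {c : Perm BFX} (hc : c ∈ colS bfkT) :
    ∃ p q : Perm (Fin 5), c = Perm.sumCongr p q := by
  have h : ∀ x, (bfkT (c x)).2 = (bfkT x).2 := by
    simpa [colS] using hc
  have h1 : c ∈ Set.range (Perm.sumCongrHom (Fin 5) (Fin 5)) := by
    have := @Equiv.Perm.perm_mapsTo_inl_iff_mapsTo_inr (Fin 5) (Fin 5) _ _ c
    have h2 : Set.MapsTo c (Set.range Sum.inl) (Set.range Sum.inl) := by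
      rintro _ ⟨i, rfl⟩
      have h3 := h (Sum.inl i)
      rcases hh : c (Sum.inl i) with j | j
      · exact ⟨j, rfl⟩
      · rw [hh] at h3
        simp [bfkT] at h3
    exact Equiv.Perm.mem_sumCongrHom_range_of_perm_mapsTo_inl h2
  obtain ⟨⟨p, q⟩, hpq⟩ := h1
  exact ⟨p, q, hpq.symm⟩

lemma bfkA_conj {c : Perm BFX} (hc : c ∈ colS bfkT) (g : Perm BFX) :
    c * g * c⁻¹ ∈ bfkA ↔ g ∈ bfkA := by
  have key : ∀ c : Perm BFX, c ∈ colS bfkT → ∀ g, g ∈ bfkA → c * g * c⁻¹ ∈ bfkA := by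
    intro c hc g hg
    obtain ⟨p, q, rfl⟩ := bfk_col hc
    simp only [bfkA, mem_image, mem_product, Prod.exists] at hg ⊢
    obtain ⟨a, b, ⟨ha, hb⟩, rfl⟩ := hg
    refine ⟨p * a * p⁻¹, q * b * q⁻¹, ⟨bfkCa_conj p a ha, bfkCc_conj q b hb⟩, ?_⟩
    rw [Perm.sumCongr_inv, Perm.sumCongr_mul, Perm.sumCongr_mul]
  refine ⟨fun h => ?_, key c hc g⟩
  have h1 := key c⁻¹ (both_colS_inv c hc) _ h
  have h2 : c⁻¹ * (c * g * c⁻¹) * c⁻¹⁻¹ = g := by group
  rwa [h2] at h1

lemma bfk_sum (u v : BFX → ℕ) : YB2G bfkB bfkA u v =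
    ∑ a ∈ bfkCa, ∑ c ∈ bfkCc, YB2F bfkB (u ∘ Perm.sumCongr a c) v := by
  unfold YB2G bfkA
  rw [Finset.sum_image, Finset.sum_product]
  rintro ⟨a, b⟩ _ ⟨a', b'⟩ _ h
  have h1 : (Perm.sumCongrHom (Fin 5) (Fin 5)) (a, b) = (Perm.sumCongrHom (Fin 5) (Fin 5)) (a', b') := h
  exact Perm.sumCongrHom_injective h1

/-- the antisymmetric function. -/
def bfkG (w₁ w₂ : BFX → ℕ) : ℚ := YB2G bfkB bfkA w₁ w₂ + (-1) * YB2G bfkB bfkA w₂ w₁

lemma bfkG_inVV : InVV 4 bfkG :=
  (YB2G_inVV bfk_tab bfkA).both_add ((YB2G_inVV bfk_tab bfkA).both_swap.both_smul (-1))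

lemma bfkG_anti (w₁ w₂ : BFX → ℕ) : bfkG w₂ w₁ = -bfkG w₁ w₂ := by
  unfold bfkG
  ring

lemma bfkG_alt : ∀ c ∈ colS bfkT, ∀ w₁ w₂, bfkG (w₁ ∘ c) (w₂ ∘ c) = sg c * bfkG w₁ w₂ := by
  intro c hc w₁ w₂
  unfold bfkG
  rw [YB2G_comp (bfkA_conj hc), YB2G_comp (bfkA_conj hc)]
  ring

/-! ### the evaluation -/

/-- entry of a list. -/
def bfkg (l : List ℕ) (i : Fin 5) : ℕ := l.getD i 0

/-- the word with letters `l` and `m`. -/
def bfkw (l m : List ℕ) : BFX → ℕ := Sum.elim (bfkg l) (bfkg m)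

/-- one term. -/
def bfkev (u0 u1 v0 v1 : List ℕ) (a c : Perm (Fin 5)) : ℤ :=
  bfkS 10 [bfkI (bfkg u0 (a 0)) (bfkg v0 0), bfkI (bfkg u0 (a 1)) (bfkg v0 1),
    bfkI (bfkg u0 (a 2)) (bfkg v0 2), bfkI (bfkg u0 (a 3)) (bfkg v0 3),
    bfkI (bfkg u0 (a 4)) (bfkg v0 4), bfkI (bfkg u1 (c 0)) (bfkg v1 0),
    bfkI (bfkg u1 (c 1)) (bfkg v1 1), bfkI (bfkg u1 (c 2)) (bfkg v1 2),
    bfkI (bfkg u1 (c 3)) (bfkg v1 3), bfkI (bfkg u1 (c 4)) (bfkg v1 4)]

/-- the sum. -/
def bfktot (u0 u1 v0 v1 : List ℕ) : ℤ := ∑ a ∈ bfkCa, ∑ c ∈ bfkCc, bfkev u0 u1 v0 v1 a c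

lemma bfk_eval (u0 u1 v0 v1 : List ℕ) :
    YB2G bfkB bfkA (bfkw u0 u1) (bfkw v0 v1) = (bfktot u0 u1 v0 v1 : ℚ) := by
  rw [bfk_sum]
  unfold bfktot
  push_cast
  refine Finset.sum_congr rfl fun a _ => Finset.sum_congr rfl fun c _ => ?_
  rw [bfk_K, bfk_sgnw]
  rfl

theorem bfk_t1 : bfktot [0, 0, 1, 1, 2] [0, 0, 1, 3, 2] [1, 0, 2, 3, 0] [1, 0, 2, 1, 0] = 6 := by
  decide +kernel
theorem bfk_t2 : bfktot [0, 0, 1, 3, 2] [0, 0, 1, 1, 2] [1, 0, 2, 1, 0] [1, 0, 2, 3, 0] = 0 := by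
  decide +kernel
theorem bfk_t3 : bfktot [1, 0, 2, 3, 0] [1, 0, 2, 1, 0] [0, 0, 1, 1, 2] [0, 0, 1, 3, 2] = -6 := by
  decide +kernel
theorem bfk_t4 : bfktot [1, 0, 2, 1, 0] [1, 0, 2, 3, 0] [0, 0, 1, 3, 2] [0, 0, 1, 1, 2] = 0 := by
  decide +kernel

lemma bfk_row {r : Perm BFX} (hr : r ∈ rowS bfkT) (i : Fin 5) :
    (r (Sum.inl i) = Sum.inl i ∧ r (Sum.inr i) = Sum.inr i) ∨
      (r (Sum.inl i) = Sum.inr i ∧ r (Sum.inr i) = Sum.inl i) := by
  have h : ∀ x, (bfkT (r x)).1 = (bfkT x).1 := by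
    simpa [rowS] using hr
  have key : ∀ x : BFX, (bfkT x).1 = (i : ℕ) → x = Sum.inl i ∨ x = Sum.inr i := by
    rintro (j | j) hj
    · left
      exact congrArg Sum.inl (Fin.ext hj)
    · right
      exact congrArg Sum.inr (Fin.ext hj)
  have h1 := key _ (h (Sum.inl i))
  have h2 := key _ (h (Sum.inr i))
  have hne : r (Sum.inl i) ≠ r (Sum.inr i) := fun hh => by
    have := r.injective hh
    simp at this
  rcases h1 with h1 | h1 <;> rcases h2 with h2 | h2
  · exact absurd (h1.trans h2.symm) hne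
  · exact Or.inl ⟨h1, h2⟩
  · exact Or.inr ⟨h1, h2⟩
  · exact absurd (h1.trans h2.symm) hne

/-- the first word. -/
def bfkw1 : BFX → ℕ := bfkw [0, 0, 1, 1, 2] [0, 0, 1, 3, 2]
/-- the second word. -/
def bfkw2 : BFX → ℕ := bfkw [1, 0, 2, 3, 0] [1, 0, 2, 1, 0]
/-- the first word, moved. -/
def bfkw1' : BFX → ℕ := bfkw [0, 0, 1, 3, 2] [0, 0, 1, 1, 2]
/-- the second word, moved. -/
def bfkw2' : BFX → ℕ := bfkw [1, 0, 2, 1, 0] [1, 0, 2, 3, 0]

lemma bfk_G1 : bfkG bfkw1 bfkw2 = 12 := by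
  unfold bfkG bfkw1 bfkw2
  rw [bfk_eval, bfk_eval, bfk_t1, bfk_t3]
  norm_num

lemma bfk_G2 : bfkG bfkw1' bfkw2' = 0 := by
  unfold bfkG bfkw1' bfkw2'
  rw [bfk_eval, bfk_eval, bfk_t2, bfk_t4]
  norm_num

lemma bfk_words : ∀ i : Fin 5, i ≠ 3 → (bfkw1 (Sum.inl i) = bfkw1 (Sum.inr i) ∧
    bfkw2 (Sum.inl i) = bfkw2 (Sum.inr i) ∧ bfkw1' (Sum.inl i) = bfkw1 (Sum.inl i) ∧
    bfkw1' (Sum.inr i) = bfkw1 (Sum.inr i) ∧ bfkw2' (Sum.inl i) = bfkw2 (Sum.inl i) ∧
    bfkw2' (Sum.inr i) = bfkw2 (Sum.inr i)) := by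
  decide

lemma bfk_words3 : bfkw1' (Sum.inl 3) = bfkw1 (Sum.inr 3) ∧ bfkw1' (Sum.inr 3) = bfkw1 (Sum.inl 3) ∧
    bfkw2' (Sum.inl 3) = bfkw2 (Sum.inr 3) ∧ bfkw2' (Sum.inr 3) = bfkw2 (Sum.inl 3) := by
  decide

lemma bfk_rsum : ∀ r ∈ rowS bfkT, 0 ≤ bfkG (bfkw1 ∘ r) (bfkw2 ∘ r) := by
  intro r hr
  rcases bfk_row hr 3 with ⟨h1, h2⟩ | ⟨h1, h2⟩
  · have e1 : bfkw1 ∘ r = bfkw1 ∧ bfkw2 ∘ r = bfkw2 := by
      constructor <;> funext x <;> rcases x with i | i <;> by_cases hi : i = 3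
      all_goals
        first
          | (subst hi; simp only [Function.comp, h1, h2])
          | (have hw := bfk_words i hi
             rcases bfk_row hr i with ⟨h3, h4⟩ | ⟨h3, h4⟩ <;>
               simp only [Function.comp, h3, h4, hw.1, hw.2.1])
    rw [e1.1, e1.2, bfk_G1]
    norm_num
  · have e1 : bfkw1 ∘ r = bfkw1' ∧ bfkw2 ∘ r = bfkw2' := by
      constructor <;> funext x <;> rcases x with i | i <;> by_cases hi : i = 3
      all_goals
        first
          | (subst hi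
             simp only [Function.comp, h1, h2, bfk_words3.1, bfk_words3.2.1, bfk_words3.2.2.1,
               bfk_words3.2.2.2])
          | (have hw := bfk_words i hi
             rcases bfk_row hr i with ⟨h3, h4⟩ | ⟨h3, h4⟩ <;>
               simp only [Function.comp, h3, h4, hw.1, hw.2.1, hw.2.2.1, hw.2.2.2.1,
                 hw.2.2.2.2.1, hw.2.2.2.2.2])
    rw [e1.1, e1.2, bfk_G2]

lemma bfk_rsum_ne : ∑ r ∈ rowS bfkT, bfkG (bfkw1 ∘ r) (bfkw2 ∘ r) ≠ 0 := by
  have h1 : bfkG (bfkw1 ∘ (1 : Perm BFX)) (bfkw2 ∘ (1 : Perm BFX)) = 12 := bfk_G1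
  have h2 := Finset.single_le_sum (f := fun r : Perm BFX => bfkG (bfkw1 ∘ r) (bfkw2 ∘ r)) bfk_rsum
    (show (1 : Perm BFX) ∈ rowS bfkT by simp [rowS])
  have h3 : (12 : ℚ) ≤ ∑ r ∈ rowS bfkT, bfkG (bfkw1 ∘ r) (bfkw2 ∘ r) := by
    rw [← h1]
    exact h2
  intro h
  rw [h] at h3
  norm_num at h3

lemma bfk_isTab {lam : YoungDiagram} (h : lam.card = 10) (h0 : lam.rowLen 0 = 2)
    (h1 : lam.colLen 0 = 5) : IsTab bfkT lam := by
  have hsub : lam.cells ⊆ range 5 ×ˢ range 2 := by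
    intro p hp
    have hp' : p ∈ lam := hp
    rw [mem_product, mem_range, mem_range]
    constructor
    · rw [← h1, ← YoungDiagram.mem_iff_lt_colLen]
      exact lam.isLowerSet (show ((p.1, 0) : ℕ × ℕ) ≤ p from ⟨le_refl _, Nat.zero_le _⟩) hp'
    · rw [← h0, ← YoungDiagram.mem_iff_lt_rowLen]
      exact lam.isLowerSet (show ((0, p.2) : ℕ × ℕ) ≤ p from ⟨Nat.zero_le _, le_refl _⟩) hp'
  have heq : lam.cells = range 5 ×ˢ range 2 := by
    apply Finset.eq_of_subset_of_card_le hsub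
    rw [card_product, card_range, card_range]
    exact le_of_eq h.symm
  constructor
  · rintro (i | i) (j | j) hij
    · exact congrArg Sum.inl (Fin.ext (congrArg Prod.fst hij))
    · exact absurd (congrArg Prod.snd hij) (by simp [bfkT])
    · exact absurd (congrArg Prod.snd hij) (by simp [bfkT])
    · exact congrArg Sum.inr (Fin.ext (congrArg Prod.fst hij))
  · intro p
    have hp : p ∈ lam ↔ p.1 < 5 ∧ p.2 < 2 := by
      show p ∈ lam.cells ↔ _
      rw [heq, mem_product, mem_range, mem_range]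
    rw [hp]
    constructor
    · rintro ⟨ha, hb⟩
      have hb' : p.2 = 0 ∨ p.2 = 1 := by omega
      rcases hb' with hb' | hb'
      · exact ⟨Sum.inl ⟨p.1, ha⟩, Prod.ext rfl hb'.symm⟩
      · exact ⟨Sum.inr ⟨p.1, ha⟩, Prod.ext rfl hb'.symm⟩
    · rintro ⟨x | x, rfl⟩
      · exact ⟨x.2, by simp [bfkT]⟩
      · exact ⟨x.2, by simp [bfkT]⟩

theorem altW4_22222 {lam : YoungDiagram} (h : lam.card = 10) (h0 : lam.rowLen 0 = 2)
    (h1 : lam.colLen 0 = 5) : AltW 4 lam := by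
  refine ⟨BFX, inferInstance, inferInstance, bfkT, bfkG, bfk_isTab h h0 h1, bfkG_inVV, bfkG_anti, ?_⟩
  refine pos_ys 4 ?_ bfkG_alt ⟨bfkw1, bfkw2, bfk_rsum_ne⟩
  intro w₁ w₂ hne
  have hlt : ∀ w : BFX → ℕ, Cont 4 w → ∀ x, w x < 4 := by
    intro w hw x
    by_contra hc
    have h2 := hw (w x)
    have h3 : 0 < cnt w (w x) := Finset.card_pos.2 ⟨x, by simp⟩
    omega
  exact ⟨hlt w₁ ((bfkG_inVV.left w₂).cont w₁ hne), hlt w₂ ((bfkG_inVV.right w₁).cont w₂ hne)⟩

end Sx
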