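import Mathlib
import Pool.Agent.Saxl2.XDefs

/-!
Definitions for the base facts of the refined Saxl conjecture (MP_2a22ca_al): functions of two
words with different contents in the two variables, numerical evaluations, and small blocks.
-/

namespace Sx

open Finset Equiv

variable {X Y Z : Type} [Fintype X] [DecidableEq X] [Fintype Y] [DecidableEq Y]
  [Fintype Z] [DecidableEq Z]

/-- `F` lies in `InA α` in the first variable and in `InA β` in the second variable. -/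
structure InAB (α β : ℕ → ℕ) (F : (X → ℕ) → (X → ℕ) → ℚ) : Prop where
  left : ∀ w₂, InA α (fun w₁ => F w₁ w₂)
  right : ∀ w₁, InA β (F w₁)

/-- relabelling of the positions by `g`. -/
def rel (g : Perm X) (F : (X → ℕ) → (X → ℕ) → ℚ) (w₁ w₂ : X → ℕ) : ℚ := F (w₁ ∘ g) (w₂ ∘ g)

/-- exchange of the two variables. -/
def flip2 (F : (X → ℕ) → (X → ℕ) → ℚ) (w₁ w₂ : X → ℕ) : ℚ := F w₂ w₁

/-- difference of two functions. -/
def sub2 (F E : (X → ℕ) → (X → ℕ) → ℚ) (w₁ w₂ : X → ℕ) : ℚ := F w₁ w₂ - E w₁ w₂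

/-- evaluation of the multilinear form attached to `F` at the matrices `A (r x)`; only letters
smaller than `N` are used. -/
def ev (N : ℕ) (r : X → ℕ) (A : ℕ → ℕ → ℕ → ℚ) (F : (X → ℕ) → (X → ℕ) → ℚ) : ℚ :=
  ∑ S₁ : X → Fin N, ∑ S₂ : X → Fin N,
    F (fun x => (S₁ x : ℕ)) (fun x => (S₂ x : ℕ)) * ∏ x, A (r x) (S₁ x) (S₂ x)

/-- indicator of a word. -/
def dw {n : ℕ} (u w : Fin n → ℕ) : ℚ := if w = u then 1 else 0

/-- element of the Specht module of shape `(2,1)`. -/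
def fM (w : Fin 3 → ℕ) : ℚ := 2 * dw ![0, 0, 1] w - dw ![1, 0, 0] w - dw ![0, 1, 0] w

/-- element of the Specht module of shape `(2,1,1)`, symmetric in the positions `0, 1` and
alternating in the positions `2, 3`. -/
def fQ (w : Fin 4 → ℕ) : ℚ :=
  dw ![1, 0, 2, 0] w + dw ![0, 1, 2, 0] w - dw ![1, 0, 0, 2] w - dw ![0, 1, 0, 2] w
    + 2 * dw ![0, 0, 1, 2] w - dw ![2, 0, 1, 0] w - dw ![0, 2, 1, 0] w + dw ![2, 0, 0, 1] w
    + dw ![0, 2, 0, 1] w - 2 * dw ![0, 0, 2, 1] w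

/-- block in `V_(2,1) ⊗ V_(1,1,1)`. -/
def EM (w₁ w₂ : Fin 3 → ℕ) : ℚ := fM w₁ * sgnw w₂

/-- block in `V_(2,1,1) ⊗ V_(1,1,1,1)`. -/
def EQ4 (w₁ w₂ : Fin 4 → ℕ) : ℚ := fQ w₁ * sgnw w₂

/-- block in `V_(1,1) ⊗ V_(1,1)`. -/
def ED (w₁ w₂ : Fin 2 → ℕ) : ℚ := sgnw w₁ * sgnw w₂

/-- the determinant of `n` rows. -/
def dt {n : ℕ} (u : Fin n → ℕ → ℚ) : ℚ := ∑ π : Perm (Fin n), sg π * ∏ i, u i (π i)

/-- content `(a, b, c, d, 0, ...)`. -/
def co (l : List ℕ) (j : ℕ) : ℕ := l.getD j 0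

end Sx
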