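import Mathlib
import Pool.Agent.Helper87.Saxl.Defs
import Pool.Agent.Saxl2.XDefs

/-! Module XA: outer products. -/

namespace Sx

open Finset Equiv

variable {X Y Z : Type} [Fintype X] [DecidableEq X] [Fintype Y] [DecidableEq Y]
  [Fintype Z] [DecidableEq Z]

theorem inV_iff_inA {k : ℕ} {f : (X → ℕ) → ℚ} : InV k f ↔ InA (fun j => k - j) f :=
  ⟨fun h => ⟨h.cont, h.hw⟩, fun h => ⟨h.cont, h.hw⟩⟩

lemma xa_cnt_comp (w : X → ℕ) (g : Perm X) (j : ℕ) : cnt (w ∘ g) j = cnt w j := by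
  unfold cnt
  refine Finset.card_bij (fun x _ => g x) ?_ ?_ ?_
  · intro x hx
    simpa using hx
  · intro x _ y _ h
    exact g.injective h
  · intro y hy
    exact ⟨g.symm y, by simpa using hy, by simp⟩

lemma xa_cnt_sum (w : Y ⊕ Z → ℕ) (j : ℕ) :
    cnt w j = cnt (w ∘ Sum.inl) j + cnt (w ∘ Sum.inr) j := by
  unfold cnt
  rw [Finset.card_filter, Finset.card_filter, Finset.card_filter, Fintype.sum_sum_type]
  rfl

lemma xa_update_comp (w : X → ℕ) (g : Perm X) (y : X) (v : ℕ) :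
    Function.update w (g y) v ∘ g = Function.update (w ∘ g) y v := by
  funext x
  by_cases hx : x = y
  · subst hx; simp
  · have : g x ≠ g y := fun h => hx (g.injective h)
    simp [Function.update_of_ne hx, Function.update_of_ne this]

lemma xa_R_comp (i : ℕ) (f : (X → ℕ) → ℚ) (g : Perm X) (w : X → ℕ) :
    R i (fun w => f (w ∘ g)) w = R i f (w ∘ g) := by
  unfold R
  rw [Finset.sum_filter, Finset.sum_filter]
  refine (Fintype.sum_equiv g _ _ fun y => ?_).symm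
  show (if w (g y) = i then f (Function.update (w ∘ g) y (i + 1)) else 0) =
    if w (g y) = i then f (Function.update w (g y) (i + 1) ∘ g) else 0
  rw [xa_update_comp]

lemma xa_R_sum {ι : Type} (I : Finset ι) (a : ι → ℚ) (f : ι → (X → ℕ) → ℚ) (i : ℕ) (w : X → ℕ) :
    R i (fun w => ∑ s ∈ I, a s * f s w) w = ∑ s ∈ I, a s * R i (f s) w := by
  unfold R
  rw [Finset.sum_comm]
  refine Finset.sum_congr rfl fun s _ => ?_
  rw [Finset.mul_sum]

/-- `InA` is stable under relabelling and linear combinations. -/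
lemma xa_inA_sum {α : ℕ → ℕ} {ι : Type} (I : Finset ι) (a : ι → ℚ) (f : ι → (X → ℕ) → ℚ)
    (g : ι → Perm X) (hf : ∀ s, InA α (f s)) :
    InA α (fun w => ∑ s ∈ I, a s * f s (w ∘ g s)) := by
  constructor
  · intro w hw j
    obtain ⟨s, _, hs⟩ := Finset.exists_ne_zero_of_sum_ne_zero hw
    rw [← xa_cnt_comp w (g s) j]
    exact (hf s).cont _ (right_ne_zero_of_mul hs) j
  · intro i w
    rw [xa_R_sum I a (fun s w => f s (w ∘ g s)) i w]
    refine Finset.sum_eq_zero fun s _ => ?_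
    rw [xa_R_comp, (hf s).hw, mul_zero]

/-- `InAA` is stable under relabelling and linear combinations. -/
theorem inAA_sum {α : ℕ → ℕ} {F : (X → ℕ) → (X → ℕ) → ℚ} (hF : InAA α F) {ι : Type}
    (I : Finset ι) (a : ι → ℚ) (g : ι → Perm X) :
    InAA α (fun S₁ S₂ => ∑ i ∈ I, a i * F (S₁ ∘ g i) (S₂ ∘ g i)) := by
  constructor
  · intro w₂
    exact xa_inA_sum I a (fun s w₁ => F w₁ (w₂ ∘ g s)) g (fun s => hF.left _)
  · intro w₁
    exact xa_inA_sum I a (fun s w₂ => F (w₁ ∘ g s) w₂) g (fun s => hF.right _)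

/-- outer product of functions of one word. -/
lemma xa_out {α β γ : ℕ → ℕ} (hab : ∀ j, γ j = α j + β j) {f : (Y → ℕ) → ℚ}
    {e : (Z → ℕ) → ℚ} (hf : InA α f) (he : InA β e) :
    InA γ (fun S : Y ⊕ Z → ℕ => f (S ∘ Sum.inl) * e (S ∘ Sum.inr)) := by
  constructor
  · intro w hw j
    rw [xa_cnt_sum, hab j, hf.cont _ (left_ne_zero_of_mul hw) j,
      he.cont _ (right_ne_zero_of_mul hw) j]
  · intro i w
    unfold R
    rw [Finset.sum_filter, Fintype.sum_sum_type]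
    have e1 : ∀ y : Y, (Function.update w (Sum.inl y) (i + 1)) ∘ Sum.inr = w ∘ Sum.inr :=
      fun y => by funext x; simp
    have e2 : ∀ y : Y, (Function.update w (Sum.inl y) (i + 1)) ∘ Sum.inl =
        Function.update (w ∘ Sum.inl) y (i + 1) := fun y => by
      funext x
      by_cases hx : x = y
      · subst hx; simp
      · simp [hx]
    have e3 : ∀ q : Z, (Function.update w (Sum.inr q) (i + 1)) ∘ Sum.inl =
        w ∘ Sum.inl := fun q => by
      funext x; simp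
    have e4 : ∀ q : Z, (Function.update w (Sum.inr q) (i + 1)) ∘ Sum.inr =
        Function.update (w ∘ Sum.inr) q (i + 1) := fun q => by
      funext x
      by_cases hx : x = q
      · subst hx; simp
      · simp [hx]
    simp only [e1, e2, e3, e4]
    have f1 : ∑ y : Y, (if w (Sum.inl y) = i then
        f (Function.update (w ∘ Sum.inl) y (i + 1)) * e (w ∘ Sum.inr) else 0) =
        R i f (w ∘ Sum.inl) * e (w ∘ Sum.inr) := by
      unfold R
      rw [← Finset.sum_filter, Finset.sum_mul]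
      rfl
    have f2 : ∑ q : Z, (if w (Sum.inr q) = i then
        f (w ∘ Sum.inl) * e (Function.update (w ∘ Sum.inr) q (i + 1)) else 0) =
        f (w ∘ Sum.inl) * R i e (w ∘ Sum.inr) := by
      unfold R
      rw [← Finset.sum_filter, Finset.mul_sum]
      rfl
    rw [f1, f2, hf.hw, he.hw]
    ring

theorem tens_inAA {α β γ : ℕ → ℕ} (hab : ∀ j, γ j = α j + β j) {F : (Y → ℕ) → (Y → ℕ) → ℚ}
    {E : (Z → ℕ) → (Z → ℕ) → ℚ} (hF : InAA α F) (hE : InAA β E) : InAA γ (tens F E) := by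
  constructor
  · intro w₂
    exact xa_out hab (hF.left (w₂ ∘ Sum.inl)) (hE.left (w₂ ∘ Sum.inr))
  · intro w₁
    exact xa_out hab (hF.right (w₁ ∘ Sum.inl)) (hE.right (w₁ ∘ Sum.inr))

theorem tens_inVV {k' k : ℕ} (hk : k' ≤ k) {F : (Y → ℕ) → (Y → ℕ) → ℚ}
    {E : (Z → ℕ) → (Z → ℕ) → ℚ} (hF : InVV k' F) (hE : InAA (fun j => (k - j) - (k' - j)) E) :
    InVV k (tens F E) := by
  have hF' : InAA (fun j => k' - j) F :=
    ⟨fun w => inV_iff_inA.1 (hF.left w), fun w => inV_iff_inA.1 (hF.right w)⟩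
  have h := tens_inAA (γ := fun j => k - j) (fun j => by omega) hF' hE
  exact ⟨fun w => inV_iff_inA.2 (h.left w), fun w => inV_iff_inA.2 (h.right w)⟩

theorem phi_tens (S₁ S₂ : Y ⊕ Z → ℕ) :
    Phi S₁ S₂ = Phi (S₁ ∘ Sum.inl) (S₂ ∘ Sum.inl) + Phi (S₁ ∘ Sum.inr) (S₂ ∘ Sum.inr) := by
  unfold Phi
  rw [Fintype.sum_sum_type]
  rfl

theorem phi_comp (S₁ S₂ : X → ℕ) (g : Perm X) : Phi (S₁ ∘ g) (S₂ ∘ g) = Phi S₁ S₂ := by
  unfold Phi
  exact Equiv.sum_comp g (fun x => (S₁ x + S₂ x) ^ 2)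

theorem phi_stp {k : ℕ} {S₁ S₂ : X → ℕ} (h : StP 0 k S₁ S₂) : Phi S₁ S₂ = phik k := by
  unfold Phi phik
  refine Finset.sum_bij (fun x _ => (S₁ x, S₂ x)) ?_ ?_ ?_ ?_
  · intro x _
    rw [YoungDiagram.mem_cells, mem_stair]
    exact ((h.2 (S₁ x) (S₂ x)).2 ⟨x, rfl, rfl⟩).2
  · intro x _ y _ hxy
    exact h.1 x y (congrArg Prod.fst hxy) (congrArg Prod.snd hxy)
  · rintro ⟨i, j⟩ hp
    rw [YoungDiagram.mem_cells, mem_stair] at hp
    obtain ⟨x, h1, h2⟩ := (h.2 i j).1 ⟨Nat.zero_le _, hp⟩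
    exact ⟨x, Finset.mem_univ _, by rw [h1, h2]⟩
  · intro x _
    rfl

theorem stp_sum {k' k : ℕ} (hk : k' ≤ k) {S₁ S₂ : Y ⊕ Z → ℕ}
    (hY : StP 0 k' (S₁ ∘ Sum.inl) (S₂ ∘ Sum.inl)) (hZ : StP k' k (S₁ ∘ Sum.inr) (S₂ ∘ Sum.inr)) :
    StP 0 k S₁ S₂ := by
  have hy : ∀ y : Y, S₁ (Sum.inl y) + S₂ (Sum.inl y) < k' := fun y =>
    ((hY.2 _ _).2 ⟨y, rfl, rfl⟩).2
  have hz : ∀ z : Z, k' ≤ S₁ (Sum.inr z) + S₂ (Sum.inr z) ∧
      S₁ (Sum.inr z) + S₂ (Sum.inr z) < k := fun z => (hZ.2 _ _).2 ⟨z, rfl, rfl⟩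
  constructor
  · rintro (y | z) (y' | z') h1 h2
    · exact congrArg Sum.inl (hY.1 y y' h1 h2)
    · exfalso
      have a := hy y
      have b := (hz z').1
      rw [← h1, ← h2] at b
      omega
    · exfalso
      have a := hy y'
      have b := (hz z).1
      rw [h1, h2] at b
      omega
    · exact congrArg Sum.inr (hZ.1 z z' h1 h2)
  · intro i j
    constructor
    · rintro ⟨-, h⟩
      rcases lt_or_ge (i + j) k' with h' | h'
      · obtain ⟨y, h1, h2⟩ := (hY.2 i j).1 ⟨Nat.zero_le _, h'⟩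
        exact ⟨Sum.inl y, h1, h2⟩
      · obtain ⟨z, h1, h2⟩ := (hZ.2 i j).1 ⟨h', h⟩
        exact ⟨Sum.inr z, h1, h2⟩
    · rintro ⟨x, rfl, rfl⟩
      refine ⟨Nat.zero_le _, ?_⟩
      rcases x with y | z
      · have := hy y
        omega
      · exact (hz z).2

end Sx
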