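import Mathlib
import Pool.Agent.Saxl2.BFDefs
import Pool.Agent.Saxl2.XA
import Pool.Agent.Helper87.Saxl.Js

/-! SAXL2 BFA: closure properties of `InAB` and the small blocks `EM`, `EQ4`, `ED`. -/

namespace Sx

open Finset Equiv

variable {X Y Z : Type} [Fintype X] [DecidableEq X] [Fintype Y] [DecidableEq Y]
  [Fintype Z] [DecidableEq Z]

theorem InAB.tens {α β α' β' γ δ : ℕ → ℕ} (hγ : ∀ j, γ j = α j + α' j)
    (hδ : ∀ j, δ j = β j + β' j) {F : (Y → ℕ) → (Y → ℕ) → ℚ} {E : (Z → ℕ) → (Z → ℕ) → ℚ}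
    (hF : InAB α β F) (hE : InAB α' β' E) : InAB γ δ (tens F E) where
  left w₂ := xa_out hγ (hF.left (w₂ ∘ Sum.inl)) (hE.left (w₂ ∘ Sum.inr))
  right w₁ := xa_out hδ (hF.right (w₁ ∘ Sum.inl)) (hE.right (w₁ ∘ Sum.inr))

theorem bfa_sub {α : ℕ → ℕ} {f e : (X → ℕ) → ℚ} (hf : InA α f) (he : InA α e) :
    InA α (fun w => f w - e w) where
  cont w hw j := by
    by_cases h : f w = 0
    · refine he.cont w ?_ j
      intro h0
      apply hw
      simp only [h, h0, sub_zero]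
    · exact hf.cont w h j
  hw i w := by
    have h1 := hf.hw i w
    have h2 := he.hw i w
    unfold R at *
    rw [Finset.sum_sub_distrib, h1, h2, sub_zero]

theorem InAB.sub {α β : ℕ → ℕ} {F E : (X → ℕ) → (X → ℕ) → ℚ} (hF : InAB α β F)
    (hE : InAB α β E) : InAB α β (sub2 F E) where
  left w₂ := bfa_sub (hF.left w₂) (hE.left w₂)
  right w₁ := bfa_sub (hF.right w₁) (hE.right w₁)

theorem bfa_rel {α : ℕ → ℕ} {f : (X → ℕ) → ℚ} (hf : InA α f) (g : Perm X) :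
    InA α (fun w => f (w ∘ g)) where
  cont w hw j := by
    rw [← xa_cnt_comp w g j]
    exact hf.cont _ hw j
  hw i w := by
    rw [xa_R_comp, hf.hw]

theorem InAB.rel {α β : ℕ → ℕ} {F : (X → ℕ) → (X → ℕ) → ℚ} (hF : InAB α β F) (g : Perm X) :
    InAB α β (rel g F) where
  left w₂ := bfa_rel (hF.left (w₂ ∘ g)) g
  right w₁ := bfa_rel (hF.right (w₁ ∘ g)) g

theorem InAB.flip {α β : ℕ → ℕ} {F : (X → ℕ) → (X → ℕ) → ℚ} (hF : InAB α β F) :
    InAB β α (flip2 F) where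
  left w₂ := hF.right w₂
  right w₁ := hF.left w₁

theorem inVV_of_inAB {k : ℕ} {F : (X → ℕ) → (X → ℕ) → ℚ}
    (h : InAB (fun j => k - j) (fun j => k - j) F) : InVV k F :=
  ⟨fun w => inV_iff_inA.2 (h.left w), fun w => inV_iff_inA.2 (h.right w)⟩

/-! ### `sgnw` -/

theorem bfa_perm {k : ℕ} (w : Fin k → ℕ) (h : sgnw w ≠ 0) :
    ∃ π : Perm (Fin k), ∀ i, w i = ((π i : Fin k) : ℕ) := by
  unfold sgnw at h
  obtain ⟨π, _, hπ⟩ := Finset.exists_ne_zero_of_sum_ne_zero h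
  refine ⟨π, fun i => ?_⟩
  by_contra hi
  apply hπ
  rw [Finset.prod_eq_zero (Finset.mem_univ i) (if_neg hi), mul_zero]

theorem bfa_raise {m : ℕ} (i : ℕ) (v : Fin m → ℕ) : R i sgnw v = 0 := by
  unfold R
  by_contra hne
  obtain ⟨q, hq, hs⟩ := Finset.exists_ne_zero_of_sum_ne_zero hne
  have hvq : v q = i := (Finset.mem_filter.1 hq).2
  obtain ⟨π, hπ⟩ := bfa_perm _ hs
  have h1 : ((π q : Fin m) : ℕ) = i + 1 := by rw [← hπ q]; simp
  have him : i < m := by have := (π q).2; omega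
  obtain ⟨q', hq'⟩ : ∃ q', π q' = ⟨i, him⟩ := ⟨π⁻¹ ⟨i, him⟩, by simp⟩
  have hqq : q' ≠ q := by
    intro h
    rw [h] at hq'
    rw [hq'] at h1
    simp at h1
  have hvq' : v q' = i := by
    have := hπ q'
    rw [Function.update_of_ne hqq, hq'] at this
    exact this
  have hset : univ.filter (fun x => v x = i) = {q, q'} := by
    ext x
    simp only [Finset.mem_filter, Finset.mem_univ, true_and, Finset.mem_insert,
      Finset.mem_singleton]
    constructor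
    · intro hx
      by_cases hxq : x = q
      · exact Or.inl hxq
      · right
        have := hπ x
        rw [Function.update_of_ne hxq, hx] at this
        apply π.injective
        rw [hq']
        exact Fin.ext this.symm
    · rintro (rfl | rfl)
      · exact hvq
      · exact hvq'
  apply hne
  rw [hset, Finset.sum_pair hqq.symm]
  have h2 : Function.update v q' (i + 1) = Function.update v q (i + 1) ∘ (swap q q') := by
    funext x
    simp only [Function.comp_apply]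
    by_cases hx : x = q
    · subst hx
      rw [swap_apply_left, Function.update_of_ne hqq.symm, Function.update_of_ne hqq, hvq, hvq']
    · by_cases hx' : x = q'
      · subst hx'
        rw [swap_apply_right, Function.update_self, Function.update_self]
      · rw [swap_apply_of_ne_of_ne hx hx', Function.update_of_ne hx, Function.update_of_ne hx']
  rw [h2, sgnw_comp, sg_swap hqq.symm]
  ring

theorem bfa_sgnw {n : ℕ} {α : ℕ → ℕ} (hα : ∀ j, α j = if j < n then 1 else 0) :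
    InA α (sgnw : (Fin n → ℕ) → ℚ) where
  cont w hw j := by
    rw [hα, sgnw_cnt w hw j]
  hw := bfa_raise

theorem bfa_mul_const {α : ℕ → ℕ} {f : (X → ℕ) → ℚ} (hf : InA α f) (c : ℚ) :
    InA α (fun w => f w * c) where
  cont w hw j := hf.cont w (left_ne_zero_of_mul hw) j
  hw i w := by
    have h1 := hf.hw i w
    unfold R at *
    rw [← Finset.sum_mul, h1, zero_mul]

theorem bfa_const_mul {α : ℕ → ℕ} {f : (X → ℕ) → ℚ} (hf : InA α f) (c : ℚ) :
    InA α (fun w => c * f w) where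
  cont w hw j := hf.cont w (right_ne_zero_of_mul hw) j
  hw i w := by
    have h1 := hf.hw i w
    unfold R at *
    rw [← Finset.mul_sum, h1, mul_zero]

/-! ### the functions `fM` and `fQ` -/

theorem bfa_R_dw {n : ℕ} (u : Fin n → ℕ) (i : ℕ) (w : Fin n → ℕ) :
    R i (dw u) w = ∑ x, if u x = i + 1 then dw (Function.update u x i) w else 0 := by
  unfold R
  rw [Finset.sum_filter]
  apply Finset.sum_congr rfl
  intro x _
  unfold dw
  by_cases h1 : w x = i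
  · by_cases h2 : u x = i + 1
    · rw [if_pos h1, if_pos h2]
      have h3 : (Function.update w x (i + 1) = u) ↔ (w = Function.update u x i) := by
        constructor
        · intro h
          rw [← h]
          simp [← h1]
        · intro h
          rw [h]
          simp [← h2]
      simp only [h3]
    · rw [if_pos h1, if_neg h2, if_neg]
      intro h
      apply h2
      rw [← h]
      simp
  · rw [if_neg h1]
    by_cases h2 : u x = i + 1
    · rw [if_pos h2, if_neg]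
      intro h
      apply h1
      rw [h]
      simp
    · rw [if_neg h2]

theorem bfa_R_lin {n : ℕ} {ι : Type} (I : Finset ι) (a : ι → ℚ) (u : ι → Fin n → ℕ) (i : ℕ)
    (w : Fin n → ℕ) : R i (fun w => ∑ s ∈ I, a s * dw (u s) w) w =
      ∑ s ∈ I, a s * R i (dw (u s)) w := xa_R_sum I a (fun s => dw (u s)) i w

theorem bfa_dw_comp {n : ℕ} (u w : Fin n → ℕ) (a b : Fin n) :
    dw u (w ∘ swap a b) = dw (u ∘ swap a b) w := by
  unfold dw
  have h : (w ∘ swap a b = u) ↔ (w = u ∘ swap a b) := by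
    constructor
    · intro h
      rw [← h]
      funext x
      simp
    · intro h
      rw [h]
      funext x
      simp
  simp only [h]

theorem bfa_R_add {n : ℕ} (f g : (Fin n → ℕ) → ℚ) (i : ℕ) (w : Fin n → ℕ) :
    R i (fun w => f w + g w) w = R i f w + R i g w := by
  unfold R
  rw [Finset.sum_add_distrib]

theorem bfa_R_sub {n : ℕ} (f g : (Fin n → ℕ) → ℚ) (i : ℕ) (w : Fin n → ℕ) :
    R i (fun w => f w - g w) w = R i f w - R i g w := by
  unfold R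
  rw [Finset.sum_sub_distrib]

theorem bfa_R_mul {n : ℕ} (c : ℚ) (f : (Fin n → ℕ) → ℚ) (i : ℕ) (w : Fin n → ℕ) :
    R i (fun w => c * f w) w = c * R i f w := by
  unfold R
  rw [Finset.mul_sum]

/-- the content of an explicit word. -/
theorem bfa_cnt {n : ℕ} (l : List ℕ) (u : Fin n → ℕ) (hu : ∀ x, u x < l.length)
    (h : ∀ j < l.length, cnt u j = l.getD j 0) (j : ℕ) : cnt u j = co l j := by
  unfold co
  by_cases hj : j < l.length
  · exact h j hj
  · rw [List.getD_eq_default _ _ (not_lt.1 hj)]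
    unfold cnt
    rw [Finset.card_eq_zero, Finset.filter_eq_empty_iff]
    intro x _ hx
    exact hj (hx ▸ hu x)

theorem bfa_fM_supp (w : Fin 3 → ℕ) (h : fM w ≠ 0) :
    w = ![0, 0, 1] ∨ w = ![1, 0, 0] ∨ w = ![0, 1, 0] := by
  by_contra hcon
  push Not at hcon
  apply h
  unfold fM dw
  rw [if_neg hcon.1, if_neg hcon.2.1, if_neg hcon.2.2]
  norm_num

theorem bfa_fM : InA (co [2, 1]) fM where
  cont w hw j := by
    rcases bfa_fM_supp w hw with rfl | rfl | rfl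
    · exact bfa_cnt [2, 1] _ (by decide) (by decide) j
    · exact bfa_cnt [2, 1] _ (by decide) (by decide) j
    · exact bfa_cnt [2, 1] _ (by decide) (by decide) j
  hw i w := by
    have h0 : fM = fun w => 2 * dw ![0, 0, 1] w - dw ![1, 0, 0] w - dw ![0, 1, 0] w := rfl
    rw [h0, bfa_R_sub, bfa_R_sub, bfa_R_mul, bfa_R_dw, bfa_R_dw, bfa_R_dw]
    rw [Fin.sum_univ_three, Fin.sum_univ_three, Fin.sum_univ_three]
    rcases i with _ | i
    · have e1 : Function.update (![0, 0, 1] : Fin 3 → ℕ) 2 0 = ![0, 0, 0] := by decide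
      have e2 : Function.update (![1, 0, 0] : Fin 3 → ℕ) 0 0 = ![0, 0, 0] := by decide
      have e3 : Function.update (![0, 1, 0] : Fin 3 → ℕ) 1 0 = ![0, 0, 0] := by decide
      simp [e1, e2, e3]
      ring
    · simp

theorem bfa_fQ_supp (w : Fin 4 → ℕ) (h : fQ w ≠ 0) :
    w = ![1, 0, 2, 0] ∨ w = ![0, 1, 2, 0] ∨ w = ![1, 0, 0, 2] ∨ w = ![0, 1, 0, 2] ∨
    w = ![0, 0, 1, 2] ∨ w = ![2, 0, 1, 0] ∨ w = ![0, 2, 1, 0] ∨ w = ![2, 0, 0, 1] ∨
    w = ![0, 2, 0, 1] ∨ w = ![0, 0, 2, 1] := by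
  by_contra hcon
  push Not at hcon
  obtain ⟨h1, h2, h3, h4, h5, h6, h7, h8, h9, h10⟩ := hcon
  apply h
  unfold fQ dw
  rw [if_neg h1, if_neg h2, if_neg h3, if_neg h4, if_neg h5, if_neg h6, if_neg h7, if_neg h8,
    if_neg h9, if_neg h10]
  norm_num

theorem bfa_fQ : InA (co [2, 1, 1]) fQ where
  cont w hw j := by
    rcases bfa_fQ_supp w hw with rfl | rfl | rfl | rfl | rfl | rfl | rfl | rfl | rfl | rfl <;>
    exact bfa_cnt [2, 1, 1] _ (by decide) (by decide) j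
  hw i w := by
    have h0 : fQ = fun w => dw ![1, 0, 2, 0] w + dw ![0, 1, 2, 0] w - dw ![1, 0, 0, 2] w
      - dw ![0, 1, 0, 2] w + 2 * dw ![0, 0, 1, 2] w - dw ![2, 0, 1, 0] w - dw ![0, 2, 1, 0] w
      + dw ![2, 0, 0, 1] w + dw ![0, 2, 0, 1] w - 2 * dw ![0, 0, 2, 1] w := rfl
    rw [h0, bfa_R_sub, bfa_R_add, bfa_R_add, bfa_R_sub, bfa_R_sub, bfa_R_add, bfa_R_sub,
      bfa_R_sub, bfa_R_add, bfa_R_mul, bfa_R_mul]
    simp only [bfa_R_dw, Fin.sum_univ_four]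
    rcases i with _ | _ | i
    · have e1 : Function.update (![1, 0, 2, 0] : Fin 4 → ℕ) 0 0 = ![0, 0, 2, 0] := by decide
      have e2 : Function.update (![0, 1, 2, 0] : Fin 4 → ℕ) 1 0 = ![0, 0, 2, 0] := by decide
      have e3 : Function.update (![1, 0, 0, 2] : Fin 4 → ℕ) 0 0 = ![0, 0, 0, 2] := by decide
      have e4 : Function.update (![0, 1, 0, 2] : Fin 4 → ℕ) 1 0 = ![0, 0, 0, 2] := by decide
      have e5 : Function.update (![0, 0, 1, 2] : Fin 4 → ℕ) 2 0 = ![0, 0, 0, 2] := by decide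
      have e6 : Function.update (![2, 0, 1, 0] : Fin 4 → ℕ) 2 0 = ![2, 0, 0, 0] := by decide
      have e7 : Function.update (![0, 2, 1, 0] : Fin 4 → ℕ) 2 0 = ![0, 2, 0, 0] := by decide
      have e8 : Function.update (![2, 0, 0, 1] : Fin 4 → ℕ) 3 0 = ![2, 0, 0, 0] := by decide
      have e9 : Function.update (![0, 2, 0, 1] : Fin 4 → ℕ) 3 0 = ![0, 2, 0, 0] := by decide
      have e10 : Function.update (![0, 0, 2, 1] : Fin 4 → ℕ) 3 0 = ![0, 0, 2, 0] := by decide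
      simp [e1, e2, e3, e4, e5, e6, e7, e8, e9, e10]
      ring
    · have e1 : Function.update (![1, 0, 2, 0] : Fin 4 → ℕ) 2 1 = ![1, 0, 1, 0] := by decide
      have e2 : Function.update (![0, 1, 2, 0] : Fin 4 → ℕ) 2 1 = ![0, 1, 1, 0] := by decide
      have e3 : Function.update (![1, 0, 0, 2] : Fin 4 → ℕ) 3 1 = ![1, 0, 0, 1] := by decide
      have e4 : Function.update (![0, 1, 0, 2] : Fin 4 → ℕ) 3 1 = ![0, 1, 0, 1] := by decide
      have e5 : Function.update (![0, 0, 1, 2] : Fin 4 → ℕ) 3 1 = ![0, 0, 1, 1] := by decide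
      have e6 : Function.update (![2, 0, 1, 0] : Fin 4 → ℕ) 0 1 = ![1, 0, 1, 0] := by decide
      have e7 : Function.update (![0, 2, 1, 0] : Fin 4 → ℕ) 1 1 = ![0, 1, 1, 0] := by decide
      have e8 : Function.update (![2, 0, 0, 1] : Fin 4 → ℕ) 0 1 = ![1, 0, 0, 1] := by decide
      have e9 : Function.update (![0, 2, 0, 1] : Fin 4 → ℕ) 1 1 = ![0, 1, 0, 1] := by decide
      have e10 : Function.update (![0, 0, 2, 1] : Fin 4 → ℕ) 2 1 = ![0, 0, 1, 1] := by decide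
      simp [e1, e2, e3, e4, e5, e6, e7, e8, e9, e10]
      ring
    · simp

theorem bfa_co1 (n : ℕ) (l : List ℕ) (hl : l = List.replicate n 1) (j : ℕ) :
    co l j = if j < n then 1 else 0 := by
  subst hl
  unfold co
  rw [List.getD_eq_getElem?_getD, List.getElem?_replicate]
  split_ifs <;> rfl

theorem inAB_EM : InAB (co [2, 1]) (co [1, 1, 1]) EM where
  left w₂ := bfa_mul_const bfa_fM (sgnw w₂)
  right w₁ := bfa_const_mul (bfa_sgnw (bfa_co1 3 [1, 1, 1] rfl)) (fM w₁)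

theorem inAB_EQ4 : InAB (co [2, 1, 1]) (co [1, 1, 1, 1]) EQ4 where
  left w₂ := bfa_mul_const bfa_fQ (sgnw w₂)
  right w₁ := bfa_const_mul (bfa_sgnw (bfa_co1 4 [1, 1, 1, 1] rfl)) (fQ w₁)

theorem inAB_ED : InAB (co [1, 1]) (co [1, 1]) ED where
  left w₂ := bfa_mul_const (bfa_sgnw (bfa_co1 2 [1, 1] rfl)) (sgnw w₂)
  right w₁ := bfa_const_mul (bfa_sgnw (bfa_co1 2 [1, 1] rfl)) (sgnw w₁)

theorem bfa_fM_swap (w : Fin 3 → ℕ) : fM (w ∘ swap 0 1) = fM w := by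
  unfold fM
  rw [bfa_dw_comp, bfa_dw_comp, bfa_dw_comp]
  have e1 : (![0, 0, 1] : Fin 3 → ℕ) ∘ swap 0 1 = ![0, 0, 1] := by decide
  have e2 : (![1, 0, 0] : Fin 3 → ℕ) ∘ swap 0 1 = ![0, 1, 0] := by decide
  have e3 : (![0, 1, 0] : Fin 3 → ℕ) ∘ swap 0 1 = ![1, 0, 0] := by decide
  rw [e1, e2, e3]
  ring

theorem EM_swap (w₁ w₂ : Fin 3 → ℕ) : EM (w₁ ∘ swap 0 1) (w₂ ∘ swap 0 1) = -EM w₁ w₂ := by
  unfold EM
  rw [bfa_fM_swap, sgnw_comp, sg_swap (by decide)]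
  ring

theorem bfa_fQ_swap (w : Fin 4 → ℕ) : fQ (w ∘ swap 0 1) = fQ w := by
  unfold fQ
  simp only [bfa_dw_comp]
  have e1 : (![1, 0, 2, 0] : Fin 4 → ℕ) ∘ swap 0 1 = ![0, 1, 2, 0] := by decide
  have e2 : (![0, 1, 2, 0] : Fin 4 → ℕ) ∘ swap 0 1 = ![1, 0, 2, 0] := by decide
  have e3 : (![1, 0, 0, 2] : Fin 4 → ℕ) ∘ swap 0 1 = ![0, 1, 0, 2] := by decide
  have e4 : (![0, 1, 0, 2] : Fin 4 → ℕ) ∘ swap 0 1 = ![1, 0, 0, 2] := by decide
  have e5 : (![0, 0, 1, 2] : Fin 4 → ℕ) ∘ swap 0 1 = ![0, 0, 1, 2] := by decide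
  have e6 : (![2, 0, 1, 0] : Fin 4 → ℕ) ∘ swap 0 1 = ![0, 2, 1, 0] := by decide
  have e7 : (![0, 2, 1, 0] : Fin 4 → ℕ) ∘ swap 0 1 = ![2, 0, 1, 0] := by decide
  have e8 : (![2, 0, 0, 1] : Fin 4 → ℕ) ∘ swap 0 1 = ![0, 2, 0, 1] := by decide
  have e9 : (![0, 2, 0, 1] : Fin 4 → ℕ) ∘ swap 0 1 = ![2, 0, 0, 1] := by decide
  have e10 : (![0, 0, 2, 1] : Fin 4 → ℕ) ∘ swap 0 1 = ![0, 0, 2, 1] := by decide
  rw [e1, e2, e3, e4, e5, e6, e7, e8, e9, e10]
  ring

theorem bfa_fQ_swap' (w : Fin 4 → ℕ) : fQ (w ∘ swap 2 3) = -fQ w := by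
  unfold fQ
  simp only [bfa_dw_comp]
  have e1 : (![1, 0, 2, 0] : Fin 4 → ℕ) ∘ swap 2 3 = ![1, 0, 0, 2] := by decide
  have e2 : (![0, 1, 2, 0] : Fin 4 → ℕ) ∘ swap 2 3 = ![0, 1, 0, 2] := by decide
  have e3 : (![1, 0, 0, 2] : Fin 4 → ℕ) ∘ swap 2 3 = ![1, 0, 2, 0] := by decide
  have e4 : (![0, 1, 0, 2] : Fin 4 → ℕ) ∘ swap 2 3 = ![0, 1, 2, 0] := by decide
  have e5 : (![0, 0, 1, 2] : Fin 4 → ℕ) ∘ swap 2 3 = ![0, 0, 2, 1] := by decide
  have e6 : (![2, 0, 1, 0] : Fin 4 → ℕ) ∘ swap 2 3 = ![2, 0, 0, 1] := by decide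
  have e7 : (![0, 2, 1, 0] : Fin 4 → ℕ) ∘ swap 2 3 = ![0, 2, 0, 1] := by decide
  have e8 : (![2, 0, 0, 1] : Fin 4 → ℕ) ∘ swap 2 3 = ![2, 0, 1, 0] := by decide
  have e9 : (![0, 2, 0, 1] : Fin 4 → ℕ) ∘ swap 2 3 = ![0, 2, 1, 0] := by decide
  have e10 : (![0, 0, 2, 1] : Fin 4 → ℕ) ∘ swap 2 3 = ![0, 0, 1, 2] := by decide
  rw [e1, e2, e3, e4, e5, e6, e7, e8, e9, e10]
  ring

theorem EQ4_swap (w₁ w₂ : Fin 4 → ℕ) : EQ4 (w₁ ∘ swap 0 1) (w₂ ∘ swap 0 1) = -EQ4 w₁ w₂ := by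
  unfold EQ4
  rw [bfa_fQ_swap, sgnw_comp, sg_swap (by decide)]
  ring

theorem EQ4_swap' (w₁ w₂ : Fin 4 → ℕ) : EQ4 (w₁ ∘ swap 2 3) (w₂ ∘ swap 2 3) = EQ4 w₁ w₂ := by
  unfold EQ4
  rw [bfa_fQ_swap', sgnw_comp, sg_swap (by decide)]
  ring

theorem ED_swap (w₁ w₂ : Fin 2 → ℕ) : ED (w₁ ∘ swap 0 1) (w₂ ∘ swap 0 1) = ED w₁ w₂ := by
  unfold ED
  rw [sgnw_comp, sgnw_comp, sg_swap (by decide)]
  ring

/-- the block `EM` vanishes on pairs of words with the same zero set. -/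
theorem EM_zero (w₁ w₂ : Fin 3 → ℕ) (h : ∀ x, w₁ x = 0 ↔ w₂ x = 0) : EM w₁ w₂ = 0 := by
  unfold EM
  by_contra hne
  have h1 := bfa_fM.cont w₁ (left_ne_zero_of_mul hne) 0
  have h2 := sgnw_cnt w₂ (right_ne_zero_of_mul hne) 0
  have h3 : cnt w₁ 0 = cnt w₂ 0 := by
    unfold cnt
    congr 1
    ext x
    simp [h x]
  rw [h1, h2] at h3
  simp [co] at h3

end Sx
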