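import Mathlib
import Pool.Agent.Saxl2.BFDefs

/-! Numerical evaluation of functions of two words (MP_2a22ca_al). -/

namespace Sx

open Finset Equiv

variable {X Y Z : Type} [Fintype X] [DecidableEq X] [Fintype Y] [DecidableEq Y]
  [Fintype Z] [DecidableEq Z]

theorem ev_sub (N : ℕ) (r : X → ℕ) (A : ℕ → ℕ → ℕ → ℚ) (F E : (X → ℕ) → (X → ℕ) → ℚ) :
    ev N r A (sub2 F E) = ev N r A F - ev N r A E := by
  simp only [ev, sub2, sub_mul, sum_sub_distrib]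

theorem ev_rel (N : ℕ) (r : X → ℕ) (A : ℕ → ℕ → ℕ → ℚ) (g : Perm X)
    (F : (X → ℕ) → (X → ℕ) → ℚ) : ev N r A (rel g F) = ev N (r ∘ g) A F := by
  simp only [ev, rel]
  refine Fintype.sum_equiv (Equiv.arrowCongr g.symm (Equiv.refl (Fin N))) _ _ fun S₁ => ?_
  refine Fintype.sum_equiv (Equiv.arrowCongr g.symm (Equiv.refl (Fin N))) _ _ fun S₂ => ?_
  simp only [Equiv.arrowCongr_apply, Equiv.coe_refl, Equiv.symm_symm, Function.comp_def, id]
  congr 1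
  exact (Equiv.prod_comp g (fun x => A (r x) (S₁ x) (S₂ x))).symm

theorem ev_tens (N : ℕ) (r : Y ⊕ Z → ℕ) (A : ℕ → ℕ → ℕ → ℚ) (F : (Y → ℕ) → (Y → ℕ) → ℚ)
    (E : (Z → ℕ) → (Z → ℕ) → ℚ) :
    ev N r A (tens F E) = ev N (r ∘ Sum.inl) A F * ev N (r ∘ Sum.inr) A E := by
  simp only [ev, tens]
  rw [← Fintype.sum_equiv (Equiv.sumArrowEquivProdArrow Y Z (Fin N)).symm
    (fun p => ∑ S₂ : Y ⊕ Z → Fin N,
      F ((fun x => (((Equiv.sumArrowEquivProdArrow Y Z (Fin N)).symm p x : Fin N) : ℕ)) ∘ Sum.inl)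
        ((fun x => (S₂ x : ℕ)) ∘ Sum.inl) *
      E ((fun x => (((Equiv.sumArrowEquivProdArrow Y Z (Fin N)).symm p x : Fin N) : ℕ)) ∘ Sum.inr)
        ((fun x => (S₂ x : ℕ)) ∘ Sum.inr) *
      ∏ x, A (r x) ((Equiv.sumArrowEquivProdArrow Y Z (Fin N)).symm p x) (S₂ x)) _
      (fun p => rfl)]
  rw [Fintype.sum_prod_type, sum_mul]
  refine sum_congr rfl fun U _ => ?_
  rw [mul_sum]
  refine sum_congr rfl fun V _ => ?_
  rw [← Fintype.sum_equiv (Equiv.sumArrowEquivProdArrow Y Z (Fin N)).symm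
    (fun p =>
      F ((fun x => (((Equiv.sumArrowEquivProdArrow Y Z (Fin N)).symm (U, V) x : Fin N) : ℕ)) ∘ Sum.inl)
        ((fun x => (((Equiv.sumArrowEquivProdArrow Y Z (Fin N)).symm p x : Fin N) : ℕ)) ∘ Sum.inl) *
      E ((fun x => (((Equiv.sumArrowEquivProdArrow Y Z (Fin N)).symm (U, V) x : Fin N) : ℕ)) ∘ Sum.inr)
        ((fun x => (((Equiv.sumArrowEquivProdArrow Y Z (Fin N)).symm p x : Fin N) : ℕ)) ∘ Sum.inr) *
      ∏ x, A (r x) ((Equiv.sumArrowEquivProdArrow Y Z (Fin N)).symm (U, V) x)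
        ((Equiv.sumArrowEquivProdArrow Y Z (Fin N)).symm p x)) _
      (fun p => rfl)]
  rw [Fintype.sum_prod_type, sum_mul]
  refine sum_congr rfl fun U' _ => ?_
  rw [mul_sum]
  refine sum_congr rfl fun V' _ => ?_
  rw [Fintype.prod_sum_type]
  simp only [Function.comp_def, Equiv.sumArrowEquivProdArrow_symm_apply_inl,
    Equiv.sumArrowEquivProdArrow_symm_apply_inr]
  ring

theorem ev_flip (N : ℕ) (r : X → ℕ) (A : ℕ → ℕ → ℕ → ℚ) (F : (X → ℕ) → (X → ℕ) → ℚ) :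
    ev N r A (flip2 F) = ev N r (fun s i j => A s j i) F := by
  simp only [ev, flip2]
  rw [sum_comm]

lemma BFB_alt {n : ℕ} (N : ℕ) (hN : n ≤ N) (a : Fin n → ℕ → ℚ) :
    ∑ S : Fin n → Fin N, sgnw (fun x => (S x : ℕ)) * ∏ x, a x (S x) = dt a := by
  simp only [sgnw, dt, sum_mul]
  rw [sum_comm]
  refine sum_congr rfl fun π _ => ?_
  have h1 : ∀ S : Fin n → Fin N,
      (sg π * ∏ i, if (S i : ℕ) = ((π i : Fin n) : ℕ) then (1 : ℚ) else 0) * ∏ x, a x (S x) =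
      sg π * ∏ i, (if (S i : ℕ) = ((π i : Fin n) : ℕ) then a i (S i) else 0) := by
    intro S
    rw [mul_assoc, ← prod_mul_distrib]
    congr 1
    refine prod_congr rfl fun i _ => ?_
    rw [ite_mul, one_mul, zero_mul]
  rw [sum_congr rfl fun S _ => h1 S, ← mul_sum]
  congr 1
  have h2 := (Finset.prod_univ_sum (fun _ : Fin n => (univ : Finset (Fin N)))
    (fun i s => if (s : ℕ) = ((π i : Fin n) : ℕ) then a i s else 0)).symm
  rw [Fintype.piFinset_univ] at h2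
  rw [h2]
  refine prod_congr rfl fun i _ => ?_
  rw [Finset.sum_eq_single (⟨(π i : Fin n), (π i).2.trans_le hN⟩ : Fin N)]
  · simp
  · intro b _ hb
    rw [if_neg]
    intro h
    exact hb (Fin.ext h)
  · intro h
    exact absurd (mem_univ _) h

lemma BFB_dw {n : ℕ} (N : ℕ) (u : Fin n → ℕ) (hu : ∀ x, u x < N) (G : (Fin n → ℕ) → ℚ) :
    ∑ S : Fin n → Fin N, dw u (fun x => (S x : ℕ)) * G (fun x => (S x : ℕ)) = G u := by
  rw [Finset.sum_eq_single (fun x => (⟨u x, hu x⟩ : Fin N))]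
  · simp [dw]
  · intro S _ hS
    rw [dw, if_neg, zero_mul]
    intro h
    exact hS (funext fun x => Fin.ext (congrFun h x))
  · intro h
    exact absurd (mem_univ _) h

lemma BFB_ev {n : ℕ} (N : ℕ) (hN : n ≤ N) (r : Fin n → ℕ) (A : ℕ → ℕ → ℕ → ℚ)
    (f : (Fin n → ℕ) → ℚ) :
    ev N r A (fun w₁ w₂ => f w₁ * sgnw w₂) =
      ∑ S : Fin n → Fin N, f (fun x => (S x : ℕ)) *
        (fun w : Fin n → ℕ => dt (fun x => A (r x) (w x))) (fun x => (S x : ℕ)) := by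
  simp only [ev]
  refine sum_congr rfl fun S _ => ?_
  rw [← BFB_alt N hN, mul_sum]
  refine sum_congr rfl fun T _ => ?_
  ring

lemma BFB_dt {n : ℕ} (N : ℕ) (r : Fin n → ℕ) (A : ℕ → ℕ → ℕ → ℚ) (u : Fin n → ℕ)
    (hu : ∀ x, u x < N) :
    ∑ S : Fin n → Fin N, dw u (fun x => (S x : ℕ)) * dt (fun x => A (r x) (S x)) =
      dt (fun x => A (r x) (u x)) :=
  BFB_dw N u hu (fun w => dt fun x => A (r x) (w x))

theorem ev_EM (r : Fin 3 → ℕ) (A : ℕ → ℕ → ℕ → ℚ) (N : ℕ) (hN : 3 ≤ N) :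
    ev N r A EM = 2 * dt ![A (r 0) 0, A (r 1) 0, A (r 2) 1] -
      dt ![A (r 0) 1, A (r 1) 0, A (r 2) 0] - dt ![A (r 0) 0, A (r 1) 1, A (r 2) 0] := by
  have h0 : EM = fun w₁ w₂ => fM w₁ * sgnw w₂ := rfl
  have e : ∀ a b c : ℕ, (fun x => A (r x) ((![a, b, c] : Fin 3 → ℕ) x)) =
      ![A (r 0) a, A (r 1) b, A (r 2) c] := by
    intro a b c
    funext x; fin_cases x <;> rfl
  have hu : ∀ a b c : ℕ, a < N → b < N → c < N → ∀ x, (![a, b, c] : Fin 3 → ℕ) x < N := by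
    intro a b c h1 h2 h3 x
    fin_cases x <;> assumption
  have d : ∀ a b c : ℕ, a < N → b < N → c < N →
      ∑ S : Fin 3 → Fin N, dw ![a, b, c] (fun x => (S x : ℕ)) * dt (fun x => A (r x) (S x)) =
      dt ![A (r 0) a, A (r 1) b, A (r 2) c] := by
    intro a b c h1 h2 h3
    rw [BFB_dt N r A _ (hu a b c h1 h2 h3), e]
  rw [h0, BFB_ev N hN]
  simp only [fM, sub_mul, sum_sub_distrib, mul_assoc, ← mul_sum]
  rw [d 0 0 1 (by omega) (by omega) (by omega), d 1 0 0 (by omega) (by omega) (by omega),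
    d 0 1 0 (by omega) (by omega) (by omega)]

theorem ev_EQ4 (r : Fin 4 → ℕ) (A : ℕ → ℕ → ℕ → ℚ) (N : ℕ) (hN : 4 ≤ N) :
    ev N r A EQ4 =
      dt ![A (r 0) 1, A (r 1) 0, A (r 2) 2, A (r 3) 0] + dt ![A (r 0) 0, A (r 1) 1, A (r 2) 2, A (r 3) 0]
      - dt ![A (r 0) 1, A (r 1) 0, A (r 2) 0, A (r 3) 2] - dt ![A (r 0) 0, A (r 1) 1, A (r 2) 0, A (r 3) 2]
      + 2 * dt ![A (r 0) 0, A (r 1) 0, A (r 2) 1, A (r 3) 2]
      - dt ![A (r 0) 2, A (r 1) 0, A (r 2) 1, A (r 3) 0] - dt ![A (r 0) 0, A (r 1) 2, A (r 2) 1, A (r 3) 0]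
      + dt ![A (r 0) 2, A (r 1) 0, A (r 2) 0, A (r 3) 1] + dt ![A (r 0) 0, A (r 1) 2, A (r 2) 0, A (r 3) 1]
      - 2 * dt ![A (r 0) 0, A (r 1) 0, A (r 2) 2, A (r 3) 1] := by
  have h0 : EQ4 = fun w₁ w₂ => fQ w₁ * sgnw w₂ := rfl
  have e : ∀ a b c f : ℕ, (fun x => A (r x) ((![a, b, c, f] : Fin 4 → ℕ) x)) =
      ![A (r 0) a, A (r 1) b, A (r 2) c, A (r 3) f] := by
    intro a b c f
    funext x; fin_cases x <;> rfl
  have d : ∀ a b c f : ℕ, a < 4 → b < 4 → c < 4 → f < 4 →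
      ∑ S : Fin 4 → Fin N, dw ![a, b, c, f] (fun x => (S x : ℕ)) * dt (fun x => A (r x) (S x)) =
      dt ![A (r 0) a, A (r 1) b, A (r 2) c, A (r 3) f] := by
    intro a b c f h1 h2 h3 h4
    have hu : ∀ x, (![a, b, c, f] : Fin 4 → ℕ) x < N := by
      intro x
      fin_cases x
      · exact h1.trans_le hN
      · exact h2.trans_le hN
      · exact h3.trans_le hN
      · exact h4.trans_le hN
    rw [BFB_dt N r A _ hu, e]
  rw [h0, BFB_ev N hN]
  simp only [fQ, sub_mul, add_mul, sum_sub_distrib, sum_add_distrib, mul_assoc, ← mul_sum]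
  rw [d 1 0 2 0 (by omega) (by omega) (by omega) (by omega),
    d 0 1 2 0 (by omega) (by omega) (by omega) (by omega),
    d 1 0 0 2 (by omega) (by omega) (by omega) (by omega),
    d 0 1 0 2 (by omega) (by omega) (by omega) (by omega),
    d 0 0 1 2 (by omega) (by omega) (by omega) (by omega),
    d 2 0 1 0 (by omega) (by omega) (by omega) (by omega),
    d 0 2 1 0 (by omega) (by omega) (by omega) (by omega),
    d 2 0 0 1 (by omega) (by omega) (by omega) (by omega),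
    d 0 2 0 1 (by omega) (by omega) (by omega) (by omega),
    d 0 0 2 1 (by omega) (by omega) (by omega) (by omega)]

lemma BFB_dt2 (u : Fin 2 → ℕ → ℚ) : dt u = u 0 0 * u 1 1 - u 0 1 * u 1 0 := by
  have h : dt u = Matrix.det (Matrix.of fun (a : Fin 2) (i : Fin 2) => u i a) := by
    rw [Matrix.det_apply']
    rfl
  rw [h, Matrix.det_fin_two]
  simp only [Matrix.of_apply]
  norm_num
  ring

theorem ev_ED (r : Fin 2 → ℕ) (A : ℕ → ℕ → ℕ → ℚ) (N : ℕ) (hN : 2 ≤ N) :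
    ev N r A ED = A (r 0) 0 0 * A (r 1) 1 1 - A (r 0) 0 1 * A (r 1) 1 0
      - A (r 0) 1 0 * A (r 1) 0 1 + A (r 0) 1 1 * A (r 1) 0 0 := by
  have h0 : ED = fun w₁ w₂ => sgnw w₁ * sgnw w₂ := rfl
  rw [h0, BFB_ev N hN]
  have h1 : ∀ S : Fin 2 → Fin N,
      sgnw (fun x => (S x : ℕ)) *
        (fun w : Fin 2 → ℕ => dt (fun x => A (r x) (w x))) (fun x => (S x : ℕ)) =
      sgnw (fun x => (S x : ℕ)) * ∏ x, (![fun i => A (r 0) i 0, fun i => A (r 1) i 1] :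
        Fin 2 → ℕ → ℚ) x (S x) -
      sgnw (fun x => (S x : ℕ)) * ∏ x, (![fun i => A (r 0) i 1, fun i => A (r 1) i 0] :
        Fin 2 → ℕ → ℚ) x (S x) := by
    intro S
    simp only [BFB_dt2, Fin.prod_univ_two, Matrix.cons_val_zero, Matrix.cons_val_one]
    ring
  rw [sum_congr rfl fun S _ => h1 S, sum_sub_distrib, BFB_alt N hN, BFB_alt N hN, BFB_dt2, BFB_dt2]
  simp only [Matrix.cons_val_zero, Matrix.cons_val_one]
  ring

end Sx
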