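import Mathlib
import Pool.Agent.Saxl2.BFDefs
import Pool.Agent.Saxl2.BFA
import Pool.Agent.Saxl2.BFB

/-! SAXL2: auxiliary facts for the explicit witnesses (BFM1, BFM2, BFQ1, BFQ2). -/

namespace Sx

open Finset Equiv

set_option linter.unusedSectionVars false

variable {X Y Z : Type} [Fintype X] [DecidableEq X] [Fintype Y] [DecidableEq Y]
  [Fintype Z] [DecidableEq Z]

/-- a tableau from the number of cells. -/
theorem bfx_tab {lam : YoungDiagram} {t : X → ℕ × ℕ} (hinj : Function.Injective t)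
    (hcard : lam.card = Fintype.card X) (hmem : ∀ x, (t x).2 < lam.rowLen (t x).1) :
    IsTab t lam := by
  have h1 : univ.image t = lam.cells := by
    apply Finset.eq_of_subset_of_card_le
    · intro p hp
      obtain ⟨x, _, rfl⟩ := Finset.mem_image.1 hp
      rw [YoungDiagram.mem_cells, YoungDiagram.mem_iff_lt_rowLen]
      exact hmem x
    · rw [Finset.card_image_of_injective _ hinj, Finset.card_univ, ← hcard]
  refine ⟨hinj, fun p => ?_⟩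
  rw [← YoungDiagram.mem_cells, ← h1, Finset.mem_image]
  constructor
  · rintro ⟨x, _, hx⟩
    exact ⟨x, hx⟩
  · rintro ⟨x, hx⟩
    exact ⟨x, Finset.mem_univ _, hx⟩

/-- `F` changes sign under the transposition of `x` and `y`. -/
def Ats (x y : X) (F : (X → ℕ) → (X → ℕ) → ℚ) : Prop :=
  ∀ w₁ w₂, F (w₁ ∘ swap x y) (w₂ ∘ swap x y) = -F w₁ w₂

theorem Ats.symm {x y : X} {F : (X → ℕ) → (X → ℕ) → ℚ} (h : Ats x y F) : Ats y x F := by
  intro w₁ w₂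
  rw [swap_comm]
  exact h w₁ w₂

theorem Ats.sub {x y : X} {F E : (X → ℕ) → (X → ℕ) → ℚ} (hF : Ats x y F) (hE : Ats x y E) :
    Ats x y (sub2 F E) := by
  intro w₁ w₂
  unfold sub2
  rw [hF, hE]
  ring

theorem Ats.flip {x y : X} {F : (X → ℕ) → (X → ℕ) → ℚ} (hF : Ats x y F) :
    Ats x y (flip2 F) := by
  intro w₁ w₂
  exact hF w₂ w₁

theorem Ats.rel {x y x' y' : X} {F : (X → ℕ) → (X → ℕ) → ℚ} (g : Perm X) (hx : g x' = x)
    (hy : g y' = y) (hF : Ats x' y' F) : Ats x y (rel g F) := by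
  intro w₁ w₂
  have h : ∀ w : X → ℕ, (w ∘ swap x y) ∘ g = (w ∘ g) ∘ swap x' y' := by
    intro w
    funext z
    simp only [Function.comp_apply]
    have h2 : g (swap x' y' z) = swap x y (g z) := by
      rw [← hx, ← hy, Equiv.swap_apply_apply]
      simp
    rw [h2]
  show F ((w₁ ∘ swap x y) ∘ g) ((w₂ ∘ swap x y) ∘ g) = -F (w₁ ∘ g) (w₂ ∘ g)
  rw [h, h, hF]

theorem Ats.self (x y : X) (F : (X → ℕ) → (X → ℕ) → ℚ) :
    Ats x y (sub2 F (Sx.rel (swap x y) F)) := by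
  intro w₁ w₂
  have h : ∀ w : X → ℕ, (w ∘ swap x y) ∘ swap x y = w := by
    intro w
    funext z
    simp
  show F (w₁ ∘ swap x y) (w₂ ∘ swap x y) - F ((w₁ ∘ swap x y) ∘ swap x y)
    ((w₂ ∘ swap x y) ∘ swap x y) = -(F w₁ w₂ - F (w₁ ∘ swap x y) (w₂ ∘ swap x y))
  rw [h, h]
  ring

theorem bfx_inl_swap (w : Y ⊕ Z → ℕ) (a b : Y) :
    (w ∘ swap (Sum.inl a) (Sum.inl b)) ∘ Sum.inl = (w ∘ Sum.inl) ∘ swap a b := by
  funext z
  simp only [Function.comp_apply]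
  rw [swap_apply_def, swap_apply_def]
  simp only [Sum.inl.injEq]
  split_ifs <;> rfl

theorem bfx_inl_swap' (w : Y ⊕ Z → ℕ) (a b : Y) :
    (w ∘ swap (Sum.inl a) (Sum.inl b)) ∘ Sum.inr = w ∘ Sum.inr := by
  funext z
  simp [swap_apply_def]

theorem bfx_inr_swap (w : Y ⊕ Z → ℕ) (a b : Z) :
    (w ∘ swap (Sum.inr a) (Sum.inr b)) ∘ Sum.inr = (w ∘ Sum.inr) ∘ swap a b := by
  funext z
  simp only [Function.comp_apply]
  rw [swap_apply_def, swap_apply_def]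
  simp only [Sum.inr.injEq]
  split_ifs <;> rfl

theorem bfx_inr_swap' (w : Y ⊕ Z → ℕ) (a b : Z) :
    (w ∘ swap (Sum.inr a) (Sum.inr b)) ∘ Sum.inl = w ∘ Sum.inl := by
  funext z
  simp [swap_apply_def]

theorem Ats.inl {a b : Y} {F : (Y → ℕ) → (Y → ℕ) → ℚ} (E : (Z → ℕ) → (Z → ℕ) → ℚ)
    (hF : Ats a b F) : Ats (Sum.inl a) (Sum.inl b) (tens F E) := by
  intro w₁ w₂
  unfold tens
  rw [bfx_inl_swap, bfx_inl_swap, bfx_inl_swap', bfx_inl_swap', hF]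
  ring

theorem Ats.inr {a b : Z} (F : (Y → ℕ) → (Y → ℕ) → ℚ) {E : (Z → ℕ) → (Z → ℕ) → ℚ}
    (hE : Ats a b E) : Ats (Sum.inr a) (Sum.inr b) (tens F E) := by
  intro w₁ w₂
  unfold tens
  rw [bfx_inr_swap, bfx_inr_swap, bfx_inr_swap', bfx_inr_swap', hE]
  ring

theorem ats_EM : Ats 0 1 EM := EM_swap
theorem ats_EQ4 : Ats 0 1 EQ4 := EQ4_swap

theorem Zfree.sub {F E : (X → ℕ) → (X → ℕ) → ℚ} (hF : Zfree F) (hE : Zfree E) :
    Zfree (sub2 F E) := by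
  intro w₁ w₂ h
  unfold sub2
  rw [hF w₁ w₂ h, hE w₁ w₂ h, sub_zero]

theorem Zfree.rel {F : (X → ℕ) → (X → ℕ) → ℚ} (hF : Zfree F) (g : Perm X) :
    Zfree (Sx.rel g F) := by
  intro w₁ w₂ h
  exact hF _ _ (fun x => h (g x))

theorem zfree_EM : Zfree EM := EM_zero

theorem Zfree.tens {F : (Y → ℕ) → (Y → ℕ) → ℚ} (hF : Zfree F) (E : (Z → ℕ) → (Z → ℕ) → ℚ) :
    Zfree (tens F E) := by
  intro w₁ w₂ h
  have h1 : F (w₁ ∘ Sum.inl) (w₂ ∘ Sum.inl) = 0 := hF _ _ (fun x => h (Sum.inl x))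
  show F (w₁ ∘ Sum.inl) (w₂ ∘ Sum.inl) * E (w₁ ∘ Sum.inr) (w₂ ∘ Sum.inr) = 0
  rw [h1, zero_mul]

/-- contents at level 3. -/
theorem bfx_inVV3 : InAB (fun j => 3 - j) (fun j => 3 - j) (tens EM (flip2 EM)) := by
  refine InAB.tens ?_ ?_ inAB_EM inAB_EM.flip
  · intro j
    rcases j with _ | _ | _ | j <;> simp [co]
  · intro j
    rcases j with _ | _ | _ | j <;> simp [co]

/-- contents at level 4. -/
theorem bfx_inVV4 : InAB (fun j => 4 - j) (fun j => 4 - j)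
    (tens (tens EQ4 (flip2 EQ4)) ED) := by
  have h1 : InAB (fun j => co [2, 1, 1] j + co [1, 1, 1, 1] j)
      (fun j => co [1, 1, 1, 1] j + co [2, 1, 1] j) (tens EQ4 (flip2 EQ4)) :=
    InAB.tens (fun _ => rfl) (fun _ => rfl) inAB_EQ4 inAB_EQ4.flip
  refine InAB.tens ?_ ?_ h1 inAB_ED
  · intro j
    rcases j with _ | _ | _ | _ | j <;> simp [co]
  · intro j
    rcases j with _ | _ | _ | _ | j <;> simp [co]

/-! ### determinants -/

theorem bfx_dt {n : ℕ} (u : Fin n → ℕ → ℚ) : dt u = (Matrix.of fun j i : Fin n => u i j).det := by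
  unfold dt
  rw [Matrix.det_apply']
  rfl

theorem dt3 (a b c : ℕ → ℚ) : dt ![a, b, c] =
    a 0 * b 1 * c 2 - a 0 * b 2 * c 1 - a 1 * b 0 * c 2 + a 1 * b 2 * c 0
      + a 2 * b 0 * c 1 - a 2 * b 1 * c 0 := by
  rw [bfx_dt, Matrix.det_fin_three]
  simp
  ring

theorem dt4 (a b c d : ℕ → ℚ) : dt ![a, b, c, d] =
    a 0 * (b 1 * (c 2 * d 3 - c 3 * d 2) - b 2 * (c 1 * d 3 - c 3 * d 1)
        + b 3 * (c 1 * d 2 - c 2 * d 1))
      - a 1 * (b 0 * (c 2 * d 3 - c 3 * d 2) - b 2 * (c 0 * d 3 - c 3 * d 0)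
        + b 3 * (c 0 * d 2 - c 2 * d 0))
      + a 2 * (b 0 * (c 1 * d 3 - c 3 * d 1) - b 1 * (c 0 * d 3 - c 3 * d 0)
        + b 3 * (c 0 * d 1 - c 1 * d 0))
      - a 3 * (b 0 * (c 1 * d 2 - c 2 * d 1) - b 1 * (c 0 * d 2 - c 2 * d 0)
        + b 2 * (c 0 * d 1 - c 1 * d 0)) := by
  rw [bfx_dt, Matrix.det_succ_column_zero, Fin.sum_univ_four]
  simp only [Matrix.det_fin_three]
  simp [Matrix.submatrix, Fin.succAbove, Fin.lt_def]
  ring

end Sx
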