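import Mathlib
import Pool.Agent.Saxl2.BFDefs
import Pool.Agent.Saxl2.XI

/-! SAXL2 BFC: from an evaluation to the Young symmetrizer. -/

namespace Sx

open Finset Equiv

variable {X Y Z : Type} [Fintype X] [DecidableEq X] [Fintype Y] [DecidableEq Y]
  [Fintype Z] [DecidableEq Z]

theorem bfc_aux {t : X → ℕ × ℕ} {F : (X → ℕ) → (X → ℕ) → ℚ}
    (h : ∀ x y, x ≠ y → (t x).2 = (t y).2 → ∀ w₁ w₂,
      F (w₁ ∘ swap x y) (w₂ ∘ swap x y) = -F w₁ w₂) :
    ∀ (n : ℕ) (c : Perm X), c.support.card = n → c ∈ colS t → ∀ w₁ w₂,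
      F (w₁ ∘ c) (w₂ ∘ c) = sg c * F w₁ w₂ := by
  intro n
  induction n using Nat.strong_induction_on with
  | _ n ih =>
    intro c hn hc w₁ w₂
    by_cases hc1 : c = 1
    · subst hc1
      rw [sg_one, one_mul]
      rfl
    · obtain ⟨x, hx⟩ : ∃ x, c x ≠ x := by
        by_contra hcon
        push Not at hcon
        exact hc1 (Equiv.ext hcon)
      have hcol : ∀ y, (t (c y)).2 = (t y).2 := (Finset.mem_filter.1 hc).2
      have hlt := Perm.card_support_swap_mul (f := c) (x := x) hx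
      rw [hn] at hlt
      have hc' : swap x (c x) * c ∈ colS t := by
        rw [colS, Finset.mem_filter]
        refine ⟨Finset.mem_univ _, fun y => ?_⟩
        rw [Perm.mul_apply, swap_apply_def]
        split_ifs with h1 h2
        · rw [hcol x, ← h1, hcol y]
        · rw [← hcol y, h2, hcol x]
        · exact hcol y
      have h1 := ih _ hlt (swap x (c x) * c) rfl hc' (w₁ ∘ swap x (c x)) (w₂ ∘ swap x (c x))
      have h2 : ∀ w : X → ℕ, (w ∘ swap x (c x)) ∘ (swap x (c x) * c : Perm X) = w ∘ c := by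
        intro w
        funext y
        simp
      rw [h2, h2, h x (c x) (Ne.symm hx) (hcol x).symm, sg_mul, sg_swap (Ne.symm hx)] at h1
      rw [h1]
      ring

theorem alt_of_swaps {t : X → ℕ × ℕ} {F : (X → ℕ) → (X → ℕ) → ℚ}
    (h : ∀ x y, x ≠ y → (t x).2 = (t y).2 → ∀ w₁ w₂,
      F (w₁ ∘ swap x y) (w₂ ∘ swap x y) = -F w₁ w₂) :
    ∀ c ∈ colS t, ∀ w₁ w₂, F (w₁ ∘ c) (w₂ ∘ c) = sg c * F w₁ w₂ :=
  fun c hc w₁ w₂ => bfc_aux h _ c rfl hc w₁ w₂

theorem bfc_letter {k : ℕ} {w : X → ℕ} (hw : Cont k w) (x : X) : w x < k := by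
  have h1 := hw (w x)
  have h2 : 0 < cnt w (w x) := by
    unfold cnt
    exact Finset.card_pos.2 ⟨x, by simp⟩
  omega

theorem ev_ys {t : X → ℕ × ℕ} {F : (X → ℕ) → (X → ℕ) → ℚ} (N : ℕ) {k : ℕ} (hk : k ≤ N)
    (hF : InVV k F)
    (h : ∀ x y, x ≠ y → (t x).2 = (t y).2 → ∀ w₁ w₂,
      F (w₁ ∘ swap x y) (w₂ ∘ swap x y) = -F w₁ w₂)
    (A : ℕ → ℕ → ℕ → ℚ) (hev : ev N (fun x => (t x).1) A F ≠ 0) :
    ∃ w₁ w₂, YS t F w₁ w₂ ≠ 0 := by
  refine pos_ys N ?_ (alt_of_swaps h) ?_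
  · intro w₁ w₂ hw
    exact ⟨fun x => lt_of_lt_of_le (bfc_letter ((hF.left w₂).cont w₁ hw) x) hk,
      fun x => lt_of_lt_of_le (bfc_letter ((hF.right w₁).cont w₂ hw) x) hk⟩
  · by_contra hcon
    push Not at hcon
    apply hev
    have h1 : ∀ r ∈ rowS t, ∑ S₁ : X → Fin N, ∑ S₂ : X → Fin N,
        F ((fun x => (S₁ x : ℕ)) ∘ r) ((fun x => (S₂ x : ℕ)) ∘ r) *
          ∏ x, A (t x).1 (S₁ x) (S₂ x) = ev N (fun x => (t x).1) A F := by
      intro r hr
      have hrow : ∀ y, (t (r y)).1 = (t y).1 := (Finset.mem_filter.1 hr).2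
      unfold ev
      refine Fintype.sum_equiv (Equiv.arrowCongr r.symm (Equiv.refl (Fin N))) _ _ fun S₁ => ?_
      refine Fintype.sum_equiv (Equiv.arrowCongr r.symm (Equiv.refl (Fin N))) _ _ fun S₂ => ?_
      have h2 : ∀ S : X → Fin N, (Equiv.arrowCongr r.symm (Equiv.refl (Fin N))) S = S ∘ r := by
        intro S
        rfl
      rw [h2, h2]
      congr 1
      refine (Fintype.prod_equiv r _ _ fun x => ?_).symm
      simp only [Function.comp_apply]
      rw [hrow]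
    have h3 : ∑ r ∈ rowS t, ∑ S₁ : X → Fin N, ∑ S₂ : X → Fin N,
        F ((fun x => (S₁ x : ℕ)) ∘ r) ((fun x => (S₂ x : ℕ)) ∘ r) *
          ∏ x, A (t x).1 (S₁ x) (S₂ x) = 0 := by
      rw [Finset.sum_comm]
      refine Finset.sum_eq_zero fun S₁ _ => ?_
      rw [Finset.sum_comm]
      refine Finset.sum_eq_zero fun S₂ _ => ?_
      rw [← Finset.sum_mul, hcon, zero_mul]
    rw [Finset.sum_congr rfl h1, Finset.sum_const, nsmul_eq_mul] at h3
    rcases mul_eq_zero.1 h3 with h4 | h4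
    · exfalso
      have h5 : (rowS t).card = 0 := by exact_mod_cast h4
      rw [Finset.card_eq_zero] at h5
      have := xi_rowS_one t
      rw [h5] at this
      simp at this
    · exact h4

end Sx
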