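import Mathlib
import Pool.Agent.Saxl2.BFDefs
import Pool.Agent.Saxl2.BFA
import Pool.Agent.Saxl2.BFB
import Pool.Agent.Saxl2.BFC
import Pool.Agent.Saxl2.BFAux

/-! SAXL2 BFM1: the shapes `(4,2)` and `(3,3)` at level 3. -/

namespace Sx

open Finset Equiv

/-- the tableau of shape `(4,2)`. -/
def bfm_t42 : Fin 3 ⊕ Fin 3 → ℕ × ℕ :=
  Sum.elim ![(0, 0), (1, 0), (0, 2)] ![(0, 1), (1, 1), (0, 3)]

/-- the matrices for `(4,2)`. -/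
def bfm_A42 (s i j : ℕ) : ℚ :=
  if s = 0 then (if (i = 0 ∧ j = 0) ∨ (i = 1 ∧ j = 1) then 1 else 0)
  else (if (i = 0 ∧ j = 2) ∨ (i = 2 ∧ j = 0) then 1 else 0)

theorem bfm_F0_inl : Ats (Sum.inl 0 : Fin 3 ⊕ Fin 3) (Sum.inl 1) (tens EM (flip2 EM)) :=
  Ats.inl _ ats_EM

theorem bfm_F0_inr : Ats (Sum.inr 0 : Fin 3 ⊕ Fin 3) (Sum.inr 1) (tens EM (flip2 EM)) :=
  Ats.inr _ ats_EM.flip

theorem bfm_pairs42 : ∀ x y : Fin 3 ⊕ Fin 3, x ≠ y → (bfm_t42 x).2 = (bfm_t42 y).2 →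
    (x = Sum.inl 0 ∧ y = Sum.inl 1) ∨ (x = Sum.inl 1 ∧ y = Sum.inl 0) ∨
    (x = Sum.inr 0 ∧ y = Sum.inr 1) ∨ (x = Sum.inr 1 ∧ y = Sum.inr 0) := by
  decide

theorem bfm_ev42 : ev 3 (fun x => (bfm_t42 x).1) bfm_A42 (tens EM (flip2 EM)) ≠ 0 := by
  rw [ev_tens, ev_flip, ev_EM _ _ 3 (le_refl 3), ev_EM _ _ 3 (le_refl 3)]
  simp only [dt3]
  simp [bfm_t42, bfm_A42]
  norm_num

theorem ww3_42 {lam : YoungDiagram} (h : lam.card = 6) (h0 : lam.rowLen 0 = 4)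
    (h1 : lam.rowLen 1 = 2) : WW 3 lam := by
  have hVV : InVV 3 (tens EM (flip2 EM)) := inVV_of_inAB bfx_inVV3
  refine ⟨Fin 3 ⊕ Fin 3, inferInstance, inferInstance, bfm_t42, tens EM (flip2 EM), ?_, hVV,
    zfree_EM.tens _, ev_ys 3 (le_refl 3) hVV ?_ bfm_A42 bfm_ev42⟩
  · refine bfx_tab (by decide) (by rw [h]; rfl) ?_
    intro x
    rcases x with x | x <;> fin_cases x <;> simp [bfm_t42, h0, h1]
  · intro x y hxy hc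
    rcases bfm_pairs42 x y hxy hc with ⟨rfl, rfl⟩ | ⟨rfl, rfl⟩ | ⟨rfl, rfl⟩ | ⟨rfl, rfl⟩
    · exact bfm_F0_inl
    · exact bfm_F0_inl.symm
    · exact bfm_F0_inr
    · exact bfm_F0_inr.symm

/-- the tableau of shape `(3,3)`. -/
def bfm_t33 : Fin 3 ⊕ Fin 3 → ℕ × ℕ :=
  Sum.elim ![(0, 0), (1, 0), (0, 2)] ![(0, 1), (1, 1), (1, 2)]

/-- the matrices for `(3,3)`. -/
def bfm_A33 (s i j : ℕ) : ℚ :=
  if s = 0 then (if (i = 0 ∧ j = 2) ∨ (i = 1 ∧ j = 0) ∨ (i = 2 ∧ j = 2) then 1 else 0)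
  else (if (i = 0 ∧ j = 1) ∨ (i = 2 ∧ j = 0) then 1 else 0)

/-- the function for `(3,3)`. -/
def bfm_F33 : (Fin 3 ⊕ Fin 3 → ℕ) → (Fin 3 ⊕ Fin 3 → ℕ) → ℚ :=
  sub2 (tens EM (flip2 EM)) (rel (swap (Sum.inl 2) (Sum.inr 2)) (tens EM (flip2 EM)))

theorem bfm_pairs33 : ∀ x y : Fin 3 ⊕ Fin 3, x ≠ y → (bfm_t33 x).2 = (bfm_t33 y).2 →
    (x = Sum.inl 0 ∧ y = Sum.inl 1) ∨ (x = Sum.inl 1 ∧ y = Sum.inl 0) ∨
    (x = Sum.inr 0 ∧ y = Sum.inr 1) ∨ (x = Sum.inr 1 ∧ y = Sum.inr 0) ∨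
    (x = Sum.inl 2 ∧ y = Sum.inr 2) ∨ (x = Sum.inr 2 ∧ y = Sum.inl 2) := by
  decide

theorem bfm_inAB33 : InAB (fun j => 3 - j) (fun j => 3 - j) bfm_F33 :=
  bfx_inVV3.sub (bfx_inVV3.rel _)

theorem bfm_ats33 (x y : Fin 3 ⊕ Fin 3) (hxy : x ≠ y) (hc : (bfm_t33 x).2 = (bfm_t33 y).2) :
    Ats x y bfm_F33 := by
  have e1 : Ats (Sum.inl 0 : Fin 3 ⊕ Fin 3) (Sum.inl 1) bfm_F33 :=
    bfm_F0_inl.sub (Ats.rel _ (by decide) (by decide) bfm_F0_inl)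
  have e2 : Ats (Sum.inr 0 : Fin 3 ⊕ Fin 3) (Sum.inr 1) bfm_F33 :=
    bfm_F0_inr.sub (Ats.rel _ (by decide) (by decide) bfm_F0_inr)
  have e3 : Ats (Sum.inl 2 : Fin 3 ⊕ Fin 3) (Sum.inr 2) bfm_F33 := Ats.self _ _ _
  rcases bfm_pairs33 x y hxy hc with ⟨rfl, rfl⟩ | ⟨rfl, rfl⟩ | ⟨rfl, rfl⟩ | ⟨rfl, rfl⟩ |
    ⟨rfl, rfl⟩ | ⟨rfl, rfl⟩
  · exact e1
  · exact e1.symm
  · exact e2
  · exact e2.symm
  · exact e3
  · exact e3.symm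

theorem bfm_zfree33 : Zfree bfm_F33 := (zfree_EM.tens _).sub ((zfree_EM.tens _).rel _)

theorem bfm_tab33 {lam : YoungDiagram} (h : lam.card = 6) (h0 : lam.rowLen 0 = 3)
    (h1 : lam.rowLen 1 = 3) : IsTab bfm_t33 lam := by
  refine bfx_tab (by decide) (by rw [h]; rfl) ?_
  intro x
  rcases x with x | x <;> fin_cases x <;> simp [bfm_t33, h0, h1]

theorem bfm_swap33 : ((fun x => (bfm_t33 x).1) ∘ (swap (Sum.inl 2) (Sum.inr 2) :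
    Perm (Fin 3 ⊕ Fin 3))) = Sum.elim ![0, 1, 1] ![0, 1, 0] := by
  funext x
  revert x
  decide

theorem bfm_row33 : (fun x => (bfm_t33 x).1) = Sum.elim ![0, 1, 0] ![0, 1, 1] := by
  funext x
  revert x
  decide

theorem bfm_ev33 : ev 3 (fun x => (bfm_t33 x).1) bfm_A33 bfm_F33 = -9 := by
  unfold bfm_F33
  rw [ev_sub, ev_rel, bfm_swap33, bfm_row33, ev_tens, ev_tens, ev_flip, ev_flip]
  simp only [ev_EM _ _ 3 (le_refl 3), dt3]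
  simp [bfm_A33]
  norm_num

theorem bfm_ev33f : ev 3 (fun x => (bfm_t33 x).1) bfm_A33 (flip2 bfm_F33) = 9 := by
  rw [ev_flip]
  unfold bfm_F33
  rw [ev_sub, ev_rel, bfm_swap33, bfm_row33, ev_tens, ev_tens, ev_flip, ev_flip]
  simp only [ev_EM _ _ 3 (le_refl 3), dt3]
  simp [bfm_A33]
  norm_num

theorem ww3_33 {lam : YoungDiagram} (h : lam.card = 6) (h0 : lam.rowLen 0 = 3)
    (h1 : lam.rowLen 1 = 3) : WW 3 lam := by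
  have hVV : InVV 3 bfm_F33 := inVV_of_inAB bfm_inAB33
  refine ⟨Fin 3 ⊕ Fin 3, inferInstance, inferInstance, bfm_t33, bfm_F33, bfm_tab33 h h0 h1, hVV,
    bfm_zfree33, ev_ys 3 (le_refl 3) hVV bfm_ats33 bfm_A33 ?_⟩
  rw [bfm_ev33]
  norm_num

theorem altW3_33 {lam : YoungDiagram} (h : lam.card = 6) (h0 : lam.rowLen 0 = 3)
    (h1 : lam.rowLen 1 = 3) : AltW 3 lam := by
  have hVV : InVV 3 (sub2 bfm_F33 (flip2 bfm_F33)) :=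
    inVV_of_inAB (bfm_inAB33.sub bfm_inAB33.flip)
  refine ⟨Fin 3 ⊕ Fin 3, inferInstance, inferInstance, bfm_t33, sub2 bfm_F33 (flip2 bfm_F33),
    bfm_tab33 h h0 h1, hVV, ?_, ev_ys 3 (le_refl 3) hVV ?_ bfm_A33 ?_⟩
  · intro w₁ w₂
    unfold sub2 flip2
    ring
  · intro x y hxy hc
    exact (bfm_ats33 x y hxy hc).sub (bfm_ats33 x y hxy hc).flip
  · rw [ev_sub, bfm_ev33, bfm_ev33f]
    norm_num

end Sx
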