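import Mathlib
import Pool.Agent.Saxl2.BFDefs
import Pool.Agent.Saxl2.BFA
import Pool.Agent.Saxl2.BFB
import Pool.Agent.Saxl2.BFC
import Pool.Agent.Saxl2.BFAux
import Pool.Agent.Saxl2.BFM1

/-! SAXL2 BFM2: the shape `(3,2,1)` at level 3. -/

namespace Sx

open Finset Equiv

/-- the tableau of shape `(3,2,1)`. -/
def bfm_t321 : Fin 3 ⊕ Fin 3 → ℕ × ℕ :=
  Sum.elim ![(0, 0), (1, 0), (0, 2)] ![(0, 1), (1, 1), (2, 0)]

/-- the matrices for `(3,2,1)`. -/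
def bfm_A321 (s i j : ℕ) : ℚ :=
  if s = 0 then (if (i = 0 ∧ j = 0) ∨ (i = 2 ∧ j = 1) then 1 else 0)
  else if s = 1 then (if (i = 0 ∧ j = 1) ∨ (i = 1 ∧ j = 0) then 1 else 0)
  else (if i = 1 ∧ j = 2 then 1 else 0)

/-- the function for `(3,2,1)`. -/
def bfm_F321 : (Fin 3 ⊕ Fin 3 → ℕ) → (Fin 3 ⊕ Fin 3 → ℕ) → ℚ :=
  sub2 (sub2 (tens EM (flip2 EM)) (rel (swap (Sum.inl 0) (Sum.inr 2)) (tens EM (flip2 EM))))
    (rel (swap (Sum.inl 1) (Sum.inr 2)) (tens EM (flip2 EM)))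

theorem bfm_pairs321 : ∀ x y : Fin 3 ⊕ Fin 3, x ≠ y → (bfm_t321 x).2 = (bfm_t321 y).2 →
    (x = Sum.inl 0 ∧ y = Sum.inl 1) ∨ (x = Sum.inl 1 ∧ y = Sum.inl 0) ∨
    (x = Sum.inr 0 ∧ y = Sum.inr 1) ∨ (x = Sum.inr 1 ∧ y = Sum.inr 0) ∨
    (x = Sum.inl 0 ∧ y = Sum.inr 2) ∨ (x = Sum.inr 2 ∧ y = Sum.inl 0) ∨
    (x = Sum.inl 1 ∧ y = Sum.inr 2) ∨ (x = Sum.inr 2 ∧ y = Sum.inl 1) := by
  decide

theorem bfm_inAB321 : InAB (fun j => 3 - j) (fun j => 3 - j) bfm_F321 :=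
  (bfx_inVV3.sub (bfx_inVV3.rel _)).sub (bfx_inVV3.rel _)

theorem bfm_three {X : Type} [Fintype X] [DecidableEq X] {F : (X → ℕ) → (X → ℕ) → ℚ} {a b c : X}
    (h : Ats a b F) (h1 : swap a b * swap a c = swap b c * swap a b)
    (h2 : swap a b * swap b c = swap a c * swap a b)
    (h3 : swap a c * swap b c = swap b c * swap a b)
    (h4 : swap b c * swap a c = swap a c * swap a b) :
    Ats a b (sub2 (sub2 F (rel (swap a c) F)) (rel (swap b c) F)) ∧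
    Ats a c (sub2 (sub2 F (rel (swap a c) F)) (rel (swap b c) F)) ∧
    Ats b c (sub2 (sub2 F (rel (swap a c) F)) (rel (swap b c) F)) := by
  have key : ∀ (p q r : Perm X), p * q = r * swap a b → ∀ w₁ w₂,
      F ((w₁ ∘ p) ∘ q) ((w₂ ∘ p) ∘ q) = -F (w₁ ∘ r) (w₂ ∘ r) := by
    intro p q r hpq w₁ w₂
    have e : ∀ w : X → ℕ, (w ∘ p) ∘ q = (w ∘ r) ∘ swap a b := by
      intro w
      have : (w ∘ p) ∘ q = w ∘ (p * q : Perm X) := rfl
      rw [this, hpq]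
      rfl
    rw [e, e, h]
  have inv : ∀ (x y : X) (w : X → ℕ), (w ∘ swap x y) ∘ swap x y = w := by
    intro x y w
    funext z
    simp
  refine ⟨fun w₁ w₂ => ?_, fun w₁ w₂ => ?_, fun w₁ w₂ => ?_⟩
  · show F (w₁ ∘ swap a b) (w₂ ∘ swap a b)
      - F ((w₁ ∘ swap a b) ∘ swap a c) ((w₂ ∘ swap a b) ∘ swap a c)
      - F ((w₁ ∘ swap a b) ∘ swap b c) ((w₂ ∘ swap a b) ∘ swap b c) =
      -(F w₁ w₂ - F (w₁ ∘ swap a c) (w₂ ∘ swap a c) - F (w₁ ∘ swap b c) (w₂ ∘ swap b c))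
    rw [h, key _ _ _ h1, key _ _ _ h2]
    ring
  · show F (w₁ ∘ swap a c) (w₂ ∘ swap a c)
      - F ((w₁ ∘ swap a c) ∘ swap a c) ((w₂ ∘ swap a c) ∘ swap a c)
      - F ((w₁ ∘ swap a c) ∘ swap b c) ((w₂ ∘ swap a c) ∘ swap b c) =
      -(F w₁ w₂ - F (w₁ ∘ swap a c) (w₂ ∘ swap a c) - F (w₁ ∘ swap b c) (w₂ ∘ swap b c))
    rw [inv, inv, key _ _ _ h3]
    ring
  · show F (w₁ ∘ swap b c) (w₂ ∘ swap b c)
      - F ((w₁ ∘ swap b c) ∘ swap a c) ((w₂ ∘ swap b c) ∘ swap a c)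
      - F ((w₁ ∘ swap b c) ∘ swap b c) ((w₂ ∘ swap b c) ∘ swap b c) =
      -(F w₁ w₂ - F (w₁ ∘ swap a c) (w₂ ∘ swap a c) - F (w₁ ∘ swap b c) (w₂ ∘ swap b c))
    rw [inv, inv, key _ _ _ h4]
    ring

theorem bfm_ats321 (x y : Fin 3 ⊕ Fin 3) (hxy : x ≠ y) (hc : (bfm_t321 x).2 = (bfm_t321 y).2) :
    Ats x y bfm_F321 := by
  obtain ⟨e1, e2, e3⟩ := bfm_three (c := Sum.inr 2) bfm_F0_inl (by decide) (by decide)
    (by decide) (by decide)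
  have e4 : Ats (Sum.inr 0 : Fin 3 ⊕ Fin 3) (Sum.inr 1) bfm_F321 :=
    (bfm_F0_inr.sub (Ats.rel _ (by decide) (by decide) bfm_F0_inr)).sub
      (Ats.rel _ (by decide) (by decide) bfm_F0_inr)
  rcases bfm_pairs321 x y hxy hc with ⟨rfl, rfl⟩ | ⟨rfl, rfl⟩ | ⟨rfl, rfl⟩ | ⟨rfl, rfl⟩ |
    ⟨rfl, rfl⟩ | ⟨rfl, rfl⟩ | ⟨rfl, rfl⟩ | ⟨rfl, rfl⟩
  · exact e1
  · exact e1.symm
  · exact e4
  · exact e4.symm
  · exact e2
  · exact e2.symm
  · exact e3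
  · exact e3.symm

theorem bfm_zfree321 : Zfree bfm_F321 :=
  ((zfree_EM.tens _).sub ((zfree_EM.tens _).rel _)).sub ((zfree_EM.tens _).rel _)

theorem bfm_row2 {lam : YoungDiagram} (h : lam.card = 6) (h0 : lam.rowLen 0 = 3)
    (h1 : lam.rowLen 1 = 2) : 0 < lam.rowLen 2 := by
  by_contra hcon
  have h2 : lam.rowLen 2 = 0 := by omega
  have h3 : lam.cells ⊆ (Finset.range 3).image (fun j => ((0 : ℕ), j)) ∪
      (Finset.range 2).image (fun j => ((1 : ℕ), j)) := by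
    rintro ⟨i, j⟩ hp
    rw [YoungDiagram.mem_cells, YoungDiagram.mem_iff_lt_rowLen] at hp
    rw [Finset.mem_union, Finset.mem_image, Finset.mem_image]
    rcases i with _ | _ | i
    · left
      exact ⟨j, Finset.mem_range.2 (by omega), rfl⟩
    · right
      exact ⟨j, Finset.mem_range.2 (by rw [zero_add] at hp; omega), rfl⟩
    · exfalso
      have := lam.rowLen_anti 2 (i + 1 + 1) (by omega)
      omega
  have h4 := Finset.card_le_card h3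
  have h5 : lam.cells.card = 6 := h
  have h6 := Finset.card_union_le ((Finset.range 3).image (fun j => ((0 : ℕ), j)))
    ((Finset.range 2).image (fun j => ((1 : ℕ), j)))
  have h7 := Finset.card_image_le (s := Finset.range 3) (f := fun j => ((0 : ℕ), j))
  have h8 := Finset.card_image_le (s := Finset.range 2) (f := fun j => ((1 : ℕ), j))
  rw [Finset.card_range] at h7 h8
  omega

theorem bfm_tab321 {lam : YoungDiagram} (h : lam.card = 6) (h0 : lam.rowLen 0 = 3)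
    (h1 : lam.rowLen 1 = 2) : IsTab bfm_t321 lam := by
  refine bfx_tab (by decide) (by rw [h]; rfl) ?_
  have h2 := bfm_row2 h h0 h1
  intro x
  rcases x with x | x <;> fin_cases x <;> simp [bfm_t321, h0, h1, h2]

theorem bfm_swap321 : ((Sum.elim ![0, 1, 0] ![0, 1, 2] : Fin 3 ⊕ Fin 3 → ℕ) ∘
    (swap (Sum.inl 0) (Sum.inr 2) : Perm (Fin 3 ⊕ Fin 3))) =
    Sum.elim ![2, 1, 0] ![0, 1, 0] := by
  funext x
  revert x
  decide

theorem bfm_swap321' : ((Sum.elim ![0, 1, 0] ![0, 1, 2] : Fin 3 ⊕ Fin 3 → ℕ) ∘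
    (swap (Sum.inl 1) (Sum.inr 2) : Perm (Fin 3 ⊕ Fin 3))) =
    Sum.elim ![0, 2, 0] ![0, 1, 1] := by
  funext x
  revert x
  decide

theorem bfm_row321 : (fun x => (bfm_t321 x).1) = Sum.elim ![0, 1, 0] ![0, 1, 2] := by
  funext x
  revert x
  decide

theorem bfm_ev321 : ev 3 (fun x => (bfm_t321 x).1) bfm_A321 bfm_F321 = -3 := by
  unfold bfm_F321
  rw [ev_sub, ev_sub, ev_rel, ev_rel, bfm_row321, bfm_swap321, bfm_swap321', ev_tens, ev_tens,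
    ev_tens, ev_flip, ev_flip, ev_flip]
  simp only [ev_EM _ _ 3 (le_refl 3), dt3]
  simp [bfm_A321]
  norm_num

theorem ww3_321 {lam : YoungDiagram} (h : lam.card = 6) (h0 : lam.rowLen 0 = 3)
    (h1 : lam.rowLen 1 = 2) : WW 3 lam := by
  have hVV : InVV 3 bfm_F321 := inVV_of_inAB bfm_inAB321
  refine ⟨Fin 3 ⊕ Fin 3, inferInstance, inferInstance, bfm_t321, bfm_F321, bfm_tab321 h h0 h1,
    hVV, bfm_zfree321, ev_ys 3 (le_refl 3) hVV bfm_ats321 bfm_A321 ?_⟩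
  rw [bfm_ev321]
  norm_num

end Sx
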