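import Mathlib
import Pool.Agent.Saxl2.BFDefs
import Pool.Agent.Saxl2.BFA
import Pool.Agent.Saxl2.BFB
import Pool.Agent.Saxl2.BFAux

/-! SAXL2: numerical values for the explicit witnesses at level 4 (BFQ1, BFQ2). -/

namespace Sx

open Finset Equiv

/-- the matrices at level 4. -/
def bfq_A (s i j : ℕ) : ℚ :=
  if s = 0 then (if (i = 0 ∧ j = 1) ∨ (i = 2 ∧ j = 2) ∨ (i = 3 ∧ j = 0) then 1 else 0)
  else (if (i = 0 ∧ j = 3) ∨ (i = 1 ∧ j = 0) ∨ (i = 2 ∧ j = 2) then 1 else 0)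

/-- the transposed matrices. -/
def bfq_B (s i j : ℕ) : ℚ := bfq_A s j i

/-- rows. -/
def bfq_r (q p : Fin 4 → ℕ) (e : Fin 2 → ℕ) : (Fin 4 ⊕ Fin 4) ⊕ Fin 2 → ℕ :=
  Sum.elim (Sum.elim q p) e

/-- the function of two words at level 4. -/
def bfq_F0 : ((Fin 4 ⊕ Fin 4) ⊕ Fin 2 → ℕ) → ((Fin 4 ⊕ Fin 4) ⊕ Fin 2 → ℕ) → ℚ :=
  tens (tens EQ4 (flip2 EQ4)) ED

theorem bfq_A00 : ev 4 ![0, 1, 0, 0] bfq_A EQ4 = 0 := by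
  rw [ev_EQ4 _ _ 4 (le_refl 4)]
  simp only [dt4]
  simp [bfq_A]

theorem bfq_A01 : ev 4 ![0, 1, 0, 1] bfq_A EQ4 = -4 := by
  rw [ev_EQ4 _ _ 4 (le_refl 4)]
  simp only [dt4]
  simp [bfq_A]
  norm_num

theorem bfq_A10 : ev 4 ![0, 1, 1, 0] bfq_A EQ4 = -4 := by
  rw [ev_EQ4 _ _ 4 (le_refl 4)]
  simp only [dt4]
  simp [bfq_A]
  norm_num

theorem bfq_A11 : ev 4 ![0, 1, 1, 1] bfq_A EQ4 = -8 := by
  rw [ev_EQ4 _ _ 4 (le_refl 4)]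
  simp only [dt4]
  simp [bfq_A]
  norm_num

theorem bfq_B00 : ev 4 ![0, 1, 0, 0] bfq_B EQ4 = 8 := by
  rw [ev_EQ4 _ _ 4 (le_refl 4)]
  simp only [dt4]
  simp [bfq_A, bfq_B]
  norm_num

theorem bfq_B01 : ev 4 ![0, 1, 0, 1] bfq_B EQ4 = 4 := by
  rw [ev_EQ4 _ _ 4 (le_refl 4)]
  simp only [dt4]
  simp [bfq_A, bfq_B]
  norm_num

theorem bfq_B10 : ev 4 ![0, 1, 1, 0] bfq_B EQ4 = 4 := by
  rw [ev_EQ4 _ _ 4 (le_refl 4)]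
  simp only [dt4]
  simp [bfq_A, bfq_B]
  norm_num

theorem bfq_B11 : ev 4 ![0, 1, 1, 1] bfq_B EQ4 = 0 := by
  rw [ev_EQ4 _ _ 4 (le_refl 4)]
  simp only [dt4]
  simp [bfq_A, bfq_B]

theorem bfq_ev (q p : Fin 4 → ℕ) (e : Fin 2 → ℕ) : ev 4 (bfq_r q p e) bfq_A bfq_F0 =
    ev 4 q bfq_A EQ4 * ev 4 p bfq_B EQ4 * (bfq_A (e 0) 0 0 * bfq_A (e 1) 1 1
      - bfq_A (e 0) 0 1 * bfq_A (e 1) 1 0 - bfq_A (e 0) 1 0 * bfq_A (e 1) 0 1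
      + bfq_A (e 0) 1 1 * bfq_A (e 1) 0 0) := by
  unfold bfq_F0
  rw [ev_tens, ev_tens, ev_flip, ev_ED _ _ 4 (by norm_num)]
  rfl

theorem bfq_ev' (q p : Fin 4 → ℕ) (e : Fin 2 → ℕ) : ev 4 (bfq_r q p e) bfq_B bfq_F0 =
    ev 4 q bfq_B EQ4 * ev 4 p bfq_A EQ4 * (bfq_A (e 0) 0 0 * bfq_A (e 1) 1 1
      - bfq_A (e 0) 1 0 * bfq_A (e 1) 0 1 - bfq_A (e 0) 0 1 * bfq_A (e 1) 1 0
      + bfq_A (e 0) 1 1 * bfq_A (e 1) 0 0) := by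
  unfold bfq_F0
  rw [ev_tens, ev_tens, ev_flip, ev_ED _ _ 4 (by norm_num)]
  rfl

theorem bfq_q01 : Ats (Sum.inl (Sum.inl 0) : (Fin 4 ⊕ Fin 4) ⊕ Fin 2) (Sum.inl (Sum.inl 1))
    bfq_F0 := Ats.inl _ (Ats.inl _ ats_EQ4)

theorem bfq_p01 : Ats (Sum.inl (Sum.inr 0) : (Fin 4 ⊕ Fin 4) ⊕ Fin 2) (Sum.inl (Sum.inr 1))
    bfq_F0 := Ats.inl _ (Ats.inr _ ats_EQ4.flip)

/-- exchange of `q2` and `p2`. -/
theorem bfq_swap1 (q p : Fin 4 → ℕ) (e : Fin 2 → ℕ) :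
    bfq_r q p e ∘ (swap (Sum.inl (Sum.inl 2)) (Sum.inl (Sum.inr 2)) :
      Perm ((Fin 4 ⊕ Fin 4) ⊕ Fin 2)) =
    bfq_r ![q 0, q 1, p 2, q 3] ![p 0, p 1, q 2, p 3] e := by
  funext x
  rcases x with (x | x) | x
  · fin_cases x <;> simp [bfq_r, swap_apply_def]
  · fin_cases x <;> simp [bfq_r, swap_apply_def]
  · simp [bfq_r, swap_apply_def]

/-- exchange of `q3` and `e0`. -/
theorem bfq_swap2 (q p : Fin 4 → ℕ) (e : Fin 2 → ℕ) :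
    bfq_r q p e ∘ (swap (Sum.inl (Sum.inl 3)) (Sum.inr 0) :
      Perm ((Fin 4 ⊕ Fin 4) ⊕ Fin 2)) =
    bfq_r ![q 0, q 1, q 2, e 0] p ![q 3, e 1] := by
  funext x
  rcases x with (x | x) | x
  · fin_cases x <;> simp [bfq_r, swap_apply_def]
  · simp [bfq_r, swap_apply_def]
  · fin_cases x <;> simp [bfq_r, swap_apply_def]

/-- exchange of `p3` and `e1`. -/
theorem bfq_swap3 (q p : Fin 4 → ℕ) (e : Fin 2 → ℕ) :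
    bfq_r q p e ∘ (swap (Sum.inl (Sum.inr 3)) (Sum.inr 1) :
      Perm ((Fin 4 ⊕ Fin 4) ⊕ Fin 2)) =
    bfq_r q ![p 0, p 1, p 2, e 1] ![e 0, p 3] := by
  funext x
  rcases x with (x | x) | x
  · simp [bfq_r, swap_apply_def]
  · fin_cases x <;> simp [bfq_r, swap_apply_def]
  · fin_cases x <;> simp [bfq_r, swap_apply_def]

/-- exchange of `q2` and `e0`. -/
theorem bfq_swap4 (q p : Fin 4 → ℕ) (e : Fin 2 → ℕ) :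
    bfq_r q p e ∘ (swap (Sum.inl (Sum.inl 2)) (Sum.inr 0) :
      Perm ((Fin 4 ⊕ Fin 4) ⊕ Fin 2)) =
    bfq_r ![q 0, q 1, e 0, q 3] p ![q 2, e 1] := by
  funext x
  rcases x with (x | x) | x
  · fin_cases x <;> simp [bfq_r, swap_apply_def]
  · simp [bfq_r, swap_apply_def]
  · fin_cases x <;> simp [bfq_r, swap_apply_def]

/-- exchange of `q3` and `e1`. -/
theorem bfq_swap5 (q p : Fin 4 → ℕ) (e : Fin 2 → ℕ) :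
    bfq_r q p e ∘ (swap (Sum.inl (Sum.inl 3)) (Sum.inr 1) :
      Perm ((Fin 4 ⊕ Fin 4) ⊕ Fin 2)) =
    bfq_r ![q 0, q 1, q 2, e 1] p ![e 0, q 3] := by
  funext x
  rcases x with (x | x) | x
  · fin_cases x <;> simp [bfq_r, swap_apply_def]
  · simp [bfq_r, swap_apply_def]
  · fin_cases x <;> simp [bfq_r, swap_apply_def]

end Sx
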