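import Mathlib
import Pool.Agent.Saxl2.BFDefs
import Pool.Agent.Saxl2.BFA
import Pool.Agent.Saxl2.BFB
import Pool.Agent.Saxl2.BFC
import Pool.Agent.Saxl2.BFAux
import Pool.Agent.Saxl2.BFQAux

/-! SAXL2 BFQ1: the shape `(5,5)` at level 4. -/

namespace Sx

open Finset Equiv

/-- the tableau of shape `(5,5)`. -/
def bfq_t55 : (Fin 4 ⊕ Fin 4) ⊕ Fin 2 → ℕ × ℕ :=
  Sum.elim (Sum.elim ![(0, 0), (1, 0), (0, 2), (0, 3)] ![(0, 1), (1, 1), (1, 2), (0, 4)])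
    ![(1, 3), (1, 4)]

/-- one exchange. -/
def bfq_G1 : ((Fin 4 ⊕ Fin 4) ⊕ Fin 2 → ℕ) → ((Fin 4 ⊕ Fin 4) ⊕ Fin 2 → ℕ) → ℚ :=
  sub2 bfq_F0 (rel (swap (Sum.inl (Sum.inl 2)) (Sum.inl (Sum.inr 2))) bfq_F0)

/-- two exchanges. -/
def bfq_G2 : ((Fin 4 ⊕ Fin 4) ⊕ Fin 2 → ℕ) → ((Fin 4 ⊕ Fin 4) ⊕ Fin 2 → ℕ) → ℚ :=
  sub2 bfq_G1 (rel (swap (Sum.inl (Sum.inl 3)) (Sum.inr 0)) bfq_G1)

/-- three exchanges. -/
def bfq_G3 : ((Fin 4 ⊕ Fin 4) ⊕ Fin 2 → ℕ) → ((Fin 4 ⊕ Fin 4) ⊕ Fin 2 → ℕ) → ℚ :=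
  sub2 bfq_G2 (rel (swap (Sum.inl (Sum.inr 3)) (Sum.inr 1)) bfq_G2)

set_option synthInstance.maxSize 4096 in
theorem bfq_pairs55 : ∀ x y : (Fin 4 ⊕ Fin 4) ⊕ Fin 2, x ≠ y → (bfq_t55 x).2 = (bfq_t55 y).2 →
    (x = Sum.inl (Sum.inl 0) ∧ y = Sum.inl (Sum.inl 1)) ∨
    (x = Sum.inl (Sum.inl 1) ∧ y = Sum.inl (Sum.inl 0)) ∨
    (x = Sum.inl (Sum.inr 0) ∧ y = Sum.inl (Sum.inr 1)) ∨
    (x = Sum.inl (Sum.inr 1) ∧ y = Sum.inl (Sum.inr 0)) ∨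
    (x = Sum.inl (Sum.inl 2) ∧ y = Sum.inl (Sum.inr 2)) ∨
    (x = Sum.inl (Sum.inr 2) ∧ y = Sum.inl (Sum.inl 2)) ∨
    (x = Sum.inl (Sum.inl 3) ∧ y = Sum.inr 0) ∨
    (x = Sum.inr 0 ∧ y = Sum.inl (Sum.inl 3)) ∨
    (x = Sum.inl (Sum.inr 3) ∧ y = Sum.inr 1) ∨
    (x = Sum.inr 1 ∧ y = Sum.inl (Sum.inr 3)) := by
  decide

theorem bfq_inAB55 : InAB (fun j => 4 - j) (fun j => 4 - j) bfq_G3 := by
  have h0 : InAB (fun j => 4 - j) (fun j => 4 - j) bfq_F0 := bfx_inVV4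
  have h1 : InAB (fun j => 4 - j) (fun j => 4 - j) bfq_G1 := h0.sub (h0.rel _)
  have h2 : InAB (fun j => 4 - j) (fun j => 4 - j) bfq_G2 := h1.sub (h1.rel _)
  exact h2.sub (h2.rel _)

theorem bfq_ats55 (x y : (Fin 4 ⊕ Fin 4) ⊕ Fin 2) (hxy : x ≠ y)
    (hc : (bfq_t55 x).2 = (bfq_t55 y).2) : Ats x y bfq_G3 := by
  have a1 : Ats (Sum.inl (Sum.inl 0)) (Sum.inl (Sum.inl 1)) bfq_G1 :=
    bfq_q01.sub (Ats.rel _ (by decide) (by decide) bfq_q01)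
  have b1 : Ats (Sum.inl (Sum.inr 0)) (Sum.inl (Sum.inr 1)) bfq_G1 :=
    bfq_p01.sub (Ats.rel _ (by decide) (by decide) bfq_p01)
  have c1 : Ats (Sum.inl (Sum.inl 2)) (Sum.inl (Sum.inr 2)) bfq_G1 := Ats.self _ _ _
  have a2 : Ats (Sum.inl (Sum.inl 0)) (Sum.inl (Sum.inl 1)) bfq_G2 :=
    a1.sub (Ats.rel _ (by decide) (by decide) a1)
  have b2 : Ats (Sum.inl (Sum.inr 0)) (Sum.inl (Sum.inr 1)) bfq_G2 :=
    b1.sub (Ats.rel _ (by decide) (by decide) b1)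
  have c2 : Ats (Sum.inl (Sum.inl 2)) (Sum.inl (Sum.inr 2)) bfq_G2 :=
    c1.sub (Ats.rel _ (by decide) (by decide) c1)
  have d2 : Ats (Sum.inl (Sum.inl 3)) (Sum.inr 0) bfq_G2 := Ats.self _ _ _
  have a3 : Ats (Sum.inl (Sum.inl 0)) (Sum.inl (Sum.inl 1)) bfq_G3 :=
    a2.sub (Ats.rel _ (by decide) (by decide) a2)
  have b3 : Ats (Sum.inl (Sum.inr 0)) (Sum.inl (Sum.inr 1)) bfq_G3 :=
    b2.sub (Ats.rel _ (by decide) (by decide) b2)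
  have c3 : Ats (Sum.inl (Sum.inl 2)) (Sum.inl (Sum.inr 2)) bfq_G3 :=
    c2.sub (Ats.rel _ (by decide) (by decide) c2)
  have d3 : Ats (Sum.inl (Sum.inl 3)) (Sum.inr 0) bfq_G3 :=
    d2.sub (Ats.rel _ (by decide) (by decide) d2)
  have e3 : Ats (Sum.inl (Sum.inr 3)) (Sum.inr 1) bfq_G3 := Ats.self _ _ _
  rcases bfq_pairs55 x y hxy hc with ⟨rfl, rfl⟩ | ⟨rfl, rfl⟩ | ⟨rfl, rfl⟩ | ⟨rfl, rfl⟩ |
    ⟨rfl, rfl⟩ | ⟨rfl, rfl⟩ | ⟨rfl, rfl⟩ | ⟨rfl, rfl⟩ | ⟨rfl, rfl⟩ | ⟨rfl, rfl⟩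
  · exact a3
  · exact a3.symm
  · exact b3
  · exact b3.symm
  · exact c3
  · exact c3.symm
  · exact d3
  · exact d3.symm
  · exact e3
  · exact e3.symm

theorem bfq_row55 : (fun x => (bfq_t55 x).1) = bfq_r ![0, 1, 0, 0] ![0, 1, 1, 0] ![1, 1] := by
  funext x
  revert x
  decide

theorem bfq_ev55 : ev 4 (fun x => (bfq_t55 x).1) bfq_A bfq_G3 = 64 := by
  rw [bfq_row55]
  simp only [bfq_G3, bfq_G2, bfq_G1, ev_sub, ev_rel, bfq_swap1, bfq_swap2, bfq_swap3, bfq_ev]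
  simp [bfq_A00, bfq_A01, bfq_A10, bfq_A11, bfq_B00, bfq_B01, bfq_B10, bfq_B11, bfq_A]
  try norm_num

theorem bfq_ev55' : ev 4 (fun x => (bfq_t55 x).1) bfq_A (flip2 bfq_G3) = -64 := by
  rw [ev_flip, bfq_row55]
  have h : (fun s i j => bfq_A s j i) = bfq_B := rfl
  rw [h]
  simp only [bfq_G3, bfq_G2, bfq_G1, ev_sub, ev_rel, bfq_swap1, bfq_swap2, bfq_swap3, bfq_ev']
  simp [bfq_A00, bfq_A01, bfq_A10, bfq_A11, bfq_B00, bfq_B01, bfq_B10, bfq_B11, bfq_A]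
  try norm_num

theorem altW4_55 {lam : YoungDiagram} (h : lam.card = 10) (h0 : lam.rowLen 0 = 5)
    (h1 : lam.rowLen 1 = 5) : AltW 4 lam := by
  have hVV : InVV 4 (sub2 bfq_G3 (flip2 bfq_G3)) :=
    inVV_of_inAB (bfq_inAB55.sub bfq_inAB55.flip)
  refine ⟨(Fin 4 ⊕ Fin 4) ⊕ Fin 2, inferInstance, inferInstance, bfq_t55,
    sub2 bfq_G3 (flip2 bfq_G3), ?_, hVV, ?_, ev_ys 4 (le_refl 4) hVV ?_ bfq_A ?_⟩
  · refine bfx_tab (by decide) (by rw [h]; rfl) ?_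
    intro x
    rcases x with (x | x) | x <;> fin_cases x <;> simp [bfq_t55, h0, h1]
  · intro w₁ w₂
    unfold sub2 flip2
    ring
  · intro x y hxy hc
    exact (bfq_ats55 x y hxy hc).sub (bfq_ats55 x y hxy hc).flip
  · rw [ev_sub, bfq_ev55, bfq_ev55']
    norm_num

end Sx
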