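import Mathlib
import Pool.Agent.Saxl2.BFA
import Pool.Agent.Saxl2.BFB
import Pool.Agent.Saxl2.BFC

/-!
Base fact of level 4 (MP_2a22ca_al): the shape `(6, 4)` is a constituent of the exterior square.
-/

namespace Sx

open Finset Equiv

/-! ### alternating functions -/

private theorem bfq2_sub {X : Type} [Fintype X] [DecidableEq X] {s : Perm X}
    {F E : (X → ℕ) → (X → ℕ) → ℚ}
    (hF : ∀ w₁ w₂, F (w₁ ∘ s) (w₂ ∘ s) = -F w₁ w₂) (hE : ∀ w₁ w₂, E (w₁ ∘ s) (w₂ ∘ s) = -E w₁ w₂) :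
    ∀ w₁ w₂, sub2 F E (w₁ ∘ s) (w₂ ∘ s) = -sub2 F E w₁ w₂ := by
  intro w₁ w₂
  unfold sub2
  rw [hF, hE]
  ring

private theorem bfq2_rel {X : Type} [Fintype X] [DecidableEq X] {s g : Perm X}
    {F : (X → ℕ) → (X → ℕ) → ℚ}
    (hF : ∀ w₁ w₂, F (w₁ ∘ s) (w₂ ∘ s) = -F w₁ w₂) (h : ∀ x, s (g x) = g (s x)) :
    ∀ w₁ w₂, rel g F (w₁ ∘ s) (w₂ ∘ s) = -rel g F w₁ w₂ := by
  intro w₁ w₂
  unfold rel
  have e : ∀ w : X → ℕ, (w ∘ s) ∘ g = (w ∘ g) ∘ s := by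
    intro w
    funext x
    simp only [Function.comp]
    rw [h]
  rw [e, e, hF]

private theorem bfq2_self {X : Type} [Fintype X] [DecidableEq X] {x y : X}
    {F : (X → ℕ) → (X → ℕ) → ℚ} :
    ∀ w₁ w₂, sub2 F (rel (swap x y) F) (w₁ ∘ swap x y) (w₂ ∘ swap x y) =
      -sub2 F (rel (swap x y) F) w₁ w₂ := by
  intro w₁ w₂
  unfold sub2 rel
  have e : ∀ w : X → ℕ, (w ∘ swap x y) ∘ swap x y = w := by
    intro w
    funext z
    simp [Function.comp]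
  rw [e, e]
  ring

private theorem bfq2_flip {X : Type} [Fintype X] [DecidableEq X] {s : Perm X}
    {F : (X → ℕ) → (X → ℕ) → ℚ}
    (hF : ∀ w₁ w₂, F (w₁ ∘ s) (w₂ ∘ s) = -F w₁ w₂) :
    ∀ w₁ w₂, flip2 F (w₁ ∘ s) (w₂ ∘ s) = -flip2 F w₁ w₂ := by
  intro w₁ w₂
  unfold flip2
  rw [hF]

private abbrev B2X : Type := (Fin 4 ⊕ Fin 4) ⊕ Fin 2

private def b2q (i : Fin 4) : B2X := Sum.inl (Sum.inl i)
private def b2p (i : Fin 4) : B2X := Sum.inl (Sum.inr i)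
private def b2e (i : Fin 2) : B2X := Sum.inr i

private def b2t : B2X → ℕ × ℕ :=
  Sum.elim (Sum.elim ![(0, 0), (1, 0), (0, 2), (0, 3)] ![(0, 1), (1, 1), (0, 4), (0, 5)])
    ![(1, 2), (1, 3)]

/-- the other cell of the same column. -/
private def b2m : B2X → B2X :=
  Sum.elim (Sum.elim ![b2q 1, b2q 0, b2e 0, b2e 1] ![b2p 1, b2p 0, b2p 2, b2p 3])
    ![b2q 2, b2q 3]

private def b2F0 : (B2X → ℕ) → (B2X → ℕ) → ℚ := tens (tens EQ4 (flip2 EQ4)) ED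

private def b2F1 : (B2X → ℕ) → (B2X → ℕ) → ℚ := sub2 b2F0 (rel (swap (b2q 2) (b2e 0)) b2F0)

private def b2F2 : (B2X → ℕ) → (B2X → ℕ) → ℚ := sub2 b2F1 (rel (swap (b2q 3) (b2e 1)) b2F1)

private def b2G : (B2X → ℕ) → (B2X → ℕ) → ℚ := sub2 b2F2 (flip2 b2F2)

/-! ### the tableau -/

private theorem b2_tab {lam : YoungDiagram} (h : lam.card = 10) (h0 : lam.rowLen 0 = 6)
    (h1 : lam.rowLen 1 = 4) : IsTab b2t lam := by
  have hsub : univ.image b2t ⊆ lam.cells := by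
    intro p hp
    rw [Finset.mem_image] at hp
    obtain ⟨x, -, rfl⟩ := hp
    have key : ∀ x : B2X, ((b2t x).1 = 0 ∧ (b2t x).2 < 6) ∨ ((b2t x).1 = 1 ∧ (b2t x).2 < 4) := by
      decide
    rw [YoungDiagram.mem_cells]
    have e : b2t x = ((b2t x).1, (b2t x).2) := rfl
    rw [e, YoungDiagram.mem_iff_lt_rowLen]
    rcases key x with ⟨k1, k2⟩ | ⟨k1, k2⟩
    · rw [k1, h0]
      exact k2
    · rw [k1, h1]
      exact k2
  have hinj : Function.Injective b2t := by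
    have : ∀ x y : B2X, b2t x = b2t y → x = y := by decide
    exact fun x y hxy => this x y hxy
  have hcard : (univ.image b2t).card = 10 := by
    rw [Finset.card_image_of_injective _ hinj]
    rfl
  have heq : univ.image b2t = lam.cells := by
    refine Finset.eq_of_subset_of_card_le hsub ?_
    rw [hcard]
    exact h.le
  refine ⟨hinj, fun p => ?_⟩
  rw [← YoungDiagram.mem_cells, ← heq, Finset.mem_image]
  simp

/-! ### the contents -/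

private theorem b2_inAB0 : InAB (fun j => 4 - j) (fun j => 4 - j) b2F0 := by
  have h1 : InAB (fun j => co [2, 1, 1] j + co [1, 1, 1, 1] j)
      (fun j => co [1, 1, 1, 1] j + co [2, 1, 1] j) (tens EQ4 (flip2 EQ4)) :=
    InAB.tens (fun _ => rfl) (fun _ => rfl) inAB_EQ4 inAB_EQ4.flip
  refine InAB.tens (fun j => ?_) (fun j => ?_) h1 inAB_ED
  · rcases j with _ | _ | _ | _ | j <;> simp [co]
  · rcases j with _ | _ | _ | _ | j <;> simp [co]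

private theorem b2_inAB2 : InAB (fun j => 4 - j) (fun j => 4 - j) b2F2 := by
  have h1 : InAB (fun j => 4 - j) (fun j => 4 - j) b2F1 := b2_inAB0.sub (b2_inAB0.rel _)
  exact h1.sub (h1.rel _)

private theorem b2_inVV : InVV 4 b2G := inVV_of_inAB (b2_inAB2.sub b2_inAB2.flip)

/-! ### alternation -/

private theorem b2_alt0q (w₁ w₂ : B2X → ℕ) :
    b2F0 (w₁ ∘ swap (b2q 0) (b2q 1)) (w₂ ∘ swap (b2q 0) (b2q 1)) = -b2F0 w₁ w₂ := by
  have e1 : ∀ w : B2X → ℕ, ((w ∘ swap (b2q 0) (b2q 1)) ∘ Sum.inl) ∘ Sum.inl =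
      ((w ∘ Sum.inl) ∘ Sum.inl) ∘ swap (0 : Fin 4) 1 := by
    intro w
    funext i
    have : ∀ i : Fin 4, swap (b2q 0) (b2q 1) (Sum.inl (Sum.inl i)) =
      Sum.inl (Sum.inl (swap (0 : Fin 4) 1 i)) := by decide
    simp only [Function.comp, this]
  have e2 : ∀ w : B2X → ℕ, ((w ∘ swap (b2q 0) (b2q 1)) ∘ Sum.inl) ∘ Sum.inr =
      (w ∘ Sum.inl) ∘ Sum.inr := by
    intro w
    funext i
    have : ∀ i : Fin 4, swap (b2q 0) (b2q 1) (Sum.inl (Sum.inr i)) =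
      Sum.inl (Sum.inr i) := by decide
    simp only [Function.comp, this]
  have e3 : ∀ w : B2X → ℕ, (w ∘ swap (b2q 0) (b2q 1)) ∘ Sum.inr = w ∘ Sum.inr := by
    intro w
    funext i
    have : ∀ i : Fin 2, swap (b2q 0) (b2q 1) (Sum.inr i) = Sum.inr i := by decide
    simp only [Function.comp, this]
  unfold b2F0 tens
  rw [e1, e1, e2, e2, e3, e3, EQ4_swap]
  ring

private theorem b2_alt0p (w₁ w₂ : B2X → ℕ) :
    b2F0 (w₁ ∘ swap (b2p 0) (b2p 1)) (w₂ ∘ swap (b2p 0) (b2p 1)) = -b2F0 w₁ w₂ := by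
  have e1 : ∀ w : B2X → ℕ, ((w ∘ swap (b2p 0) (b2p 1)) ∘ Sum.inl) ∘ Sum.inr =
      ((w ∘ Sum.inl) ∘ Sum.inr) ∘ swap (0 : Fin 4) 1 := by
    intro w
    funext i
    have : ∀ i : Fin 4, swap (b2p 0) (b2p 1) (Sum.inl (Sum.inr i)) =
      Sum.inl (Sum.inr (swap (0 : Fin 4) 1 i)) := by decide
    simp only [Function.comp, this]
  have e2 : ∀ w : B2X → ℕ, ((w ∘ swap (b2p 0) (b2p 1)) ∘ Sum.inl) ∘ Sum.inl =
      (w ∘ Sum.inl) ∘ Sum.inl := by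
    intro w
    funext i
    have : ∀ i : Fin 4, swap (b2p 0) (b2p 1) (Sum.inl (Sum.inl i)) =
      Sum.inl (Sum.inl i) := by decide
    simp only [Function.comp, this]
  have e3 : ∀ w : B2X → ℕ, (w ∘ swap (b2p 0) (b2p 1)) ∘ Sum.inr = w ∘ Sum.inr := by
    intro w
    funext i
    have : ∀ i : Fin 2, swap (b2p 0) (b2p 1) (Sum.inr i) = Sum.inr i := by decide
    simp only [Function.comp, this]
  unfold b2F0 tens flip2
  rw [e1, e1, e2, e2, e3, e3, EQ4_swap]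
  ring

private theorem b2_alt (x y : B2X) (hxy : x ≠ y) (h : (b2t x).2 = (b2t y).2) (w₁ w₂ : B2X → ℕ) :
    b2G (w₁ ∘ swap x y) (w₂ ∘ swap x y) = -b2G w₁ w₂ := by
  have c1 : ∀ x, swap (b2q 0) (b2q 1) (swap (b2q 2) (b2e 0) x) =
    swap (b2q 2) (b2e 0) (swap (b2q 0) (b2q 1) x) := by decide
  have c2 : ∀ x, swap (b2q 0) (b2q 1) (swap (b2q 3) (b2e 1) x) =
    swap (b2q 3) (b2e 1) (swap (b2q 0) (b2q 1) x) := by decide
  have c3 : ∀ x, swap (b2p 0) (b2p 1) (swap (b2q 2) (b2e 0) x) =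
    swap (b2q 2) (b2e 0) (swap (b2p 0) (b2p 1) x) := by decide
  have c4 : ∀ x, swap (b2p 0) (b2p 1) (swap (b2q 3) (b2e 1) x) =
    swap (b2q 3) (b2e 1) (swap (b2p 0) (b2p 1) x) := by decide
  have c5 : ∀ x, swap (b2q 2) (b2e 0) (swap (b2q 3) (b2e 1) x) =
    swap (b2q 3) (b2e 1) (swap (b2q 2) (b2e 0) x) := by decide
  have aq : ∀ w₁ w₂, b2G (w₁ ∘ swap (b2q 0) (b2q 1)) (w₂ ∘ swap (b2q 0) (b2q 1)) = -b2G w₁ w₂ := by
    have k1 := bfq2_sub b2_alt0q (bfq2_rel b2_alt0q c1)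
    have k2 := bfq2_sub k1 (bfq2_rel k1 c2)
    exact bfq2_sub k2 (bfq2_flip k2)
  have ap : ∀ w₁ w₂, b2G (w₁ ∘ swap (b2p 0) (b2p 1)) (w₂ ∘ swap (b2p 0) (b2p 1)) = -b2G w₁ w₂ := by
    have k1 := bfq2_sub b2_alt0p (bfq2_rel b2_alt0p c3)
    have k2 := bfq2_sub k1 (bfq2_rel k1 c4)
    exact bfq2_sub k2 (bfq2_flip k2)
  have aa : ∀ w₁ w₂, b2G (w₁ ∘ swap (b2q 2) (b2e 0)) (w₂ ∘ swap (b2q 2) (b2e 0)) = -b2G w₁ w₂ := by
    have k1 : ∀ w₁ w₂, b2F1 (w₁ ∘ swap (b2q 2) (b2e 0)) (w₂ ∘ swap (b2q 2) (b2e 0)) =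
      -b2F1 w₁ w₂ := bfq2_self
    have k2 := bfq2_sub k1 (bfq2_rel k1 c5)
    exact bfq2_sub k2 (bfq2_flip k2)
  have ab : ∀ w₁ w₂, b2G (w₁ ∘ swap (b2q 3) (b2e 1)) (w₂ ∘ swap (b2q 3) (b2e 1)) = -b2G w₁ w₂ := by
    have k2 : ∀ w₁ w₂, b2F2 (w₁ ∘ swap (b2q 3) (b2e 1)) (w₂ ∘ swap (b2q 3) (b2e 1)) =
      -b2F2 w₁ w₂ := bfq2_self
    exact bfq2_sub k2 (bfq2_flip k2)
  have key1 : ∀ x y : B2X, x ≠ y → (b2t x).2 = (b2t y).2 → y = b2m x := by decide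
  have key2 : ∀ x : B2X, x = b2m x ∨ swap x (b2m x) = swap (b2q 0) (b2q 1) ∨
      swap x (b2m x) = swap (b2p 0) (b2p 1) ∨ swap x (b2m x) = swap (b2q 2) (b2e 0) ∨
      swap x (b2m x) = swap (b2q 3) (b2e 1) := by decide
  have hy := key1 x y hxy h
  subst hy
  rcases key2 x with k | k | k | k | k
  · exact absurd k hxy
  · rw [k]
    exact aq w₁ w₂
  · rw [k]
    exact ap w₁ w₂
  · rw [k]
    exact aa w₁ w₂
  · rw [k]
    exact ab w₁ w₂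

/-! ### evaluation -/

private theorem b2_dt (u : Fin 4 → ℕ → ℚ) :
    dt u = Matrix.det (Matrix.of fun i j : Fin 4 => u i j) := by
  rw [← Matrix.det_transpose, Matrix.det_apply']
  unfold dt sg
  rfl

/-- the matrices. -/
private def b2A (s i j : ℕ) : ℚ :=
  if s = 0 then (if (i = 0 ∧ j = 1) ∨ (i = 2 ∧ j = 2) ∨ (i = 3 ∧ j = 0) then 1 else 0)
  else (if (i = 0 ∧ j = 3) ∨ (i = 1 ∧ j = 0) ∨ (i = 2 ∧ j = 2) then 1 else 0)

private theorem b2_v1 : ev 4 ![0, 1, 1, 0] b2A EQ4 = -4 := by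
  rw [ev_EQ4 _ _ _ le_rfl]
  simp only [b2_dt]
  simp [Matrix.det_succ_row_zero, Fin.sum_univ_succ, b2A, Fin.succAbove]
  norm_num

private theorem b2_v2 : ev 4 ![0, 1, 0, 1] b2A EQ4 = -4 := by
  rw [ev_EQ4 _ _ _ le_rfl]
  simp only [b2_dt]
  simp [Matrix.det_succ_row_zero, Fin.sum_univ_succ, b2A, Fin.succAbove]
  norm_num

private theorem b2_v3 : ev 4 ![0, 1, 0, 0] (fun s i j => b2A s j i) EQ4 = 8 := by
  rw [ev_EQ4 _ _ _ le_rfl]
  simp only [b2_dt]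
  simp [Matrix.det_succ_row_zero, Fin.sum_univ_succ, b2A, Fin.succAbove]
  norm_num

private theorem b2_v4 : ev 4 ![0, 1, 0, 0] b2A EQ4 = 0 := by
  rw [ev_EQ4 _ _ _ le_rfl]
  simp only [b2_dt]
  simp [Matrix.det_succ_row_zero, Fin.sum_univ_succ, b2A, Fin.succAbove]

private theorem b2_d11 : ev 4 ![1, 1] b2A ED = 0 := by
  rw [ev_ED _ _ _ (by norm_num)]
  simp [b2A]

private theorem b2_d01 : ev 4 ![0, 1] b2A ED = -1 := by
  rw [ev_ED _ _ _ (by norm_num)]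
  simp [b2A]

private theorem b2_d10 : ev 4 ![1, 0] b2A ED = -1 := by
  rw [ev_ED _ _ _ (by norm_num)]
  simp [b2A]

private theorem b2_d00 : ev 4 ![0, 0] b2A ED = 0 := by
  rw [ev_ED _ _ _ (by norm_num)]
  simp [b2A]

/-- evaluation of the product. -/
private theorem b2_ev0 (r : B2X → ℕ) (A : ℕ → ℕ → ℕ → ℚ) : ev 4 r A b2F0 =
    ev 4 (fun i => r (b2q i)) A EQ4 * ev 4 (fun i => r (b2p i)) (fun s i j => A s j i) EQ4 *
      ev 4 (fun i => r (b2e i)) A ED := by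
  unfold b2F0
  rw [ev_tens, ev_tens, ev_flip]
  rfl

private theorem b2_ev2 (r : B2X → ℕ) (A : ℕ → ℕ → ℕ → ℚ) : ev 4 r A b2F2 =
    ev 4 r A b2F0 - ev 4 (r ∘ swap (b2q 2) (b2e 0)) A b2F0 -
      (ev 4 (r ∘ swap (b2q 3) (b2e 1)) A b2F0 -
        ev 4 ((r ∘ swap (b2q 3) (b2e 1)) ∘ swap (b2q 2) (b2e 0)) A b2F0) := by
  unfold b2F2
  rw [ev_sub, ev_rel]
  unfold b2F1
  rw [ev_sub, ev_rel, ev_sub, ev_rel]

private theorem b2_evA : ev 4 (fun x => (b2t x).1) b2A b2F2 = -64 := by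
  rw [b2_ev2, b2_ev0, b2_ev0, b2_ev0, b2_ev0]
  have q1 : (fun i => ((fun x => (b2t x).1) ∘ swap (b2q 2) (b2e 0)) (b2q i)) = ![0, 1, 1, 0] := by
    funext i
    revert i
    decide
  have q2 : (fun i => ((fun x => (b2t x).1) ∘ swap (b2q 3) (b2e 1)) (b2q i)) = ![0, 1, 0, 1] := by
    funext i
    revert i
    decide
  have p1 : (fun i => ((fun x => (b2t x).1) ∘ swap (b2q 2) (b2e 0)) (b2p i)) = ![0, 1, 0, 0] := by
    funext i
    revert i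
    decide
  have p2 : (fun i => ((fun x => (b2t x).1) ∘ swap (b2q 3) (b2e 1)) (b2p i)) = ![0, 1, 0, 0] := by
    funext i
    revert i
    decide
  have e0 : (fun i => (fun x => (b2t x).1) (b2e i)) = ![1, 1] := by
    funext i
    revert i
    decide
  have e1 : (fun i => ((fun x => (b2t x).1) ∘ swap (b2q 2) (b2e 0)) (b2e i)) = ![0, 1] := by
    funext i
    revert i
    decide
  have e2 : (fun i => ((fun x => (b2t x).1) ∘ swap (b2q 3) (b2e 1)) (b2e i)) = ![1, 0] := by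
    funext i
    revert i
    decide
  have e3 : (fun i => (((fun x => (b2t x).1) ∘ swap (b2q 3) (b2e 1)) ∘ swap (b2q 2) (b2e 0))
      (b2e i)) = ![0, 0] := by
    funext i
    revert i
    decide
  rw [q1, q2, p1, p2, e0, e1, e2, e3, b2_v1, b2_v2, b2_v3, b2_d11, b2_d01, b2_d10, b2_d00]
  norm_num

private theorem b2_evB : ev 4 (fun x => (b2t x).1) (fun s i j => b2A s j i) b2F2 = 0 := by
  rw [b2_ev2, b2_ev0, b2_ev0, b2_ev0, b2_ev0]
  have p0 : (fun i => (fun x => (b2t x).1) (b2p i)) = ![0, 1, 0, 0] := by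
    funext i
    revert i
    decide
  have p1 : (fun i => ((fun x => (b2t x).1) ∘ swap (b2q 2) (b2e 0)) (b2p i)) = ![0, 1, 0, 0] := by
    funext i
    revert i
    decide
  have p2 : (fun i => ((fun x => (b2t x).1) ∘ swap (b2q 3) (b2e 1)) (b2p i)) = ![0, 1, 0, 0] := by
    funext i
    revert i
    decide
  have p3 : (fun i => (((fun x => (b2t x).1) ∘ swap (b2q 3) (b2e 1)) ∘ swap (b2q 2) (b2e 0))
      (b2p i)) = ![0, 1, 0, 0] := by
    funext i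
    revert i
    decide
  rw [p0, p1, p2, p3]
  have hv : ev 4 ![0, 1, 0, 0] (fun s i j => (fun s i j => b2A s j i) s j i) EQ4 = 0 := b2_v4
  rw [hv]
  ring

/-! ### BFQ2 -/

theorem altW4_64 {lam : YoungDiagram} (h : lam.card = 10) (h0 : lam.rowLen 0 = 6)
    (h1 : lam.rowLen 1 = 4) : AltW 4 lam := by
  refine ⟨B2X, inferInstance, inferInstance, b2t, b2G, b2_tab h h0 h1, b2_inVV, ?_, ?_⟩
  · intro w₁ w₂
    simp only [b2G, sub2, flip2]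
    ring
  · refine ev_ys 4 le_rfl b2_inVV b2_alt b2A ?_
    unfold b2G
    rw [ev_sub, ev_flip, b2_evA, b2_evB]
    norm_num

end Sx
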