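import Mathlib
import Pool.Agent.Helper87.Saxl.Both
import Pool.Agent.Saxl2.XI
import Pool.Agent.Saxl2.YDefs

/-! Module YA: small first row. -/

namespace Sx

open Finset Equiv

variable {X : Type} [Fintype X] [DecidableEq X]

theorem vW_of_symW {k : ℕ} {lam : YoungDiagram} (h : SymW k lam) : VW k lam := by
  obtain ⟨X, i1, i2, t, F, h1, h2, _, h3⟩ := h
  exact ⟨X, i1, i2, t, F, h1, h2, h3⟩

theorem vW_of_altW {k : ℕ} {lam : YoungDiagram} (h : AltW k lam) : VW k lam := by
  obtain ⟨X, i1, i2, t, F, h1, h2, _, h3⟩ := h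
  exact ⟨X, i1, i2, t, F, h1, h2, h3⟩

lemma ya_colS_mul {t : X → ℕ × ℕ} {r s : Perm X} (hr : r ∈ colS t) (hs : s ∈ colS t) :
    r * s ∈ colS t := by
  unfold colS at *
  rw [Finset.mem_filter] at *
  refine ⟨Finset.mem_univ _, fun x => ?_⟩
  rw [Perm.mul_apply, hr.2, hs.2]

/-- the Young symmetrizer image is alternating under the columns. -/
theorem ya_alt (t : X → ℕ × ℕ) (F : (X → ℕ) → (X → ℕ) → ℚ) {c : Perm X} (hc : c ∈ colS t)
    (w₁ w₂ : X → ℕ) : YS t F (w₁ ∘ c) (w₂ ∘ c) = sg c * YS t F w₁ w₂ := by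
  unfold YS
  rw [Finset.mul_sum]
  refine Finset.sum_bij' (fun d _ => c * d) (fun d _ => c⁻¹ * d) (fun d hd => ya_colS_mul hc hd)
    (fun d hd => ya_colS_mul (xi_colS_inv hc) hd) (fun d _ => by group) (fun d _ => by group) ?_
  intro d _
  rw [Finset.mul_sum]
  refine Finset.sum_congr rfl fun r _ => ?_
  rw [sg_mul, ← mul_assoc, ← mul_assoc, sg_mul_self, one_mul]
  rfl

/-- letters of words in the support are small. -/
theorem ya_lt {k : ℕ} {w : X → ℕ} (h : Cont k w) (x : X) : w x < k := by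
  by_contra hx
  have h1 := h (w x)
  rw [Nat.sub_eq_zero_of_le (not_lt.1 hx)] at h1
  unfold cnt at h1
  rw [Finset.card_eq_zero, Finset.filter_eq_empty_iff] at h1
  exact h1 (Finset.mem_univ x) rfl

theorem ya_pos {t : X → ℕ × ℕ} {F : (X → ℕ) → (X → ℕ) → ℚ} (N : ℕ)
    (hN : ∀ w₁ w₂, YS t F w₁ w₂ ≠ 0 → (∀ x, w₁ x < N) ∧ ∀ x, w₂ x < N)
    (h : ∃ w₁ w₂, YS t F w₁ w₂ ≠ 0) : ∃ w₁ w₂, YS t (YS t F) w₁ w₂ ≠ 0 := by
  refine pos_ys N hN (fun c hc w₁ w₂ => ya_alt t F hc w₁ w₂) ?_
  by_contra hcon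
  push Not at hcon
  obtain ⟨v₁, v₂, hv⟩ := h
  obtain ⟨k1, k2⟩ := hN _ _ hv
  let W := (X → Fin N) × (X → Fin N)
  let T : (X → Fin N) → (X → ℕ) := fun u x => (u x : ℕ)
  let E : W → ℚ := fun u => YS t F (T u.1) (T u.2)
  let B : W → ℚ := fun u => ∑ r ∈ rowS t, F (T u.1 ∘ r) (T u.2 ∘ r)
  -- step 1
  have h1 : ((rowS t).card : ℚ) * ∑ u, E u * B u = 0 := by
    have h3 : ∑ u : W, (∑ r ∈ rowS t, E (xi_act r u)) * B u = 0 := by
      refine Finset.sum_eq_zero fun u _ => ?_
      have : ∑ r ∈ rowS t, E (xi_act r u) = 0 := hcon (T u.1) (T u.2)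
      rw [this, zero_mul]
    have h4 : ∑ u : W, (∑ r ∈ rowS t, E (xi_act r u)) * B u =
        ∑ r ∈ rowS t, ∑ u : W, E u * B u := by
      simp only [Finset.sum_mul]
      rw [Finset.sum_comm]
      refine Finset.sum_congr rfl fun r hr => ?_
      refine Fintype.sum_equiv (xi_act r) _ _ fun u => ?_
      have h5 : B (xi_act r u) = B u := xi_BF_inv F hr (T u.1) (T u.2)
      rw [h5]
    rw [h3, Finset.sum_const, nsmul_eq_mul] at h4
    exact h4.symm
  have hc : ((rowS t).card : ℚ) ≠ 0 := by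
    rw [Nat.cast_ne_zero]
    exact Finset.card_ne_zero_of_mem (xi_rowS_one t)
  have h6 : ∑ u, E u * B u = 0 := (mul_eq_zero.1 h1).resolve_left hc
  -- step 2
  have h7 : ∑ u, E u * E u = 0 := by
    have h8 : ∑ u, E u * E u = ∑ c ∈ colS t, ∑ u : W, E u * B u := by
      have h9 : ∀ u : W, E u * E u = ∑ c ∈ colS t, (sg c * E u) * B (xi_act c u) := by
        intro u
        have h10 : E u = ∑ c ∈ colS t, sg c * B (xi_act c u) := by
          show YS t F (T u.1) (T u.2) = _
          unfold YS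
          refine Finset.sum_congr rfl fun c _ => ?_
          rw [Finset.mul_sum]
          rfl
        nth_rewrite 2 [h10]
        rw [Finset.mul_sum]
        refine Finset.sum_congr rfl fun c _ => ?_
        ring
      simp only [h9]
      rw [Finset.sum_comm]
      refine Finset.sum_congr rfl fun c hc => ?_
      refine Fintype.sum_equiv (xi_act c) _ _ fun u => ?_
      have h11 : E (xi_act c u) = sg c * E u := ya_alt t F hc (T u.1) (T u.2)
      rw [h11]
    rw [h8, h6, Finset.sum_const, smul_zero]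
  have h12 : ∀ u : W, E u = 0 := by
    intro u
    have h13 := (Finset.sum_eq_zero_iff_of_nonneg
      (fun u _ => mul_self_nonneg (E u))).1 h7 u (Finset.mem_univ u)
    exact mul_self_eq_zero.1 h13
  exact hv (h12 (fun x => ⟨v₁ x, k1 x⟩, fun x => ⟨v₂ x, k2 x⟩))

theorem ww_small {k : ℕ} {lam : YoungDiagram} (h : VW k lam) (h0 : lam.rowLen 0 < k) :
    WW k lam := by
  obtain ⟨X, i1, i2, t, F, ht, hF, hne⟩ := h
  have hE : InVV k (YS t F) := hF.both_YS t
  refine ⟨X, i1, i2, t, YS t F, ht, hE, ?_, ?_⟩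
  · intro w₁ w₂ hz
    by_contra hn
    have hc1 : Cont k w₁ := (hE.left w₂).cont w₁ hn
    have hcard : (univ.filter fun x => w₁ x = 0).card = k := hc1 0
    -- two zeros in the same column
    obtain ⟨x, hx, y, hy, hxy, hcol⟩ := Finset.exists_ne_map_eq_of_card_lt_of_maps_to
      (s := univ.filter fun x => w₁ x = 0) (t := range (lam.rowLen 0)) (f := fun x => (t x).2)
      (by rw [hcard, Finset.card_range]; exact h0)
      (by
        intro x _
        have h1 : t x ∈ lam := (ht.mem _).2 ⟨x, rfl⟩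
        have h2 : (0, (t x).2) ∈ lam := lam.up_left_mem (Nat.zero_le _) le_rfl h1
        rw [YoungDiagram.mem_iff_lt_rowLen] at h2
        exact Finset.mem_coe.2 (Finset.mem_range.2 h2))
    rw [Finset.mem_filter] at hx hy
    have hcS : swap x y ∈ colS t := by
      unfold colS
      rw [Finset.mem_filter]
      refine ⟨Finset.mem_univ _, fun z => ?_⟩
      by_cases hzx : z = x
      · subst hzx
        rw [swap_apply_left]
        exact hcol.symm
      · by_cases hzy : z = y
        · subst hzy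
          rw [swap_apply_right]
          exact hcol
        · rw [swap_apply_of_ne_of_ne hzx hzy]
    have hw : ∀ w : X → ℕ, w x = 0 → w y = 0 → w ∘ swap x y = w := by
      intro w h1 h2
      funext z
      show w (swap x y z) = w z
      by_cases hzx : z = x
      · subst hzx
        rw [swap_apply_left, h1, h2]
      · by_cases hzy : z = y
        · subst hzy
          rw [swap_apply_right, h1, h2]
        · rw [swap_apply_of_ne_of_ne hzx hzy]
    have h2 := ya_alt t F hcS w₁ w₂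
    rw [hw w₁ hx.2 hy.2, hw w₂ ((hz x).1 hx.2) ((hz y).1 hy.2), sg_swap hxy] at h2
    apply hn
    linarith
  · refine ya_pos k ?_ hne
    intro w₁ w₂ hn
    exact ⟨ya_lt ((hE.left w₂).cont w₁ hn), ya_lt ((hE.right w₁).cont w₂ hn)⟩

end Sx
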