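import Mathlib
import Pool.Agent.Saxl2.NA
import Pool.Agent.Saxl2.JI
import Pool.Agent.Saxl2.YDefs
import Pool.Agent.Helper87.Saxl.Jmap

/-! Module YB1: the one-column shape. -/

namespace Sx

open Finset Equiv

variable {X : Type} [Fintype X] [DecidableEq X]

/-- the alternating function of a staircase tableau. -/
def yb1F (b : X → ℕ × ℕ) (w₁ w₂ : X → ℕ) : ℚ :=
  ∑ σ : Perm X, sg σ * (if w₁ = (fun x => (b (σ x)).1) ∧ w₂ = (fun x => (b (σ x)).2) then 1 else 0)

theorem yb1_right (b : X → ℕ × ℕ) (w₁ : X → ℕ) :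
    yb1F b w₁ = J b (fun w => if w₁ = w then 1 else 0) := by
  funext w₂
  unfold yb1F J
  refine Finset.sum_congr rfl fun σ _ => ?_
  beta_reduce
  by_cases h2 : w₂ = (fun x => (b (σ x)).2)
  · by_cases h1 : w₁ = (fun x => (b (σ x)).1)
    · rw [if_pos ⟨h1, h2⟩, if_pos h2, if_pos h1]
    · rw [if_neg (fun h => h1 h.1), if_pos h2, if_neg h1]
  · rw [if_neg (fun h => h2 h.2), if_neg h2]

theorem yb1_left (b : X → ℕ × ℕ) (w₂ : X → ℕ) :
    (fun w₁ => yb1F b w₁ w₂) = J (fun x => (b x).swap) (fun w => if w₂ = w then 1 else 0) := by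
  funext w₁
  unfold yb1F J
  refine Finset.sum_congr rfl fun σ _ => ?_
  beta_reduce
  by_cases h1 : w₁ = (fun x => (b (σ x)).1)
  · by_cases h2 : w₂ = (fun x => (b (σ x)).2)
    · rw [if_pos ⟨h1, h2⟩, if_pos, if_pos]
      · exact h2
      · exact h1
    · rw [if_neg (fun h => h2 h.2), if_pos, if_neg]
      · exact h2
      · exact h1
  · rw [if_neg (fun h => h1 h.1), if_neg]
    exact h1

theorem yb1_tab_swap {k : ℕ} {b : X → ℕ × ℕ} (hb : IsTab b (stair k)) :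
    IsTab (fun x => (b x).swap) (stair k) where
  inj := fun x y h => hb.inj (Prod.swap_injective h)
  mem := by
    intro p
    have h : p ∈ stair k ↔ p.swap ∈ stair k := by
      rw [mem_stair, mem_stair, Prod.fst_swap, Prod.snd_swap, add_comm]
    rw [h, hb.mem]
    constructor
    · rintro ⟨x, hx⟩
      exact ⟨x, by simp [hx]⟩
    · rintro ⟨x, hx⟩
      exact ⟨x, by rw [← hx, Prod.swap_swap]⟩

theorem yb1_inVV {k : ℕ} {b : X → ℕ × ℕ} (hb : IsTab b (stair k)) : InVV k (yb1F b) where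
  left := by
    intro w₂
    rw [yb1_left]
    exact J_inV (yb1_tab_swap hb) _
  right := by
    intro w₁
    rw [yb1_right]
    exact J_inV hb _

/-- symmetry. -/
theorem yb1_symm {b : X → ℕ × ℕ} {τ : Perm X} (hτ : ∀ x, b (τ x) = (b x).swap) (w₁ w₂ : X → ℕ) :
    yb1F b w₂ w₁ = sg τ * yb1F b w₁ w₂ := by
  unfold yb1F
  rw [Finset.mul_sum]
  refine Fintype.sum_equiv (Equiv.mulLeft τ) _ _ fun σ => ?_
  rw [Equiv.coe_mulLeft, sg_mul, ← mul_assoc, ← mul_assoc, sg_mul_self, one_mul]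
  congr 1
  have h1 : (fun x => (b ((τ * σ) x)).1) = fun x => (b (σ x)).2 := by
    funext x
    rw [Perm.mul_apply, hτ]
    rfl
  have h2 : (fun x => (b ((τ * σ) x)).2) = fun x => (b (σ x)).1 := by
    funext x
    rw [Perm.mul_apply, hτ]
    rfl
  rw [h1, h2]
  by_cases h3 : w₂ = (fun x => (b (σ x)).1)
  · by_cases h4 : w₁ = (fun x => (b (σ x)).2)
    · rw [if_pos ⟨h3, h4⟩, if_pos ⟨h4, h3⟩]
    · rw [if_neg (fun h => h4 h.2), if_neg (fun h => h4 h.1)]
  · rw [if_neg (fun h => h3 h.1), if_neg (fun h => h3 h.2)]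

/-- the function is alternating. -/
theorem yb1_alt (b : X → ℕ × ℕ) (g : Perm X) (w₁ w₂ : X → ℕ) :
    yb1F b (w₁ ∘ g) (w₂ ∘ g) = sg g * yb1F b w₁ w₂ := by
  unfold yb1F
  rw [Finset.mul_sum]
  refine Fintype.sum_equiv (Equiv.mulRight g⁻¹) _ _ fun σ => ?_
  have h1 : sg (σ * g⁻¹) = sg g * sg σ := by
    rw [sg_mul, sg_inv, mul_comm]
  rw [Equiv.coe_mulRight, h1, ← mul_assoc, ← mul_assoc, sg_mul_self, one_mul]
  congr 1
  have h2 : ∀ (w : X → ℕ) (f : X → ℕ), (w ∘ g = fun x => f (σ x)) ↔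
      (w = fun x => f ((σ * g⁻¹) x)) := by
    intro w f
    constructor
    · intro h
      funext x
      have := congrFun h (g⁻¹ x)
      simpa using this
    · intro h
      rw [h]
      funext x
      simp
  by_cases h3 : (w₁ ∘ g = fun x => (b (σ x)).1) ∧ (w₂ ∘ g = fun x => (b (σ x)).2)
  · rw [if_pos h3, if_pos]
    exact ⟨(h2 w₁ fun y => (b y).1).1 h3.1, (h2 w₂ fun y => (b y).2).1 h3.2⟩
  · rw [if_neg h3, if_neg]
    intro h4
    exact h3 ⟨(h2 w₁ fun y => (b y).1).2 h4.1, (h2 w₂ fun y => (b y).2).2 h4.2⟩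

/-- the value at the word of the tableau. -/
theorem yb1_one {b : X → ℕ × ℕ} (hb : Function.Injective b) :
    yb1F b (fun x => (b x).1) (fun x => (b x).2) = 1 := by
  unfold yb1F
  rw [Finset.sum_eq_single (1 : Perm X)]
  · simp
  · intro σ _ hσ
    rw [if_neg, mul_zero]
    rintro ⟨h1, h2⟩
    apply hσ
    ext x
    have h3 : b x = b (σ x) := Prod.ext (congrFun h1 x) (congrFun h2 x)
    exact (hb h3).symm
  · intro h
    exact absurd (Finset.mem_univ _) h

/-- the Young symmetrizer of a column. -/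
theorem yb1_YS {t b : X → ℕ × ℕ} (h0 : ∀ x, (t x).2 = 0) (hi : Function.Injective t)
    (hb : Function.Injective b) : ∃ w₁ w₂, YS t (yb1F b) w₁ w₂ ≠ 0 := by
  refine ⟨fun x => (b x).1, fun x => (b x).2, ?_⟩
  have hrow : rowS t = {1} := by
    ext r
    unfold rowS
    rw [Finset.mem_filter, Finset.mem_singleton]
    constructor
    · rintro ⟨_, h⟩
      ext x
      exact hi (Prod.ext (h x) ((h0 _).trans (h0 _).symm))
    · rintro rfl
      exact ⟨Finset.mem_univ _, fun x => rfl⟩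
  have hcol : colS t = univ := by
    ext c
    unfold colS
    rw [Finset.mem_filter]
    simp [h0]
  unfold YS
  rw [hrow, hcol]
  have h1 : ∀ c : Perm X, ∑ r ∈ ({1} : Finset (Perm X)),
      sg c * yb1F b ((fun x => (b x).1) ∘ ⇑c ∘ ⇑r) ((fun x => (b x).2) ∘ ⇑c ∘ ⇑r) = 1 := by
    intro c
    rw [Finset.sum_singleton]
    have h2 : (⇑c ∘ ⇑(1 : Perm X)) = ⇑c := rfl
    rw [h2, yb1_alt, yb1_one hb, mul_one, sg_mul_self]
  rw [Finset.sum_congr rfl fun c _ => h1 c]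
  simp [Fintype.card_ne_zero]

/-- the data for both signs. -/
theorem yb1_data {k : ℕ} {lam : YoungDiagram} (hc : lam.card = nk k) (h1 : lam.rowLen 0 ≤ 1) :
    ∃ (X : Type) (_ : Fintype X) (_ : DecidableEq X) (t b : X → ℕ × ℕ),
      IsTab t lam ∧ IsTab b (stair k) ∧ ∀ x, (t x).2 = 0 := by
  have hcard : Fintype.card ↥lam.cells = Fintype.card ↥(stair k).cells := by
    rw [Fintype.card_coe, Fintype.card_coe]
    show lam.card = (stair k).card
    rw [hc, stair_card, nk]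
  let e : ↥lam.cells ≃ ↥(stair k).cells := Fintype.equivOfCardEq hcard
  refine ⟨↥lam.cells, inferInstance, inferInstance, fun x => x.1, fun x => (e x).1, ?_, ?_, ?_⟩
  · refine ⟨Subtype.val_injective, fun p => ?_⟩
    constructor
    · intro hp
      exact ⟨⟨p, hp⟩, rfl⟩
    · rintro ⟨x, rfl⟩
      exact x.2
  · refine ⟨Subtype.val_injective.comp e.injective, fun p => ?_⟩
    constructor
    · intro hp
      exact ⟨e.symm ⟨p, hp⟩, by simp⟩
    · rintro ⟨x, rfl⟩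
      exact (e x).2
  · intro x
    have h2 : (x.1.1, x.1.2) ∈ lam := x.2
    have h3 : (0, x.1.2) ∈ lam := lam.up_left_mem (Nat.zero_le _) le_rfl h2
    rw [YoungDiagram.mem_iff_lt_rowLen] at h3
    show x.1.2 = 0
    omega

theorem symW_one {k : ℕ} (hk : 1 ≤ k) (h4 : k % 4 ≠ 2) {lam : YoungDiagram} (hc : lam.card = nk k)
    (h1 : lam.rowLen 0 = 1) : SymW k lam := by
  obtain ⟨X, i1, i2, t, b, ht, hb, h0⟩ := yb1_data hc h1.le
  obtain ⟨τ, hτ, hs⟩ := exists_tau hb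
  rw [if_neg h4] at hs
  refine ⟨X, i1, i2, t, yb1F b, ht, yb1_inVV hb, fun w₁ w₂ => ?_, yb1_YS h0 ht.inj hb.inj⟩
  rw [yb1_symm hτ, hs, one_mul]

theorem altW_one {k : ℕ} (h4 : k % 4 = 2) {lam : YoungDiagram} (hc : lam.card = nk k)
    (h1 : lam.rowLen 0 = 1) : AltW k lam := by
  obtain ⟨X, i1, i2, t, b, ht, hb, h0⟩ := yb1_data hc h1.le
  obtain ⟨τ, hτ, hs⟩ := exists_tau hb
  rw [if_pos h4] at hs
  refine ⟨X, i1, i2, t, yb1F b, ht, yb1_inVV hb, fun w₁ w₂ => ?_, yb1_YS h0 ht.inj hb.inj⟩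
  rw [yb1_symm hτ, hs, neg_one_mul]

end Sx
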