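import Mathlib
import Pool.Agent.Saxl2.XDefs
import Pool.Agent.Saxl2.XA

/-! The core argument for the injectivity of outer products. -/

namespace Sx

open Finset Equiv

variable {X Y Z : Type} [Fintype X] [DecidableEq X] [Fintype Y] [DecidableEq Y]
  [Fintype Z] [DecidableEq Z]

omit [Fintype X] [DecidableEq X] in
theorem xb_stp_comp {a b : ℕ} {S₁ S₂ : X → ℕ} (h : StP a b S₁ S₂) (g : Perm X) :
    StP a b (S₁ ∘ g) (S₂ ∘ g) := by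
  refine ⟨fun x y h1 h2 => g.injective (h.1 _ _ h1 h2), fun i j => ?_⟩
  rw [h.2 i j]
  constructor
  · rintro ⟨x, h1, h2⟩
    exact ⟨g⁻¹ x, by simp [h1], by simp [h2]⟩
  · rintro ⟨x, h1, h2⟩
    exact ⟨g x, h1, h2⟩

omit [Fintype Y] [DecidableEq Y] [DecidableEq Z] in
/-- a permutation preserving the right part preserves the left part. -/
theorem xb_left (σ : Perm (Y ⊕ Z))
    (h : ∀ i : Z, ∃ i' : Z, σ (Sum.inr i) = Sum.inr i') (y : Y) :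
    ∃ y' : Y, σ (Sum.inl y) = Sum.inl y' := by
  choose f hf using h
  have hinj : Function.Injective f := by
    intro i j hij
    have := (hf i).trans (hij ▸ (hf j).symm)
    exact Sum.inr_injective (σ.injective this)
  have hsurj := Finite.surjective_of_injective hinj
  rcases hy : σ (Sum.inl y) with y' | i
  · exact ⟨y', rfl⟩
  · exfalso
    obtain ⟨j, rfl⟩ := hsurj i
    have := σ.injective (hy.trans (hf j).symm)
    cases this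

theorem xb_reindex (F : (Y → ℕ) → (Y → ℕ) → ℚ) (E : (Z → ℕ) → (Z → ℕ) → ℚ)
    (a : Perm (Y ⊕ Z) → ℚ) (g0 : Perm (Y ⊕ Z)) (T₁ T₂ : Y ⊕ Z → ℕ) :
    ∑ g ∈ univ.filter (fun g : Perm (Y ⊕ Z) => ∀ z : Z, ∃ z' : Z,
        (g0⁻¹ * g) (Sum.inr z) = Sum.inr z'),
        a g * tens F E ((T₁ ∘ ⇑g0⁻¹) ∘ g) ((T₂ ∘ ⇑g0⁻¹) ∘ g) =
      ∑ y : Perm Y, ∑ z : Perm Z, a (g0 * Perm.sumCongr y z) *
        (F ((T₁ ∘ Sum.inl) ∘ y) ((T₂ ∘ Sum.inl) ∘ y) *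
          E ((T₁ ∘ Sum.inr) ∘ z) ((T₂ ∘ Sum.inr) ∘ z)) := by
  rw [← Finset.sum_product' (Finset.univ : Finset (Perm Y)) (Finset.univ : Finset (Perm Z))
    (fun y z => a (g0 * Perm.sumCongr y z) *
        (F ((T₁ ∘ Sum.inl) ∘ y) ((T₂ ∘ Sum.inl) ∘ y) *
          E ((T₁ ∘ Sum.inr) ∘ z) ((T₂ ∘ Sum.inr) ∘ z)))]
  symm
  refine Finset.sum_bij (fun P _ => g0 * Perm.sumCongr P.1 P.2) ?_ ?_ ?_ ?_
  · rintro ⟨y, z⟩ _
    rw [Finset.mem_filter]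
    refine ⟨Finset.mem_univ _, fun i => ⟨z i, ?_⟩⟩
    simp
  · rintro ⟨y, z⟩ _ ⟨y', z'⟩ _ h
    have e := mul_left_cancel h
    exact Perm.sumCongrHom_injective (α := Y) (β := Z) (a₁ := (y, z)) (a₂ := (y', z')) e
  · intro g hg
    rw [Finset.mem_filter] at hg
    have hl := xb_left (g0⁻¹ * g) hg.2
    have h2 : g0⁻¹ * g ∈ (Perm.sumCongrHom Y Z).range :=
      Perm.mem_sumCongrHom_range_of_perm_mapsTo_inl (by
        rintro _ ⟨y, rfl⟩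
        obtain ⟨y', hy'⟩ := hl y
        exact ⟨y', hy'.symm⟩)
    obtain ⟨⟨y, z⟩, h3⟩ := h2
    refine ⟨(y, z), Finset.mem_product.mpr ⟨Finset.mem_univ _, Finset.mem_univ _⟩, ?_⟩
    have h4 : Perm.sumCongr y z = g0⁻¹ * g := h3
    rw [h4, mul_inv_cancel_left]
  · rintro ⟨y, z⟩ _
    unfold tens
    congr 2
    · congr 1 <;> funext i <;> simp [Function.comp]
    · congr 1 <;> funext i <;> simp [Function.comp]

theorem goodCore {k' k : ℕ} (hk : k' ≤ k) {F : (Y → ℕ) → (Y → ℕ) → ℚ}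
    {E : (Z → ℕ) → (Z → ℕ) → ℚ} (hF : GoodF k' F) (hE : BlockE k' k E) (a : Perm (Y ⊕ Z) → ℚ)
    (h0 : ∀ S₁ S₂, StP 0 k S₁ S₂ → ∑ g, a g * tens F E (S₁ ∘ g) (S₂ ∘ g) = 0)
    (g0 : Perm (Y ⊕ Z)) : ∀ S₁ S₂,
    ∑ g ∈ univ.filter (fun g : Perm (Y ⊕ Z) => ∀ z : Z, ∃ z' : Z,
        (g0⁻¹ * g) (Sum.inr z) = Sum.inr z'), a g * tens F E (S₁ ∘ g) (S₂ ∘ g) = 0 := by
  -- step 1
  have step1 : ∀ T₁ T₂ : Y ⊕ Z → ℕ, StP 0 k' (T₁ ∘ Sum.inl) (T₂ ∘ Sum.inl) →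
      StP k' k (T₁ ∘ Sum.inr) (T₂ ∘ Sum.inr) →
      ∑ y : Perm Y, ∑ z : Perm Z, a (g0 * Perm.sumCongr y z) *
        (F ((T₁ ∘ Sum.inl) ∘ y) ((T₂ ∘ Sum.inl) ∘ y) *
          E ((T₁ ∘ Sum.inr) ∘ z) ((T₂ ∘ Sum.inr) ∘ z)) = 0 := by
    intro T₁ T₂ hY hZ
    rw [← xb_reindex]
    have hS : StP 0 k (T₁ ∘ ⇑g0⁻¹) (T₂ ∘ ⇑g0⁻¹) := xb_stp_comp (stp_sum hk hY hZ) g0⁻¹
    rw [Finset.sum_filter_of_ne]
    · exact h0 _ _ hS
    · intro g _ hne z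
      have hF0 : F (((T₁ ∘ ⇑g0⁻¹) ∘ g) ∘ Sum.inl) (((T₂ ∘ ⇑g0⁻¹) ∘ g) ∘ Sum.inl) ≠ 0 := by
        intro h
        apply hne
        unfold tens
        rw [h]; ring
      have hE0 : E (((T₁ ∘ ⇑g0⁻¹) ∘ g) ∘ Sum.inr) (((T₂ ∘ ⇑g0⁻¹) ∘ g) ∘ Sum.inr) ≠ 0 := by
        intro h
        apply hne
        unfold tens
        rw [h]; ring
      have p1 := phi_stp hS
      have p2 := phi_comp (T₁ ∘ ⇑g0⁻¹) (T₂ ∘ ⇑g0⁻¹) g
      have p3 := phi_tens ((T₁ ∘ ⇑g0⁻¹) ∘ g) ((T₂ ∘ ⇑g0⁻¹) ∘ g)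
      have p4 := hF.phi _ _ hF0
      have p5 := hE.phi _ _ hE0
      have p6 := hE.eq _ _ hE0 (by omega) z
      rcases hx : (g0⁻¹ * g) (Sum.inr z) with y | z'
      · exfalso
        have h1 := (hY.2 (T₁ (Sum.inl y)) (T₂ (Sum.inl y))).mpr ⟨y, rfl, rfl⟩
        have e1 : (((T₁ ∘ ⇑g0⁻¹) ∘ g) ∘ Sum.inr) z = T₁ (Sum.inl y) := by
          rw [← hx]; rfl
        have e2 : (((T₂ ∘ ⇑g0⁻¹) ∘ g) ∘ Sum.inr) z = T₂ (Sum.inl y) := by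
          rw [← hx]; rfl
        rw [e1, e2] at p6
        omega
      · exact ⟨z', rfl⟩
  -- step 2
  have step2 : ∀ (U₁ U₂ : Y → ℕ) (V₁ V₂ : Z → ℕ), StP k' k V₁ V₂ →
      ∑ y : Perm Y, ∑ z : Perm Z, a (g0 * Perm.sumCongr y z) *
        (F (U₁ ∘ y) (U₂ ∘ y) * E (V₁ ∘ z) (V₂ ∘ z)) = 0 := by
    intro U₁ U₂ V₁ V₂ hV
    have h := hF.inj (fun y => ∑ z : Perm Z, a (g0 * Perm.sumCongr y z) *
      E (V₁ ∘ z) (V₂ ∘ z)) (by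
        intro S₁ S₂ hS
        have := step1 (Sum.elim S₁ V₁) (Sum.elim S₂ V₂) (by simpa using hS) (by simpa using hV)
        simp only [Sum.elim_comp_inl, Sum.elim_comp_inr] at this
        rw [← this]
        refine Finset.sum_congr rfl fun y _ => ?_
        rw [Finset.sum_mul]
        refine Finset.sum_congr rfl fun z _ => ?_
        ring) U₁ U₂
    rw [← h]
    refine Finset.sum_congr rfl fun y _ => ?_
    rw [Finset.sum_mul]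
    refine Finset.sum_congr rfl fun z _ => ?_
    ring
  intro S₁ S₂
  have key := hE.inj (fun z => ∑ y : Perm Y, a (g0 * Perm.sumCongr y z) *
      F (((S₁ ∘ g0) ∘ Sum.inl) ∘ y) (((S₂ ∘ g0) ∘ Sum.inl) ∘ y)) (by
        intro V₁ V₂ hV
        rw [← step2 ((S₁ ∘ g0) ∘ Sum.inl) ((S₂ ∘ g0) ∘ Sum.inl) V₁ V₂ hV, Finset.sum_comm]
        refine Finset.sum_congr rfl fun z _ => ?_
        rw [Finset.sum_mul]
        refine Finset.sum_congr rfl fun y _ => ?_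
        ring) ((S₁ ∘ g0) ∘ Sum.inr) ((S₂ ∘ g0) ∘ Sum.inr)
  have hr := xb_reindex F E a g0 (S₁ ∘ g0) (S₂ ∘ g0)
  have e1 : (S₁ ∘ g0) ∘ ⇑g0⁻¹ = S₁ := by funext x; simp
  have e2 : (S₂ ∘ g0) ∘ ⇑g0⁻¹ = S₂ := by funext x; simp
  rw [e1, e2] at hr
  rw [hr, ← key, Finset.sum_comm]
  refine Finset.sum_congr rfl fun z _ => ?_
  rw [Finset.sum_mul]
  refine Finset.sum_congr rfl fun y _ => ?_
  ring

end Sx
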