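import Mathlib
import Pool.Agent.Helper87.Saxl.Defs
import Pool.Agent.Helper87.Saxl.Block
import Pool.Agent.Saxl2.XDefs
import Pool.Agent.Saxl2.XA
import Pool.Agent.Saxl2.XB

/-! Good functions and the Young symmetrizer step (module XC). -/

namespace Sx

open Finset Equiv

variable {X Y Z : Type} [Fintype X] [DecidableEq X] [Fintype Y] [DecidableEq Y]
  [Fintype Z] [DecidableEq Z]

private lemma xc_count (P : Perm X → Prop) [DecidablePred P] (f : Perm X → ℚ) :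
    ∑ g0 : Perm X, ∑ g ∈ univ.filter (fun g => P (g0⁻¹ * g)), f g =
      ((univ.filter fun h => P h).card : ℚ) * ∑ g, f g := by
  have h1 : ∀ g0 : Perm X, ∑ g ∈ univ.filter (fun g => P (g0⁻¹ * g)), f g =
      ∑ g, if P (g0⁻¹ * g) then f g else 0 := fun g0 => Finset.sum_filter _ _
  rw [Finset.sum_congr rfl fun g0 _ => h1 g0, Finset.sum_comm, Finset.mul_sum]
  refine Finset.sum_congr rfl fun g _ => ?_
  have h2 : ∑ g0 : Perm X, (if P (g0⁻¹ * g) then f g else 0) =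
      ∑ h : Perm X, (if P h then f g else 0) := by
    refine Fintype.sum_equiv ((Equiv.inv (Perm X)).trans (Equiv.mulRight g)) _ _ fun g0 => ?_
    rfl
  rw [h2, ← Finset.sum_filter, Finset.sum_const, nsmul_eq_mul]

theorem goodStep {k' k : ℕ} (hk : k' ≤ k) {F : (Y → ℕ) → (Y → ℕ) → ℚ}
    {E : (Z → ℕ) → (Z → ℕ) → ℚ} (hF : GoodF k' F) (hE : BlockE k' k E) :
    GoodF k (tens F E) where
  vv := tens_inVV hk hF.vv hE.aa
  phi := by
    intro S₁ S₂ hne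
    unfold tens at hne
    have h1 := hF.phi _ _ (left_ne_zero_of_mul hne)
    have h2 := hE.phi _ _ (right_ne_zero_of_mul hne)
    rw [phi_tens]
    omega
  inj := by
    intro a h0 S₁ S₂
    have h1 := fun g0 => goodCore hk hF hE a h0 g0 S₁ S₂
    have h2 := xc_count (fun h : Perm (Y ⊕ Z) => ∀ z : Z, ∃ z' : Z, h (Sum.inr z) = Sum.inr z')
      (fun g => a g * tens F E (S₁ ∘ g) (S₂ ∘ g))
    rw [Finset.sum_congr rfl fun g0 _ => h1 g0] at h2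
    rw [Finset.sum_const_zero] at h2
    rcases mul_eq_zero.1 h2.symm with h3 | h3
    · exfalso
      have h4 : (univ.filter fun h : Perm (Y ⊕ Z) =>
          ∀ z : Z, ∃ z' : Z, h (Sum.inr z) = Sum.inr z').card ≠ 0 :=
        Finset.card_ne_zero_of_mem (a := 1) (by simp)
      exact h4 (by exact_mod_cast h3)
    · exact h3

private lemma xc_sg_sumCongr {m : ℕ} (a : Perm Y) (b : Perm (Fin m)) :
    sg (Perm.sumCongr a b) = sg a * sg b := by
  unfold sg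
  rw [Perm.sign_sumCongr]
  push_cast
  ring

theorem ysGood {k' k m : ℕ} (hk : k' ≤ k) {t : Y → ℕ × ℕ} {q : Fin m → ℕ × ℕ}
    {nu lam : YoungDiagram} (ht : IsTab t nu) (hl : IsTab (Sum.elim t q) lam)
    {F : (Y → ℕ) → (Y → ℕ) → ℚ} {E : (Fin m → ℕ) → (Fin m → ℕ) → ℚ} (hF : GoodF k' F)
    (hE : BlockE k' k E) (h1 : ∃ w₁ w₂, YS t F w₁ w₂ ≠ 0) (h2 : ∃ w₁ w₂, YS q E w₁ w₂ ≠ 0) :
    ∃ w₁ w₂, YS (Sum.elim t q) (tens F E) w₁ w₂ ≠ 0 := by
  by_contra hcon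
  push Not at hcon
  obtain ⟨v₁, v₂, hv⟩ := h1
  obtain ⟨u₁, u₂, hu⟩ := h2
  let CR := colS (Sum.elim t q) ×ˢ rowS (Sum.elim t q)
  let a : Perm (Y ⊕ Fin m) → ℚ := fun g => ∑ p ∈ CR.filter (fun p => p.1 * p.2 = g), sg p.1
  have ha : ∀ (P : Perm (Y ⊕ Fin m) → Prop) [DecidablePred P] (G : Perm (Y ⊕ Fin m) → ℚ),
      ∑ g ∈ univ.filter P, a g * G g =
        ∑ c ∈ colS (Sum.elim t q), ∑ r ∈ rowS (Sum.elim t q),
          if P (c * r) then sg c * G (c * r) else 0 := by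
    intro P _ G
    rw [← Finset.sum_product', Finset.sum_filter]
    have e1 : ∀ g : Perm (Y ⊕ Fin m), (if P g then a g * G g else 0) =
        ∑ p ∈ CR, if p.1 * p.2 = g then (if P (p.1 * p.2) then sg p.1 * G (p.1 * p.2) else 0)
          else 0 := by
      intro g
      rw [← Finset.sum_filter]
      have e2 : ∀ p ∈ CR.filter (fun p => p.1 * p.2 = g),
          (if P (p.1 * p.2) then sg p.1 * G (p.1 * p.2) else 0) =
            if P g then sg p.1 * G g else 0 := by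
        intro p hp
        rw [(Finset.mem_filter.1 hp).2]
      rw [Finset.sum_congr rfl e2]
      by_cases hP : P g
      · simp only [if_pos hP, a, Finset.sum_mul]
      · simp only [if_neg hP, Finset.sum_const_zero]
    rw [Finset.sum_congr rfl fun g _ => e1 g, Finset.sum_comm]
    refine Finset.sum_congr rfl fun p _ => ?_
    rw [Finset.sum_ite_eq]
    simp
  have h0 : ∀ S₁ S₂, StP 0 k S₁ S₂ → ∑ g, a g * tens F E (S₁ ∘ g) (S₂ ∘ g) = 0 := by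
    intro S₁ S₂ _
    have := ha (fun _ => True) (fun g => tens F E (S₁ ∘ g) (S₂ ∘ g))
    simp only [Finset.filter_true, if_true] at this
    rw [this]
    exact hcon S₁ S₂
  have h3 := goodCore hk hF hE a h0 1 (Sum.elim v₁ u₁) (Sum.elim v₂ u₂)
  set S₁ : Y ⊕ Fin m → ℕ := Sum.elim v₁ u₁ with hS₁
  set S₂ : Y ⊕ Fin m → ℕ := Sum.elim v₂ u₂ with hS₂
  rw [ha] at h3
  let Φ : Perm (Y ⊕ Fin m) → Perm (Y ⊕ Fin m) → ℚ :=
    fun c r => sg c * tens F E (S₁ ∘ (c * r : Perm _)) (S₂ ∘ (c * r : Perm _))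
  have h4 : ∑ c ∈ colS (Sum.elim t q), ∑ r ∈ rowS (Sum.elim t q),
      (if ∀ i : Fin m, ∃ i' : Fin m, c (r (Sum.inr i)) = Sum.inr i' then Φ c r else 0) = 0 := by
    refine Eq.trans ?_ h3
    refine Finset.sum_congr rfl fun c _ => Finset.sum_congr rfl fun r _ => ?_
    have hiff : (∀ i : Fin m, ∃ i' : Fin m, c (r (Sum.inr i)) = Sum.inr i') ↔
        ∀ z : Fin m, ∃ z' : Fin m, ((1 : Perm (Y ⊕ Fin m))⁻¹ * (c * r)) (Sum.inr z) = Sum.inr z' := by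
      rw [inv_one, one_mul]
      rfl
    by_cases hh : ∀ i : Fin m, ∃ i' : Fin m, c (r (Sum.inr i)) = Sum.inr i'
    · rw [if_pos hh, if_pos (hiff.1 hh)]
    · rw [if_neg hh, if_neg (fun h => hh (hiff.2 h))]
  rw [block ht hl Φ] at h4
  have h5 : ∀ (c₁ r₁ : Perm Y) (c₂ r₂ : Perm (Fin m)),
      Φ (Perm.sumCongr c₁ c₂) (Perm.sumCongr r₁ r₂) =
        (sg c₁ * F (v₁ ∘ c₁ ∘ r₁) (v₂ ∘ c₁ ∘ r₁)) *
          (sg c₂ * E (u₁ ∘ c₂ ∘ r₂) (u₂ ∘ c₂ ∘ r₂)) := by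
    intro c₁ r₁ c₂ r₂
    have e1 : tens F E (S₁ ∘ (Perm.sumCongr c₁ c₂ * Perm.sumCongr r₁ r₂ : Perm _))
        (S₂ ∘ (Perm.sumCongr c₁ c₂ * Perm.sumCongr r₁ r₂ : Perm _)) =
        F (v₁ ∘ c₁ ∘ r₁) (v₂ ∘ c₁ ∘ r₁) * E (u₁ ∘ c₂ ∘ r₂) (u₂ ∘ c₂ ∘ r₂) := rfl
    show sg (Perm.sumCongr c₁ c₂) * tens F E
      (S₁ ∘ (Perm.sumCongr c₁ c₂ * Perm.sumCongr r₁ r₂ : Perm _))
      (S₂ ∘ (Perm.sumCongr c₁ c₂ * Perm.sumCongr r₁ r₂ : Perm _)) = _
    rw [e1, xc_sg_sumCongr]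
    ring
  simp only [h5] at h4
  have h6 : YS t F v₁ v₂ * YS q E u₁ u₂ = 0 := by
    rw [← h4]
    unfold YS
    rw [Finset.sum_mul_sum]
    refine Finset.sum_congr rfl fun c₁ _ => Finset.sum_congr rfl fun c₂ _ => ?_
    rw [Finset.sum_mul_sum]
  rcases mul_eq_zero.1 h6 with h7 | h7
  · exact hv h7
  · exact hu h7

end Sx
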