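import Mathlib
import Pool.Agent.Helper87.Saxl.Defs
import Pool.Agent.Helper87.Saxl.Js
import Pool.Agent.Saxl2.XDefs

/-! Module XD: the one-column block `blockH`. -/

namespace Sx

open Finset Equiv

lemma XD_perm {k : ℕ} (w : Fin k → ℕ) (h : sgnw w ≠ 0) :
    ∃ π : Perm (Fin k), ∀ i, w i = ((π i : Fin k) : ℕ) := by
  unfold sgnw at h
  obtain ⟨π, _, hπ⟩ := Finset.exists_ne_zero_of_sum_ne_zero h
  refine ⟨π, fun i => ?_⟩
  by_contra hi
  apply hπ
  rw [Finset.prod_eq_zero (Finset.mem_univ i) (if_neg hi), mul_zero]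

/-- the raising operators kill `sgnw` -/
lemma XD_raise {m : ℕ} (v : Fin m → ℕ) (i : ℕ) :
    ∑ q ∈ univ.filter (fun q => v q = i), sgnw (Function.update v q (i + 1)) = 0 := by
  by_contra hne
  obtain ⟨q, hq, hs⟩ := Finset.exists_ne_zero_of_sum_ne_zero hne
  have hvq : v q = i := (Finset.mem_filter.1 hq).2
  obtain ⟨π, hπ⟩ := XD_perm _ hs
  have h1 : ((π q : Fin m) : ℕ) = i + 1 := by rw [← hπ q]; simp
  have him : i < m := by have := (π q).2; omega
  obtain ⟨q', hq'⟩ : ∃ q', π q' = ⟨i, him⟩ := ⟨π⁻¹ ⟨i, him⟩, by simp⟩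
  have hqq : q' ≠ q := by
    intro h
    rw [h] at hq'
    rw [hq'] at h1
    simp at h1
  have hvq' : v q' = i := by
    have := hπ q'
    rw [Function.update_of_ne hqq, hq'] at this
    exact this
  have hset : univ.filter (fun x => v x = i) = {q, q'} := by
    ext x
    simp only [Finset.mem_filter, Finset.mem_univ, true_and, Finset.mem_insert,
      Finset.mem_singleton]
    constructor
    · intro hx
      by_cases hxq : x = q
      · exact Or.inl hxq
      · right
        have := hπ x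
        rw [Function.update_of_ne hxq, hx] at this
        apply π.injective
        rw [hq']
        exact Fin.ext this.symm
    · rintro (rfl | rfl)
      · exact hvq
      · exact hvq'
  apply hne
  rw [hset, Finset.sum_pair hqq.symm]
  have h2 : Function.update v q' (i + 1) = Function.update v q (i + 1) ∘ (swap q q') := by
    funext x
    simp only [Function.comp_apply]
    by_cases hx : x = q
    · subst hx
      rw [swap_apply_left, Function.update_of_ne hqq.symm, Function.update_of_ne hqq, hvq, hvq']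
    · by_cases hx' : x = q'
      · subst hx'
        rw [swap_apply_right]
        simp
      · rw [swap_apply_of_ne_of_ne hx hx', Function.update_of_ne hx, Function.update_of_ne hx']
  rw [h2, sgnw_comp, sg_swap hqq.symm]
  ring

lemma XD_inA (k : ℕ) (c : ℚ) :
    InA (fun j => (k + 1 - j) - (k - j)) (fun w : Fin (k + 1) → ℕ => sgnw w * c) := by
  constructor
  · intro w hw j
    rw [sgnw_cnt w (left_ne_zero_of_mul hw) j]
    split_ifs with h <;> omega
  · intro i w
    unfold R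
    rw [← Finset.sum_mul, XD_raise, zero_mul]

lemma XD_phik (k : ℕ) : phik (k + 1) = phik k + (k + 1) * k ^ 2 := by
  have h1 : (stair (k + 1)).cells = (stair k).cells ∪ Finset.HasAntidiagonal.antidiagonal k := by
    ext p
    rw [Finset.mem_union, Finset.HasAntidiagonal.mem_antidiagonal]
    change p ∈ stair (k + 1) ↔ p ∈ stair k ∨ _
    rw [mem_stair, mem_stair]
    omega
  have h2 : Disjoint (stair k).cells (Finset.HasAntidiagonal.antidiagonal k) := by
    rw [Finset.disjoint_left]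
    intro p hp hp'
    rw [Finset.HasAntidiagonal.mem_antidiagonal] at hp'
    have hp2 : p ∈ stair k := hp
    rw [mem_stair] at hp2
    omega
  unfold phik
  rw [h1, Finset.sum_union h2]
  congr 1
  rw [Finset.sum_congr rfl (fun p hp => by rw [Finset.HasAntidiagonal.mem_antidiagonal.1 hp])]
  rw [Finset.sum_const, Finset.Nat.card_antidiagonal, smul_eq_mul]

lemma XD_sum (k : ℕ) (w : Fin (k + 1) → ℕ) (h : sgnw w ≠ 0) :
    2 * ∑ z, (w z : ℤ) = k * (k + 1) := by
  obtain ⟨π, hπ⟩ := XD_perm w h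
  have h1 : ∑ z, (w z : ℤ) = ∑ z : Fin (k + 1), ((z : ℕ) : ℤ) := by
    refine Fintype.sum_equiv π _ _ fun z => ?_
    rw [hπ z]
  rw [h1]
  have h2 : ∑ z : Fin (k + 1), ((z : ℕ) : ℤ) = ∑ i ∈ range (k + 1), (i : ℤ) := by
    rw [Finset.sum_range (fun i => (i : ℤ))]
  rw [h2]
  have h3 := Finset.sum_range_id_mul_two (k + 1)
  have h4 : ((∑ i ∈ range (k + 1), i : ℕ) : ℤ) * 2 = ((k + 1 : ℕ) : ℤ) * ((k + 1 - 1 : ℕ) : ℤ) := by
    exact_mod_cast h3
  have h5 : (k + 1 - 1 : ℕ) = k := by omega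
  rw [h5] at h4
  push_cast at h4 ⊢
  linarith

lemma XD_sq (k : ℕ) (S₁ S₂ : Fin (k + 1) → ℕ) (h₁ : sgnw S₁ ≠ 0) (h₂ : sgnw S₂ ≠ 0) :
    (Phi S₁ S₂ : ℤ) = (k + 1) * k ^ 2 + ∑ z, ((S₁ z : ℤ) + S₂ z - k) ^ 2 := by
  have e1 := XD_sum k S₁ h₁
  have e2 := XD_sum k S₂ h₂
  have e3 : ∑ z, ((S₁ z : ℤ) + S₂ z - k) ^ 2 =
      ∑ z, ((S₁ z : ℤ) + S₂ z) ^ 2 - k * (2 * ∑ z, (S₁ z : ℤ)) - k * (2 * ∑ z, (S₂ z : ℤ)) +
        (k + 1) * k ^ 2 := by
    have : ∀ z, ((S₁ z : ℤ) + S₂ z - k) ^ 2 =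
        ((S₁ z : ℤ) + S₂ z) ^ 2 - k * (2 * (S₁ z : ℤ)) - k * (2 * (S₂ z : ℤ)) + k ^ 2 := by
      intro z; ring
    simp only [this]
    rw [Finset.sum_add_distrib, Finset.sum_sub_distrib, Finset.sum_sub_distrib,
      Finset.sum_const, Finset.mul_sum, Finset.mul_sum, Finset.mul_sum, Finset.mul_sum]
    simp
  rw [e3, e1, e2]
  unfold Phi
  push_cast
  ring

/-- the one-column block -/
theorem blockH (k : ℕ) :
    BlockE k (k + 1) (fun S₁ S₂ : Fin (k + 1) → ℕ => sgnw S₁ * sgnw S₂) := by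
  refine ⟨⟨fun w₂ => XD_inA k _, fun w₁ => ?_⟩, ?_, ?_, ?_⟩
  · have h := XD_inA k (sgnw w₁)
    have e : (fun w : Fin (k + 1) → ℕ => sgnw w * sgnw w₁) = fun w => sgnw w₁ * sgnw w := by
      funext w; ring
    rw [e] at h
    exact h
  · intro S₁ S₂ h
    have h1 := XD_sq k S₁ S₂ (left_ne_zero_of_mul h) (right_ne_zero_of_mul h)
    have h2 : (0 : ℤ) ≤ ∑ z, ((S₁ z : ℤ) + S₂ z - k) ^ 2 :=
      Finset.sum_nonneg fun z _ => sq_nonneg _
    rw [XD_phik]
    zify
    rw [h1]
    linarith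
  · intro S₁ S₂ h he z
    have h1 := XD_sq k S₁ S₂ (left_ne_zero_of_mul h) (right_ne_zero_of_mul h)
    have h2 : ∑ z, ((S₁ z : ℤ) + S₂ z - k) ^ 2 = 0 := by
      rw [XD_phik] at he
      zify at he
      rw [h1] at he
      linarith
    have h3 := (Finset.sum_eq_zero_iff_of_nonneg (fun z _ => sq_nonneg _)).1 h2 z
      (Finset.mem_univ z)
    have h4 : (S₁ z : ℤ) + S₂ z - k = 0 := by
      simpa using h3
    omega
  · intro a ha S₁ S₂
    have hc : ∀ (T₁ T₂ : Fin (k + 1) → ℕ),
        ∑ g, a g * (sgnw (T₁ ∘ g) * sgnw (T₂ ∘ g)) = (∑ g, a g) * (sgnw T₁ * sgnw T₂) := by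
      intro T₁ T₂
      rw [Finset.sum_mul]
      refine Finset.sum_congr rfl fun g _ => ?_
      rw [sgnw_comp, sgnw_comp]
      have := sg_mul_self g
      linear_combination (a g * sgnw T₁ * sgnw T₂) * this
    have h0 := ha (fun i => (i : ℕ)) (fun i => k - (i : ℕ)) ?_
    · rw [hc] at h0
      have e1 : sgnw (fun i : Fin (k + 1) => (i : ℕ)) ≠ 0 := by
        rw [sgnw_id]; exact one_ne_zero
      have e2 : sgnw (fun i : Fin (k + 1) => k - (i : ℕ)) ≠ 0 := by
        have : (fun i : Fin (k + 1) => k - (i : ℕ)) =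
            (fun i : Fin (k + 1) => (i : ℕ)) ∘ (Fin.revPerm : Perm (Fin (k + 1))) := by
          funext i
          simp [Fin.val_rev]
        rw [this, sgnw_comp, sgnw_id, mul_one]
        exact sg_ne_zero _
      have h3 : ∑ g, a g = 0 := by
        rcases mul_eq_zero.1 h0 with h | h
        · exact h
        · exact absurd h (mul_ne_zero e1 e2)
      rw [hc, h3, zero_mul]
    · constructor
      · intro x y hxy _
        exact Fin.ext hxy
      · intro i j
        constructor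
        · intro h
          refine ⟨⟨i, by omega⟩, rfl, ?_⟩
          show k - i = j
          omega
        · rintro ⟨x, hx, hx'⟩
          have := x.2
          change (x : ℕ) = i at hx
          change k - (x : ℕ) = j at hx'
          omega

end Sx
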