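import Mathlib
import Pool.Agent.Saxl2.XDefs

/-! Label symmetry. -/

namespace Sx

open Finset Equiv

variable {X Y Z : Type} [Fintype X] [DecidableEq X] [Fintype Y] [DecidableEq Y]
  [Fintype Z] [DecidableEq Z]

theorem xe_rel {f : (X → ℕ) → ℚ} {W : X → ℕ} {i : ℕ} {a b c : X} (hab : a ≠ b) (hac : a ≠ c)
    (hbc : b ≠ c) (hW : ∀ x, W x = i ↔ x = a ∨ x = b ∨ x = c) (h : R i f W = 0) :
    f (Function.update W a (i + 1)) + f (Function.update W b (i + 1)) +
      f (Function.update W c (i + 1)) = 0 := by
  unfold R at h
  have hs : (univ.filter fun x => W x = i) = {a, b, c} := by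
    ext x
    simp [hW x]
  rw [hs, Finset.sum_insert (by simp [hab, hac]), Finset.sum_insert (by simp [hbc]),
    Finset.sum_singleton] at h
  linarith

/-- the word `w` with the letters at `a, b, c, d` replaced. -/
def xeV (w : X → ℕ) (a b c d : X) (p q r s : ℕ) (x : X) : ℕ :=
  if x = a then p else if x = b then q else if x = c then r else if x = d then s else w x

omit [DecidableEq X] in
theorem xe_cnt (i : ℕ) (w : X → ℕ) (j : ℕ) :
    cnt (fun x => Equiv.swap i (i + 1) (w x)) j = cnt w (Equiv.swap i (i + 1) j) := by
  unfold cnt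
  congr 1
  ext x
  simp only [Finset.mem_filter, Finset.mem_univ, true_and]
  rw [Equiv.swap_apply_eq_iff]

theorem xe_alpha {α : ℕ → ℕ} {i : ℕ} (h0 : α i = 2) (h1 : α (i + 1) = 2) (j : ℕ) :
    α (Equiv.swap i (i + 1) j) = α j := by
  by_cases h : j = i
  · rw [h, Equiv.swap_apply_left, h0, h1]
  · by_cases h' : j = i + 1
    · rw [h', Equiv.swap_apply_right, h0, h1]
    · rw [Equiv.swap_apply_of_ne_of_ne h h']

theorem labSym {α : ℕ → ℕ} {f : (X → ℕ) → ℚ} (hf : InA α f) {i : ℕ} (h0 : α i = 2)
    (h1 : α (i + 1) = 2) (w : X → ℕ) : f (fun x => Equiv.swap i (i + 1) (w x)) = f w := by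
  by_cases hc : ∀ j, cnt w j = α j
  swap
  · have z1 : f w = 0 := by
      by_contra h
      exact hc (hf.cont w h)
    have z2 : f (fun x => Equiv.swap i (i + 1) (w x)) = 0 := by
      by_contra h
      apply hc
      intro j
      have := hf.cont _ h (Equiv.swap i (i + 1) j)
      rw [xe_cnt, Equiv.swap_apply_self, xe_alpha h0 h1] at this
      exact this
    rw [z1, z2]
  · obtain ⟨a, b, hab, hs⟩ := Finset.card_eq_two.mp ((hc i).trans h0)
    obtain ⟨c, d, hcd, ht⟩ := Finset.card_eq_two.mp ((hc (i + 1)).trans h1)
    have m1 : ∀ x, w x = i ↔ x = a ∨ x = b := by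
      intro x
      have := congrArg (fun s => x ∈ s) hs
      simpa using this
    have m2 : ∀ x, w x = i + 1 ↔ x = c ∨ x = d := by
      intro x
      have := congrArg (fun s => x ∈ s) ht
      simpa using this
    have wa : w a = i := (m1 a).mpr (Or.inl rfl)
    have wb : w b = i := (m1 b).mpr (Or.inr rfl)
    have wc : w c = i + 1 := (m2 c).mpr (Or.inl rfl)
    have wd : w d = i + 1 := (m2 d).mpr (Or.inr rfl)
    have hac : a ≠ c := fun h => by rw [h, wc] at wa; omega
    have had : a ≠ d := fun h => by rw [h, wd] at wa; omega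
    have hbc : b ≠ c := fun h => by rw [h, wc] at wb; omega
    have hbd : b ≠ d := fun h => by rw [h, wd] at wb; omega
    have off : ∀ x, x ≠ a → x ≠ b → x ≠ c → x ≠ d → w x ≠ i ∧ w x ≠ i + 1 := by
      intro x xa xb xc xd
      exact ⟨fun h => by rcases (m1 x).mp h with h | h <;> contradiction,
        fun h => by rcases (m2 x).mp h with h | h <;> contradiction⟩
    have ew : w = xeV w a b c d i i (i + 1) (i + 1) := by
      funext x
      unfold xeV
      split_ifs with e1 e2 e3 e4
      · rw [e1, wa]
      · rw [e2, wb]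
      · rw [e3, wc]
      · rw [e4, wd]
      · rfl
    have es : (fun x => Equiv.swap i (i + 1) (w x)) = xeV w a b c d (i + 1) (i + 1) i i := by
      funext x
      unfold xeV
      split_ifs with e1 e2 e3 e4
      · rw [e1, wa, Equiv.swap_apply_left]
      · rw [e2, wb, Equiv.swap_apply_left]
      · rw [e3, wc, Equiv.swap_apply_right]
      · rw [e4, wd, Equiv.swap_apply_right]
      · have := off x e1 e2 e3 e4
        rw [Equiv.swap_apply_of_ne_of_ne this.1 this.2]
    have ua : ∀ p q r s p', Function.update (xeV w a b c d p q r s) a p' =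
        xeV w a b c d p' q r s := by
      intro p q r s p'
      funext x
      unfold xeV
      by_cases e : x = a
      · rw [e]; simp
      · rw [Function.update_of_ne e]; simp [e]
    have ub : ∀ p q r s p', Function.update (xeV w a b c d p q r s) b p' =
        xeV w a b c d p p' r s := by
      intro p q r s p'
      funext x
      unfold xeV
      by_cases e : x = b
      · rw [e]; simp [hab.symm]
      · rw [Function.update_of_ne e]; simp [e]
    have uc' : ∀ p q r s p', Function.update (xeV w a b c d p q r s) c p' =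
        xeV w a b c d p q p' s := by
      intro p q r s p'
      funext x
      unfold xeV
      by_cases e : x = c
      · rw [e]; simp [hac.symm, hbc.symm]
      · rw [Function.update_of_ne e]; simp [e]
    have ud : ∀ p q r s p', Function.update (xeV w a b c d p q r s) d p' =
        xeV w a b c d p q r p' := by
      intro p q r s p'
      funext x
      unfold xeV
      by_cases e : x = d
      · rw [e]; simp [had.symm, hbd.symm, hcd.symm]
      · rw [Function.update_of_ne e]; simp [e]
    have r1 := xe_rel (f := f) (W := xeV w a b c d i i i (i + 1)) hab hac hbc (by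
      intro x
      unfold xeV
      split_ifs with e1 e2 e3 e4
      · simp [e1]
      · simp [e2]
      · simp [e3]
      · simp [e1, e2, e3]
      · simp [e1, e2, e3, (off x e1 e2 e3 e4).1]) (hf.hw i _)
    have r2 := xe_rel (f := f) (W := xeV w a b c d i i (i + 1) i) hab had hbd (by
      intro x
      unfold xeV
      split_ifs with e1 e2 e3 e4
      · simp [e1]
      · simp [e2]
      · simp [e3, hac.symm, hbc.symm, hcd]
      · simp [e4]
      · simp [e1, e2, e4, (off x e1 e2 e3 e4).1]) (hf.hw i _)
    have r3 := xe_rel (f := f) (W := xeV w a b c d i (i + 1) i i) hac had hcd (by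
      intro x
      unfold xeV
      split_ifs with e1 e2 e3 e4
      · simp [e1]
      · simp [e2, hab.symm, hbc, hbd]
      · simp [e3]
      · simp [e4]
      · simp [e1, e3, e4, (off x e1 e2 e3 e4).1]) (hf.hw i _)
    have r4 := xe_rel (f := f) (W := xeV w a b c d (i + 1) i i i) hbc hbd hcd (by
      intro x
      unfold xeV
      split_ifs with e1 e2 e3 e4
      · simp [e1, hab, hac, had]
      · simp [e2]
      · simp [e3]
      · simp [e4]
      · simp [e2, e3, e4, (off x e1 e2 e3 e4).1]) (hf.hw i _)
    rw [ua, ub, uc'] at r1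
    rw [ua, ub, ud] at r2
    rw [ua, uc', ud] at r3
    rw [ub, uc', ud] at r4
    rw [es]
    conv_rhs => rw [ew]
    linarith

end Sx
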