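import Mathlib
import Pool.Agent.Helper87.Saxl.Defs
import Pool.Agent.Saxl2.XDefs
import Pool.Agent.Saxl2.XE

/-! The two-column block, injectivity. -/

namespace Sx

open Finset Equiv

variable {Z : Type} [Fintype Z] [DecidableEq Z]

/-- extension of a word off `s, c`, first variable: letters shifted up, `0` at `s, c`. -/
def xfE1 (s c : Z) (u : {z : Z // z ≠ s ∧ z ≠ c} → ℕ) (z : Z) : ℕ :=
  if h : z ≠ s ∧ z ≠ c then u ⟨z, h⟩ + 1 else 0

/-- extension of a word off `s, c`, second variable: `K` at `s`, `K - 1` at `c`. -/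
def xfE2 (K : ℕ) (s c : Z) (u : {z : Z // z ≠ s ∧ z ≠ c} → ℕ) (z : Z) : ℕ :=
  if h : z ≠ s ∧ z ≠ c then u ⟨z, h⟩ else if z = s then K else K - 1

lemma xf_sum {M : Type*} [AddCommMonoid M] (s c : Z) (p : {z : Z // z ≠ s ∧ z ≠ c} → Prop)
    [DecidablePred p] (q : Z → Prop) [DecidablePred q]
    (hq : ∀ z, q z ↔ ∃ h : z ≠ s ∧ z ≠ c, p ⟨z, h⟩) (φ : Z → M) :
    ∑ x ∈ univ.filter p, φ x.1 = ∑ z ∈ univ.filter q, φ z := by
  refine Finset.sum_nbij (fun x => x.1) ?_ ?_ ?_ ?_
  · intro x hx
    simp only [Finset.mem_filter, Finset.mem_univ, true_and] at hx ⊢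
    exact (hq x.1).2 ⟨x.2, hx⟩
  · intro x _ y _ hxy
    exact Subtype.ext hxy
  · intro z hz
    simp only [Finset.coe_filter, Finset.mem_univ, true_and, Set.mem_ofPred_eq] at hz
    obtain ⟨h, hp⟩ := (hq z).1 hz
    refine ⟨⟨z, h⟩, ?_, rfl⟩
    simp only [Finset.coe_filter, Finset.mem_univ, true_and, Set.mem_ofPred_eq]
    exact hp
  · intro x _
    rfl

lemma xf_cnt_eq {W : Type} [Fintype W] (w : W → ℕ) (j : ℕ) :
    cnt w j = ∑ x ∈ univ.filter (fun x => w x = j), 1 := by
  simp [cnt]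

lemma xf_cnt_pos {W : Type} [Fintype W] {w : W → ℕ} {x : W} {j : ℕ} (h : w x = j) :
    0 < cnt w j := by
  unfold cnt
  exact Finset.card_pos.2 ⟨x, by simp [h]⟩

lemma xf_E1_update (s c : Z) (u : {z : Z // z ≠ s ∧ z ≠ c} → ℕ)
    (x : {z : Z // z ≠ s ∧ z ≠ c}) (a : ℕ) :
    xfE1 s c (Function.update u x a) = Function.update (xfE1 s c u) x.1 (a + 1) := by
  funext z
  by_cases hz : z = x.1
  · subst hz
    simp only [xfE1, Function.update_self]
    rw [dif_pos x.2]
  · rw [Function.update_of_ne hz]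
    unfold xfE1
    by_cases h : z ≠ s ∧ z ≠ c
    · rw [dif_pos h, dif_pos h, Function.update_of_ne]
      intro h'
      exact hz (congrArg Subtype.val h')
    · rw [dif_neg h, dif_neg h]

lemma xf_E2_update (K : ℕ) (s c : Z) (u : {z : Z // z ≠ s ∧ z ≠ c} → ℕ)
    (x : {z : Z // z ≠ s ∧ z ≠ c}) (a : ℕ) :
    xfE2 K s c (Function.update u x a) = Function.update (xfE2 K s c u) x.1 a := by
  funext z
  by_cases hz : z = x.1
  · subst hz
    simp only [xfE2, Function.update_self]
    rw [dif_pos x.2]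
  · rw [Function.update_of_ne hz]
    unfold xfE2
    by_cases h : z ≠ s ∧ z ≠ c
    · rw [dif_pos h, dif_pos h, Function.update_of_ne]
      intro h'
      exact hz (congrArg Subtype.val h')
    · rw [dif_neg h, dif_neg h]

lemma xf_E1_iff (s c : Z) (u : {z : Z // z ≠ s ∧ z ≠ c} → ℕ) (j : ℕ) (z : Z) :
    xfE1 s c u z = j + 1 ↔ ∃ h : z ≠ s ∧ z ≠ c, u ⟨z, h⟩ = j := by
  unfold xfE1
  by_cases h : z ≠ s ∧ z ≠ c
  · rw [dif_pos h]
    constructor
    · intro h'
      exact ⟨h, by omega⟩
    · rintro ⟨_, h'⟩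
      omega
  · rw [dif_neg h]
    constructor
    · intro h'
      omega
    · rintro ⟨h', _⟩
      exact absurd h' h

lemma xf_cnt_E1 (s c : Z) (u : {z : Z // z ≠ s ∧ z ≠ c} → ℕ) (j : ℕ) :
    cnt (xfE1 s c u) (j + 1) = cnt u j := by
  rw [xf_cnt_eq, xf_cnt_eq]
  exact (xf_sum s c (fun x => u x = j) (fun z => xfE1 s c u z = j + 1)
    (fun z => xf_E1_iff s c u j z) (fun _ => 1)).symm

lemma xf_cnt_E2 {K : ℕ} (hK : 0 < K) {s c : Z} (hsc : s ≠ c)
    (u : {z : Z // z ≠ s ∧ z ≠ c} → ℕ) (j : ℕ) :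
    cnt (xfE2 K s c u) j = cnt u j + (if j = K then 1 else 0) + (if j + 1 = K then 1 else 0) := by
  rw [xf_cnt_eq, xf_cnt_eq]
  have h1 : (∑ x ∈ univ.filter (fun x => u x = j), 1 : ℕ) =
      ∑ z ∈ univ.filter (fun z => xfE2 K s c u z = j ∧ z ≠ s ∧ z ≠ c), 1 := by
    refine xf_sum s c (fun x => u x = j) (fun z => xfE2 K s c u z = j ∧ z ≠ s ∧ z ≠ c) ?_
      (fun _ => 1)
    intro z
    constructor
    · rintro ⟨h', h⟩
      refine ⟨h, ?_⟩
      simpa [xfE2, h] using h'
    · rintro ⟨h, h'⟩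
      refine ⟨?_, h⟩
      simp only [xfE2]
      rw [dif_pos h]
      exact h'
  rw [h1]
  have hs : xfE2 K s c u s = K := by simp [xfE2]
  have hc : xfE2 K s c u c = K - 1 := by simp [xfE2, hsc.symm]
  have h2 : univ.filter (fun z => xfE2 K s c u z = j) =
      univ.filter (fun z => xfE2 K s c u z = j ∧ z ≠ s ∧ z ≠ c) ∪
        ((if j = K then {s} else ∅) ∪ (if j + 1 = K then {c} else ∅)) := by
    ext z
    simp only [Finset.mem_filter, Finset.mem_univ, true_and, Finset.mem_union]
    constructor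
    · intro h
      by_cases hzs : z = s
      · subst hzs
        right; left
        rw [hs] at h
        simp [h]
      · by_cases hzc : z = c
        · subst hzc
          right; right
          rw [hc] at h
          rw [if_pos (by omega)]
          simp
        · exact Or.inl ⟨h, hzs, hzc⟩
    · rintro (h | h | h)
      · exact h.1
      · split_ifs at h with hj
        · rw [Finset.mem_singleton.1 h, hs, hj]
        · simp at h
      · split_ifs at h with hj
        · rw [Finset.mem_singleton.1 h, hc]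
          omega
        · simp at h
  rw [h2, Finset.sum_union, Finset.sum_union]
  · rw [add_assoc]
    congr 1
    split_ifs <;> simp
  · rw [Finset.disjoint_left]
    intro z hz hz'
    split_ifs at hz with h1
    · split_ifs at hz' with h2
      · rw [Finset.mem_singleton] at hz hz'
        exact hsc (hz.symm.trans hz')
      · simp at hz'
    · simp at hz
  · rw [Finset.disjoint_left]
    intro z hz hz'
    simp only [Finset.mem_filter, Finset.mem_univ, true_and] at hz
    rw [Finset.mem_union] at hz'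
    rcases hz' with h | h
    · split_ifs at h
      · exact hz.2.1 (Finset.mem_singleton.1 h)
      · simp at h
    · split_ifs at h
      · exact hz.2.2 (Finset.mem_singleton.1 h)
      · simp at h

/-- the reduced function lies in `InAA (be K)`. -/
lemma xf_inAA {K : ℕ} (hK : 0 < K) {G : (Z → ℕ) → (Z → ℕ) → ℚ} (hG : InAA (be (K + 1)) G)
    {s c : Z} (hsc : s ≠ c) :
    InAA (be K) (fun u₁ u₂ => G (xfE1 s c u₁) (xfE2 K s c u₂)) := by
  have hr : ∀ u₁ u₂, G (xfE1 s c u₁) (xfE2 K s c u₂) ≠ 0 → ∀ j, cnt u₂ j = be K j := by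
    intro u₁ u₂ h j
    have h1 := (hG.right (xfE1 s c u₁)).cont _ h j
    rw [xf_cnt_E2 hK hsc] at h1
    unfold be at h1 ⊢
    split_ifs at h1 ⊢ <;> omega
  refine ⟨fun u₂ => ⟨?_, ?_⟩, fun u₁ => ⟨?_, ?_⟩⟩
  · intro u₁ h j
    have h1 := (hG.left (xfE2 K s c u₂)).cont _ h (j + 1)
    rw [xf_cnt_E1] at h1
    rw [h1]
    unfold be
    split_ifs <;> omega
  · intro i u₁
    have h1 := (hG.left (xfE2 K s c u₂)).hw (i + 1) (xfE1 s c u₁)
    rw [← h1]
    unfold R
    rw [← xf_sum s c (fun x => u₁ x = i) (fun z => xfE1 s c u₁ z = i + 1)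
      (fun z => xf_E1_iff s c u₁ i z)]
    refine Finset.sum_congr rfl fun x _ => ?_
    show G (xfE1 s c (Function.update u₁ x (i + 1))) _ = _
    rw [xf_E1_update]
  · intro u₂ h j
    exact hr u₁ u₂ h j
  · intro i u₂
    by_cases hi : i + 1 < K
    · have h1 := (hG.right (xfE1 s c u₁)).hw i (xfE2 K s c u₂)
      rw [← h1]
      unfold R
      rw [← xf_sum s c (fun x => u₂ x = i) (fun z => xfE2 K s c u₂ z = i)]
      · refine Finset.sum_congr rfl fun x _ => ?_
        show G _ (xfE2 K s c (Function.update u₂ x (i + 1))) = _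
        rw [xf_E2_update]
      · intro z
        constructor
        · intro h
          by_cases hz : z ≠ s ∧ z ≠ c
          · refine ⟨hz, ?_⟩
            simpa [xfE2, hz] using h
          · exfalso
            unfold xfE2 at h
            rw [dif_neg hz] at h
            split_ifs at h <;> omega
        · rintro ⟨hz, h⟩
          simp only [xfE2]
          rw [dif_pos hz]
          exact h
    · unfold R
      refine Finset.sum_eq_zero fun x _ => ?_
      by_contra h
      have h2 := hr u₁ _ h (i + 1)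
      have h3 : 0 < cnt (Function.update u₂ x (i + 1)) (i + 1) :=
        xf_cnt_pos (x := x) (by simp)
      have h4 : be K (i + 1) = 0 := by
        unfold be
        rw [if_neg (by omega), if_neg (by omega)]
      omega

/-- pairs of words which are bijections onto the strip extend to such pairs. -/
lemma xf_stp {K : ℕ} (hK : 0 < K) {s c : Z} (hsc : s ≠ c)
    {u₁ u₂ : {z : Z // z ≠ s ∧ z ≠ c} → ℕ} (h : StP (K - 2) K u₁ u₂) :
    StP (K + 1 - 2) (K + 1) (xfE1 s c u₁) (xfE2 K s c u₂) := by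
  have hs1 : xfE1 s c u₁ s = 0 := by simp [xfE1]
  have hc1 : xfE1 s c u₁ c = 0 := by simp [xfE1]
  have hs2 : xfE2 K s c u₂ s = K := by simp [xfE2]
  have hc2 : xfE2 K s c u₂ c = K - 1 := by simp [xfE2, hsc.symm]
  have h1 : ∀ z (hz : z ≠ s ∧ z ≠ c), xfE1 s c u₁ z = u₁ ⟨z, hz⟩ + 1 := by
    intro z hz
    simp only [xfE1]
    rw [dif_pos hz]
  have h2 : ∀ z (hz : z ≠ s ∧ z ≠ c), xfE2 K s c u₂ z = u₂ ⟨z, hz⟩ := by
    intro z hz
    simp only [xfE2]
    rw [dif_pos hz]
  have h3 : ∀ z, ¬ (z ≠ s ∧ z ≠ c) → z = s ∨ z = c := by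
    intro z hz
    by_cases h : z = s
    · exact Or.inl h
    · right
      by_contra h'
      exact hz ⟨h, h'⟩
  constructor
  · intro x y hx hy
    by_cases hx' : x ≠ s ∧ x ≠ c
    · by_cases hy' : y ≠ s ∧ y ≠ c
      · rw [h1 x hx', h1 y hy'] at hx
        rw [h2 x hx', h2 y hy'] at hy
        have := h.1 ⟨x, hx'⟩ ⟨y, hy'⟩ (by omega) hy
        exact congrArg Subtype.val this
      · rw [h1 x hx'] at hx
        rcases h3 y hy' with rfl | rfl
        · omega
        · omega
    · by_cases hy' : y ≠ s ∧ y ≠ c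
      · rw [h1 y hy'] at hx
        rcases h3 x hx' with rfl | rfl
        · omega
        · omega
      · rcases h3 x hx' with rfl | rfl
        · rcases h3 y hy' with rfl | rfl
          · rfl
          · rw [hs2, hc2] at hy
            omega
        · rcases h3 y hy' with rfl | rfl
          · rw [hs2, hc2] at hy
            omega
          · rfl
  · intro i j
    constructor
    · intro hij
      rcases Nat.eq_zero_or_pos i with hi | hi
      · subst hi
        rcases Nat.lt_or_ge j K with hj | hj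
        · exact ⟨c, hc1, by omega⟩
        · exact ⟨s, hs1, by omega⟩
      · obtain ⟨x, hx1, hx2⟩ := (h.2 (i - 1) j).1 (by omega)
        refine ⟨x.1, ?_, ?_⟩
        · rw [h1 x.1 x.2]
          have : u₁ ⟨x.1, x.2⟩ = u₁ x := rfl
          omega
        · rw [h2 x.1 x.2]
          exact hx2
    · rintro ⟨z, hz1, hz2⟩
      by_cases hz : z ≠ s ∧ z ≠ c
      · rw [h1 z hz] at hz1
        rw [h2 z hz] at hz2
        have := (h.2 (u₁ ⟨z, hz⟩) (u₂ ⟨z, hz⟩)).2 ⟨⟨z, hz⟩, rfl, rfl⟩
        omega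
      · rcases h3 z hz with rfl | rfl
        · omega
        · omega

lemma xf_two {w : Z → ℕ} {j : ℕ} {s c z : Z} (h : cnt w j = 2) (hs : w s = j) (hc : w c = j)
    (hz : w z = j) (hsc : s ≠ c) : z = s ∨ z = c := by
  by_contra hne
  push Not at hne
  have h1 : ({s, c, z} : Finset Z) ⊆ univ.filter (fun x => w x = j) := by
    intro x hx
    simp only [Finset.mem_insert, Finset.mem_singleton] at hx
    simp only [Finset.mem_filter, Finset.mem_univ, true_and]
    rcases hx with rfl | rfl | rfl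
    · exact hs
    · exact hc
    · exact hz
  have h2 := Finset.card_le_card h1
  have h3 : ({s, c, z} : Finset Z).card = 3 := by
    rw [Finset.card_eq_three]
    exact ⟨s, c, z, hsc, Ne.symm hne.1, Ne.symm hne.2, rfl⟩
  have h4 : (univ.filter (fun x => w x = j)).card = 2 := h
  omega

lemma xf_one {w : Z → ℕ} {j : ℕ} {s z : Z} (h : cnt w j = 1) (hs : w s = j)
    (hz : w z = j) : z = s := by
  by_contra hne
  have h1 : ({s, z} : Finset Z) ⊆ univ.filter (fun x => w x = j) := by
    intro x hx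
    simp only [Finset.mem_insert, Finset.mem_singleton] at hx
    simp only [Finset.mem_filter, Finset.mem_univ, true_and]
    rcases hx with rfl | rfl
    · exact hs
    · exact hz
  have h2 := Finset.card_le_card h1
  have h3 : ({s, z} : Finset Z).card = 2 := Finset.card_pair (Ne.symm hne)
  have h4 : (univ.filter (fun x => w x = j)).card = 1 := h
  omega

lemma xf_base {G : (Z → ℕ) → (Z → ℕ) → ℚ} (hG : InAA (be 1) G)
    (h : ∀ S₁ S₂, StP (1 - 2) 1 S₁ S₂ → G S₁ S₂ = 0) : ∀ S₁ S₂, G S₁ S₂ = 0 := by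
  intro S₁ S₂
  by_contra hne
  have h1 := (hG.left S₂).cont _ hne
  have h2 := (hG.right S₁).cont _ hne
  have hz : ∀ (w : Z → ℕ), (∀ j, cnt w j = be 1 j) → ∀ z, w z = 0 := by
    intro w hw z
    by_contra hz
    have h3 : 0 < cnt w (w z) := xf_cnt_pos rfl
    rw [hw] at h3
    unfold be at h3
    rw [if_neg (by omega), if_neg (by omega)] at h3
    omega
  have h3 := hz S₁ h1
  have h4 := hz S₂ h2
  apply hne
  apply h
  constructor
  · intro x y _ _
    have : cnt S₁ 0 = 1 := by
      rw [h1]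
      simp [be]
    exact xf_one this (h3 y) (h3 x)
  · intro i j
    constructor
    · intro hij
      have : 0 < cnt S₁ 0 := by
        rw [h1]
        simp [be]
      obtain ⟨z, hz⟩ := Finset.card_pos.1 this
      refine ⟨z, ?_, ?_⟩
      · rw [h3]; omega
      · rw [h4]; omega
    · rintro ⟨z, hz1, hz2⟩
      rw [h3] at hz1
      rw [h4] at hz2
      omega

lemma xf_claimA {K : ℕ} (hK : 0 < K) {G : (Z → ℕ) → (Z → ℕ) → ℚ} (hG : InAA (be (K + 1)) G)
    (ih : ∀ (Z : Type) [Fintype Z] [DecidableEq Z] (G : (Z → ℕ) → (Z → ℕ) → ℚ),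
      InAA (be K) G → (∀ S₁ S₂, StP (K - 2) K S₁ S₂ → G S₁ S₂ = 0) → ∀ S₁ S₂, G S₁ S₂ = 0)
    (h : ∀ S₁ S₂, StP (K + 1 - 2) (K + 1) S₁ S₂ → G S₁ S₂ = 0)
    {s c : Z} (hsc : s ≠ c) (w₁ w₂ : Z → ℕ) (h1 : w₁ s = 0) (h2 : w₁ c = 0) (h3 : w₂ s = K)
    (h4 : w₂ c = K - 1) : G w₁ w₂ = 0 := by
  by_contra hne
  have hc1 := (hG.left w₂).cont _ hne
  have h5 := ih _ _ (xf_inAA hK hG hsc) (fun u₁ u₂ hu => h _ _ (xf_stp hK hsc hu))
    (fun x => w₁ x.1 - 1) (fun x => w₂ x.1)
  apply hne
  rw [← h5]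
  congr 1
  · funext z
    unfold xfE1
    by_cases hz : z ≠ s ∧ z ≠ c
    · rw [dif_pos hz]
      have : w₁ z ≠ 0 := by
        intro hz0
        have h6 : cnt w₁ 0 = 2 := by
          rw [hc1]
          unfold be
          rw [if_pos (by omega)]
        rcases xf_two h6 h1 h2 hz0 hsc with h7 | h7
        · exact hz.1 h7
        · exact hz.2 h7
      show w₁ z = w₁ z - 1 + 1
      omega
    · rw [dif_neg hz]
      by_cases hzs : z = s
      · rw [hzs, h1]
      · have : z = c := by
          by_contra h'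
          exact hz ⟨hzs, h'⟩
        rw [this, h2]
  · funext z
    unfold xfE2
    by_cases hz : z ≠ s ∧ z ≠ c
    · rw [dif_pos hz]
    · rw [dif_neg hz]
      by_cases hzs : z = s
      · rw [if_pos hzs, hzs, h3]
      · have : z = c := by
          by_contra h'
          exact hz ⟨hzs, h'⟩
        rw [if_neg hzs, this, h4]

lemma xf_aux (K : ℕ) : ∀ (Z : Type) [Fintype Z] [DecidableEq Z] (G : (Z → ℕ) → (Z → ℕ) → ℚ),
      InAA (be (K + 1)) G → (∀ S₁ S₂, StP (K + 1 - 2) (K + 1) S₁ S₂ → G S₁ S₂ = 0) →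
      ∀ S₁ S₂, G S₁ S₂ = 0 := by
  induction K with
  | zero =>
    intro Z _ _ G hG h
    exact xf_base hG h
  | succ K' ih =>
    intro Z _ _ G hG h
    obtain ⟨K, hKK⟩ : ∃ K, K = K' + 1 := ⟨_, rfl⟩
    rw [← hKK] at ih hG h
    have hK : 0 < K := by omega
    have hbe : ∀ j, j < K → be (K + 1) j = 2 := by
      intro j hj
      unfold be
      rw [if_pos (by omega)]
    have hbK : be (K + 1) K = 1 := by
      unfold be
      rw [if_neg (by omega), if_pos rfl]
    have hbg : ∀ j, K < j → be (K + 1) j = 0 := by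
      intro j hj
      unfold be
      rw [if_neg (by omega), if_neg (by omega)]
    -- claim B
    have hB : ∀ (s c : Z), s ≠ c → ∀ n, n + 1 ≤ K → ∀ w₁ w₂ : Z → ℕ, w₁ s = 0 → w₁ c = 0 →
        w₂ s = K → w₂ c = K - 1 - n → G w₁ w₂ = 0 := by
      intro s c hsc n
      induction n with
      | zero =>
        intro _ w₁ w₂ h1 h2 h3 h4
        exact xf_claimA hK hG ih h hsc w₁ w₂ h1 h2 h3 h4
      | succ n ihn =>
        intro hn w₁ w₂ h1 h2 h3 h4
        have h5 := labSym (hG.right w₁) (i := K - 1 - (n + 1)) (hbe _ (by omega))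
          (hbe _ (by omega)) w₂
        rw [← h5]
        refine ihn (by omega) w₁ _ h1 h2 ?_ ?_
        · rw [h3]
          exact Equiv.swap_apply_of_ne_of_ne (by omega) (by omega)
        · rw [h4, Equiv.swap_apply_left]
          omega
    have hB' : ∀ (s c : Z), s ≠ c → ∀ w₁ w₂ : Z → ℕ, w₁ s = 0 → w₁ c = 0 →
        w₂ s = K → G w₁ w₂ = 0 := by
      intro s c hsc w₁ w₂ h1 h2 h3
      by_contra hne
      have h4 := (hG.right w₁).cont _ hne
      have h5 : w₂ c < K := by
        by_contra hlt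
        rcases Nat.lt_or_ge K (w₂ c) with h6 | h6
        · have h7 : 0 < cnt w₂ (w₂ c) := xf_cnt_pos rfl
          rw [h4, hbg _ h6] at h7
          omega
        · have h7 : w₂ c = K := by omega
          have h8 : cnt w₂ K = 1 := by rw [h4, hbK]
          exact hsc (xf_one h8 h7 h3)
      exact hne (hB s c hsc (K - 1 - w₂ c) (by omega) w₁ w₂ h1 h2 h3 (by omega))
    -- claim C
    have hC : ∀ (s c : Z), s ≠ c → ∀ i, i < K → ∀ w₁ w₂ : Z → ℕ, w₁ s = i → w₁ c = i →
        w₂ s = K → G w₁ w₂ = 0 := by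
      intro s c hsc i
      induction i with
      | zero =>
        intro _ w₁ w₂ h1 h2 h3
        exact hB' s c hsc w₁ w₂ h1 h2 h3
      | succ i ihi =>
        intro hi w₁ w₂ h1 h2 h3
        have h5 := labSym (hG.left w₂) (i := i) (hbe _ (by omega)) (hbe _ (by omega)) w₁
        have h6 : G (fun x => Equiv.swap i (i + 1) (w₁ x)) w₂ = G w₁ w₂ := h5
        rw [← h6]
        refine ihi (by omega) _ w₂ ?_ ?_ h3
        · rw [h1, Equiv.swap_apply_right]
        · rw [h2, Equiv.swap_apply_right]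
    -- claim D
    have hD : ∀ (s : Z) (w₁ w₂ : Z → ℕ), w₂ s = K → w₁ s ≠ K → G w₁ w₂ = 0 := by
      intro s w₁ w₂ h2 h1
      by_contra hne
      have h3 := (hG.left w₂).cont _ hne
      have h4 : w₁ s < K := by
        by_contra hlt
        have h7 : 0 < cnt w₁ (w₁ s) := xf_cnt_pos rfl
        rw [h3, hbg _ (by omega)] at h7
        omega
      have h5 : cnt w₁ (w₁ s) = 2 := by rw [h3, hbe _ h4]
      have h6 : 1 < (univ.filter (fun x => w₁ x = w₁ s)).card := by
        have : (univ.filter (fun x => w₁ x = w₁ s)).card = 2 := h5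
        omega
      obtain ⟨c, hc, hcs⟩ := Finset.exists_mem_ne h6 s
      simp only [Finset.mem_filter, Finset.mem_univ, true_and] at hc
      exact hne (hC s c hcs.symm (w₁ s) h4 w₁ w₂ rfl hc h2)
    -- claim E
    have hE : ∀ (s : Z) (w₁ w₂ : Z → ℕ), w₂ s = K → w₁ s = K → G w₁ w₂ = 0 := by
      intro s w₁ w₂ h2 h1
      have h3 := (hG.left w₂).hw (K - 1) (Function.update w₁ s (K - 1))
      unfold R at h3
      rw [Finset.sum_eq_single s] at h3
      · have h4 : Function.update (Function.update w₁ s (K - 1)) s (K - 1 + 1) = w₁ := by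
          rw [Function.update_idem]
          have : K - 1 + 1 = w₁ s := by omega
          rw [this, Function.update_eq_self]
        rw [h4] at h3
        exact h3
      · intro x _ hxs
        refine hD s _ w₂ h2 ?_
        rw [Function.update_of_ne hxs.symm, Function.update_self]
        omega
      · intro hs
        exfalso
        apply hs
        simp
    intro S₁ S₂
    by_contra hne
    have h1 := (hG.right S₁).cont _ hne K
    rw [hbK] at h1
    have h2 : 0 < (univ.filter (fun x => S₂ x = K)).card := by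
      have : (univ.filter (fun x => S₂ x = K)).card = 1 := h1
      omega
    obtain ⟨s, hs⟩ := Finset.card_pos.1 h2
    simp only [Finset.mem_filter, Finset.mem_univ, true_and] at hs
    by_cases h3 : S₁ s = K
    · exact hne (hE s S₁ S₂ hs h3)
    · exact hne (hD s S₁ S₂ hs h3)

theorem injB (K : ℕ) (hK : 0 < K) {G : (Z → ℕ) → (Z → ℕ) → ℚ} (hG : InAA (be K) G)
    (h : ∀ S₁ S₂, StP (K - 2) K S₁ S₂ → G S₁ S₂ = 0) : ∀ S₁ S₂, G S₁ S₂ = 0 := by
  obtain ⟨K, rfl⟩ : ∃ K', K = K' + 1 := ⟨K - 1, by omega⟩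
  exact xf_aux K Z G hG h

end Sx
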