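import Mathlib
import Pool.Agent.Saxl2.XDefs

/-! The two-column block: weights. -/

namespace Sx

open Finset Equiv

variable {X Y Z : Type} [Fintype X] [DecidableEq X] [Fintype Y] [DecidableEq Y]
  [Fintype Z] [DecidableEq Z]

theorem xg_phik_succ (k : ℕ) : phik (k + 1) = phik k + (k + 1) * k ^ 2 := by
  unfold phik
  have h : (stair (k + 1)).cells = (stair k).cells ∪ Finset.HasAntidiagonal.antidiagonal k := by
    ext p
    rw [Finset.mem_union, Finset.HasAntidiagonal.mem_antidiagonal, YoungDiagram.mem_cells, YoungDiagram.mem_cells,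
      mem_stair, mem_stair]
    omega
  rw [h, Finset.sum_union]
  · congr 1
    rw [Finset.sum_congr rfl (g := fun _ => k ^ 2) (fun p hp => by
      rw [Finset.HasAntidiagonal.mem_antidiagonal] at hp; rw [hp])]
    rw [Finset.sum_const, Finset.Nat.card_antidiagonal, smul_eq_mul]
  · rw [Finset.disjoint_left]
    intro p h1 h2
    rw [YoungDiagram.mem_cells, mem_stair] at h1
    rw [Finset.HasAntidiagonal.mem_antidiagonal] at h2
    omega

omit [DecidableEq Z] in
theorem xg_lt {K : ℕ} {S : Z → ℕ} (h : ∀ j, cnt S j = be K j) (z : Z) : S z < K := by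
  by_contra hc
  have h1 := h (S z)
  have h2 : 0 < cnt S (S z) := by
    unfold cnt
    exact Finset.card_pos.mpr ⟨z, by simp⟩
  unfold be at h1
  split_ifs at h1 <;> omega

omit [DecidableEq Z] in
theorem xg_sum {K : ℕ} {S : Z → ℕ} (h : ∀ j, cnt S j = be K j) (f : ℕ → ℕ) :
    ∑ z, f (S z) = ∑ j ∈ range K, be K j * f j := by
  rw [← Finset.sum_fiberwise_of_maps_to (s := univ) (t := range K) (g := S)
    (fun z _ => Finset.mem_range.mpr (xg_lt h z))]
  refine Finset.sum_congr rfl fun j _ => ?_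
  rw [← h j]
  unfold cnt
  rw [Finset.sum_congr rfl (g := fun _ => f j) (fun z hz => by
    rw [(Finset.mem_filter.mp hz).2])]
  rw [Finset.sum_const, smul_eq_mul]

theorem xg_be_sum (k : ℕ) (f : ℕ → ℕ) :
    ∑ j ∈ range (k + 2), be (k + 2) j * f j = 2 * ∑ j ∈ range (k + 1), f j + f (k + 1) := by
  rw [Finset.sum_range_succ, Finset.mul_sum]
  congr 1
  · refine Finset.sum_congr rfl fun j hj => ?_
    rw [Finset.mem_range] at hj
    unfold be
    rw [if_pos (by omega)]
  · unfold be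
    rw [if_neg (by omega), if_pos (by omega), one_mul]

theorem phiX (k : ℕ) {S₁ S₂ : Z → ℕ} (h1 : ∀ j, cnt S₁ j = be (k + 2) j)
    (h2 : ∀ j, cnt S₂ j = be (k + 2) j) :
    phik (k + 2) ≤ phik k + Phi S₁ S₂ ∧
      (phik (k + 2) = phik k + Phi S₁ S₂ → ∀ z, k ≤ S₁ z + S₂ z) := by
  have hcard : Fintype.card Z = 2 * k + 3 := by
    have := xg_sum h1 (fun _ => 1)
    rw [xg_be_sum] at this
    simp only [Finset.sum_const, smul_eq_mul, mul_one, Finset.card_univ, Finset.card_range] at this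
    omega
  have hs : ∀ S : Z → ℕ, (∀ j, cnt S j = be (k + 2) j) → ∑ z, S z = (k + 1) ^ 2 := by
    intro S h
    have := xg_sum h (fun j => j)
    rw [xg_be_sum] at this
    rw [this]
    have g := Finset.sum_range_id_mul_two (k + 1)
    simp only [Nat.add_sub_cancel] at g
    nlinarith
  have hp1 := xg_phik_succ k
  have hp2 := xg_phik_succ (k + 1)
  -- the integer sum
  have key : ∑ z, (((S₁ z : ℤ) + S₂ z) - k) * (((S₁ z : ℤ) + S₂ z) - (k + 1)) =
      (Phi S₁ S₂ : ℤ) + phik k - phik (k + 2) := by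
    have e1 : ((Phi S₁ S₂ : ℕ) : ℤ) = ∑ z, ((S₁ z : ℤ) + S₂ z) ^ 2 := by
      unfold Phi; push_cast; rfl
    have e2 : ∑ z, ((S₁ z : ℤ) + S₂ z) = 2 * (k + 1) ^ 2 := by
      rw [Finset.sum_add_distrib]
      have a1 : ∑ z, (S₁ z : ℤ) = (k + 1) ^ 2 := by exact_mod_cast hs S₁ h1
      have a2 : ∑ z, (S₂ z : ℤ) = (k + 1) ^ 2 := by exact_mod_cast hs S₂ h2
      rw [a1, a2]; ring
    have e3 : ∑ z, (((S₁ z : ℤ) + S₂ z) - k) * (((S₁ z : ℤ) + S₂ z) - (k + 1)) =
        ∑ z, ((S₁ z : ℤ) + S₂ z) ^ 2 - (2 * k + 1) * ∑ z, ((S₁ z : ℤ) + S₂ z) +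
          (Fintype.card Z : ℤ) * (k * (k + 1)) := by
      rw [Finset.mul_sum, ← Finset.sum_sub_distrib]
      have : (Fintype.card Z : ℤ) * (k * (k + 1)) = ∑ _z : Z, ((k : ℤ) * (k + 1)) := by
        rw [Finset.sum_const, Finset.card_univ, nsmul_eq_mul]
      rw [this, ← Finset.sum_add_distrib]
      refine Finset.sum_congr rfl fun z _ => ?_
      ring
    rw [e3, ← e1, e2, hcard]
    have hp : ((phik (k + 2) : ℕ) : ℤ) = phik k + (k + 1) * k ^ 2 + (k + 2) * (k + 1) ^ 2 := by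
      have : phik (k + 2) = phik k + (k + 1) * k ^ 2 + (k + 1 + 1) * (k + 1) ^ 2 := by
        rw [← hp1]; exact hp2
      rw [this]; push_cast; ring
    rw [hp]
    push_cast
    ring
  have nn : ∀ z ∈ (univ : Finset Z),
      0 ≤ (((S₁ z : ℤ) + S₂ z) - k) * (((S₁ z : ℤ) + S₂ z) - (k + 1)) := by
    intro z _
    rcases le_or_gt ((S₁ z : ℤ) + S₂ z) k with g | g
    · nlinarith
    · nlinarith
  have hnn := Finset.sum_nonneg nn
  rw [key] at hnn
  refine ⟨by omega, fun heq z => ?_⟩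
  have hz : ∑ z, (((S₁ z : ℤ) + S₂ z) - k) * (((S₁ z : ℤ) + S₂ z) - (k + 1)) = 0 := by
    rw [key]; omega
  have := (Finset.sum_eq_zero_iff_of_nonneg nn).mp hz z (Finset.mem_univ z)
  rcases mul_eq_zero.mp this with g | g <;> omega

end Sx
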