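import Mathlib
import Pool.Agent.Helper87.Saxl.Defs
import Pool.Agent.Saxl2.XDefs
import Pool.Agent.Saxl2.XA
import Pool.Agent.Saxl2.XF
import Pool.Agent.Saxl2.XG

/-! The two-column block (module XH). -/

namespace Sx

open Finset Equiv

variable {X Y Z : Type} [Fintype X] [DecidableEq X] [Fintype Y] [DecidableEq Y]
  [Fintype Z] [DecidableEq Z]

theorem blockX (k : ℕ) {E : (Z → ℕ) → (Z → ℕ) → ℚ} (hE : InAA (be (k + 2)) E) :
    BlockE k (k + 2) E where
  aa := by
    have h : (fun j => (k + 2 - j) - (k - j)) = be (k + 2) := by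
      funext j
      unfold be
      split_ifs <;> omega
    rw [h]
    exact hE
  phi := fun S₁ S₂ hne => (phiX k ((hE.left S₂).cont S₁ hne) ((hE.right S₁).cont S₂ hne)).1
  eq := fun S₁ S₂ hne => (phiX k ((hE.left S₂).cont S₁ hne) ((hE.right S₁).cont S₂ hne)).2
  inj := by
    intro a h
    have hG := inAA_sum hE univ a (id : Perm Z → Perm Z)
    exact injB (k + 2) (by omega) hG (fun S₁ S₂ hS => h S₁ S₂ hS)

end Sx
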