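import Mathlib
import Pool.Agent.Saxl2.XDefs
import Pool.Agent.Saxl2.XA

/-! Multiplicativity and relabelling. -/

namespace Sx

open Finset Equiv

variable {X Y Z : Type} [Fintype X] [DecidableEq X] [Fintype Y] [DecidableEq Y]
  [Fintype Z] [DecidableEq Z]

theorem xj_split {M : Type} [AddCommMonoid M] (G : (Y ⊕ Z → Fin 2) → M) :
    ∑ S : Y ⊕ Z → Fin 2, G S = ∑ A : Y → Fin 2, ∑ B : Z → Fin 2, G (Sum.elim A B) := by
  rw [← Fintype.sum_prod_type', ← (Equiv.sumArrowEquivProdArrow Y Z (Fin 2)).symm.sum_comp]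
  rfl

theorem pp_mul (q₁ : Y → ℕ × ℕ) (q₂ : Z → ℕ × ℕ) (E₁ : (Y → ℕ) → (Y → ℕ) → ℚ)
    (E₂ : (Z → ℕ) → (Z → ℕ) → ℚ) :
    PP (Sum.elim q₁ q₂) (tens E₁ E₂) = PP q₁ E₁ * PP q₂ E₂ := by
  unfold PP
  rw [xj_split]
  simp only [xj_split]
  have e : ∀ (A : Y → Fin 2) (B : Z → Fin 2) (A' : Y → Fin 2) (B' : Z → Fin 2),
      (MvPolynomial.C (tens E₁ E₂ (fun z => ((Sum.elim A B z : Fin 2) : ℕ)) (fun z => ((Sum.elim A' B' z : Fin 2) : ℕ)))
        * ∏ z, MvPolynomial.X (Sum.elim A B z, Sum.elim A' B' z, (Sum.elim q₁ q₂ z).1) :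
        MvPolynomial (Fin 2 × Fin 2 × ℕ) ℚ) =
      (MvPolynomial.C (E₁ (fun z => (A z : ℕ)) (fun z => (A' z : ℕ))) *
        ∏ z, MvPolynomial.X (A z, A' z, (q₁ z).1)) *
      (MvPolynomial.C (E₂ (fun z => (B z : ℕ)) (fun z => (B' z : ℕ))) *
        ∏ z, MvPolynomial.X (B z, B' z, (q₂ z).1)) := by
    intro A B A' B'
    have h1 : tens E₁ E₂ (fun z => ((Sum.elim A B z : Fin 2) : ℕ)) (fun z => ((Sum.elim A' B' z : Fin 2) : ℕ)) =
        E₁ (fun z => (A z : ℕ)) (fun z => (A' z : ℕ)) *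
          E₂ (fun z => (B z : ℕ)) (fun z => (B' z : ℕ)) := rfl
    rw [h1, Fintype.prod_sum_type, MvPolynomial.C_mul]
    simp only [Sum.elim_inl, Sum.elim_inr]
    ring
  simp only [e]
  rw [Finset.sum_mul_sum]
  refine Finset.sum_congr rfl fun A _ => Finset.sum_congr rfl fun B _ => ?_
  rw [Finset.sum_mul_sum]

theorem UEx.mul {m₀ m₁ n₀ n₁ : ℕ} {d e : ℚ} {q₁ : Y → ℕ × ℕ} {q₂ : Z → ℕ × ℕ}
    (h₁ : UEx m₀ m₁ d q₁) (h₂ : UEx n₀ n₁ e q₂) (hd : ∀ y z, (q₁ y).2 ≠ (q₂ z).2) :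
    UEx (m₀ + n₀) (m₁ + n₁) (d * e) (Sum.elim q₁ q₂) := by
  obtain ⟨E₁, g₁⟩ := h₁
  obtain ⟨E₂, g₂⟩ := h₂
  refine ⟨tens E₁ E₂, tens_inAA (fun j => ?_) g₁.aa g₂.aa, ?_, ?_, ?_⟩
  · unfold uc
    split_ifs <;> rfl
  · intro w₁ w₂
    unfold tens
    rw [g₁.sym, g₂.sym]
    ring
  · intro c hc w₁ w₂
    have hc' := (Finset.mem_filter.mp hc).2
    have hl : ∀ y : Y, ∃ y' : Y, c (Sum.inl y) = Sum.inl y' := by
      intro y
      rcases hy : c (Sum.inl y) with y' | z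
      · exact ⟨y', rfl⟩
      · exfalso
        have := hc' (Sum.inl y)
        rw [hy] at this
        exact hd y z this.symm
    have h2 : c ∈ (Perm.sumCongrHom Y Z).range :=
      Perm.mem_sumCongrHom_range_of_perm_mapsTo_inl (by
        rintro _ ⟨y, rfl⟩
        obtain ⟨y', hy'⟩ := hl y
        exact ⟨y', hy'.symm⟩)
    obtain ⟨⟨c₁, c₂⟩, h3⟩ := h2
    have h4 : Perm.sumCongr c₁ c₂ = c := h3
    subst h4
    have m1 : c₁ ∈ colS q₁ := by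
      unfold colS
      rw [Finset.mem_filter]
      exact ⟨Finset.mem_univ _, fun y => hc' (Sum.inl y)⟩
    have m2 : c₂ ∈ colS q₂ := by
      unfold colS
      rw [Finset.mem_filter]
      exact ⟨Finset.mem_univ _, fun z => hc' (Sum.inr z)⟩
    have a1 := g₁.alt c₁ m1 (w₁ ∘ Sum.inl) (w₂ ∘ Sum.inl)
    have a2 := g₂.alt c₂ m2 (w₁ ∘ Sum.inr) (w₂ ∘ Sum.inr)
    have e1 : tens E₁ E₂ (w₁ ∘ ⇑(Perm.sumCongr c₁ c₂)) (w₂ ∘ ⇑(Perm.sumCongr c₁ c₂)) =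
        E₁ ((w₁ ∘ Sum.inl) ∘ c₁) ((w₂ ∘ Sum.inl) ∘ c₁) *
          E₂ ((w₁ ∘ Sum.inr) ∘ c₂) ((w₂ ∘ Sum.inr) ∘ c₂) := rfl
    have e2 : sg (Perm.sumCongr c₁ c₂) = sg c₁ * sg c₂ := by
      unfold sg
      rw [Perm.sign_sumCongr]
      push_cast
      ring
    rw [e1, a1, a2, e2]
    unfold tens
    ring
  · rw [pp_mul]
    exact mul_ne_zero g₁.pp g₂.pp

omit [DecidableEq Y] [DecidableEq Z] in
theorem xj_cnt (e : Y ≃ Z) (w : Z → ℕ) (j : ℕ) : cnt (w ∘ e) j = cnt w j := by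
  unfold cnt
  refine Finset.card_bij (fun y _ => e y) ?_ ?_ ?_
  · intro y hy
    rw [Finset.mem_filter] at hy ⊢
    exact ⟨Finset.mem_univ _, hy.2⟩
  · intro a _ b _ h
    exact e.injective h
  · intro z hz
    rw [Finset.mem_filter] at hz
    refine ⟨e.symm z, ?_, by simp⟩
    rw [Finset.mem_filter]
    refine ⟨Finset.mem_univ _, ?_⟩
    rw [Function.comp_apply, Equiv.apply_symm_apply]
    exact hz.2

theorem xj_R (e : Y ≃ Z) (f : (Y → ℕ) → ℚ) (i : ℕ) (w : Z → ℕ) :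
    R i (fun w => f (w ∘ e)) w = R i f (w ∘ e) := by
  unfold R
  symm
  refine Finset.sum_bij (fun y _ => e y) ?_ ?_ ?_ ?_
  · intro y hy
    rw [Finset.mem_filter] at hy ⊢
    exact ⟨Finset.mem_univ _, hy.2⟩
  · intro a _ b _ h
    exact e.injective h
  · intro z hz
    rw [Finset.mem_filter] at hz
    refine ⟨e.symm z, ?_, by simp⟩
    rw [Finset.mem_filter]
    refine ⟨Finset.mem_univ _, ?_⟩
    rw [Function.comp_apply, Equiv.apply_symm_apply]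
    exact hz.2
  · intro y _
    show _ = f (Function.update w (e y) (i + 1) ∘ e)
    rw [Function.update_comp_eq_of_injective w e.injective]

theorem xj_inA (e : Y ≃ Z) {α : ℕ → ℕ} {f : (Y → ℕ) → ℚ} (hf : InA α f) :
    InA α (fun w : Z → ℕ => f (w ∘ e)) := by
  refine ⟨fun w hw j => ?_, fun i w => ?_⟩
  · rw [← xj_cnt e]
    exact hf.cont _ hw j
  · rw [xj_R]
    exact hf.hw i _

theorem xj_pp (e : Y ≃ Z) (q : Z → ℕ × ℕ) (E : (Y → ℕ) → (Y → ℕ) → ℚ) :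
    PP q (fun w₁ w₂ => E (w₁ ∘ e) (w₂ ∘ e)) = PP (q ∘ e) E := by
  unfold PP
  rw [← (Equiv.arrowCongr e (Equiv.refl (Fin 2))).sum_comp]
  refine Finset.sum_congr rfl fun A _ => ?_
  rw [← (Equiv.arrowCongr e (Equiv.refl (Fin 2))).sum_comp]
  refine Finset.sum_congr rfl fun B _ => ?_
  have h1 : ∀ A : Y → Fin 2, ((fun z => ((Equiv.arrowCongr e (Equiv.refl (Fin 2)) A z : Fin 2) : ℕ))
      ∘ e) = fun y => (A y : ℕ) := by
    intro A
    funext y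
    simp [Equiv.arrowCongr]
  beta_reduce
  rw [h1, h1, ← e.prod_comp]
  simp [Equiv.arrowCongr]

theorem UEx.equiv {m₀ m₁ : ℕ} {d : ℚ} (e : Y ≃ Z) {q : Z → ℕ × ℕ} (h : UEx m₀ m₁ d (q ∘ e)) :
    UEx m₀ m₁ d q := by
  obtain ⟨E, g⟩ := h
  refine ⟨fun w₁ w₂ => E (w₁ ∘ e) (w₂ ∘ e), ⟨fun w₂ => ?_, fun w₁ => ?_⟩, ?_, ?_, ?_⟩
  · exact xj_inA e (g.aa.left (w₂ ∘ e))
  · exact xj_inA e (g.aa.right (w₁ ∘ e))
  · intro w₁ w₂
    exact g.sym _ _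
  · intro c hc w₁ w₂
    have hc' := (Finset.mem_filter.mp hc).2
    have m : e.symm.permCongr c ∈ colS (q ∘ e) := by
      unfold colS
      rw [Finset.mem_filter]
      refine ⟨Finset.mem_univ _, fun y => ?_⟩
      simpa [Equiv.permCongr_apply] using hc' (e y)
    have a := g.alt _ m (w₁ ∘ e) (w₂ ∘ e)
    have e1 : ∀ w : Z → ℕ, (w ∘ e) ∘ ⇑(e.symm.permCongr c) = (w ∘ c) ∘ e := by
      intro w
      funext y
      simp [Equiv.permCongr_apply]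
    have e2 : sg (e.symm.permCongr c) = sg c := by
      unfold sg
      rw [Perm.sign_permCongr]
    rw [e1, e1, e2] at a
    exact a
  · rw [xj_pp]
    exact g.pp

end Sx
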