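import Mathlib
import Pool.Agent.Helper87.Saxl.Defs
import Pool.Agent.Saxl2.XDefs

/-!
Module XK1: explicit small functions of two words in the letters `0, 1`.
-/

namespace Sx

open Finset Equiv

/-- extension by zero of a function of a word in the letters `0, 1`. -/
def XK1_l {n : ℕ} (h : (Fin n → Fin 2) → ℤ) (w : Fin n → ℕ) : ℚ :=
  if ∀ x, w x < 2 then ((h (fun x => Fin.ofNat 2 (w x)) : ℤ) : ℚ) else 0

/-- extension by zero of a function of two words in the letters `0, 1`. -/
def XK1_L {n : ℕ} (g : (Fin n → Fin 2) → (Fin n → Fin 2) → ℤ) (w₁ w₂ : Fin n → ℕ) : ℚ :=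
  if ∀ x, w₁ x < 2 then XK1_l (g (fun x => Fin.ofNat 2 (w₁ x))) w₂ else 0

theorem XK1_ofNat_zero {m : ℕ} (hm : m < 2) : Fin.ofNat 2 m = (0 : Fin 2) ↔ m = 0 := by
  interval_cases m <;> simp

theorem XK1_inA {n m₀ m₁ : ℕ} (hn : m₀ + m₁ = n) (h : (Fin n → Fin 2) → ℤ)
    (hc : ∀ u, h u ≠ 0 → (univ.filter fun x => u x = 0).card = m₀)
    (hr : ∀ u, ∑ x ∈ univ.filter (fun x => u x = 0), h (Function.update u x 1) = 0) :
    InA (uc m₀ m₁) (XK1_l h) := by
  constructor
  · intro w hw j
    unfold XK1_l at hw
    split_ifs at hw with hlt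
    · have h1 : h (fun x => Fin.ofNat 2 (w x)) ≠ 0 := by
        intro h0
        exact hw (by rw [h0]; simp)
      have h2 := hc _ h1
      have h3 : (univ.filter fun x => w x = 0).card = m₀ := by
        rw [← h2]
        congr 1
        ext x
        simp only [Finset.mem_filter, Finset.mem_univ, true_and]
        exact (XK1_ofNat_zero (hlt x)).symm
      unfold cnt uc
      rcases Nat.lt_or_ge j 1 with hj | hj
      · have : j = 0 := by omega
        subst this
        simpa using h3
      · rw [if_neg (by omega)]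
        rcases Nat.lt_or_ge j 2 with hj2 | hj2
        · have : j = 1 := by omega
          subst this
          rw [if_pos rfl]
          have h4 : (univ.filter fun x => w x = 1) = (univ.filter fun x => w x = 0)ᶜ := by
            ext x
            simp only [Finset.mem_filter, Finset.mem_univ, true_and, Finset.mem_compl]
            have := hlt x
            omega
          rw [h4, Finset.card_compl, h3, Fintype.card_fin]
          omega
        · rw [if_neg (by omega), Finset.card_eq_zero, Finset.filter_eq_empty_iff]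
          intro x _ hx
          have := hlt x
          omega
    · exact absurd rfl hw
  · intro i w
    unfold R
    rcases Nat.eq_zero_or_pos i with hi | hi
    · subst hi
      by_cases hlt : ∀ x, w x < 2
      · have h1 : ∀ x ∈ univ.filter (fun x => w x = 0),
            XK1_l h (Function.update w x (0 + 1)) =
              ((h (Function.update (fun y => Fin.ofNat 2 (w y)) x 1) : ℤ) : ℚ) := by
          intro x _
          unfold XK1_l
          rw [if_pos]
          · congr 2
            funext y
            by_cases hy : y = x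
            · subst hy
              simp
            · simp [Function.update_of_ne hy]
          · intro y
            by_cases hy : y = x
            · subst hy
              simp
            · rw [Function.update_of_ne hy]
              exact hlt y
        rw [Finset.sum_congr rfl h1]
        have h2 := hr (fun y => Fin.ofNat 2 (w y))
        have h3 : (univ.filter fun x => (fun y => Fin.ofNat 2 (w y)) x = (0 : Fin 2)) =
            univ.filter fun x => w x = 0 := by
          ext x
          simp only [Finset.mem_filter, Finset.mem_univ, true_and]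
          exact XK1_ofNat_zero (hlt x)
        rw [h3] at h2
        exact_mod_cast h2
      · push Not at hlt
        obtain ⟨y, hy⟩ := hlt
        refine Finset.sum_eq_zero fun x hx => ?_
        rw [Finset.mem_filter] at hx
        unfold XK1_l
        rw [if_neg]
        intro hall
        have h1 := hall y
        have hne : y ≠ x := by
          rintro rfl
          omega
        rw [Function.update_of_ne hne] at h1
        omega
    · refine Finset.sum_eq_zero fun x _ => ?_
      unfold XK1_l
      rw [if_neg]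
      intro hall
      have h1 := hall x
      rw [Function.update_self] at h1
      omega

theorem XK1_inA_zero {n : ℕ} (α : ℕ → ℕ) : InA α (fun _ : Fin n → ℕ => (0 : ℚ)) := by
  constructor
  · intro w hw
    exact absurd rfl hw
  · intro i w
    simp [R]

/-- assembly: all the conditions are finite checks. -/
theorem XK1_ue {n m₀ m₁ : ℕ} {e : ℤ} (hn : m₀ + m₁ = n) (q : Fin n → ℕ × ℕ)
    (g : (Fin n → Fin 2) → (Fin n → Fin 2) → ℤ)
    (hs : ∀ u v, g v u = e * g u v)
    (hc : ∀ u v, g u v ≠ 0 → (univ.filter fun x => u x = 0).card = m₀)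
    (hr : ∀ u v, ∑ x ∈ univ.filter (fun x => u x = 0), g (Function.update u x 1) v = 0)
    (ha : ∀ c ∈ colS q, ∀ u v, g (u ∘ c) (v ∘ c) = ((Perm.sign c : ℤˣ) : ℤ) * g u v)
    (ρ : Fin 2 → Fin 2 → ℕ → ℤ)
    (hp : ∑ u, ∑ v, g u v * ∏ z, ρ (u z) (v z) (q z).1 ≠ 0) : UEx m₀ m₁ (e : ℚ) q := by
  have hcomp : ∀ (c : Perm (Fin n)) (w : Fin n → ℕ), (∀ x, (w ∘ c) x < 2) ↔ ∀ x, w x < 2 := by
    intro c w
    constructor
    · intro h x
      have := h (c⁻¹ x)
      simpa using this
    · intro h x
      exact h (c x)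
  have hval : ∀ w₁ w₂ : Fin n → ℕ, (∀ x, w₁ x < 2) → (∀ x, w₂ x < 2) → XK1_L g w₁ w₂ =
      ((g (fun x => Fin.ofNat 2 (w₁ x)) (fun x => Fin.ofNat 2 (w₂ x)) : ℤ) : ℚ) := by
    intro w₁ w₂ h1 h2
    unfold XK1_L XK1_l
    rw [if_pos h1, if_pos h2]
  have hval0 : ∀ w₁ w₂ : Fin n → ℕ, ¬ ((∀ x, w₁ x < 2) ∧ (∀ x, w₂ x < 2)) →
      XK1_L g w₁ w₂ = 0 := by
    intro w₁ w₂ h
    unfold XK1_L XK1_l
    by_cases h1 : ∀ x, w₁ x < 2
    · rw [if_pos h1, if_neg fun h2 => h ⟨h1, h2⟩]
    · rw [if_neg h1]
  have hsym : ∀ w₁ w₂, XK1_L g w₂ w₁ = (e : ℚ) * XK1_L g w₁ w₂ := by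
    intro w₁ w₂
    by_cases h : (∀ x, w₁ x < 2) ∧ (∀ x, w₂ x < 2)
    · rw [hval _ _ h.1 h.2, hval _ _ h.2 h.1, hs]
      push_cast
      ring
    · rw [hval0 _ _ h, hval0 _ _ fun h' => h ⟨h'.2, h'.1⟩, mul_zero]
  have hright : ∀ w₁ : Fin n → ℕ, InA (uc m₀ m₁) (XK1_L g w₁) := by
    intro w₁
    by_cases h : ∀ x, w₁ x < 2
    · have h1 : XK1_L g w₁ = XK1_l (g (fun x => Fin.ofNat 2 (w₁ x))) := by
        funext w₂
        unfold XK1_L
        rw [if_pos h]
      rw [h1]
      refine XK1_inA hn _ (fun v hv => ?_) (fun v => ?_)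
      · rw [hs] at hv
        exact hc _ _ (right_ne_zero_of_mul hv)
      · have h2 : ∀ x ∈ univ.filter (fun x => v x = 0),
            g (fun x => Fin.ofNat 2 (w₁ x)) (Function.update v x 1) =
              e * g (Function.update v x 1) (fun x => Fin.ofNat 2 (w₁ x)) := fun x _ => hs _ _
        rw [Finset.sum_congr rfl h2, ← Finset.mul_sum, hr, mul_zero]
    · have h1 : XK1_L g w₁ = fun _ => 0 := by
        funext w₂
        unfold XK1_L
        rw [if_neg h]
      rw [h1]
      exact XK1_inA_zero _
  refine ⟨XK1_L g, ⟨⟨fun w₂ => ?_, hright⟩, hsym, fun c hcc w₁ w₂ => ?_, fun h0 => hp ?_⟩⟩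
  · by_cases h : ∀ x, w₂ x < 2
    · have h1 : (fun w₁ => XK1_L g w₁ w₂) =
          XK1_l (fun u => g u (fun x => Fin.ofNat 2 (w₂ x))) := by
        funext w₁
        by_cases h2 : ∀ x, w₁ x < 2
        · rw [hval _ _ h2 h]
          unfold XK1_l
          rw [if_pos h2]
        · rw [hval0 _ _ fun h' => h2 h'.1]
          unfold XK1_l
          rw [if_neg h2]
      rw [h1]
      exact XK1_inA hn _ (fun u hu => hc _ _ hu) (fun u => hr _ _)
    · have h1 : (fun w₁ => XK1_L g w₁ w₂) = fun _ => 0 := by
        funext w₁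
        exact hval0 _ _ fun h' => h h'.2
      rw [h1]
      exact XK1_inA_zero _
  · by_cases h : (∀ x, w₁ x < 2) ∧ (∀ x, w₂ x < 2)
    · rw [hval _ _ h.1 h.2, hval _ _ ((hcomp c w₁).2 h.1) ((hcomp c w₂).2 h.2)]
      have h1 := ha c hcc (fun x => Fin.ofNat 2 (w₁ x)) (fun x => Fin.ofNat 2 (w₂ x))
      unfold sg
      rw [← Int.cast_mul, ← h1]
      rfl
    · rw [hval0 _ _ h, hval0 _ _ fun h' => h ⟨(hcomp c w₁).1 h'.1, (hcomp c w₂).1 h'.2⟩,
        mul_zero]
  · have h1 := congrArg (MvPolynomial.eval fun p : Fin 2 × Fin 2 × ℕ =>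
      ((ρ p.1 p.2.1 p.2.2 : ℤ) : ℚ)) h0
    unfold PP at h1
    simp only [map_sum, map_mul, map_prod, MvPolynomial.eval_C, MvPolynomial.eval_X,
      map_zero] at h1
    have h2 : ∀ u v : Fin n → Fin 2, XK1_L g (fun z => (u z : ℕ)) (fun z => (v z : ℕ)) =
        ((g u v : ℤ) : ℚ) := by
      intro u v
      rw [hval _ _ (fun x => (u x).2) (fun x => (v x).2)]
      congr 2
      · funext x
        exact Fin.ofNat_val_eq_self (u x)
      · funext x
        exact Fin.ofNat_val_eq_self (v x)
    simp only [h2] at h1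
    exact_mod_cast h1

theorem XK1_mem {X : Type} [Fintype X] [DecidableEq X] {q : X → ℕ × ℕ} {c : Perm X}
    (h : c ∈ colS q) : ∀ x, (q (c x)).2 = (q x).2 := by
  unfold colS at h
  exact (Finset.mem_filter.1 h).2

/-- the sign function of a pair of letters. -/
def XK1_eps (a b : Fin 2) : ℤ := if a = 0 ∧ b = 1 then 1 else if a = 1 ∧ b = 0 then -1 else 0

theorem ue1 (q : Fin 1 → ℕ × ℕ) : UEx 1 0 1 q := by
  have h := XK1_ue (n := 1) (m₀ := 1) (m₁ := 0) (e := 1) rfl q
    (fun u v => if u 0 = 0 ∧ v 0 = 0 then 1 else 0) (by decide +kernel) (by decide +kernel)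
    (by decide +kernel)
    (by
      rintro c -
      revert c
      decide +kernel) (fun _ _ _ => 1) (by
        simp only [Finset.prod_const_one, mul_one]
        decide +kernel)
  simpa using h

theorem ue11 (q : Fin 2 → ℕ × ℕ) (h : (q 0).2 ≠ (q 1).2) : UEx 1 1 1 q := by
  have h := XK1_ue (n := 2) (m₀ := 1) (m₁ := 1) (e := 1) rfl q
    (fun u v => XK1_eps (u 0) (u 1) * XK1_eps (v 0) (v 1)) (by decide +kernel)
    (by decide +kernel) (by decide +kernel)
    (by
      intro c hc
      have h0 : c 0 = 0 := by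
        have h1 := XK1_mem hc 0
        by_contra h2
        rw [Fin.eq_one_of_ne_zero (c 0) h2] at h1
        exact h h1.symm
      revert h0
      clear hc
      revert c
      decide +kernel) (fun a b _ => if a = b then 1 else 0) (by
        decide +kernel)
  simpa using h

/-- function for `ue3`. -/
def XK1_g3 (u v : Fin 3 → Fin 2) : ℤ :=
  (if u 2 = 0 then XK1_eps (u 0) (u 1) else 0) * (if v 1 = 0 then XK1_eps (v 0) (v 2) else 0) -
  (if u 1 = 0 then XK1_eps (u 0) (u 2) else 0) * (if v 2 = 0 then XK1_eps (v 0) (v 1) else 0)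

theorem ue3 (q : Fin 3 → ℕ × ℕ) (h01 : (q 0).1 ≠ (q 1).1) (h02 : (q 0).1 ≠ (q 2).1)
    (h12 : (q 1).1 ≠ (q 2).1) : UEx 2 1 (-1) q := by
  have h := XK1_ue (n := 3) (m₀ := 2) (m₁ := 1) (e := -1) rfl q XK1_g3 (by decide +kernel)
    (by decide +kernel) (by decide +kernel)
    (by
      rintro c -
      revert c
      decide +kernel)
    (fun a b r => if a = 0 ∧ b = 0 then (if r = (q 0).1 then 1 else 0) else
      if a = 0 ∧ b = 1 then (if r = (q 1).1 then 1 else 0) else
      if a = 1 ∧ b = 0 then (if r = (q 2).1 then 1 else 0) else 0) (by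
        have h1 : ∀ u v : Fin 3 → Fin 2, ∏ z, (if u z = 0 ∧ v z = 0 then
            (if (q z).1 = (q 0).1 then (1 : ℤ) else 0) else
            if u z = 0 ∧ v z = 1 then (if (q z).1 = (q 1).1 then 1 else 0) else
            if u z = 1 ∧ v z = 0 then (if (q z).1 = (q 2).1 then 1 else 0) else 0) =
            ∏ z, (if u z = 0 ∧ v z = 0 then (if z = 0 then (1 : ℤ) else 0) else
            if u z = 0 ∧ v z = 1 then (if z = 1 then 1 else 0) else
            if u z = 1 ∧ v z = 0 then (if z = 2 then 1 else 0) else 0) := by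
          intro u v
          refine Finset.prod_congr rfl fun z _ => ?_
          have e0 : ((q z).1 = (q 0).1) ↔ z = 0 := by
            fin_cases z
            · simp
            · simpa using h01.symm
            · simpa using h02.symm
          have e1 : ((q z).1 = (q 1).1) ↔ z = 1 := by
            fin_cases z
            · simpa using h01
            · simp
            · simpa using h12.symm
          have e2 : ((q z).1 = (q 2).1) ↔ z = 2 := by
            fin_cases z
            · simpa using h02
            · simpa using h12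
            · simp
          simp only [e0, e1, e2]
        simp only [h1]
        decide +kernel)
  simpa using h

/-- function for `ue4`. -/
def XK1_g4 (u v : Fin 4 → Fin 2) : ℤ :=
  XK1_eps (u 0) (u 1) * XK1_eps (u 2) (u 3) * (XK1_eps (v 0) (v 2) * XK1_eps (v 1) (v 3)) -
  XK1_eps (v 0) (v 1) * XK1_eps (v 2) (v 3) * (XK1_eps (u 0) (u 2) * XK1_eps (u 1) (u 3))

theorem ue4 (q : Fin 4 → ℕ × ℕ) (h : ∀ i j, i ≠ j → (q i).1 ≠ (q j).1) :
    UEx 2 2 (-1) q := by
  have h := XK1_ue (n := 4) (m₀ := 2) (m₁ := 2) (e := -1) rfl q XK1_g4 (by decide +kernel)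
    (by decide +kernel) (by decide +kernel)
    (by
      rintro c -
      revert c
      decide +kernel)
    (fun a b r => if a = 0 ∧ b = 0 then (if r = (q 0).1 then 1 else 0) else
      if a = 0 ∧ b = 1 then (if r = (q 1).1 then 1 else 0) else
      if a = 1 ∧ b = 0 then (if r = (q 2).1 then 1 else 0) else
      (if r = (q 3).1 then 1 else 0)) (by
        have h1 : ∀ u v : Fin 4 → Fin 2, ∏ z, (if u z = 0 ∧ v z = 0 then
            (if (q z).1 = (q 0).1 then (1 : ℤ) else 0) else
            if u z = 0 ∧ v z = 1 then (if (q z).1 = (q 1).1 then 1 else 0) else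
            if u z = 1 ∧ v z = 0 then (if (q z).1 = (q 2).1 then 1 else 0) else
            (if (q z).1 = (q 3).1 then 1 else 0)) =
            ∏ z, (if u z = 0 ∧ v z = 0 then (if z = 0 then (1 : ℤ) else 0) else
            if u z = 0 ∧ v z = 1 then (if z = 1 then 1 else 0) else
            if u z = 1 ∧ v z = 0 then (if z = 2 then 1 else 0) else
            (if z = 3 then 1 else 0)) := by
          intro u v
          refine Finset.prod_congr rfl fun z _ => ?_
          have e : ∀ i, ((q z).1 = (q i).1) ↔ z = i := by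
            intro i
            constructor
            · intro h2
              by_contra h3
              exact h z i h3 h2
            · rintro rfl
              rfl
          simp only [e]
        simp only [h1]
        decide +kernel)
  simpa using h

end Sx
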