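import Mathlib
import Pool.Agent.Helper87.Saxl.Defs
import Pool.Agent.Saxl2.XDefs
import Pool.Agent.Saxl2.XK1

/-!
Module XK2: explicit small functions of two words in the letters `0, 1` (two columns).
-/

namespace Sx

open Finset Equiv

/-- half of the function for `ue12`. -/
def XK2_e12 (u v : Fin 3 → Fin 2) : ℤ :=
  (if u 0 = 0 then XK1_eps (u 1) (u 2) else 0) *
    ((if v 2 = 0 then XK1_eps (v 0) (v 1) else 0) + (if v 1 = 0 then XK1_eps (v 0) (v 2) else 0))

/-- the function for `ue12`. -/
def XK2_g12 (u v : Fin 3 → Fin 2) : ℤ := XK2_e12 u v + XK2_e12 v u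

theorem ue12 (q : Fin 3 → ℕ × ℕ) (hc : (q 1).2 = (q 2).2) (hd : (q 0).2 ≠ (q 1).2)
    (hr : (q 1).1 ≠ (q 2).1) : UEx 2 1 1 q := by
  have h := XK1_ue (n := 3) (m₀ := 2) (m₁ := 1) (e := 1) rfl q XK2_g12 (by decide +kernel)
    (by decide +kernel) (by decide +kernel)
    (by
      intro c hcc
      have h0 : c 0 = 0 := by
        have h1 := XK1_mem hcc 0
        by_contra h2
        have h3 : c 0 = 1 ∨ c 0 = 2 := by
          clear h1 hcc
          revert h2
          generalize c 0 = i
          revert i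
          decide
        rcases h3 with h3 | h3
        · rw [h3] at h1
          exact hd h1.symm
        · rw [h3, ← hc] at h1
          exact hd h1.symm
      clear hcc
      revert h0
      revert c
      decide +kernel)
    (fun a b r => if a = 0 ∧ b = 0 then 1 else
      if a = 1 ∧ b = 1 then (if r = (q 2).1 then 1 else 0) else 0) (by
        have h1 : ∀ u v : Fin 3 → Fin 2, ∏ z, (if u z = 0 ∧ v z = 0 then (1 : ℤ) else
            if u z = 1 ∧ v z = 1 then (if (q z).1 = (q 2).1 then 1 else 0) else 0) =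
            ∏ z, (if u z = 0 ∧ v z = 0 then (1 : ℤ) else
            if u z = 1 ∧ v z = 1 then
              (if z = 2 ∨ (z = 0 ∧ decide ((q 0).1 = (q 2).1) = true) then 1 else 0) else 0) := by
          intro u v
          refine Finset.prod_congr rfl fun z _ => ?_
          have e0 : ((q z).1 = (q 2).1) ↔
              (z = 2 ∨ (z = 0 ∧ decide ((q 0).1 = (q 2).1) = true)) := by
            fin_cases z
            · simp
            · simpa using hr
            · simp
          simp only [e0]
        simp only [h1]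
        generalize decide ((q 0).1 = (q 2).1) = b
        revert b
        decide +kernel)
  simpa using h

/-- half of the function for `ue22`. -/
def XK2_e22 (u v : Fin 4 → Fin 2) : ℤ :=
  XK1_eps (u 0) (u 1) * XK1_eps (u 2) (u 3) *
    (XK1_eps (v 0) (v 2) * XK1_eps (v 1) (v 3) + XK1_eps (v 0) (v 3) * XK1_eps (v 1) (v 2))

/-- the function for `ue22`. -/
def XK2_g22 (u v : Fin 4 → Fin 2) : ℤ := XK2_e22 u v + XK2_e22 v u

/-- two disjoint pairs can be separated by one function. -/
theorem XK2_chi {r0 r1 r2 r3 : ℕ} (h : r0 ≠ r1) (h' : r2 ≠ r3) :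
    ∃ χ : ℕ → Bool, χ r0 ≠ χ r1 ∧ χ r2 ≠ χ r3 := by
  by_cases hh : r2 = r0 ∨ r3 = r1
  · refine ⟨fun r => decide (r = r0 ∨ r = r2), ?_, ?_⟩
    · have : ¬ (r1 = r0 ∨ r1 = r2) := by omega
      simp [this]
    · have : ¬ (r3 = r0 ∨ r3 = r2) := by omega
      simp [this]
  · refine ⟨fun r => decide (r = r0 ∨ r = r3), ?_, ?_⟩
    · have : ¬ (r1 = r0 ∨ r1 = r3) := by omega
      simp [this]
    · have : ¬ (r2 = r0 ∨ r2 = r3) := by omega
      simp [this]

theorem XK2_val22 : ∀ y : Fin 4 → Bool, y 0 ≠ y 1 → y 2 ≠ y 3 →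
    ∑ u, ∑ v, XK2_g22 u v * ∏ z, (if u z = 0 ∧ v z = 0 then (1 : ℤ) else
      if u z = 1 ∧ v z = 1 then (if y z = true then 1 else 0) else 0) ≠ 0 := by
  decide +kernel

theorem ue22 (q : Fin 4 → ℕ × ℕ) (hc : (q 0).2 = (q 1).2) (hc' : (q 2).2 = (q 3).2)
    (hd : (q 0).2 ≠ (q 2).2) (hr : (q 0).1 ≠ (q 1).1) (hr' : (q 2).1 ≠ (q 3).1) :
    UEx 2 2 1 q := by
  obtain ⟨χ, hχ, hχ'⟩ := XK2_chi hr hr'
  have h := XK1_ue (n := 4) (m₀ := 2) (m₁ := 2) (e := 1) rfl q XK2_g22 (by decide +kernel)
    (by decide +kernel) (by decide +kernel)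
    (by
      intro c hcc
      have h0 : ∀ i, (i = 0 ∨ i = 1) → (c i = 0 ∨ c i = 1) := by
        intro i hi
        have h1 := XK1_mem hcc i
        have hq : (q i).2 = (q 0).2 := by
          rcases hi with rfl | rfl
          · rfl
          · exact hc.symm
        rw [hq] at h1
        by_contra h2
        have h3 : c i = 2 ∨ c i = 3 := by
          clear h1 hcc hq
          revert h2
          generalize c i = j
          revert j
          decide
        rcases h3 with h3 | h3
        · rw [h3] at h1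
          exact hd h1.symm
        · rw [h3, ← hc'] at h1
          exact hd h1.symm
      have h00 := h0 0 (Or.inl rfl)
      have h01 := h0 1 (Or.inr rfl)
      clear hcc h0
      revert h00 h01
      revert c
      decide +kernel)
    (fun a b r => if a = 0 ∧ b = 0 then 1 else
      if a = 1 ∧ b = 1 then (if χ r = true then 1 else 0) else 0)
    (XK2_val22 (fun z => χ (q z).1) hχ hχ')
  simpa using h

end Sx
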