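import Mathlib
import Pool.Agent.Saxl2.XDefs

/-!
Auxiliary lemmas for the explicit blocks (modules XK3, XK4).
-/

namespace Sx

open Finset Equiv

variable {X Y Z : Type} [Fintype X] [DecidableEq X] [Fintype Y] [DecidableEq Y]
  [Fintype Z] [DecidableEq Z]

/-- indicator of the letter `0`. -/
def xku (n : ℕ) : ℤ := if n = 0 then 1 else 0
/-- indicator of the letter `1`. -/
def xkv (n : ℕ) : ℤ := if n = 1 then 1 else 0
/-- the antisymmetric function of two letters. -/
def xke (a b : ℕ) : ℤ := xku a * xkv b - xkv a * xku b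

lemma xku_zero : xku 0 = 1 := rfl
lemma xku_one : xku 1 = 0 := rfl
lemma xkv_zero : xkv 0 = 0 := rfl
lemma xkv_one : xkv 1 = 1 := rfl
lemma xku_big (i : ℕ) : xku (i + 1 + 1) = 0 := by simp [xku]
lemma xkv_big (i : ℕ) : xkv (i + 1 + 1) = 0 := by simp [xkv]

lemma xke_ne {a b : ℕ} (h : xke a b ≠ 0) : (a = 0 ∧ b = 1) ∨ (a = 1 ∧ b = 0) := by
  unfold xke xku xkv at h
  by_cases ha : a = 0
  · by_cases hb : b = 1
    · exact Or.inl ⟨ha, hb⟩
    · exact absurd (by simp [ha, hb]) h
  · by_cases ha' : a = 1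
    · by_cases hb : b = 0
      · exact Or.inr ⟨ha', hb⟩
      · exact absurd (by simp [ha', hb]) h
    · exact absurd (by simp [ha, ha']) h

lemma xku_ne {a : ℕ} (h : xku a ≠ 0) : a = 0 := by
  by_contra ha
  exact h (by simp [xku, ha])

lemma xk_ite (n : ℕ) (A : ℚ) : (if n = 0 then A else 0) = (xku n : ℚ) * A := by
  unfold xku
  split_ifs <;> simp

lemma InA.add {α : ℕ → ℕ} {f g : (X → ℕ) → ℚ} (hf : InA α f) (hg : InA α g) :
    InA α (fun w => f w + g w) := by
  refine ⟨fun w hw j => ?_, fun i w => ?_⟩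
  · by_cases h : f w = 0
    · exact hg.cont w (fun h' => hw (by simp [h, h'])) j
    · exact hf.cont w h j
  · have h1 := hf.hw i w
    have h2 := hg.hw i w
    unfold R at *
    rw [Finset.sum_add_distrib, h1, h2, add_zero]

lemma InA.mulC {α : ℕ → ℕ} {f : (X → ℕ) → ℚ} (hf : InA α f) (a : ℚ) :
    InA α (fun w => f w * a) := by
  refine ⟨fun w hw j => ?_, fun i w => ?_⟩
  · exact hf.cont w (fun h' => hw (by simp [h'])) j
  · have h1 := hf.hw i w
    unfold R at *
    rw [← Finset.sum_mul, h1, zero_mul]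

lemma InA.Cmul {α : ℕ → ℕ} {f : (X → ℕ) → ℚ} (hf : InA α f) (a : ℚ) :
    InA α (fun w => a * f w) := by
  have := hf.mulC a
  simpa only [mul_comm] using this

lemma InA.neg {α : ℕ → ℕ} {f : (X → ℕ) → ℚ} (hf : InA α f) :
    InA α (fun w => - f w) := by
  have := hf.Cmul (-1)
  simpa only [neg_mul, one_mul] using this

lemma InA.sub {α : ℕ → ℕ} {f g : (X → ℕ) → ℚ} (hf : InA α f) (hg : InA α g) :
    InA α (fun w => f w - g w) := by
  have := hf.add hg.neg
  simpa only [sub_eq_add_neg] using this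

/-- a function which changes sign under the transpositions in the columns is alternating. -/
lemma xk_alt {q : Z → ℕ × ℕ} {E : (Z → ℕ) → (Z → ℕ) → ℚ}
    (h : ∀ x y, x ≠ y → (q x).2 = (q y).2 → ∀ w₁ w₂ : Z → ℕ,
      E (w₁ ∘ Equiv.swap x y) (w₂ ∘ Equiv.swap x y) = - E w₁ w₂) :
    ∀ c ∈ colS q, ∀ w₁ w₂, E (w₁ ∘ c) (w₂ ∘ c) = sg c * E w₁ w₂ := by
  suffices H : ∀ n : ℕ, ∀ c : Perm Z, c.support.card = n → c ∈ colS q →
      ∀ w₁ w₂, E (w₁ ∘ c) (w₂ ∘ c) = sg c * E w₁ w₂ from fun c hc => H _ c rfl hc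
  intro n
  induction n using Nat.strong_induction_on with
  | _ n ih =>
    intro c hn hc w₁ w₂
    by_cases h1 : c = 1
    · subst h1
      simp
    · obtain ⟨x, hx⟩ : ∃ x, c x ≠ x := by
        by_contra hcon
        push Not at hcon
        exact h1 (Equiv.ext hcon)
      have hcc : ∀ z, (q (c z)).2 = (q z).2 := by simpa [colS] using hc
      set d : Perm Z := Equiv.swap x (c x) * c with hd
      have hdc : d.support.card < n := hn ▸ Perm.card_support_swap_mul hx
      have hcd : c = Equiv.swap x (c x) * d := by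
        rw [hd, ← mul_assoc, Equiv.swap_mul_self, one_mul]
      have hsw : ∀ z, (q (Equiv.swap x (c x) z)).2 = (q z).2 := by
        intro z
        by_cases hz : z = x
        · subst hz
          rw [Equiv.swap_apply_left, hcc]
        · by_cases hz' : z = c x
          · subst hz'
            rw [Equiv.swap_apply_right, hcc]
          · rw [Equiv.swap_apply_of_ne_of_ne hz hz']
      have hdm : d ∈ colS q := by
        simp only [colS, Finset.mem_filter, Finset.mem_univ, true_and]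
        intro z
        rw [hd, Perm.mul_apply, hsw, hcc]
      have h2 := ih _ hdc d rfl hdm (w₁ ∘ Equiv.swap x (c x)) (w₂ ∘ Equiv.swap x (c x))
      have h3 := h x (c x) (Ne.symm hx) (hcc x).symm w₁ w₂
      have h4 : ∀ w : Z → ℕ, w ∘ c = (w ∘ Equiv.swap x (c x)) ∘ d := by
        intro w
        conv_lhs => rw [hcd]
        rfl
      rw [h4 w₁, h4 w₂, h2, h3]
      have h5 : sg c = - sg d := by
        conv_lhs => rw [hcd]
        rw [sg_mul, sg_swap (Ne.symm hx)]
        ring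
      rw [h5]
      ring

/-- value of the polynomial at the point given by a table (pruned sum). -/
def xkV {n : ℕ} (E : (Fin n → ℕ) → (Fin n → ℕ) → ℤ) (y : Fin 2 → Fin 2 → Fin 3 → ℤ)
    (c : Fin n → Fin 3) : ℤ :=
  ∑ S₁ : Fin n → Fin 2, if (∀ z, ∃ b, y (S₁ z) b (c z) ≠ 0) then
    ∑ S₂ : Fin n → Fin 2, (if (∀ z, y (S₁ z) (S₂ z) (c z) ≠ 0) then
      E (fun z => (S₁ z : ℕ)) (fun z => (S₂ z : ℕ)) * ∏ z, y (S₁ z) (S₂ z) (c z) else 0) else 0

lemma xk_eval {n : ℕ} (E : (Fin n → ℕ) → (Fin n → ℕ) → ℤ) (y : Fin 2 → Fin 2 → Fin 3 → ℤ)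
    (q : Fin n → ℕ × ℕ) (psi : ℕ → Fin 3) (c : Fin n → Fin 3) (hc : ∀ z, psi (q z).1 = c z) :
    MvPolynomial.eval (fun p : Fin 2 × Fin 2 × ℕ => ((y p.1 p.2.1 (psi p.2.2) : ℤ) : ℚ))
      (PP q (fun w₁ w₂ => (E w₁ w₂ : ℚ))) = (xkV E y c : ℚ) := by
  unfold PP xkV
  rw [map_sum]
  push_cast
  refine Finset.sum_congr rfl fun S₁ _ => ?_
  rw [map_sum]
  split_ifs with h
  · refine Finset.sum_congr rfl fun S₂ _ => ?_
    rw [map_mul, MvPolynomial.eval_C, map_prod]
    simp only [MvPolynomial.eval_X, hc]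
    split_ifs with h'
    · rfl
    · push Not at h'
      obtain ⟨z, hz⟩ := h'
      rw [Finset.prod_eq_zero (Finset.mem_univ z), mul_zero]
      simp [hz]
  · push Not at h
    obtain ⟨z, hz⟩ := h
    refine Finset.sum_eq_zero fun S₂ _ => ?_
    rw [map_mul, MvPolynomial.eval_C, map_prod]
    simp only [MvPolynomial.eval_X, hc]
    rw [Finset.prod_eq_zero (Finset.mem_univ z), mul_zero]
    simp [hz]

/-- choice of labels for the rows. -/
lemma xk_psi (b : Fin 3 → ℕ) (hb : Function.Injective b) (A : Finset ℕ) (hA : A.card ≤ 3) :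
    ∃ psi : ℕ → Fin 3, (∀ i, psi (b i) = i) ∧ Set.InjOn psi A := by
  obtain ⟨A', hAA', hA'⟩ := Infinite.exists_superset_card_eq A 3 hA
  set f : ℕ → Fin 3 := Function.invFun b with hf
  have hfb : ∀ i, f (b i) = i := Function.leftInverse_invFun hb
  have hcard : Fintype.card A' = (Finset.univ : Finset (Fin 3)).card := by
    rw [Fintype.card_coe, hA']; simp
  have h1 : ((Finset.univ : Finset A').filter (fun x => ∃ i, b i = x.1)).image (fun x => f x.1) ⊆
      (Finset.univ : Finset (Fin 3)) := Finset.subset_univ _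
  have h2 : Set.InjOn (fun x : A' => f x.1)
      ((Finset.univ : Finset A').filter (fun x => ∃ i, b i = x.1)) := by
    intro x hx y hy hxy
    simp only [Finset.coe_filter, Finset.mem_univ, true_and] at hx hy
    obtain ⟨i, hi⟩ := hx
    obtain ⟨j, hj⟩ := hy
    simp only [← hi, ← hj, hfb] at hxy
    apply Subtype.ext
    rw [← hi, ← hj, hxy]
  obtain ⟨g, hg⟩ := Finset.exists_equiv_extend_of_card_eq hcard h1 h2
  refine ⟨fun n => if h : n ∈ A' then (g ⟨n, h⟩ : Fin 3) else f n, fun i => ?_, ?_⟩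
  · by_cases h : b i ∈ A'
    · simp only [h, dif_pos]
      rw [hg ⟨b i, h⟩ (by simp)]
      exact hfb i
    · simp only [h, dif_neg, not_false_eq_true]
      exact hfb i
  · intro x hx y hy hxy
    have hx' : x ∈ A' := hAA' hx
    have hy' : y ∈ A' := hAA' hy
    simp only [hx', hy', dif_pos] at hxy
    have := g.injective (Subtype.ext hxy)
    exact congrArg Subtype.val this

end Sx
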