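import Mathlib
import Pool.Agent.Saxl2.XDefs
import Pool.Agent.Saxl2.XKaux

/-!
Module XK3: the block of one column with two cells and one column with three cells.
-/

namespace Sx

open Finset Equiv

/-- product of two antisymmetric functions and an indicator. -/
def xk3g (a b c d e : Fin 5) (w : Fin 5 → ℕ) : ℤ :=
  xke (w a) (w b) * xke (w c) (w d) * xku (w e)

/-- the first half of the explicit function. -/
def xk3e (w₁ w₂ : Fin 5 → ℕ) : ℤ :=
  xk3g 0 1 2 3 4 w₁ * (xk3g 2 4 0 3 1 w₂ + xk3g 2 4 1 3 0 w₂) -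
    xk3g 0 1 2 4 3 w₁ * (xk3g 2 3 0 4 1 w₂ + xk3g 2 3 1 4 0 w₂)

/-- the explicit function. -/
def xk3E (w₁ w₂ : Fin 5 → ℕ) : ℤ := xk3e w₁ w₂ + xk3e w₂ w₁

lemma xk3g_ne {a b c d e : Fin 5} {w : Fin 5 → ℕ} (h : (xk3g a b c d e w : ℚ) ≠ 0) :
    ((w a = 0 ∧ w b = 1) ∨ (w a = 1 ∧ w b = 0)) ∧ ((w c = 0 ∧ w d = 1) ∨ (w c = 1 ∧ w d = 0)) ∧
      w e = 0 := by
  have h' : xk3g a b c d e w ≠ 0 := by exact_mod_cast h
  unfold xk3g at h'
  have h1 := right_ne_zero_of_mul h'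
  have h2 := left_ne_zero_of_mul h'
  exact ⟨xke_ne (left_ne_zero_of_mul h2), xke_ne (right_ne_zero_of_mul h2), xku_ne h1⟩

lemma xk3g_inA1 : InA (uc 3 2) (fun w => (xk3g 0 1 2 3 4 w : ℚ)) := by
  refine ⟨fun w hw j => ?_, fun i w => ?_⟩
  · obtain ⟨h1, h2, h3⟩ := xk3g_ne hw
    unfold cnt
    rw [Finset.card_filter, Fin.sum_univ_five]
    rcases h1 with ⟨h1, h1'⟩ | ⟨h1, h1'⟩ <;> rcases h2 with ⟨h2, h2'⟩ | ⟨h2, h2'⟩ <;>
      rw [h1, h1', h2, h2', h3] <;>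
      rcases j with _ | _ | j <;> simp [uc]
  · unfold R
    rw [Finset.sum_filter, Fin.sum_univ_five]
    rcases i with _ | i
    · simp only [xk_ite, xk3g, xke]
      simp [xku_one, xkv_one]
      ring
    · simp [xk3g, xke, xku_big, xkv_big]

lemma xk3g_inA2 : InA (uc 3 2) (fun w => (xk3g 2 4 0 3 1 w : ℚ)) := by
  refine ⟨fun w hw j => ?_, fun i w => ?_⟩
  · obtain ⟨h1, h2, h3⟩ := xk3g_ne hw
    unfold cnt
    rw [Finset.card_filter, Fin.sum_univ_five]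
    rcases h1 with ⟨h1, h1'⟩ | ⟨h1, h1'⟩ <;> rcases h2 with ⟨h2, h2'⟩ | ⟨h2, h2'⟩ <;>
      rw [h1, h1', h2, h2', h3] <;>
      rcases j with _ | _ | j <;> simp [uc]
  · unfold R
    rw [Finset.sum_filter, Fin.sum_univ_five]
    rcases i with _ | i
    · simp only [xk_ite, xk3g, xke]
      simp [xku_one, xkv_one]
      ring
    · simp [xk3g, xke, xku_big, xkv_big]

lemma xk3g_inA3 : InA (uc 3 2) (fun w => (xk3g 2 4 1 3 0 w : ℚ)) := by
  refine ⟨fun w hw j => ?_, fun i w => ?_⟩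
  · obtain ⟨h1, h2, h3⟩ := xk3g_ne hw
    unfold cnt
    rw [Finset.card_filter, Fin.sum_univ_five]
    rcases h1 with ⟨h1, h1'⟩ | ⟨h1, h1'⟩ <;> rcases h2 with ⟨h2, h2'⟩ | ⟨h2, h2'⟩ <;>
      rw [h1, h1', h2, h2', h3] <;>
      rcases j with _ | _ | j <;> simp [uc]
  · unfold R
    rw [Finset.sum_filter, Fin.sum_univ_five]
    rcases i with _ | i
    · simp only [xk_ite, xk3g, xke]
      simp [xku_one, xkv_one]
      ring
    · simp [xk3g, xke, xku_big, xkv_big]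

lemma xk3g_inA4 : InA (uc 3 2) (fun w => (xk3g 0 1 2 4 3 w : ℚ)) := by
  refine ⟨fun w hw j => ?_, fun i w => ?_⟩
  · obtain ⟨h1, h2, h3⟩ := xk3g_ne hw
    unfold cnt
    rw [Finset.card_filter, Fin.sum_univ_five]
    rcases h1 with ⟨h1, h1'⟩ | ⟨h1, h1'⟩ <;> rcases h2 with ⟨h2, h2'⟩ | ⟨h2, h2'⟩ <;>
      rw [h1, h1', h2, h2', h3] <;>
      rcases j with _ | _ | j <;> simp [uc]
  · unfold R
    rw [Finset.sum_filter, Fin.sum_univ_five]
    rcases i with _ | i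
    · simp only [xk_ite, xk3g, xke]
      simp [xku_one, xkv_one]
      ring
    · simp [xk3g, xke, xku_big, xkv_big]

lemma xk3g_inA5 : InA (uc 3 2) (fun w => (xk3g 2 3 0 4 1 w : ℚ)) := by
  refine ⟨fun w hw j => ?_, fun i w => ?_⟩
  · obtain ⟨h1, h2, h3⟩ := xk3g_ne hw
    unfold cnt
    rw [Finset.card_filter, Fin.sum_univ_five]
    rcases h1 with ⟨h1, h1'⟩ | ⟨h1, h1'⟩ <;> rcases h2 with ⟨h2, h2'⟩ | ⟨h2, h2'⟩ <;>
      rw [h1, h1', h2, h2', h3] <;>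
      rcases j with _ | _ | j <;> simp [uc]
  · unfold R
    rw [Finset.sum_filter, Fin.sum_univ_five]
    rcases i with _ | i
    · simp only [xk_ite, xk3g, xke]
      simp [xku_one, xkv_one]
      ring
    · simp [xk3g, xke, xku_big, xkv_big]

lemma xk3g_inA6 : InA (uc 3 2) (fun w => (xk3g 2 3 1 4 0 w : ℚ)) := by
  refine ⟨fun w hw j => ?_, fun i w => ?_⟩
  · obtain ⟨h1, h2, h3⟩ := xk3g_ne hw
    unfold cnt
    rw [Finset.card_filter, Fin.sum_univ_five]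
    rcases h1 with ⟨h1, h1'⟩ | ⟨h1, h1'⟩ <;> rcases h2 with ⟨h2, h2'⟩ | ⟨h2, h2'⟩ <;>
      rw [h1, h1', h2, h2', h3] <;>
      rcases j with _ | _ | j <;> simp [uc]
  · unfold R
    rw [Finset.sum_filter, Fin.sum_univ_five]
    rcases i with _ | i
    · simp only [xk_ite, xk3g, xke]
      simp [xku_one, xkv_one]
      ring
    · simp [xk3g, xke, xku_big, xkv_big]

lemma xk3e_left (w₂ : Fin 5 → ℕ) : InA (uc 3 2) (fun w₁ => (xk3e w₁ w₂ : ℚ)) := by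
  simp only [xk3e, Int.cast_add, Int.cast_sub, Int.cast_mul]
  exact (xk3g_inA1.mulC _).sub (xk3g_inA4.mulC _)

lemma xk3e_right (w₁ : Fin 5 → ℕ) : InA (uc 3 2) (fun w₂ => (xk3e w₁ w₂ : ℚ)) := by
  simp only [xk3e, Int.cast_add, Int.cast_sub, Int.cast_mul]
  exact ((xk3g_inA2.add xk3g_inA3).Cmul _).sub ((xk3g_inA5.add xk3g_inA6).Cmul _)

lemma xk3_inAA : InAA (uc 3 2) (fun w₁ w₂ => (xk3E w₁ w₂ : ℚ)) := by
  constructor
  · intro w₂
    simp only [xk3E, Int.cast_add]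
    exact (xk3e_left w₂).add (xk3e_right w₂)
  · intro w₁
    show InA (uc 3 2) (fun w₂ => (xk3E w₁ w₂ : ℚ))
    simp only [xk3E, Int.cast_add]
    exact (xk3e_right w₁).add (xk3e_left w₁)

lemma xk3_sym (w₁ w₂ : Fin 5 → ℕ) : xk3E w₂ w₁ = xk3E w₁ w₂ := by
  unfold xk3E
  ring

/-- the column of a point. -/
def xk3c : Fin 5 → Fin 2 := ![0, 0, 1, 1, 1]

lemma xk3_swap (x y : Fin 5) (hxy : x < y) (h : xk3c x = xk3c y) (w₁ w₂ : Fin 5 → ℕ) :
    xk3E (w₁ ∘ Equiv.swap x y) (w₂ ∘ Equiv.swap x y) = - xk3E w₁ w₂ := by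
  fin_cases x <;> fin_cases y <;>
    first
    | (exfalso; revert hxy; decide)
    | (exfalso; revert h; decide)
    | skip
  all_goals
    simp only [xk3E, xk3e, xk3g, Function.comp_apply, Equiv.swap_apply_def, Fin.isValue,
      Fin.zero_eta, Fin.mk_one, Fin.reduceFinMk, Fin.reduceEq, reduceIte, xke]
    ring

/-- table of values. -/
def xk3y (a b : Fin 2) (c : Fin 3) : ℤ :=
  if (c = 0 ∧ ¬ (a = 1 ∧ b = 1)) ∨ (c = 2 ∧ a = 0 ∧ b = 1) ∨ (c = 1 ∧ a = 1 ∧ b = 0) then 1 else 0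

set_option maxRecDepth 100000 in
lemma xk3V_ne : ∀ a b : Fin 3, a ≠ b → xkV xk3E xk3y ![a, b, 0, 1, 2] ≠ 0 := by
  decide +kernel

theorem ue23 (q : Fin 5 → ℕ × ℕ) (hc : (q 0).2 = (q 1).2) (hc' : (q 2).2 = (q 3).2)
    (hc'' : (q 3).2 = (q 4).2) (hd : (q 0).2 ≠ (q 2).2) (hr : (q 0).1 ≠ (q 1).1)
    (h23 : (q 2).1 ≠ (q 3).1) (h24 : (q 2).1 ≠ (q 4).1) (h34 : (q 3).1 ≠ (q 4).1) :
    UEx 3 2 1 q := by
  refine ⟨fun w₁ w₂ => (xk3E w₁ w₂ : ℚ), xk3_inAA, fun w₁ w₂ => ?_, ?_, ?_⟩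
  · rw [one_mul, xk3_sym]
  · refine xk_alt (Z := Fin 5) (q := q) (E := fun w₁ w₂ => (xk3E w₁ w₂ : ℚ)) ?_
    intro x y hxy hq w₁ w₂
    have hcol : ∀ z, (q z).2 = if xk3c z = 0 then (q 0).2 else (q 2).2 := by
      intro z
      fin_cases z <;> simp [xk3c] <;> omega
    have hcc : xk3c x = xk3c y := by
      rw [hcol x, hcol y] at hq
      by_contra hne
      split_ifs at hq with h1 h2 h2
      · exact hne (h1.trans h2.symm)
      · exact hd hq
      · exact hd hq.symm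
      · apply hne
        omega
    rcases lt_or_gt_of_ne hxy with h | h
    · have := xk3_swap x y h hcc w₁ w₂
      rw [this]
      push_cast
      rfl
    · have := xk3_swap y x h hcc.symm w₁ w₂
      rw [Equiv.swap_comm, this]
      push_cast
      rfl
  · have hb : Function.Injective (fun i : Fin 3 => (q (![2, 3, 4] i)).1) := by
      intro i j hij
      fin_cases i <;> fin_cases j <;> simp_all
    obtain ⟨psi, h1, h2⟩ := xk_psi (fun i : Fin 3 => (q (![2, 3, 4] i)).1) hb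
      ({(q 0).1, (q 1).1} : Finset ℕ) (Finset.card_le_two.trans (by norm_num))
    have hp : psi (q 0).1 ≠ psi (q 1).1 := fun h => hr (h2 (by simp) (by simp) h)
    intro h0
    have h3 := xk_eval xk3E xk3y q psi ![psi (q 0).1, psi (q 1).1, 0, 1, 2] (by
      intro z
      fin_cases z
      · rfl
      · rfl
      · exact h1 0
      · exact h1 1
      · exact h1 2)
    rw [h0, map_zero] at h3
    exact xk3V_ne _ _ hp (by exact_mod_cast h3.symm)

end Sx
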