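import Mathlib
import Pool.Agent.Saxl2.XDefs
import Pool.Agent.Saxl2.XKaux

/-!
Module XK4: the block of two columns with three cells.
-/

namespace Sx

open Finset Equiv

/-- product of three antisymmetric functions. -/
def xk4g (a b c d e f : Fin 6) (w : Fin 6 → ℕ) : ℤ :=
  xke (w a) (w b) * xke (w c) (w d) * xke (w e) (w f)

/-- the explicit function. -/
def xk4E (w₁ w₂ : Fin 6 → ℕ) : ℤ :=
  xk4g 0 1 3 4 2 5 w₁ * xk4g 0 2 3 5 1 4 w₂ - xk4g 0 2 3 4 1 5 w₁ * xk4g 0 1 3 5 2 4 w₂ -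
    xk4g 0 1 3 5 2 4 w₁ * xk4g 0 2 3 4 1 5 w₂ + xk4g 0 2 3 5 1 4 w₁ * xk4g 0 1 3 4 2 5 w₂

lemma xk4g_ne {a b c d e f : Fin 6} {w : Fin 6 → ℕ} (h : (xk4g a b c d e f w : ℚ) ≠ 0) :
    ((w a = 0 ∧ w b = 1) ∨ (w a = 1 ∧ w b = 0)) ∧ ((w c = 0 ∧ w d = 1) ∨ (w c = 1 ∧ w d = 0)) ∧
      ((w e = 0 ∧ w f = 1) ∨ (w e = 1 ∧ w f = 0)) := by
  have h' : xk4g a b c d e f w ≠ 0 := by exact_mod_cast h
  unfold xk4g at h'
  have h1 := right_ne_zero_of_mul h'
  have h2 := left_ne_zero_of_mul h'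
  exact ⟨xke_ne (left_ne_zero_of_mul h2), xke_ne (right_ne_zero_of_mul h2), xke_ne h1⟩

lemma xk4g_inA1 : InA (uc 3 3) (fun w => (xk4g 0 1 3 4 2 5 w : ℚ)) := by
  refine ⟨fun w hw j => ?_, fun i w => ?_⟩
  · obtain ⟨h1, h2, h3⟩ := xk4g_ne hw
    unfold cnt
    rw [Finset.card_filter, Fin.sum_univ_six]
    rcases h1 with ⟨h1, h1'⟩ | ⟨h1, h1'⟩ <;> rcases h2 with ⟨h2, h2'⟩ | ⟨h2, h2'⟩ <;>
      rcases h3 with ⟨h3, h3'⟩ | ⟨h3, h3'⟩ <;> rw [h1, h1', h2, h2', h3, h3'] <;>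
      rcases j with _ | _ | j <;> simp [uc]
  · unfold R
    rw [Finset.sum_filter, Fin.sum_univ_six]
    rcases i with _ | i
    · simp only [xk_ite, xk4g, xke]
      simp [xku_one, xkv_one]
      ring
    · simp [xk4g, xke, xku_big, xkv_big]

lemma xk4g_inA2 : InA (uc 3 3) (fun w => (xk4g 0 2 3 4 1 5 w : ℚ)) := by
  refine ⟨fun w hw j => ?_, fun i w => ?_⟩
  · obtain ⟨h1, h2, h3⟩ := xk4g_ne hw
    unfold cnt
    rw [Finset.card_filter, Fin.sum_univ_six]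
    rcases h1 with ⟨h1, h1'⟩ | ⟨h1, h1'⟩ <;> rcases h2 with ⟨h2, h2'⟩ | ⟨h2, h2'⟩ <;>
      rcases h3 with ⟨h3, h3'⟩ | ⟨h3, h3'⟩ <;> rw [h1, h1', h2, h2', h3, h3'] <;>
      rcases j with _ | _ | j <;> simp [uc]
  · unfold R
    rw [Finset.sum_filter, Fin.sum_univ_six]
    rcases i with _ | i
    · simp only [xk_ite, xk4g, xke]
      simp [xku_one, xkv_one]
      ring
    · simp [xk4g, xke, xku_big, xkv_big]

lemma xk4g_inA3 : InA (uc 3 3) (fun w => (xk4g 0 1 3 5 2 4 w : ℚ)) := by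
  refine ⟨fun w hw j => ?_, fun i w => ?_⟩
  · obtain ⟨h1, h2, h3⟩ := xk4g_ne hw
    unfold cnt
    rw [Finset.card_filter, Fin.sum_univ_six]
    rcases h1 with ⟨h1, h1'⟩ | ⟨h1, h1'⟩ <;> rcases h2 with ⟨h2, h2'⟩ | ⟨h2, h2'⟩ <;>
      rcases h3 with ⟨h3, h3'⟩ | ⟨h3, h3'⟩ <;> rw [h1, h1', h2, h2', h3, h3'] <;>
      rcases j with _ | _ | j <;> simp [uc]
  · unfold R
    rw [Finset.sum_filter, Fin.sum_univ_six]
    rcases i with _ | i
    · simp only [xk_ite, xk4g, xke]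
      simp [xku_one, xkv_one]
      ring
    · simp [xk4g, xke, xku_big, xkv_big]

lemma xk4g_inA4 : InA (uc 3 3) (fun w => (xk4g 0 2 3 5 1 4 w : ℚ)) := by
  refine ⟨fun w hw j => ?_, fun i w => ?_⟩
  · obtain ⟨h1, h2, h3⟩ := xk4g_ne hw
    unfold cnt
    rw [Finset.card_filter, Fin.sum_univ_six]
    rcases h1 with ⟨h1, h1'⟩ | ⟨h1, h1'⟩ <;> rcases h2 with ⟨h2, h2'⟩ | ⟨h2, h2'⟩ <;>
      rcases h3 with ⟨h3, h3'⟩ | ⟨h3, h3'⟩ <;> rw [h1, h1', h2, h2', h3, h3'] <;>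
      rcases j with _ | _ | j <;> simp [uc]
  · unfold R
    rw [Finset.sum_filter, Fin.sum_univ_six]
    rcases i with _ | i
    · simp only [xk_ite, xk4g, xke]
      simp [xku_one, xkv_one]
      ring
    · simp [xk4g, xke, xku_big, xkv_big]

lemma xk4_inAA : InAA (uc 3 3) (fun w₁ w₂ => (xk4E w₁ w₂ : ℚ)) := by
  have h1 := xk4g_inA1
  have h2 := xk4g_inA2
  have h3 := xk4g_inA3
  have h4 := xk4g_inA4
  constructor
  · intro w₂
    simp only [xk4E, Int.cast_add, Int.cast_sub, Int.cast_mul]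
    exact (((h1.mulC _).sub (h2.mulC _)).sub (h3.mulC _)).add (h4.mulC _)
  · intro w₁
    show InA (uc 3 3) (fun w₂ => (xk4E w₁ w₂ : ℚ))
    simp only [xk4E, Int.cast_add, Int.cast_sub, Int.cast_mul]
    exact (((h4.Cmul _).sub (h3.Cmul _)).sub (h2.Cmul _)).add (h1.Cmul _)

lemma xk4_sym (w₁ w₂ : Fin 6 → ℕ) : xk4E w₂ w₁ = xk4E w₁ w₂ := by
  unfold xk4E
  ring

/-- the column of a point. -/
def xk4c : Fin 6 → Fin 2 := ![0, 0, 0, 1, 1, 1]

lemma xk4_swap (x y : Fin 6) (hxy : x < y) (h : xk4c x = xk4c y) (w₁ w₂ : Fin 6 → ℕ) :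
    xk4E (w₁ ∘ Equiv.swap x y) (w₂ ∘ Equiv.swap x y) = - xk4E w₁ w₂ := by
  fin_cases x <;> fin_cases y <;>
    first
    | (exfalso; revert hxy; decide)
    | (exfalso; revert h; decide)
    | skip
  all_goals
    simp only [xk4E, xk4g, Function.comp_apply, Equiv.swap_apply_def, Fin.isValue, Fin.zero_eta,
      Fin.mk_one, Fin.reduceFinMk, Fin.reduceEq, reduceIte, xke]
    ring

/-- table of values. -/
def xk4y (a b : Fin 2) (c : Fin 3) : ℤ :=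
  if (c = 0 ∧ a = b) ∨ (c = 1 ∧ a = 0 ∧ b = 1) ∨ (c = 2 ∧ a = 1 ∧ b = 0) then 1 else 0

set_option maxRecDepth 100000 in
lemma xk4V_ne : ∀ p : Perm (Fin 3), xkV xk4E xk4y ![0, 1, 2, p 0, p 1, p 2] ≠ 0 := by
  decide +kernel

theorem ue33 (q : Fin 6 → ℕ × ℕ) (hc : (q 0).2 = (q 1).2) (hc' : (q 1).2 = (q 2).2)
    (hd : (q 3).2 = (q 4).2) (hd' : (q 4).2 = (q 5).2) (hn : (q 0).2 ≠ (q 3).2)
    (h01 : (q 0).1 ≠ (q 1).1) (h02 : (q 0).1 ≠ (q 2).1) (h12 : (q 1).1 ≠ (q 2).1)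
    (h34 : (q 3).1 ≠ (q 4).1) (h35 : (q 3).1 ≠ (q 5).1) (h45 : (q 4).1 ≠ (q 5).1) :
    UEx 3 3 1 q := by
  refine ⟨fun w₁ w₂ => (xk4E w₁ w₂ : ℚ), xk4_inAA, fun w₁ w₂ => ?_, ?_, ?_⟩
  · rw [one_mul, xk4_sym]
  · refine xk_alt (Z := Fin 6) (q := q) (E := fun w₁ w₂ => (xk4E w₁ w₂ : ℚ)) ?_
    intro x y hxy hq w₁ w₂
    have hcol : ∀ z, (q z).2 = if xk4c z = 0 then (q 0).2 else (q 3).2 := by
      intro z
      fin_cases z <;> simp [xk4c] <;> omega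
    have hcc : xk4c x = xk4c y := by
      rw [hcol x, hcol y] at hq
      by_contra hne
      split_ifs at hq with h1 h2 h2
      · exact hne (h1.trans h2.symm)
      · exact hn hq
      · exact hn hq.symm
      · apply hne
        omega
    rcases lt_or_gt_of_ne hxy with h | h
    · have := xk4_swap x y h hcc w₁ w₂
      rw [this]
      push_cast
      rfl
    · have := xk4_swap y x h hcc.symm w₁ w₂
      rw [Equiv.swap_comm, this]
      push_cast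
      rfl
  · have hb : Function.Injective (fun i : Fin 3 => (q (![0, 1, 2] i)).1) := by
      intro i j hij
      fin_cases i <;> fin_cases j <;> simp_all
    obtain ⟨psi, h1, h2⟩ := xk_psi (fun i : Fin 3 => (q (![0, 1, 2] i)).1) hb
      ({(q 3).1, (q 4).1, (q 5).1} : Finset ℕ) Finset.card_le_three
    have hp : Function.Injective (fun i : Fin 3 => psi (q (![3, 4, 5] i)).1) := by
      intro i j hij
      have : (q (![3, 4, 5] i)).1 = (q (![3, 4, 5] j)).1 := by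
        apply h2 _ _ hij
        · fin_cases i <;> simp
        · fin_cases j <;> simp
      fin_cases i <;> fin_cases j <;> simp_all
    set p : Perm (Fin 3) := Equiv.ofBijective _ (Finite.injective_iff_bijective.1 hp) with hpd
    intro h0
    have h3 := xk_eval xk4E xk4y q psi ![0, 1, 2, p 0, p 1, p 2] (by
      intro z
      fin_cases z
      · exact h1 0
      · exact h1 1
      · exact h1 2
      · rfl
      · rfl
      · rfl)
    rw [h0, map_zero] at h3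
    exact xk4V_ne p (by exact_mod_cast h3.symm)

end Sx
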