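import Mathlib
import Pool.Agent.Helper87.Saxl.Defs
import Pool.Agent.Saxl2.XDefs
import Pool.Agent.Saxl2.XJ
import Pool.Agent.Saxl2.XK1
import Pool.Agent.Saxl2.XK2
import Pool.Agent.Saxl2.XK3
import Pool.Agent.Saxl2.XK4

/-! Assembly of the blocks (module XL). -/

namespace Sx

open Finset Equiv

set_option linter.unusedSectionVars false
set_option linter.unusedSimpArgs false

variable {X Y Z : Type} [Fintype X] [DecidableEq X] [Fintype Y] [DecidableEq Y]
  [Fintype Z] [DecidableEq Z]

private lemma xl_mem {q : Z → ℕ × ℕ} {h : ℕ} (hh : 1 ≤ h) (j : ℕ) :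
    j ∈ ((univ.image fun z => (q z).2).filter fun j => ch q j = h) ↔ ch q j = h := by
  rw [Finset.mem_filter, and_iff_right_iff_imp]
  intro hj
  have h1 : 0 < ch q j := by omega
  unfold ch at h1
  obtain ⟨z, hz⟩ := Finset.card_pos.1 h1
  rw [Finset.mem_image]
  exact ⟨z, Finset.mem_univ _, (Finset.mem_filter.1 hz).2⟩

private lemma xl_ch (q : Z → ℕ × ℕ) (A : Finset ℕ) (j : ℕ) :
    ch (fun z : {z : Z // (q z).2 ∉ A} => q z.1) j = if j ∈ A then 0 else ch q j := by
  unfold ch
  split_ifs with hj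
  · rw [Finset.card_eq_zero, Finset.filter_eq_empty_iff]
    rintro ⟨z, hz⟩ _ h
    exact hz (h ▸ hj)
  · refine Finset.card_bij (fun z _ => z.1) ?_ ?_ ?_
    · intro z hz
      rw [Finset.mem_filter] at hz ⊢
      exact ⟨Finset.mem_univ _, hz.2⟩
    · intro a _ b _ h
      exact Subtype.ext h
    · intro z hz
      rw [Finset.mem_filter] at hz
      refine ⟨⟨z, ?_⟩, ?_, rfl⟩
      · rw [hz.2]; exact hj
      · rw [Finset.mem_filter]
        exact ⟨Finset.mem_univ _, hz.2⟩

private lemma xl_nh (q : Z → ℕ × ℕ) (A : Finset ℕ) {h : ℕ} (hh : 1 ≤ h) :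
    nh q h = nh (fun z : {z : Z // (q z).2 ∉ A} => q z.1) h +
      (A.filter fun j => ch q j = h).card := by
  unfold nh
  rw [← Finset.card_union_of_disjoint]
  · congr 1
    ext j
    rw [xl_mem hh, Finset.mem_union, xl_mem hh, Finset.mem_filter, xl_ch]
    by_cases hj : j ∈ A
    · simp only [hj, if_true, true_and]
      constructor
      · intro h1; exact Or.inr h1
      · rintro (h1 | h1)
        · omega
        · exact h1
    · simp [hj]
  · rw [Finset.disjoint_left]
    intro j h1 h2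
    rw [xl_mem hh, xl_ch, if_pos (Finset.mem_filter.1 h2).1] at h1
    omega

private lemma xl_enum {n : ℕ} (S : Finset Z) (h : S.card = n) :
    ∃ c : Fin n → Z, Function.Injective c ∧ ∀ z, z ∈ S ↔ ∃ i, c i = z := by
  let e := (S.equivFinOfCardEq h).symm
  refine ⟨fun i => (e i).1, ?_, ?_⟩
  · intro a b hab
    exact e.injective (Subtype.ext hab)
  · intro z
    constructor
    · intro hz
      exact ⟨e.symm ⟨z, hz⟩, by simp⟩
    · rintro ⟨i, hi⟩
      rw [← hi]
      exact (e i).2

private lemma xl_bij {N : ℕ} (q : Z → ℕ × ℕ) (A : Finset ℕ)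
    (k : Fin N → Z) (hk : Function.Injective k) (hA : ∀ z, (q z).2 ∈ A ↔ ∃ i, k i = z) :
    Function.Bijective (Sum.elim k (Subtype.val : {z : Z // (q z).2 ∉ A} → Z)) := by
  constructor
  · refine Function.Injective.sumElim hk Subtype.val_injective ?_
    intro i z h
    exact z.2 (h ▸ (hA _).2 ⟨i, rfl⟩)
  · intro z
    by_cases hz : (q z).2 ∈ A
    · obtain ⟨i, hi⟩ := (hA z).1 hz
      exact ⟨Sum.inl i, hi⟩
    · exact ⟨Sum.inr ⟨z, hz⟩, rfl⟩

private lemma xl_card {N : ℕ} (q : Z → ℕ × ℕ) (A : Finset ℕ)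
    (k : Fin N → Z) (hk : Function.Injective k) (hA : ∀ z, (q z).2 ∈ A ↔ ∃ i, k i = z) :
    Fintype.card Z = N + Fintype.card {z : Z // (q z).2 ∉ A} := by
  rw [← Fintype.card_congr (Equiv.ofBijective _ (xl_bij q A k hk hA)), Fintype.card_sum,
    Fintype.card_fin]

/-- splitting off a set of columns. -/
private lemma xl_split {N a b a' b' : ℕ} {d d' : ℚ} (q : Z → ℕ × ℕ) (A : Finset ℕ)
    (k : Fin N → Z) (hk : Function.Injective k) (hA : ∀ z, (q z).2 ∈ A ↔ ∃ i, k i = z)
    (h1 : UEx a b d (q ∘ k)) (h2 : UEx a' b' d' (fun z : {z : Z // (q z).2 ∉ A} => q z.1)) :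
    UEx (a + a') (b + b') (d * d') q := by
  refine UEx.equiv (Equiv.ofBijective _ (xl_bij q A k hk hA)) ?_
  have he : q ∘ (Equiv.ofBijective _ (xl_bij q A k hk hA)) =
      Sum.elim (q ∘ k) (fun z : {z : Z // (q z).2 ∉ A} => q z.1) := by
    funext x
    rcases x with i | z
    · rfl
    · rfl
  rw [he]
  refine UEx.mul h1 h2 ?_
  intro y z h
  exact z.2 (h ▸ (hA _).2 ⟨y, rfl⟩)

private lemma xl_whole {N a b : ℕ} {d : ℚ} (q : Z → ℕ × ℕ) (k : Fin N → Z)
    (hk : Function.Injective k) (hs : ∀ z, ∃ i, k i = z) (h : UEx a b d (q ∘ k)) :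
    UEx a b d q :=
  UEx.equiv (Equiv.ofBijective k ⟨hk, hs⟩) h

private lemma xl_dl4 (q : Z → ℕ × ℕ) {j : ℕ} (hj : ch q j = 4) :
    dl q = -1 * dl (fun z : {z : Z // (q z).2 ∉ ({j} : Finset ℕ)} => q z.1) := by
  have e4 := xl_nh q {j} (h := 4) (by norm_num)
  have e3 := xl_nh q {j} (h := 3) (by norm_num)
  have e2 := xl_nh q {j} (h := 2) (by norm_num)
  have f4 : (({j} : Finset ℕ).filter fun j => ch q j = 4).card = 1 := by
    rw [Finset.filter_true_of_mem, Finset.card_singleton]
    intro x hx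
    rw [Finset.mem_singleton.1 hx, hj]
  have f3 : (({j} : Finset ℕ).filter fun j => ch q j = 3).card = 0 := by
    rw [Finset.card_eq_zero, Finset.filter_eq_empty_iff]
    intro x hx
    rw [Finset.mem_singleton.1 hx, hj]
    norm_num
  have f2 : (({j} : Finset ℕ).filter fun j => ch q j = 2).card = 0 := by
    rw [Finset.card_eq_zero, Finset.filter_eq_empty_iff]
    intro x hx
    rw [Finset.mem_singleton.1 hx, hj]
    norm_num
  rw [f4] at e4
  rw [f3, add_zero] at e3
  rw [f2, add_zero] at e2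
  unfold dl
  rw [e4, e3, e2, pow_succ]
  ring

private lemma xl_dl2 (q : Z → ℕ × ℕ) {j j' : ℕ} (hne : j ≠ j') (hj : ch q j = ch q j')
    (h3 : ch q j ≤ 3) :
    dl q = 1 * dl (fun z : {z : Z // (q z).2 ∉ ({j, j'} : Finset ℕ)} => q z.1) := by
  have key : ∀ h, (({j, j'} : Finset ℕ).filter fun x => ch q x = h).card =
      if ch q j = h then 2 else 0 := by
    intro h
    split_ifs with hh
    · rw [Finset.filter_true_of_mem, Finset.card_pair hne]
      intro x hx
      rcases Finset.mem_insert.1 hx with rfl | hx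
      · exact hh
      · rw [Finset.mem_singleton.1 hx, ← hj, hh]
    · rw [Finset.card_eq_zero, Finset.filter_eq_empty_iff]
      intro x hx
      rcases Finset.mem_insert.1 hx with rfl | hx
      · exact hh
      · rw [Finset.mem_singleton.1 hx, ← hj]
        exact hh
  have e4 := xl_nh q {j, j'} (h := 4) (by norm_num)
  have e3 := xl_nh q {j, j'} (h := 3) (by norm_num)
  have e2 := xl_nh q {j, j'} (h := 2) (by norm_num)
  rw [key, if_neg (by omega), add_zero] at e4
  rw [key] at e3 e2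
  have g3 : nh q 3 % 2 = nh (fun z : {z : Z // (q z).2 ∉ ({j, j'} : Finset ℕ)} => q z.1) 3 % 2 := by
    rw [e3]
    split_ifs <;> omega
  have g2 : nh q 2 % 2 = nh (fun z : {z : Z // (q z).2 ∉ ({j, j'} : Finset ℕ)} => q z.1) 2 % 2 := by
    rw [e2]
    split_ifs <;> omega
  unfold dl
  rw [e4, g3, g2, one_mul]

private lemma xl_row {q : Z → ℕ × ℕ} (hq : Function.Injective q) {a b : Z} (hab : a ≠ b)
    (hc : (q a).2 = (q b).2) : (q a).1 ≠ (q b).1 :=
  fun h => hab (hq (Prod.ext h hc))

/-- the enumeration of two columns of the same height. -/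
private lemma xl_pair {q : Z → ℕ × ℕ} (hq : Function.Injective q) {j j' h : ℕ} (hne : j ≠ j')
    (hj : ch q j = h) (hj' : ch q j' = h) (h1 : 1 ≤ h) (h3 : h ≤ 3) :
    ∃ k : Fin (2 * h) → Z, Function.Injective k ∧
      (∀ z, (q z).2 ∈ ({j, j'} : Finset ℕ) ↔ ∃ i, k i = z) ∧ UEx h h 1 (q ∘ k) := by
  obtain ⟨c, hc, hcm⟩ := xl_enum (univ.filter fun z => (q z).2 = j) hj
  obtain ⟨c', hc', hcm'⟩ := xl_enum (univ.filter fun z => (q z).2 = j') hj'
  have hcj : ∀ i, (q (c i)).2 = j := fun i => by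
    have := (hcm (c i)).2 ⟨i, rfl⟩
    exact (Finset.mem_filter.1 this).2
  have hcj' : ∀ i, (q (c' i)).2 = j' := fun i => by
    have := (hcm' (c' i)).2 ⟨i, rfl⟩
    exact (Finset.mem_filter.1 this).2
  have hcc : ∀ a b, (q (c a)).2 = (q (c b)).2 := fun a b => (hcj a).trans (hcj b).symm
  have hcc' : ∀ a b, (q (c' a)).2 = (q (c' b)).2 := fun a b => (hcj' a).trans (hcj' b).symm
  have hd : ∀ i i', c i ≠ c' i' := by
    intro i i' hh
    have h5 := hcj i
    rw [hh, hcj' i'] at h5
    exact hne h5.symm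
  have hmem : ∀ z, (q z).2 ∈ ({j, j'} : Finset ℕ) ↔ (∃ i, c i = z) ∨ ∃ i, c' i = z := by
    intro z
    rw [← hcm, ← hcm', Finset.mem_insert, Finset.mem_singleton]
    simp
  obtain rfl | rfl | rfl : h = 1 ∨ h = 2 ∨ h = 3 := by omega
  · refine ⟨![c 0, c' 0], ?_, ?_, ?_⟩
    · rw [← List.nodup_ofFn]
      simp [hd, List.ofFn_succ]
    · intro z
      rw [hmem]
      simp [Fin.exists_fin_succ]
    · refine ue11 _ ?_
      show (q (c 0)).2 ≠ (q (c' 0)).2
      rw [hcj, hcj']
      exact hne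
  · have h01 : c 0 ≠ c 1 := fun h => by simpa using hc h
    have h01' : c' 0 ≠ c' 1 := fun h => by simpa using hc' h
    refine ⟨![c 0, c 1, c' 0, c' 1], ?_, ?_, ?_⟩
    · rw [← List.nodup_ofFn]
      simp [hd, h01, h01', List.ofFn_succ]
    · intro z
      rw [hmem]
      simp [Fin.exists_fin_succ, or_assoc]
    · refine ue22 _ ?_ ?_ ?_ ?_ ?_
      · show (q (c 0)).2 = (q (c 1)).2
        rw [hcj, hcj]
      · show (q (c' 0)).2 = (q (c' 1)).2
        rw [hcj', hcj']
      · show (q (c 0)).2 ≠ (q (c' 0)).2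
        rw [hcj, hcj']
        exact hne
      · exact xl_row hq h01 (hcc 0 1)
      · exact xl_row hq h01' (hcc' 0 1)
  · have h01 : c 0 ≠ c 1 := fun h => by simpa using hc h
    have h02 : c 0 ≠ c 2 := fun h => by simpa using hc h
    have h12 : c 1 ≠ c 2 := fun h => by simpa using hc h
    have h01' : c' 0 ≠ c' 1 := fun h => by simpa using hc' h
    have h02' : c' 0 ≠ c' 2 := fun h => by simpa using hc' h
    have h12' : c' 1 ≠ c' 2 := fun h => by simpa using hc' h
    refine ⟨![c 0, c 1, c 2, c' 0, c' 1, c' 2], ?_, ?_, ?_⟩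
    · rw [← List.nodup_ofFn]
      simp [hd, h01, h02, h12, h01', h02', h12', List.ofFn_succ]
    · intro z
      rw [hmem]
      simp [Fin.exists_fin_succ, or_assoc]
    · refine ue33 _ ?_ ?_ ?_ ?_ ?_ ?_ ?_ ?_ ?_ ?_ ?_
      · show (q (c 0)).2 = (q (c 1)).2
        rw [hcj, hcj]
      · show (q (c 1)).2 = (q (c 2)).2
        rw [hcj, hcj]
      · show (q (c' 0)).2 = (q (c' 1)).2
        rw [hcj', hcj']
      · show (q (c' 1)).2 = (q (c' 2)).2
        rw [hcj', hcj']
      · show (q (c 0)).2 ≠ (q (c' 0)).2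
        rw [hcj, hcj']
        exact hne
      · exact xl_row hq h01 (hcc 0 1)
      · exact xl_row hq h02 (hcc 0 2)
      · exact xl_row hq h12 (hcc 1 2)
      · exact xl_row hq h01' (hcc' 0 1)
      · exact xl_row hq h02' (hcc' 0 2)
      · exact xl_row hq h12' (hcc' 1 2)

private lemma xl_F {q : Z → ℕ × ℕ} {h : ℕ} (h1 : 1 ≤ h)
    (hno : ∀ j j', j ≠ j' → ch q j = h → ch q j' = h → False) :
    ((univ.filter fun z => ch q (q z).2 = h).card = 0 ∧ nh q h = 0) ∨
      ((univ.filter fun z => ch q (q z).2 = h).card = h ∧ nh q h = 1 ∧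
        ∃ j, ∀ z, ch q (q z).2 = h ↔ (q z).2 = j) := by
  by_cases hj : ∃ j, ch q j = h
  · obtain ⟨j, hj⟩ := hj
    right
    have h2 : ∀ z, ch q (q z).2 = h ↔ (q z).2 = j := by
      intro z
      constructor
      · intro hz
        by_contra hne
        exact hno _ _ hne hz hj
      · intro hz
        rw [hz, hj]
    refine ⟨?_, ?_, j, h2⟩
    · rw [Finset.filter_congr (fun z _ => h2 z)]
      exact hj
    · unfold nh
      rw [Finset.card_eq_one]
      refine ⟨j, ?_⟩
      ext x
      rw [xl_mem h1, Finset.mem_singleton]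
      constructor
      · intro hx
        by_contra hne
        exact hno _ _ hne hx hj
      · rintro rfl
        exact hj
  · push Not at hj
    left
    constructor
    · rw [Finset.card_eq_zero, Finset.filter_eq_empty_iff]
      intro z _
      exact hj _
    · unfold nh
      rw [Finset.card_eq_zero, Finset.filter_eq_empty_iff]
      intro j _
      exact hj _

private theorem xl_main : ∀ n : ℕ, ∀ (Z : Type) [Fintype Z] [DecidableEq Z] (q : Z → ℕ × ℕ),
    Function.Injective q → (∀ j, ch q j ≤ 4) → ∀ m, Fintype.card Z = 2 * m + 1 →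
    Fintype.card Z = n → UEx (m + 1) m (dl q) q := by
  intro n
  induction n using Nat.strong_induction_on with
  | _ n ih =>
  intro Z _ _ q hq h4 m hm hn
  have hsub : ∀ (A : Finset ℕ) (a N : ℕ) (d : ℚ) (k : Fin N → Z), 1 ≤ a → N = 2 * a →
      Function.Injective k → (∀ z, (q z).2 ∈ A ↔ ∃ i, k i = z) → UEx a a d (q ∘ k) →
      dl q = d * dl (fun z : {z : Z // (q z).2 ∉ A} => q z.1) → UEx (m + 1) m (dl q) q := by
    intro A a N d k ha hN hk hA h1 hdl
    have hcard := xl_card q A k hk hA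
    have h2 := ih (Fintype.card {z : Z // (q z).2 ∉ A}) (by omega) {z : Z // (q z).2 ∉ A}
      (fun z => q z.1) (fun a b hab => Subtype.ext (hq hab)) (by
        intro j
        rw [xl_ch]
        split_ifs
        · norm_num
        · exact h4 j) (m - a) (by omega) rfl
    have h3 := xl_split q A k hk hA h1 h2
    have e1 : a + (m - a + 1) = m + 1 := by omega
    have e2 : a + (m - a) = m := by omega
    rw [e1, e2, ← hdl] at h3
    exact h3
  by_cases c4 : ∃ j, ch q j = 4
  · obtain ⟨j, hj⟩ := c4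
    obtain ⟨c, hc, hcm⟩ := xl_enum (univ.filter fun z => (q z).2 = j) hj
    have hcj : ∀ i, (q (c i)).2 = j := fun i => by
      have := (hcm (c i)).2 ⟨i, rfl⟩
      exact (Finset.mem_filter.1 this).2
    refine hsub {j} 2 4 (-1) c (by norm_num) (by norm_num) hc ?_ ?_ (xl_dl4 q hj)
    · intro z
      rw [← hcm, Finset.mem_singleton]
      simp
    · refine ue4 _ fun i i' hii' => ?_
      exact xl_row hq (fun h => hii' (hc h)) ((hcj i).trans (hcj i').symm)
  by_cases c2 : ∃ j j', j ≠ j' ∧ 1 ≤ ch q j ∧ ch q j = ch q j'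
  · obtain ⟨j, j', hne, h1, hjj'⟩ := c2
    have h3 : ch q j ≤ 3 := by
      have := h4 j
      have h5 : ch q j ≠ 4 := fun h => c4 ⟨j, h⟩
      omega
    obtain ⟨k, hk, hkA, hU⟩ := xl_pair hq hne rfl hjj'.symm h1 h3
    exact hsub {j, j'} (ch q j) (2 * ch q j) 1 k h1 rfl hk hkA hU (xl_dl2 q hne hjj' h3)
  -- all heights distinct
  have hno : ∀ h, 1 ≤ h → ∀ j j', j ≠ j' → ch q j = h → ch q j' = h → False := by
    intro h h1 j j' hne hj hj'
    exact c2 ⟨j, j', hne, by omega, by omega⟩
  have n4 : nh q 4 = 0 := by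
    unfold nh
    rw [Finset.card_eq_zero, Finset.filter_eq_empty_iff]
    intro j _ hj
    exact c4 ⟨j, hj⟩
  have hpos : ∀ z, 1 ≤ ch q (q z).2 := by
    intro z
    unfold ch
    exact Finset.card_pos.2 ⟨z, by simp⟩
  have hz3 : ∀ z, ch q (q z).2 = 1 ∨ ch q (q z).2 = 2 ∨ ch q (q z).2 = 3 := by
    intro z
    have h1 := hpos z
    have h2 := h4 (q z).2
    have h5 : ch q (q z).2 ≠ 4 := fun h => c4 ⟨_, h⟩
    omega
  have hsum : Fintype.card Z = (univ.filter fun z => ch q (q z).2 = 1).card +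
      (univ.filter fun z => ch q (q z).2 = 2).card +
      (univ.filter fun z => ch q (q z).2 = 3).card := by
    rw [← Finset.card_univ, ← Finset.card_union_of_disjoint, ← Finset.card_union_of_disjoint]
    · congr 1
      ext z
      simp only [Finset.mem_univ, Finset.mem_union, Finset.mem_filter, true_and, true_iff]
      rcases hz3 z with h | h | h <;> simp [h]
    · rw [Finset.disjoint_left]
      intro z h1 h2
      simp only [Finset.mem_union, Finset.mem_filter, Finset.mem_univ, true_and] at h1 h2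
      omega
    · rw [Finset.disjoint_left]
      intro z h1 h2
      simp only [Finset.mem_filter, Finset.mem_univ, true_and] at h1 h2
      omega
  have hnone : ∀ {h : ℕ}, (univ.filter fun z => ch q (q z).2 = h).card = 0 →
      ∀ z, ch q (q z).2 ≠ h := by
    intro h h0 z hz
    rw [Finset.card_eq_zero, Finset.filter_eq_empty_iff] at h0
    exact h0 (Finset.mem_univ z) hz
  rcases xl_F (q := q) (h := 1) (by norm_num) (hno 1 (by norm_num)) with ⟨a1, b1⟩ | ⟨a1, b1, j1, d1⟩ <;>
  rcases xl_F (q := q) (h := 2) (by norm_num) (hno 2 (by norm_num)) with ⟨a2, b2⟩ | ⟨a2, b2, j2, d2⟩ <;>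
  rcases xl_F (q := q) (h := 3) (by norm_num) (hno 3 (by norm_num)) with ⟨a3, b3⟩ | ⟨a3, b3, j3, d3⟩
  · omega
  · -- one column of height three
    obtain rfl : m = 1 := by omega
    have hdl : dl q = -1 := by
      unfold dl
      rw [n4, b2, b3]
      norm_num
    rw [hdl]
    obtain ⟨c, hc, hcm⟩ := xl_enum _ a3
    have hcj : ∀ i, (q (c i)).2 = j3 := fun i => by
      have := (hcm (c i)).2 ⟨i, rfl⟩
      exact (d3 _).1 (Finset.mem_filter.1 this).2
    refine xl_whole q c hc ?_ ?_
    · intro z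
      rw [← hcm, Finset.mem_filter]
      refine ⟨Finset.mem_univ _, ?_⟩
      rcases hz3 z with h | h | h
      · exact absurd h (hnone a1 z)
      · exact absurd h (hnone a2 z)
      · exact h
    · refine ue3 _ ?_ ?_ ?_
      · exact xl_row hq (fun h => by simpa using hc h) ((hcj 0).trans (hcj 1).symm)
      · exact xl_row hq (fun h => by simpa using hc h) ((hcj 0).trans (hcj 2).symm)
      · exact xl_row hq (fun h => by simpa using hc h) ((hcj 1).trans (hcj 2).symm)
  · omega
  · -- heights two and three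
    obtain rfl : m = 2 := by omega
    have hdl : dl q = 1 := by
      unfold dl
      rw [n4, b2, b3]
      norm_num
    rw [hdl]
    obtain ⟨c, hc, hcm⟩ := xl_enum _ a2
    obtain ⟨c', hc', hcm'⟩ := xl_enum _ a3
    have hch : ∀ i, ch q (q (c i)).2 = 2 := fun i =>
      (Finset.mem_filter.1 ((hcm (c i)).2 ⟨i, rfl⟩)).2
    have hch' : ∀ i, ch q (q (c' i)).2 = 3 := fun i =>
      (Finset.mem_filter.1 ((hcm' (c' i)).2 ⟨i, rfl⟩)).2
    have hcc : ∀ a b, (q (c a)).2 = (q (c b)).2 := fun a b =>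
      ((d2 _).1 (hch a)).trans ((d2 _).1 (hch b)).symm
    have hcc' : ∀ a b, (q (c' a)).2 = (q (c' b)).2 := fun a b =>
      ((d3 _).1 (hch' a)).trans ((d3 _).1 (hch' b)).symm
    have hd : ∀ i i', c i ≠ c' i' := by
      intro i i' hh
      have h5 := hch i
      rw [hh, hch' i'] at h5
      norm_num at h5
    have h01 : c 0 ≠ c 1 := fun h => by simpa using hc h
    have h01' : c' 0 ≠ c' 1 := fun h => by simpa using hc' h
    have h02' : c' 0 ≠ c' 2 := fun h => by simpa using hc' h
    have h12' : c' 1 ≠ c' 2 := fun h => by simpa using hc' h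
    refine xl_whole q ![c 0, c 1, c' 0, c' 1, c' 2] ?_ ?_ ?_
    · rw [← List.nodup_ofFn]
      simp [hd, h01, h01', h02', h12', List.ofFn_succ]
    · intro z
      have hz : (∃ i, c i = z) ∨ ∃ i, c' i = z := by
        rw [← hcm, ← hcm', Finset.mem_filter, Finset.mem_filter]
        rcases hz3 z with h | h | h
        · exact absurd h (hnone a1 z)
        · exact Or.inl ⟨Finset.mem_univ _, h⟩
        · exact Or.inr ⟨Finset.mem_univ _, h⟩
      revert hz
      simp [Fin.exists_fin_succ, or_assoc]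
    · refine ue23 _ ?_ ?_ ?_ ?_ ?_ ?_ ?_ ?_
      · exact hcc 0 1
      · exact hcc' 0 1
      · exact hcc' 1 2
      · intro h
        have h5 : (q (c 0)).2 = (q (c' 0)).2 := h
        have h6 := hch 0
        rw [h5, hch' 0] at h6
        norm_num at h6
      · exact xl_row hq h01 (hcc 0 1)
      · exact xl_row hq h01' (hcc' 0 1)
      · exact xl_row hq h02' (hcc' 0 2)
      · exact xl_row hq h12' (hcc' 1 2)
  · -- one cell
    obtain rfl : m = 0 := by omega
    have hdl : dl q = 1 := by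
      unfold dl
      rw [n4, b2, b3]
      norm_num
    rw [hdl]
    obtain ⟨c, hc, hcm⟩ := xl_enum _ a1
    refine xl_whole q c hc ?_ (ue1 _)
    intro z
    rw [← hcm, Finset.mem_filter]
    refine ⟨Finset.mem_univ _, ?_⟩
    rcases hz3 z with h | h | h
    · exact h
    · exact absurd h (hnone a2 z)
    · exact absurd h (hnone a3 z)
  · omega
  · -- heights one and two
    obtain rfl : m = 1 := by omega
    have hdl : dl q = 1 := by
      unfold dl
      rw [n4, b2, b3]
      norm_num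
    rw [hdl]
    obtain ⟨c, hc, hcm⟩ := xl_enum _ a1
    obtain ⟨c', hc', hcm'⟩ := xl_enum _ a2
    have hch : ∀ i, ch q (q (c i)).2 = 1 := fun i =>
      (Finset.mem_filter.1 ((hcm (c i)).2 ⟨i, rfl⟩)).2
    have hch' : ∀ i, ch q (q (c' i)).2 = 2 := fun i =>
      (Finset.mem_filter.1 ((hcm' (c' i)).2 ⟨i, rfl⟩)).2
    have hcc' : ∀ a b, (q (c' a)).2 = (q (c' b)).2 := fun a b =>
      ((d2 _).1 (hch' a)).trans ((d2 _).1 (hch' b)).symm
    have hd : ∀ i i', c i ≠ c' i' := by
      intro i i' hh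
      have h5 := hch i
      rw [hh, hch' i'] at h5
      norm_num at h5
    have h01' : c' 0 ≠ c' 1 := fun h => by simpa using hc' h
    refine xl_whole q ![c 0, c' 0, c' 1] ?_ ?_ ?_
    · rw [← List.nodup_ofFn]
      simp [hd, h01', List.ofFn_succ]
    · intro z
      have hz : (∃ i, c i = z) ∨ ∃ i, c' i = z := by
        rw [← hcm, ← hcm', Finset.mem_filter, Finset.mem_filter]
        rcases hz3 z with h | h | h
        · exact Or.inl ⟨Finset.mem_univ _, h⟩
        · exact Or.inr ⟨Finset.mem_univ _, h⟩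
        · exact absurd h (hnone a3 z)
      revert hz
      simp [Fin.exists_fin_succ]
    · refine ue12 _ ?_ ?_ ?_
      · exact hcc' 0 1
      · intro h
        have h5 : (q (c 0)).2 = (q (c' 0)).2 := h
        have h6 := hch 0
        rw [h5, hch' 0] at h6
        norm_num at h6
      · exact xl_row hq h01' (hcc' 0 1)
  · omega

theorem existsU (q : Z → ℕ × ℕ) (hq : Function.Injective q) (h4 : ∀ j, ch q j ≤ 4) (m : ℕ)
    (hm : Fintype.card Z = 2 * m + 1) : UEx (m + 1) m (dl q) q :=
  xl_main _ Z q hq h4 m hm rfl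

end Sx
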