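import Mathlib
import Pool.Agent.Helper87.Saxl.Defs
import Pool.Agent.Saxl2.XDefs

/-!
Module XM1: the map `J` for a general shape.
-/

namespace Sx

open Finset Equiv

variable {X Y : Type} [Fintype X] [DecidableEq X] [Fintype Y] [DecidableEq Y]

/-- the word of columns of a permuted tableau has content `mu.colLen`. -/
lemma XM1_cnt_col {mu : YoungDiagram} {b : X → ℕ × ℕ} (hb : IsTab b mu) (σ : Perm X) (j : ℕ) :
    cnt (fun x => (b (σ x)).2) j = mu.colLen j := by
  unfold cnt
  have h1 : (univ.filter fun x => (b (σ x)).2 = j).card
      = (univ.filter fun x => (b x).2 = j).card := by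
    refine Finset.card_bij (fun x _ => σ x) ?_ ?_ ?_
    · intro x hx
      simpa using hx
    · intro x _ y _ h
      exact σ.injective h
    · intro y hy
      exact ⟨σ.symm y, by simpa using hy, by simp⟩
  rw [h1, ← Finset.card_range (mu.colLen j)]
  refine Finset.card_bij (fun x _ => (b x).1) ?_ ?_ ?_
  · intro x hx
    have hx' : (b x).2 = j := by simpa using hx
    have hm : ((b x).1, (b x).2) ∈ mu := (hb.mem _).2 ⟨x, rfl⟩
    rw [YoungDiagram.mem_iff_lt_colLen] at hm
    rw [Finset.mem_range, ← hx']
    exact hm
  · intro x hx y hy h
    have hx' : (b x).2 = j := by simpa using hx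
    have hy' : (b y).2 = j := by simpa using hy
    exact hb.inj (Prod.ext h (by rw [hx', hy']))
  · intro i hi
    rw [Finset.mem_range] at hi
    obtain ⟨x, hx⟩ := (hb.mem (i, j)).1 (YoungDiagram.mem_iff_lt_colLen.2 hi)
    exact ⟨x, by simp [hx], by rw [hx]⟩

theorem J_inA {b : X → ℕ × ℕ} {mu : YoungDiagram} (hb : IsTab b mu) (f : (X → ℕ) → ℚ) :
    InA mu.colLen (J b f) := by
  constructor
  · intro w hw
    unfold J at hw
    obtain ⟨σ, _, hσ⟩ := Finset.exists_ne_zero_of_sum_ne_zero hw
    have : w = (fun x => (b (σ x)).2) := by
      by_contra hne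
      exact hσ (by rw [if_neg hne, mul_zero])
    rw [this]
    exact XM1_cnt_col hb σ
  · intro i W
    unfold R J
    rw [← Finset.sum_product']
    -- restrict to the pairs with nonzero indicator
    let s : Finset (X × Perm X) := (univ.filter (fun x => W x = i)) ×ˢ (univ : Finset (Perm X))
    let P : X × Perm X → Prop := fun a =>
      Function.update W a.1 (i + 1) = fun x => (b (a.2 x)).2
    have hfil : ∑ a ∈ s, sg a.2 * (if P a then f (fun x => (b (a.2 x)).1) else 0)
        = ∑ a ∈ s.filter P, sg a.2 * f (fun x => (b (a.2 x)).1) := by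
      rw [Finset.sum_filter]
      refine Finset.sum_congr rfl fun a _ => ?_
      split_ifs <;> simp
    refine hfil.trans ?_
    have key : ∀ a ∈ s.filter P, ∃ y, b (a.2 y) = ((b (a.2 a.1)).1, i) := by
      intro a ha
      obtain ⟨_, hP⟩ := Finset.mem_filter.1 ha
      have h1 : (b (a.2 a.1)).2 = i + 1 := by
        have := congrFun hP a.1
        simpa using this.symm
      have hm : ((b (a.2 a.1)).1, (b (a.2 a.1)).2) ∈ mu := (hb.mem _).2 ⟨_, rfl⟩
      obtain ⟨x, hx⟩ := (hb.mem ((b (a.2 a.1)).1, i)).1
        (mu.up_left_mem le_rfl (by omega) hm)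
      exact ⟨a.2.symm x, by simpa using hx⟩
    -- the involution
    let g : ∀ a ∈ s.filter P, X × Perm X := fun a ha =>
      ((key a ha).choose, a.2 * swap a.1 (key a ha).choose)
    have hsp : ∀ a (ha : a ∈ s.filter P),
        b (a.2 (key a ha).choose) = ((b (a.2 a.1)).1, i) := fun a ha => (key a ha).choose_spec
    have hWx : ∀ a ∈ s.filter P, W a.1 = i := by
      intro a ha
      obtain ⟨h1, _⟩ := Finset.mem_filter.1 ha
      have := (Finset.mem_product.1 h1).1
      simpa using this
    have hcol : ∀ a ∈ s.filter P, (b (a.2 a.1)).2 = i + 1 := by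
      intro a ha
      obtain ⟨_, hP⟩ := Finset.mem_filter.1 ha
      have := congrFun hP a.1
      simpa using this.symm
    have hne : ∀ a (ha : a ∈ s.filter P), (key a ha).choose ≠ a.1 := by
      intro a ha h
      have h1 := hsp a ha
      rw [h] at h1
      have h2 := hcol a ha
      rw [h1] at h2
      simp at h2
    have gmem : ∀ a (ha : a ∈ s.filter P), g a ha ∈ s.filter P := by
      intro a ha
      have hy := hsp a ha
      have hn := hne a ha
      have hWa := hWx a ha
      have hca := hcol a ha
      obtain ⟨_, hP⟩ := Finset.mem_filter.1 ha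
      set y := (key a ha).choose with hydef
      have hWy : W y = i := by
        have := congrFun hP y
        simp only [Function.update_of_ne hn] at this
        rw [this, hy]
      refine Finset.mem_filter.2 ⟨Finset.mem_product.2 ⟨?_, Finset.mem_univ _⟩, ?_⟩
      · exact Finset.mem_filter.2 ⟨Finset.mem_univ _, hWy⟩
      · show Function.update W y (i + 1) = fun x => (b ((a.2 * swap a.1 y) x)).2
        funext x
        rw [Perm.mul_apply]
        by_cases hxy : x = y
        · subst hxy
          rw [Function.update_self, swap_apply_right, hca]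
        · rw [Function.update_of_ne hxy]
          by_cases hxa : x = a.1
          · rw [hxa, swap_apply_left, hy, hWa]
          · rw [swap_apply_of_ne_of_ne hxa hxy]
            have := congrFun hP x
            simpa only [Function.update_of_ne hxa] using this
    refine Finset.sum_involution g ?_ ?_ gmem ?_
    · intro a ha
      have hy := hsp a ha
      have hn := hne a ha
      show sg a.2 * f (fun x => (b (a.2 x)).1)
        + sg (a.2 * swap a.1 (key a ha).choose)
          * f (fun x => (b ((a.2 * swap a.1 (key a ha).choose) x)).1) = 0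
      have hrow : (fun x => (b ((a.2 * swap a.1 (key a ha).choose) x)).1)
          = fun x => (b (a.2 x)).1 := by
        funext x
        rw [Perm.mul_apply]
        by_cases hxy : x = (key a ha).choose
        · rw [hxy, swap_apply_right, hy]
        · by_cases hxa : x = a.1
          · rw [hxa, swap_apply_left, hy]
          · rw [swap_apply_of_ne_of_ne hxa hxy]
      rw [hrow, sg_mul, sg_swap (Ne.symm hn)]
      ring
    · intro a ha _ h
      exact hne a ha (congrArg Prod.fst h)
    · intro a ha
      have hy := hsp a ha
      have hn := hne a ha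
      have hg : g a ha = ((key a ha).choose, a.2 * swap a.1 (key a ha).choose) := rfl
      have h2 := hsp (g a ha) (gmem a ha)
      -- the chosen element for `g a` is `a.1`
      have h3 : (key (g a ha) (gmem a ha)).choose = a.1 := by
        apply (g a ha).2.injective
        apply hb.inj
        rw [h2]
        show ((b ((a.2 * swap a.1 (key a ha).choose) (key a ha).choose)).1, i)
          = b ((a.2 * swap a.1 (key a ha).choose) a.1)
        rw [Perm.mul_apply, Perm.mul_apply, swap_apply_right, swap_apply_left, hy]
      show ((key (g a ha) (gmem a ha)).choose,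
        (g a ha).2 * swap (g a ha).1 (key (g a ha) (gmem a ha)).choose) = a
      rw [h3]
      refine Prod.ext rfl ?_
      show (a.2 * swap a.1 (key a ha).choose) * swap (key a ha).choose a.1 = a.2
      rw [swap_comm (key a ha).choose a.1, mul_assoc, swap_mul_self, mul_one]

end Sx
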