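import Mathlib
import Pool.Agent.Helper87.Saxl.Defs
import Pool.Agent.Helper87.Saxl.Jmap
import Pool.Agent.Helper87.Saxl.VStep
import Pool.Agent.Saxl2.XDefs
import Pool.Agent.Saxl2.XA
import Pool.Agent.Saxl2.XI
import Pool.Agent.Saxl2.XM1
import Pool.Agent.Saxl2.XM3

/-! Transfer to the two-column shape (module XN). -/

namespace Sx

open Finset Equiv

variable {X Y Z : Type} [Fintype X] [DecidableEq X] [Fintype Y] [DecidableEq Y]
  [Fintype Z] [DecidableEq Z]

/-- the two-row shape `(m+1, m)`. -/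
private def xnMu (m : ℕ) : YoungDiagram where
  cells := ({0} ×ˢ range (m + 1)) ∪ ({1} ×ˢ range m)
  isLowerSet := by
    rintro ⟨a, b⟩ ⟨c, d⟩ h hab
    simp only [Finset.coe_union, Finset.coe_product, Finset.coe_singleton, Finset.coe_range,
      Set.mem_union, Set.mem_prod, Set.mem_singleton_iff, Set.mem_Iio] at hab ⊢
    obtain ⟨h1, h2⟩ := Prod.mk_le_mk.1 h
    omega

private lemma xn_mem {m i j : ℕ} : (i, j) ∈ xnMu m ↔ j < uc (m + 1) m i := by
  show (i, j) ∈ (xnMu m).cells ↔ _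
  simp only [xnMu, Finset.mem_union, Finset.mem_product, Finset.mem_singleton, Finset.mem_range]
  unfold uc
  split_ifs <;> omega

private lemma xn_rowLen (m : ℕ) : (xnMu m).rowLen = uc (m + 1) m := by
  funext i
  refine eq_of_forall_lt_iff fun j => ?_
  rw [← YoungDiagram.mem_iff_lt_rowLen, xn_mem]

private lemma xn_colLen (m : ℕ) : (xnMu m).colLen = be (m + 1) := by
  funext j
  refine eq_of_forall_lt_iff fun i => ?_
  rw [← YoungDiagram.mem_iff_lt_colLen, xn_mem]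
  unfold uc be
  split_ifs <;> omega

private lemma xn_card (m : ℕ) : (xnMu m).cells.card = 2 * m + 1 := by
  unfold xnMu
  rw [Finset.card_union_of_disjoint, Finset.card_product, Finset.card_product]
  · simp
    omega
  · rw [Finset.disjoint_left]
    rintro ⟨a, b⟩ h1 h2
    simp only [Finset.mem_product, Finset.mem_singleton] at h1 h2
    omega

private lemma xn_cardZ {m : ℕ} {w : Z → ℕ} (hw : ∀ j, cnt w j = uc (m + 1) m j) :
    Fintype.card Z = 2 * m + 1 := by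
  have h1 : ∀ z, w z = 0 ∨ w z = 1 := by
    intro z
    by_contra hcon
    push Not at hcon
    have h2 := hw (w z)
    have h3 : uc (m + 1) m (w z) = 0 := by
      unfold uc
      rw [if_neg hcon.1, if_neg hcon.2]
    rw [h3] at h2
    unfold cnt at h2
    rw [Finset.card_eq_zero, Finset.filter_eq_empty_iff] at h2
    exact h2 (Finset.mem_univ z) rfl
  have h4 : (univ : Finset Z) = (univ.filter fun z => w z = 0) ∪ (univ.filter fun z => w z = 1) := by
    ext z
    simp only [Finset.mem_univ, Finset.mem_union, Finset.mem_filter, true_and, true_iff]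
    exact h1 z
  have h5 : Disjoint (univ.filter fun z => w z = 0) (univ.filter fun z => w z = 1) := by
    rw [Finset.disjoint_left]
    intro z hz hz'
    rw [Finset.mem_filter] at hz hz'
    omega
  have h6 := hw 0
  have h7 := hw 1
  unfold cnt uc at h6 h7
  rw [← Finset.card_univ, h4, Finset.card_union_of_disjoint h5, h6, h7]
  simp
  omega

private lemma xn_tab {m : ℕ} {w : Z → ℕ} (hw : ∀ j, cnt w j = uc (m + 1) m j) :
    ∃ b : Z → ℕ × ℕ, IsTab b (xnMu m) := by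
  have hc : Fintype.card Z = (xnMu m).cells.card := by rw [xn_card, xn_cardZ hw]
  have hc' : Fintype.card Z = Fintype.card (xnMu m).cells := by
    rw [hc, Fintype.card_coe]
  let e := Fintype.equivOfCardEq hc'
  refine ⟨fun z => (e z : ℕ × ℕ), ?_, ?_⟩
  · intro a b h
    exact e.injective (Subtype.ext h)
  · intro p
    constructor
    · intro hp
      exact ⟨e.symm ⟨p, hp⟩, by simp⟩
    · rintro ⟨x, hx⟩
      rw [← hx]
      exact (e x).2

private lemma xn_comm (b : Z → ℕ × ℕ) (G : (Z → ℕ) → (Z → ℕ) → ℚ) (S₁ S₂ : Z → ℕ) :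
    J b (fun w => J b (G w) S₂) S₁ = J b (fun v => J b (fun w => G w v) S₁) S₂ := by
  simp only [VStepAux.J_eq, Finset.mul_sum]
  rw [Finset.sum_comm]
  refine Finset.sum_congr rfl fun σ _ => Finset.sum_congr rfl fun τ _ => ?_
  ring

private lemma xn_inA_J {α : ℕ → ℕ} {Q : (Z → ℕ) → (Z → ℕ) → ℚ}
    (hQ : ∀ w₂, InA α (fun w₁ => Q w₁ w₂)) (b : Z → ℕ × ℕ) (S₂ : Z → ℕ) :
    InA α (fun w => J b (Q w) S₂) where
  cont w h := by
    have h' : J b (Q w) S₂ ≠ 0 := h
    rw [VStepAux.J_eq] at h'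
    obtain ⟨σ, _, hσ⟩ := Finset.exists_ne_zero_of_sum_ne_zero h'
    exact (hQ _).cont w (right_ne_zero_of_mul hσ)
  hw i w := by
    have h1 : (fun w => J b (Q w) S₂) = fun w => ∑ σ ∈ (univ : Finset (Perm Z)),
        (sg σ * (if S₂ = (fun x => (b (σ x)).2) then 1 else 0)) * Q w (fun x => (b (σ x)).1) := by
      funext w
      exact VStepAux.J_eq b (Q w) S₂
    rw [h1, VStepAux.R_sum]
    refine Finset.sum_eq_zero fun σ _ => ?_
    rw [VStepAux.R_smul i _ (fun w => Q w (fun x => (b (σ x)).1)) w, (hQ _).hw, mul_zero]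

private lemma xn_YS_eq (q : Z → ℕ × ℕ) (F : (Z → ℕ) → (Z → ℕ) → ℚ) (w₁ w₂ : Z → ℕ) :
    YS q F w₁ w₂ = ∑ p ∈ colS q ×ˢ rowS q, sg p.1 *
      F (w₁ ∘ (p.1 * p.2 : Perm Z)) (w₂ ∘ (p.1 * p.2 : Perm Z)) := by
  unfold YS
  rw [Finset.sum_product]
  rfl

private lemma xn_act (b : Z → ℕ × ℕ) (F : (Z → ℕ) → (Z → ℕ) → ℚ) (g : Perm Z)
    (S₁ S₂ : Z → ℕ) : J b (fun w => J b (F w) (S₂ ∘ g)) (S₁ ∘ g) =
      J b (fun w => J b (fun v => F (w ∘ g) (v ∘ g)) S₂) S₁ := by
  rw [VStepAux.J_act']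
  have h : (fun w : Z → ℕ => J b (F (w ∘ g)) (S₂ ∘ g)) =
      fun w => sg g * J b (fun v => F (w ∘ g) (v ∘ g)) S₂ := by
    funext w
    rw [VStepAux.J_act']
  rw [h, VStepAux.J_smul, ← mul_assoc, sg_mul_self, one_mul]

theorem transferJ {m : ℕ} {e : ℚ} {q : Z → ℕ × ℕ} (h : UEx (m + 1) m e q) :
    ∃ E : (Z → ℕ) → (Z → ℕ) → ℚ, InAA (be (m + 1)) E ∧ (∀ w₁ w₂, E w₂ w₁ = e * E w₁ w₂) ∧
      ∃ w₁ w₂, YS q E w₁ w₂ ≠ 0 := by
  obtain ⟨E, hE⟩ := h
  obtain ⟨v₁, v₂, hv⟩ := ue_ys hE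
  have hw : ∃ w : Z → ℕ, ∀ j, cnt w j = uc (m + 1) m j := by
    rw [xn_YS_eq] at hv
    obtain ⟨p, _, hp⟩ := Finset.exists_ne_zero_of_sum_ne_zero hv
    exact ⟨_, (hE.aa.left _).cont _ (right_ne_zero_of_mul hp)⟩
  obtain ⟨w₀, hw₀⟩ := hw
  obtain ⟨b, hb⟩ := xn_tab hw₀
  refine ⟨fun w₁ w₂ => J b (fun w => J b (E w) w₂) w₁, ⟨?_, ?_⟩, ?_, ?_⟩
  · intro w₂
    rw [← xn_colLen]
    exact J_inA hb _
  · intro w₁
    have h1 : (fun w₂ => J b (fun w => J b (E w) w₂) w₁) =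
        fun w₂ => J b (fun v => J b (fun w => E w v) w₁) w₂ := by
      funext w₂
      exact xn_comm b E w₁ w₂
    show InA (be (m + 1)) (fun w₂ => J b (fun w => J b (E w) w₂) w₁)
    rw [h1, ← xn_colLen]
    exact J_inA hb _
  · intro w₁ w₂
    show J b (fun w => J b (E w) w₁) w₂ = e * J b (fun w => J b (E w) w₂) w₁
    rw [xn_comm b E w₁ w₂, ← VStepAux.J_smul]
    congr 1
    funext v
    rw [← VStepAux.J_smul]
    congr 1
    funext w
    exact hE.sym w v
  · by_contra hcon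
    push Not at hcon
    have hQ : InAA (uc (m + 1) m) (YS q E) := by
      have h1 := inAA_sum hE.aa (colS q ×ˢ rowS q) (fun p : Perm Z × Perm Z => sg p.1)
        (fun p => p.1 * p.2)
      have h2 : YS q E = fun S₁ S₂ => ∑ i ∈ colS q ×ˢ rowS q, sg i.1 *
          E (S₁ ∘ (i.1 * i.2 : Perm Z)) (S₂ ∘ (i.1 * i.2 : Perm Z)) := by
        funext S₁ S₂
        exact xn_YS_eq q E S₁ S₂
      rw [h2]
      exact h1
    have h3 : ∀ S₁ S₂, J b (fun w => J b (YS q E w) S₂) S₁ = 0 := by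
      intro S₁ S₂
      have h4 := hcon S₁ S₂
      rw [xn_YS_eq] at h4
      rw [← h4]
      have h5 : (fun w => J b (YS q E w) S₂) = fun w => ∑ p ∈ colS q ×ˢ rowS q, sg p.1 *
          J b (fun v => E (w ∘ (p.1 * p.2 : Perm Z)) (v ∘ (p.1 * p.2 : Perm Z))) S₂ := by
        funext w
        have h6 : YS q E w = fun v => ∑ p ∈ colS q ×ˢ rowS q, sg p.1 *
            E (w ∘ (p.1 * p.2 : Perm Z)) (v ∘ (p.1 * p.2 : Perm Z)) := by
          funext v
          exact xn_YS_eq q E w v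
        rw [h6, VStepAux.J_sum]
        exact Finset.sum_congr rfl fun p _ => VStepAux.J_smul _ _ _ _
      rw [h5, VStepAux.J_sum]
      refine Finset.sum_congr rfl fun p _ => ?_
      rw [VStepAux.J_smul, xn_act]
    have h7 : ∀ w S₂, J b (YS q E w) S₂ = 0 := by
      intro w S₂
      have h8 := xn_inA_J hQ.left b S₂
      rw [← xn_rowLen] at h8
      exact J_injA hb h8 (fun S₁ => h3 S₁ S₂) w
    have h9 : InA (xnMu m).rowLen (YS q E v₁) := by
      rw [xn_rowLen]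
      exact hQ.right v₁
    exact hv (J_injA hb h9 (fun S₂ => h7 v₁ S₂) v₂)

end Sx
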