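import Mathlib
import Pool.Agent.Helper87.Saxl.Defs
import Pool.Agent.Helper87.Saxl.Js
import Pool.Agent.Helper87.Saxl.Strip
import Pool.Agent.Saxl2.XDefs
import Pool.Agent.Saxl2.XD
import Pool.Agent.Saxl2.XC
import Pool.Agent.Saxl2.XH
import Pool.Agent.Saxl2.XN
import Pool.Agent.Saxl2.XL

/-! Module XO: the rules for `GoodW`. -/

namespace Sx

open Finset Equiv

theorem goodW_zero {lam : YoungDiagram} (h : lam.card = 0) : GoodW 0 1 lam := by
  have hl : ∀ p, p ∉ lam := by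
    intro p hp
    have h1 : lam.cells = ∅ := Finset.card_eq_zero.1 h
    have h2 : p ∈ lam.cells := hp
    rw [h1] at h2
    exact absurd h2 (Finset.notMem_empty p)
  have hV : InV 0 (fun _ : Fin 0 → ℕ => (1 : ℚ)) := by
    constructor
    · intro w _ j
      unfold cnt
      simp
    · intro i w
      unfold R
      simp
  refine ⟨Fin 0, inferInstance, inferInstance, fun x => x.elim0, fun _ _ => 1, ?_, ?_, ?_, ?_⟩
  · constructor
    · intro x
      exact x.elim0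
    · intro p
      constructor
      · intro hp
        exact absurd hp (hl p)
      · rintro ⟨x, _⟩
        exact x.elim0
  · refine ⟨⟨fun _ => hV, fun _ => hV⟩, ?_, ?_⟩
    · intro S₁ S₂ _
      have : phik 0 = 0 := by
        unfold phik
        have h0 : (stair 0).cells = ∅ := by
          simp [stair]
        rw [h0]
        simp
      rw [this]
      exact Nat.zero_le _
    · intro a ha S₁ S₂
      exact ha S₁ S₂ ⟨fun x => x.elim0, fun i j => ⟨fun h => by omega, fun ⟨x, _⟩ => x.elim0⟩⟩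
  · intro w₁ w₂
    norm_num
  · refine ⟨fun x => x.elim0, fun x => x.elim0, ?_⟩
    have hc : colS (fun x : Fin 0 => (x.elim0 : ℕ × ℕ)) = {1} := by
      ext c
      simp only [colS, Finset.mem_filter, Finset.mem_univ, true_and, Finset.mem_singleton]
      exact ⟨fun _ => Subsingleton.elim _ _, fun _ x => x.elim0⟩
    have hr : rowS (fun x : Fin 0 => (x.elim0 : ℕ × ℕ)) = {1} := by
      ext c
      simp only [rowS, Finset.mem_filter, Finset.mem_univ, true_and, Finset.mem_singleton]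
      exact ⟨fun _ => Subsingleton.elim _ _, fun _ x => x.elim0⟩
    unfold YS
    rw [hc, hr]
    simp

theorem goodW_h {k : ℕ} {e : ℚ} {nu lam : YoungDiagram} (h : GoodW k e nu)
    (hs : HStrip (k + 1) nu lam) : GoodW (k + 1) e lam := by
  obtain ⟨X, _, _, t, F, ht, hF, hsym, hne⟩ := h
  obtain ⟨q, hq⟩ := strip_tab ht hs.le hs.card
  refine ⟨X ⊕ Fin (k + 1), inferInstance, inferInstance, Sum.elim t q, _, hq,
    goodStep (Nat.le_succ k) hF (blockH k), ?_,
    ysGood (Nat.le_succ k) ht hq hF (blockH k) hne ?_⟩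
  · intro S₁ S₂
    unfold tens
    rw [hsym (S₁ ∘ Sum.inl) (S₂ ∘ Sum.inl)]
    ring
  · refine ⟨fun i => (i : ℕ), fun i => (i : ℕ), ?_⟩
    unfold YS
    rw [colS_hstrip ht hq hs, Finset.sum_singleton]
    have h1 : ∀ r ∈ rowS q, sg (1 : Perm (Fin (k + 1))) *
        (sgnw ((fun i : Fin (k + 1) => (i : ℕ)) ∘ (1 : Perm (Fin (k + 1))) ∘ r) *
          sgnw ((fun i : Fin (k + 1) => (i : ℕ)) ∘ (1 : Perm (Fin (k + 1))) ∘ r)) = 1 := by
      intro r _
      have h2 : (fun i : Fin (k + 1) => (i : ℕ)) ∘ (1 : Perm (Fin (k + 1))) ∘ r =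
          (fun i : Fin (k + 1) => (i : ℕ)) ∘ r := rfl
      rw [h2, sgnw_comp, sgnw_id, sg_one, one_mul, mul_one, sg_mul_self]
    rw [Finset.sum_congr rfl h1, Finset.sum_const, nsmul_eq_mul, mul_one, Nat.cast_ne_zero]
    apply Finset.card_ne_zero_of_mem (a := (1 : Perm (Fin (k + 1))))
    simp [rowS]

/-- general two-column rule: any `E` in the `U`-model. -/
theorem goodW_xU {k : ℕ} {d e : ℚ} {nu lam : YoungDiagram} (h : GoodW k e nu)
    (hs : nu ≤ lam) (hc : lam.card = nu.card + (2 * k + 3))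
    (hE : ∀ q : Fin (2 * k + 3) → ℕ × ℕ, Function.Injective q →
      (∀ p, (∃ z, q z = p) ↔ p ∈ lam ∧ p ∉ nu) → UEx (k + 2) (k + 1) d q) :
    GoodW (k + 2) (e * d) lam := by
  obtain ⟨X, _, _, t, F, ht, hF, hsym, hne⟩ := h
  obtain ⟨q, hq⟩ := strip_tab ht hs hc
  have hqi : Function.Injective q := by
    intro a b hab
    have h2 : Sum.elim t q (Sum.inr a) = Sum.elim t q (Sum.inr b) := hab
    exact Sum.inr_injective (hq.inj h2)
  have hqm : ∀ p, (∃ z, q z = p) ↔ p ∈ lam ∧ p ∉ nu := by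
    intro p
    constructor
    · rintro ⟨z, rfl⟩
      refine ⟨(hq.mem _).2 ⟨Sum.inr z, rfl⟩, fun hn => ?_⟩
      obtain ⟨y, hy⟩ := (ht.mem _).1 hn
      have h2 : Sum.elim t q (Sum.inl y) = Sum.elim t q (Sum.inr z) := hy
      exact Sum.inl_ne_inr (hq.inj h2)
    · rintro ⟨hp, hn⟩
      obtain ⟨x, hx⟩ := (hq.mem p).1 hp
      rcases x with y | z
      · exact absurd ((ht.mem p).2 ⟨y, hx⟩) hn
      · exact ⟨z, hx⟩
  obtain ⟨E, hE1, hE2, hE3⟩ := transferJ (hE q hqi hqm)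
  have hB : BlockE k (k + 2) E := blockX k hE1
  have hk : k ≤ k + 2 := by omega
  refine ⟨X ⊕ Fin (2 * k + 3), inferInstance, inferInstance, Sum.elim t q, _, hq,
    goodStep hk hF hB, ?_, ysGood hk ht hq hF hB hne hE3⟩
  intro S₁ S₂
  unfold tens
  rw [hsym (S₁ ∘ Sum.inl) (S₂ ∘ Sum.inl), hE2 (S₁ ∘ Sum.inr) (S₂ ∘ Sum.inr)]
  ring

section
variable {Z : Type} [Fintype Z]

lemma XO_ch {nu lam : YoungDiagram} {q : Z → ℕ × ℕ} (hq : Function.Injective q)
    (hm : ∀ p, (∃ z, q z = p) ↔ p ∈ lam ∧ p ∉ nu) (j : ℕ) :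
    ch q j = lam.colLen j - nu.colLen j := by
  unfold ch
  rw [← Nat.card_Ico]
  refine Finset.card_nbij (fun z => (q z).1) ?_ ?_ ?_
  · intro z hz
    have hz' : (q z).2 = j := by simpa using hz
    have h1 := (hm (q z)).1 ⟨z, rfl⟩
    obtain ⟨h1, h2⟩ := h1
    have h1' : ((q z).1, (q z).2) ∈ lam := h1
    have h2' : ((q z).1, (q z).2) ∉ nu := h2
    rw [YoungDiagram.mem_iff_lt_colLen, hz'] at h1' h2'
    rw [Finset.mem_coe, Finset.mem_Ico]
    change nu.colLen j ≤ (q z).1 ∧ (q z).1 < lam.colLen j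
    omega
  · intro z hz z' hz' h
    have h1 : (q z).2 = j := by simpa using hz
    have h2 : (q z').2 = j := by simpa using hz'
    exact hq (Prod.ext h (h1.trans h2.symm))
  · intro i hi
    rw [Finset.mem_coe, Finset.mem_Ico] at hi
    have h1 : ((i, j) : ℕ × ℕ) ∈ lam := by
      rw [YoungDiagram.mem_iff_lt_colLen]; exact hi.2
    have h2 : ((i, j) : ℕ × ℕ) ∉ nu := by
      rw [YoungDiagram.mem_iff_lt_colLen]; omega
    obtain ⟨z, hz⟩ := (hm (i, j)).2 ⟨h1, h2⟩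
    refine ⟨z, ?_, ?_⟩
    · simp [hz]
    · simp [hz]

lemma XO_nh {nu lam : YoungDiagram} {q : Z → ℕ × ℕ} (hq : Function.Injective q)
    (hm : ∀ p, (∃ z, q z = p) ↔ p ∈ lam ∧ p ∉ nu) (h : ℕ) (hh : 0 < h) :
    nh q h = nc nu lam h := by
  unfold nh nc
  congr 1
  ext j
  simp only [Finset.mem_filter, Finset.mem_image, Finset.mem_univ, true_and, Finset.mem_range,
    XO_ch hq hm]
  constructor
  · rintro ⟨⟨z, hz⟩, h2⟩
    refine ⟨?_, h2⟩
    rw [← YoungDiagram.mem_iff_lt_rowLen, YoungDiagram.mem_iff_lt_colLen]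
    omega
  · rintro ⟨_, h2⟩
    refine ⟨?_, h2⟩
    have h3 : ch q j = h := by rw [XO_ch hq hm, h2]
    have h4 : 0 < ch q j := by omega
    unfold ch at h4
    obtain ⟨z, hz⟩ := Finset.card_pos.1 h4
    exact ⟨z, by simpa using hz⟩

lemma XO_dl {nu lam : YoungDiagram} {q : Z → ℕ × ℕ} (hq : Function.Injective q)
    (hm : ∀ p, (∃ z, q z = p) ↔ p ∈ lam ∧ p ∉ nu) : dl q = dlt nu lam := by
  unfold dl dlt
  rw [XO_nh hq hm 4 (by norm_num), XO_nh hq hm 3 (by norm_num), XO_nh hq hm 2 (by norm_num)]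

end

theorem goodW_x {k : ℕ} {e : ℚ} {nu lam : YoungDiagram} (h : GoodW k e nu)
    (hs : CStrip (2 * k + 3) nu lam) : GoodW (k + 2) (e * dlt nu lam) lam := by
  refine goodW_xU h hs.le hs.card fun q hq hm => ?_
  have h1 := existsU q hq (fun j => by
    rw [XO_ch hq hm]
    have := hs.col j
    omega) (k + 1) (by rw [Fintype.card_fin]; ring)
  rw [XO_dl hq hm] at h1
  exact h1

theorem symW_of_goodW {k : ℕ} {lam : YoungDiagram} (h : GoodW k 1 lam) : SymW k lam := by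
  obtain ⟨X, i1, i2, t, F, ht, hF, hsym, hne⟩ := h
  refine ⟨X, i1, i2, t, F, ht, hF.vv, fun w₁ w₂ => ?_, hne⟩
  rw [hsym w₁ w₂, one_mul]

theorem altW_of_goodW {k : ℕ} {lam : YoungDiagram} (h : GoodW k (-1) lam) : AltW k lam := by
  obtain ⟨X, i1, i2, t, F, ht, hF, hsym, hne⟩ := h
  refine ⟨X, i1, i2, t, F, ht, hF.vv, fun w₁ w₂ => ?_, hne⟩
  rw [hsym w₁ w₂, neg_one_mul]

end Sx
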