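import Mathlib
import Pool.Agent.Helper87.Saxl.Defs
import Pool.Agent.Saxl2.XDefs
import Pool.Agent.Saxl2.XJ
import Pool.Agent.Saxl2.XK1
import Pool.Agent.Saxl2.XK2
import Pool.Agent.Saxl2.XO

/-! Module XP: three exceptional shapes. -/

namespace Sx

open Finset Equiv

/-- cells for `goodW_321`. -/
def XP_q3 : Fin 5 → ℕ × ℕ := ![(0, 1), (1, 0), (2, 0), (1, 1), (0, 2)]

/-- function for `goodW_321` before antisymmetrization. -/
def XP_f3 (u v : Fin 5 → Fin 2) : ℤ :=
  ((if u 2 = 0 then XK1_eps (u 0) (u 1) else 0) * (if v 1 = 0 then XK1_eps (v 0) (v 2) else 0) -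
  (if u 1 = 0 then XK1_eps (u 0) (u 2) else 0) * (if v 2 = 0 then XK1_eps (v 0) (v 1) else 0)) *
  (XK1_eps (u 3) (u 4) * XK1_eps (v 3) (v 4))

/-- function for `goodW_321`. -/
def XP_g3 (u v : Fin 5 → Fin 2) : ℤ :=
  XP_f3 u v - XP_f3 ![u 3, u 1, u 2, u 0, u 4] ![v 3, v 1, v 2, v 0, v 4]

lemma XP_ue3 : UEx 3 2 (-1) XP_q3 := by
  have h := XK1_ue (n := 5) (m₀ := 3) (m₁ := 2) (e := -1) rfl XP_q3 XP_g3 (by decide +kernel)
    (by decide +kernel) (by decide +kernel)
    (by
      intro c hc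
      have h1 := XK1_mem hc
      clear hc
      revert c
      decide +kernel)
    (fun a b r => if a = 0 ∧ b = 0 then (if r = 0 then 1 else 0) else
      if a = 0 ∧ b = 1 then (if r = 1 then 1 else 0) else
      if a = 1 ∧ b = 0 then (if r = 2 then 1 else 0) else (if r = 1 then 1 else 0)) (by
        decide +kernel)
  simpa using h

/-- cells for `goodW_2211`. -/
def XP_q4 : Fin 5 → ℕ × ℕ := ![(0, 1), (1, 0), (2, 0), (3, 0), (1, 1)]

/-- function for `goodW_2211` before antisymmetrization. -/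
def XP_f4 (u v : Fin 5 → Fin 2) : ℤ :=
  (XK1_eps (u 0) (u 1) * XK1_eps (u 2) (u 3) * (XK1_eps (v 0) (v 2) * XK1_eps (v 1) (v 3)) -
  XK1_eps (v 0) (v 1) * XK1_eps (v 2) (v 3) * (XK1_eps (u 0) (u 2) * XK1_eps (u 1) (u 3))) *
  (if u 4 = 0 ∧ v 4 = 0 then 1 else 0)

/-- function for `goodW_2211`. -/
def XP_g4 (u v : Fin 5 → Fin 2) : ℤ :=
  XP_f4 u v - XP_f4 ![u 4, u 1, u 2, u 3, u 0] ![v 4, v 1, v 2, v 3, v 0]

lemma XP_ue4 : UEx 3 2 (-1) XP_q4 := by
  have h := XK1_ue (n := 5) (m₀ := 3) (m₁ := 2) (e := -1) rfl XP_q4 XP_g4 (by decide +kernel)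
    (by decide +kernel) (by decide +kernel)
    (by
      intro c hc
      have h1 := XK1_mem hc
      clear hc
      revert c
      decide +kernel)
    (fun a b r => if a = 0 ∧ b = 0 then (if r = 0 ∨ r = 1 then 1 else 0) else
      if a = 0 ∧ b = 1 then (if r = 1 then 1 else 0) else
      if a = 1 ∧ b = 0 then (if r = 2 then 1 else 0) else (if r = 3 then 1 else 0)) (by
        decide +kernel)
  simpa using h

lemma XP_equiv {Y Z : Type} [Fintype Y] [Fintype Z] {m₀ m₁ : ℕ} {d : ℚ} [DecidableEq Y]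
    [DecidableEq Z] (f : Y → ℕ × ℕ)
    (hf : Function.Injective f) (hc : Fintype.card Y = Fintype.card Z) {q : Z → ℕ × ℕ}
    (h : ∀ y, ∃ z, q z = f y) (hu : UEx m₀ m₁ d f) : UEx m₀ m₁ d q := by
  choose e he using h
  have hinj : Function.Injective e := by
    intro a b hab
    apply hf
    rw [← he a, ← he b, hab]
  have hb : Function.Bijective e := (Fintype.bijective_iff_injective_and_card e).2 ⟨hinj, hc⟩
  refine UEx.equiv (Equiv.ofBijective e hb) ?_
  have : q ∘ (Equiv.ofBijective e hb) = f := by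
    funext y
    exact he y
  rw [this]
  exact hu

lemma XP_colLen (k j : ℕ) : (stair k).colLen j = k - j := by
  by_contra hne
  rcases Nat.lt_or_ge ((stair k).colLen j) (k - j) with h | h
  · have h1 : (((stair k).colLen j, j) : ℕ × ℕ) ∈ stair k := by
      rw [mem_stair]
      show (stair k).colLen j + j < k
      omega
    rw [YoungDiagram.mem_iff_lt_colLen] at h1
    exact lt_irrefl _ h1
  · have h1 : ((k - j, j) : ℕ × ℕ) ∈ stair k := by
      rw [YoungDiagram.mem_iff_lt_colLen]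
      omega
    rw [mem_stair] at h1
    change k - j + j < k at h1
    omega

lemma XP_card (k : ℕ) : (stair (k + 1)).card = (stair k).card + (k + 1) := by
  have h1 : (stair (k + 1)).cells = (stair k).cells ∪ Finset.HasAntidiagonal.antidiagonal k := by
    ext p
    rw [Finset.mem_union, Finset.HasAntidiagonal.mem_antidiagonal]
    change p ∈ stair (k + 1) ↔ p ∈ stair k ∨ _
    rw [mem_stair, mem_stair]
    omega
  have h2 : Disjoint (stair k).cells (Finset.HasAntidiagonal.antidiagonal k) := by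
    rw [Finset.disjoint_left]
    intro p hp hp'
    rw [Finset.HasAntidiagonal.mem_antidiagonal] at hp'
    have hp2 : p ∈ stair k := hp
    rw [mem_stair] at hp2
    omega
  show (stair (k + 1)).cells.card = (stair k).cells.card + (k + 1)
  rw [h1, Finset.card_union_of_disjoint h2, Finset.Nat.card_antidiagonal]

lemma XP_hstrip (k : ℕ) : HStrip (k + 1) (stair k) (stair (k + 1)) where
  le := by
    intro p hp
    rw [mem_stair] at hp ⊢
    omega
  card := XP_card k
  col := by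
    intro j
    rw [XP_colLen, XP_colLen]
    omega

lemma XP_card_zero : (stair 0).card = 0 := by
  show (stair 0).cells.card = 0
  simp [stair]

lemma XP_stair (k : ℕ) : GoodW k 1 (stair k) := by
  induction k with
  | zero => exact goodW_zero XP_card_zero
  | succ k ih => exact goodW_h ih (XP_hstrip k)

lemma XP_card_one : (stair 1).card = 1 := by
  have := XP_card 0
  rw [XP_card_zero] at this
  simpa using this

lemma XP_card_two : (stair 2).card = 3 := by
  have := XP_card 1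
  rw [XP_card_one] at this
  simpa using this

theorem goodW_321 {lam : YoungDiagram} (h : lam.card = 6) (h0 : lam.rowLen 0 = 3)
    (h1 : lam.rowLen 1 = 2) (h2 : lam.rowLen 2 = 1) : GoodW 3 (-1) lam := by
  have hm : ∀ i j, ((i, j) : ℕ × ℕ) ∈ lam ↔ j < lam.rowLen i := fun i j =>
    YoungDiagram.mem_iff_lt_rowLen
  have hle : stair 1 ≤ lam := by
    rintro ⟨i, j⟩ hp
    rw [mem_stair] at hp
    change i + j < 1 at hp
    have hi : i = 0 := by omega
    have hj : j = 0 := by omega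
    subst hi hj
    rw [hm, h0]
    norm_num
  have key := goodW_xU (XP_stair 1) (d := -1) hle (by rw [h, XP_card_one]) fun q _ hq => by
    refine XP_equiv XP_q3 (by decide +kernel) rfl (fun y => ?_) XP_ue3
    rw [hq, mem_stair]
    fin_cases y
    · show ((0, 1) : ℕ × ℕ) ∈ lam ∧ ¬ (0 + 1 < 1)
      rw [hm, h0]; norm_num
    · show ((1, 0) : ℕ × ℕ) ∈ lam ∧ ¬ (1 + 0 < 1)
      rw [hm, h1]; norm_num
    · show ((2, 0) : ℕ × ℕ) ∈ lam ∧ ¬ (2 + 0 < 1)
      rw [hm, h2]; norm_num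
    · show ((1, 1) : ℕ × ℕ) ∈ lam ∧ ¬ (1 + 1 < 1)
      rw [hm, h1]; norm_num
    · show ((0, 2) : ℕ × ℕ) ∈ lam ∧ ¬ (0 + 2 < 1)
      rw [hm, h0]; norm_num
  simpa using key

theorem goodW_2211 {lam : YoungDiagram} (h : lam.card = 6) (h0 : lam.rowLen 0 = 2)
    (h1 : lam.rowLen 1 = 2) (h2 : lam.rowLen 2 = 1) : GoodW 3 (-1) lam := by
  have hm : ∀ i j, ((i, j) : ℕ × ℕ) ∈ lam ↔ j < lam.rowLen i := fun i j =>
    YoungDiagram.mem_iff_lt_rowLen
  have hle : stair 1 ≤ lam := by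
    rintro ⟨i, j⟩ hp
    rw [mem_stair] at hp
    change i + j < 1 at hp
    have hi : i = 0 := by omega
    have hj : j = 0 := by omega
    subst hi hj
    rw [hm, h0]
    norm_num
  have h3 : ((3, 0) : ℕ × ℕ) ∈ lam := by
    by_contra hcon
    have hsub : lam.cells ⊆ {(0, 0), (0, 1), (1, 0), (1, 1), (2, 0)} := by
      rintro ⟨i, j⟩ hp
      have hp' : ((i, j) : ℕ × ℕ) ∈ lam := hp
      have hi : i < 3 := by
        by_contra hi
        exact hcon (lam.up_left_mem (by omega : 3 ≤ i) (Nat.zero_le j) hp')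
      rw [hm] at hp'
      interval_cases i
      · rw [h0] at hp'
        interval_cases j <;> simp
      · rw [h1] at hp'
        interval_cases j <;> simp
      · rw [h2] at hp'
        interval_cases j
        simp
    have hc := Finset.card_le_card hsub
    have h6 : lam.cells.card = 6 := h
    rw [h6] at hc
    have h5 : ({(0, 0), (0, 1), (1, 0), (1, 1), (2, 0)} : Finset (ℕ × ℕ)).card = 5 := by
      decide
    omega
  have key := goodW_xU (XP_stair 1) (d := -1) hle (by rw [h, XP_card_one]) fun q _ hq => by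
    refine XP_equiv XP_q4 (by decide +kernel) rfl (fun y => ?_) XP_ue4
    rw [hq, mem_stair]
    fin_cases y
    · show ((0, 1) : ℕ × ℕ) ∈ lam ∧ ¬ (0 + 1 < 1)
      rw [hm, h0]; norm_num
    · show ((1, 0) : ℕ × ℕ) ∈ lam ∧ ¬ (1 + 0 < 1)
      rw [hm, h1]; norm_num
    · show ((2, 0) : ℕ × ℕ) ∈ lam ∧ ¬ (2 + 0 < 1)
      rw [hm, h2]; norm_num
    · show ((3, 0) : ℕ × ℕ) ∈ lam ∧ ¬ (3 + 0 < 1)
      exact ⟨h3, by norm_num⟩
    · show ((1, 1) : ℕ × ℕ) ∈ lam ∧ ¬ (1 + 1 < 1)
      rw [hm, h1]; norm_num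
  simpa using key

/-- cells for `goodW_442`. -/
def XP_q7 : Fin 3 ⊕ Fin 4 → ℕ × ℕ :=
  Sum.elim ![(2, 0), (0, 2), (1, 2)] ![(1, 1), (2, 1), (0, 3), (1, 3)]

lemma XP_ue7 : UEx 4 3 (-1) XP_q7 := by
  have h := UEx.mul (ue3 ![(2, 0), (0, 2), (1, 2)] (by decide) (by decide) (by decide))
    (ue22 ![(1, 1), (2, 1), (0, 3), (1, 3)] (by decide) (by decide) (by decide) (by decide)
      (by decide)) (by decide)
  rw [mul_one] at h
  exact h

theorem goodW_442 {lam : YoungDiagram} (h : lam.card = 10) (h0 : lam.rowLen 0 = 4)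
    (h1 : lam.rowLen 1 = 4) (h2 : lam.rowLen 2 = 2) : GoodW 4 (-1) lam := by
  have hm : ∀ i j, ((i, j) : ℕ × ℕ) ∈ lam ↔ j < lam.rowLen i := fun i j =>
    YoungDiagram.mem_iff_lt_rowLen
  have hle : stair 2 ≤ lam := by
    rintro ⟨i, j⟩ hp
    rw [mem_stair] at hp
    change i + j < 2 at hp
    have hi : i < 2 := by omega
    rw [hm]
    interval_cases i
    · rw [h0]; omega
    · rw [h1]; omega
  have key := goodW_xU (XP_stair 2) (d := -1) hle (by rw [h, XP_card_two]) fun q _ hq => by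
    have hi : Function.Injective XP_q7 := by decide +kernel
    have hc : Fintype.card (Fin 3 ⊕ Fin 4) = Fintype.card (Fin (2 * 2 + 3)) := by
      rw [Fintype.card_sum, Fintype.card_fin, Fintype.card_fin, Fintype.card_fin]
    refine XP_equiv (Z := Fin (2 * 2 + 3)) XP_q7 hi hc (fun y => ?_) XP_ue7
    rw [hq, mem_stair]
    rcases y with y | y
    · fin_cases y
      · show ((2, 0) : ℕ × ℕ) ∈ lam ∧ ¬ (2 + 0 < 2)
        rw [hm, h2]; norm_num
      · show ((0, 2) : ℕ × ℕ) ∈ lam ∧ ¬ (0 + 2 < 2)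
        rw [hm, h0]; norm_num
      · show ((1, 2) : ℕ × ℕ) ∈ lam ∧ ¬ (1 + 2 < 2)
        rw [hm, h1]; norm_num
    · fin_cases y
      · show ((1, 1) : ℕ × ℕ) ∈ lam ∧ ¬ (1 + 1 < 2)
        rw [hm, h1]; norm_num
      · show ((2, 1) : ℕ × ℕ) ∈ lam ∧ ¬ (2 + 1 < 2)
        rw [hm, h2]; norm_num
      · show ((0, 3) : ℕ × ℕ) ∈ lam ∧ ¬ (0 + 3 < 2)
        rw [hm, h0]; norm_num
      · show ((1, 3) : ℕ × ℕ) ∈ lam ∧ ¬ (1 + 3 < 2)
        rw [hm, h1]; norm_num
  simpa using key

end Sx
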