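import Pool.Agent.Saxl2.YDefs

/-!
# YC1: lists and Young diagrams
-/

namespace Sx

open Finset

lemma yc1_mem_YD {l : List ℕ} (h : l.SortedGE) (i j : ℕ) : (i, j) ∈ YD l ↔ j < rl l i := by
  unfold YD rl
  rw [dif_pos h, YoungDiagram.mem_ofRowLens]
  simp only
  constructor
  · rintro ⟨h1, h2⟩
    rw [List.getD_eq_getElem _ _ h1]; exact h2
  · intro h1
    by_cases h2 : i < l.length
    · rw [List.getD_eq_getElem _ _ h2] at h1
      exact ⟨h2, h1⟩
    · rw [List.getD_eq_default _ _ (by omega)] at h1
      omega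

theorem YD_rowLen {l : List ℕ} (h : l.SortedGE) (i : ℕ) : (YD l).rowLen i = rl l i := by
  apply eq_of_forall_lt_iff
  intro j
  rw [← YoungDiagram.mem_iff_lt_rowLen, yc1_mem_YD h]

lemma yc1_cl_cons (a : ℕ) (l : List ℕ) (j : ℕ) : cl (a :: l) j = cl l j + if j < a then 1 else 0 := by
  unfold cl
  rw [List.filter_cons]
  by_cases h : j < a
  · simp [h]
  · simp [h]

lemma yc1_cl_eq_zero {l : List ℕ} {j : ℕ} (h : ∀ x ∈ l, x ≤ j) : cl l j = 0 := by
  unfold cl
  rw [List.length_eq_zero_iff, List.filter_eq_nil_iff]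
  intro x hx
  have := h x hx
  simp only [decide_eq_true_eq]
  omega

lemma yc1_lt_cl {l : List ℕ} (h : l.Pairwise (· ≥ ·)) (i j : ℕ) : i < cl l j ↔ j < rl l i := by
  induction l generalizing i with
  | nil => simp [cl, rl]
  | cons a l ih =>
    rw [List.pairwise_cons] at h
    rw [yc1_cl_cons]
    by_cases hj : j < a
    · rw [if_pos hj]
      rcases i with _ | i
      · simp [rl, hj]
      · have e : rl (a :: l) (i + 1) = rl l i := by simp [rl]
        rw [e, ← ih h.2]
        omega
    · rw [if_neg hj, yc1_cl_eq_zero (fun x hx => (h.1 x hx).trans (by omega))]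
      constructor
      · intro h1; omega
      · intro h1
        rcases i with _ | i
        · simp [rl] at h1; omega
        · have e : rl (a :: l) (i + 1) = rl l i := by simp [rl]
          rw [e, ← ih h.2, yc1_cl_eq_zero (fun x hx => (h.1 x hx).trans (by omega))] at h1
          omega

theorem YD_colLen {l : List ℕ} (h : l.SortedGE) (j : ℕ) : (YD l).colLen j = cl l j := by
  apply eq_of_forall_lt_iff
  intro i
  rw [← YoungDiagram.mem_iff_lt_colLen, yc1_mem_YD h, yc1_lt_cl h.pairwise]

lemma yc1_card_cells (l : List ℕ) : (YoungDiagram.cellsOfRowLens l).card = l.sum := by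
  induction l with
  | nil => rfl
  | cons a l ih =>
    rw [YoungDiagram.cellsOfRowLens, Finset.card_union_of_disjoint, Finset.card_map, ih,
      Finset.card_product, Finset.card_singleton, Finset.card_range, one_mul, List.sum_cons]
    rw [Finset.disjoint_left]
    rintro ⟨x, y⟩ h1 h2
    rw [Finset.mem_product, Finset.mem_singleton] at h1
    rw [Finset.mem_map] at h2
    obtain ⟨⟨x', y'⟩, _, h3⟩ := h2
    have h4 : Nat.succ x' = x := congrArg Prod.fst h3
    have h5 : x = 0 := h1.1
    omega

theorem YD_card {l : List ℕ} (h : l.SortedGE) : (YD l).card = l.sum := by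
  unfold YD
  rw [dif_pos h]
  exact yc1_card_cells l

lemma yc1_cl_anti (l : List ℕ) : Antitone (cl l) := by
  intro j j' h
  unfold cl
  apply List.Sublist.length_le
  apply List.monotone_filter_right
  intro a ha
  simp only [decide_eq_true_eq] at ha ⊢
  omega

theorem YD_transpose {l : List ℕ} (h : l.SortedGE) :
    (YD l).transpose = YD ((List.range (rl l 0)).map (cl l)) ∧
      ((List.range (rl l 0)).map (cl l)).SortedGE := by
  have hs : ((List.range (rl l 0)).map (cl l)).SortedGE :=
    (List.pairwise_le_range.map (cl l) fun (a b : ℕ) (hab : a ≤ b) =>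
      (yc1_cl_anti l hab : cl l a ≥ cl l b)).sortedGE
  refine ⟨?_, hs⟩
  apply YoungDiagram.ext
  ext ⟨i, j⟩
  rw [YoungDiagram.mem_cells, YoungDiagram.mem_cells, YoungDiagram.mem_transpose, yc1_mem_YD hs]
  have e : (Prod.swap (i, j)) = (j, i) := rfl
  rw [e, yc1_mem_YD h]
  have e2 : rl ((List.range (rl l 0)).map (cl l)) i = cl l i := by
    unfold rl
    by_cases hi : i < l.getD 0 0
    · rw [List.getD_eq_getElem _ _ (by simpa using hi), List.getElem_map, List.getElem_range]
    · rw [List.getD_eq_default _ _ (by simpa using hi)]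
      by_contra hne
      have h1 : 0 < cl l i := by omega
      rw [yc1_lt_cl h.pairwise] at h1
      exact hi h1
  rw [e2, yc1_lt_cl h.pairwise]

lemma yc1_mem_partsAux (f : ℕ) : ∀ (n m : ℕ) (l : List ℕ), l ∈ partsAux f n m →
    l.Pairwise (· ≥ ·) ∧ (∀ x ∈ l, 0 < x ∧ x ≤ m) ∧ l.sum = n := by
  induction f with
  | zero =>
    intro n m l hl
    unfold partsAux at hl
    split_ifs at hl with h
    · rw [List.mem_singleton] at hl
      subst hl
      subst h
      simp
    · simp at hl
  | succ f ih =>
    intro n m l hl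
    unfold partsAux at hl
    split_ifs at hl with h
    · rw [List.mem_singleton] at hl
      subst hl
      subst h
      simp
    · rw [List.mem_flatMap] at hl
      obtain ⟨i, hi, hl⟩ := hl
      rw [List.mem_map] at hi hl
      obtain ⟨i', hi', rfl⟩ := hi
      obtain ⟨l', hl', rfl⟩ := hl
      rw [List.mem_reverse, List.mem_range] at hi'
      obtain ⟨h1, h2, h3⟩ := ih _ _ _ hl'
      refine ⟨?_, ?_, ?_⟩
      · rw [List.pairwise_cons]
        exact ⟨fun x hx => (h2 x hx).2, h1⟩
      · intro x hx
        rcases List.mem_cons.mp hx with rfl | hx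
        · omega
        · have := h2 x hx
          omega
      · rw [List.sum_cons, h3]
        omega

lemma yc1_mem_partsAux_of (f : ℕ) : ∀ (n m : ℕ) (l : List ℕ), n ≤ f → l.Pairwise (· ≥ ·) →
    (∀ x ∈ l, 0 < x ∧ x ≤ m) → l.sum = n → l ∈ partsAux f n m := by
  induction f with
  | zero =>
    intro n m l hf hp hm hs
    have hn : n = 0 := by omega
    subst hn
    rcases l with _ | ⟨a, l⟩
    · simp [partsAux]
    · have := (hm a (by simp)).1
      rw [List.sum_cons] at hs
      omega
  | succ f ih =>
    intro n m l hf hp hm hs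
    rcases l with _ | ⟨a, l⟩
    · have hn : n = 0 := by simpa using hs.symm
      subst hn
      simp [partsAux]
    · have ha := hm a (by simp)
      rw [List.sum_cons] at hs
      unfold partsAux
      rw [if_neg (by omega), List.mem_flatMap]
      rw [List.pairwise_cons] at hp
      refine ⟨a, ?_, ?_⟩
      · rw [List.mem_map]
        refine ⟨a - 1, ?_, by omega⟩
        rw [List.mem_reverse, List.mem_range]
        omega
      · rw [List.mem_map]
        refine ⟨l, ih _ _ _ (by omega) hp.2 ?_ (by omega), rfl⟩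
        intro x hx
        exact ⟨(hm x (by simp [hx])).1, hp.1 x hx⟩

theorem parts_sorted {n : ℕ} {l : List ℕ} (h : l ∈ parts n) :
    l.SortedGE ∧ (∀ x ∈ l, 0 < x) ∧ l.sum = n := by
  obtain ⟨h1, h2, h3⟩ := yc1_mem_partsAux n n n l h
  exact ⟨h1.sortedGE, fun x hx => (h2 x hx).1, h3⟩

theorem exists_parts {lam : YoungDiagram} {n : ℕ} (h : lam.card = n) :
    ∃ l ∈ parts n, lam = YD l := by
  have hs := lam.rowLens_sorted
  have e : lam = YD lam.rowLens := by
    unfold YD
    rw [dif_pos hs, YoungDiagram.ofRowLens_to_rowLens_eq_self]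
  have hsum : lam.rowLens.sum = n := by
    rw [← YD_card hs, ← e, h]
  refine ⟨lam.rowLens, ?_, e⟩
  apply yc1_mem_partsAux_of n n n _ le_rfl hs.pairwise _ hsum
  intro x hx
  refine ⟨lam.pos_of_mem_rowLens x hx, ?_⟩
  rw [← hsum]
  exact List.single_le_sum (fun _ _ => Nat.zero_le _) x hx

end Sx
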