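import Mathlib
import Pool.Agent.Saxl2.YDefs

/-! Horizontal strips on Young diagrams: auxiliary lemmas. -/

namespace Sx

open Finset

lemma YFaux_nk2 (k : ℕ) : 2 * nk k = k * (k + 1) := by
  unfold nk
  have : 2 ∣ k * (k + 1) := (Nat.even_mul_succ_self k).two_dvd
  omega

lemma YFaux_nk_succ (k : ℕ) : nk (k + 1) = nk k + (k + 1) := by
  have h1 := YFaux_nk2 k
  have h2 := YFaux_nk2 (k + 1)
  nlinarith

/-- number of cells as a sum of row lengths. -/
lemma YFaux_card (mu : YoungDiagram) {N : ℕ} (h : mu.colLen 0 ≤ N) :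
    mu.card = ∑ i ∈ range N, mu.rowLen i := by
  have h1 : mu.cells = (range N).biUnion (fun i => mu.row i) := by
    ext ⟨i, j⟩
    simp only [YoungDiagram.mem_cells, Finset.mem_biUnion, Finset.mem_range,
      YoungDiagram.mem_row_iff]
    constructor
    · intro hm
      refine ⟨i, ?_, hm, rfl⟩
      have : (i, 0) ∈ mu := mu.up_left_mem le_rfl (Nat.zero_le _) hm
      exact lt_of_lt_of_le (YoungDiagram.mem_iff_lt_colLen.1 this) h
    · rintro ⟨a, _, hm, _⟩
      exact hm
  unfold YoungDiagram.card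
  rw [h1, Finset.card_biUnion]
  · exact Finset.sum_congr rfl fun i _ => (YoungDiagram.rowLen_eq_card mu).symm
  · intro i _ j _ hij
    rw [Function.onFun, Finset.disjoint_left]
    rintro ⟨a, b⟩ ha hb
    rw [YoungDiagram.mem_row_iff] at ha hb
    exact hij (ha.2.symm.trans hb.2)

/-- the diagram with given row lengths. -/
lemma YFaux_mk (f : ℕ → ℕ) (hf : Antitone f) {N : ℕ} (hN : f N = 0) :
    ∃ mu : YoungDiagram, ∀ i, mu.rowLen i = f i := by
  have hlow : IsLowerSet (((range N ×ˢ range (f 0)).filter fun p => p.2 < f p.1 :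
      Finset (ℕ × ℕ)) : Set (ℕ × ℕ)) := by
    rintro ⟨a, b⟩ ⟨c, d⟩ h hab
    simp only [Finset.coe_filter, Finset.mem_product, Finset.mem_range, Set.mem_ofPred_eq]
      at hab ⊢
    obtain ⟨h1, h2⟩ := Prod.mk_le_mk.1 h
    have h3 := hf h1
    refine ⟨⟨?_, ?_⟩, ?_⟩ <;> omega
  have hex : ∃ mu : YoungDiagram, ∀ i j, (i, j) ∈ mu ↔ j < f i := by
    refine ⟨⟨_, hlow⟩, fun i j => ?_⟩
    change (i, j) ∈ ((range N ×ˢ range (f 0)).filter fun p => p.2 < f p.1) ↔ _
    simp only [Finset.mem_filter, Finset.mem_product, Finset.mem_range]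
    constructor
    · rintro ⟨_, h⟩; exact h
    · intro h
      have h0 : f i ≤ f 0 := hf (Nat.zero_le i)
      have hi : i < N := by
        by_contra hi
        push Not at hi
        have := hf hi
        omega
      exact ⟨⟨hi, by omega⟩, h⟩
  obtain ⟨mu, hmu⟩ := hex
  refine ⟨mu, fun i => ?_⟩
  apply le_antisymm
  · by_contra hc
    push Not at hc
    exact lt_irrefl _ ((hmu _ _).1 (YoungDiagram.mem_iff_lt_rowLen.2 hc))
  · by_contra hc
    push Not at hc
    exact lt_irrefl _ (YoungDiagram.mem_iff_lt_rowLen.1 ((hmu _ _).2 hc))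

/-- horizontal strips from row lengths. -/
lemma YFaux_hstrip {nu lam : YoungDiagram} {m : ℕ} (h1 : ∀ i, nu.rowLen i ≤ lam.rowLen i)
    (h2 : ∀ i, lam.rowLen (i + 1) ≤ nu.rowLen i) (hc : lam.card = nu.card + m) :
    HStrip m nu lam where
  le := by
    intro p hp
    obtain ⟨i, j⟩ := p
    exact YoungDiagram.mem_iff_lt_rowLen.2
      (lt_of_lt_of_le (YoungDiagram.mem_iff_lt_rowLen.1 hp) (h1 i))
  card := hc
  col := by
    intro j
    by_contra hcon
    push Not at hcon
    have := YoungDiagram.mem_iff_lt_colLen.2 hcon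
    have := YoungDiagram.mem_iff_lt_rowLen.1 this
    have := YoungDiagram.mem_iff_lt_colLen.1
      (YoungDiagram.mem_iff_lt_rowLen.2 (lt_of_lt_of_le this (h2 _)))
    exact lt_irrefl _ this

/-- the family of horizontal strips we use. -/
lemma YFaux_strip (lam : YoungDiagram) {a m : ℕ} (ha1 : lam.rowLen 1 ≤ a) (ha2 : a ≤ lam.rowLen 0)
    (hm : m ≤ lam.rowLen 1) :
    ∃ nu : YoungDiagram, (∀ i, nu.rowLen i = if i = 0 then a else
      min (lam.rowLen i) (max m (lam.rowLen (i + 1)))) ∧
      HStrip ((lam.rowLen 0 - a) + (lam.rowLen 1 - m)) nu lam := by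
  set r := lam.rowLen with hr
  have hanti : ∀ i j, i ≤ j → r j ≤ r i := fun i j h => lam.rowLen_anti i j h
  set f : ℕ → ℕ := fun i => if i = 0 then a else min (r i) (max m (r (i + 1))) with hfdef
  have hr0 : ∀ i, lam.colLen 0 ≤ i → r i = 0 := by
    intro i hi
    by_contra hne
    have h1 := YoungDiagram.mem_iff_lt_colLen.1
      (YoungDiagram.mem_iff_lt_rowLen.2 (Nat.pos_of_ne_zero hne))
    omega
  have hf : Antitone f := by
    apply antitone_nat_of_succ_le
    intro i
    have e1 := hanti (i + 1) (i + 2) (by omega)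
    have e2 := hanti i (i + 1) (by omega)
    simp only [hfdef]
    rcases Nat.eq_zero_or_pos i with rfl | hi
    · simp only [zero_add, if_true, one_ne_zero, if_false]
      exact le_trans (min_le_left _ _) ha1
    · rw [if_neg (by omega), if_neg (by omega)]
      have : r (i + 1 + 1) = r (i + 2) := rfl
      omega
  set N := lam.colLen 0 + 1 with hNdef
  have hN : f N = 0 := by
    simp only [hfdef]
    rw [if_neg (by omega), hr0 N (by omega)]
    simp
  obtain ⟨nu, hnu⟩ := YFaux_mk f hf hN
  refine ⟨nu, hnu, YFaux_hstrip ?_ ?_ ?_⟩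
  · intro i
    rw [hnu i]
    simp only [hfdef]
    split_ifs with h
    · subst h; exact ha2
    · exact min_le_left _ _
  · intro i
    rw [hnu i]
    simp only [hfdef]
    split_ifs with h
    · subst h; exact ha1
    · exact le_min (hanti _ _ (by omega)) (le_max_right _ _)
  · have hcl : nu.colLen 0 ≤ N := by
      by_contra hcon
      push Not at hcon
      have h1 := YoungDiagram.mem_iff_lt_rowLen.1 (YoungDiagram.mem_iff_lt_colLen.2 hcon)
      rw [hnu N, hN] at h1
      exact lt_irrefl _ h1
    rw [YFaux_card lam (N := N) (by omega), YFaux_card nu hcl]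
    have key : ∀ n, (∑ i ∈ range (n + 1), f i) + (r 0 - a) + max m (r 1) =
        (∑ i ∈ range (n + 1), r i) + max m (r (n + 1)) := by
      intro n
      induction n with
      | zero =>
        simp only [zero_add, Finset.sum_range_one]
        have : f 0 = a := by simp [hfdef]
        omega
      | succ n ih =>
        rw [Finset.sum_range_succ f (n + 1), Finset.sum_range_succ r (n + 1)]
        have hfn : f (n + 1) = min (r (n + 1)) (max m (r (n + 1 + 1))) := by simp [hfdef]
        have e2 := hanti (n + 1) (n + 1 + 1) (by omega)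
        omega
    have := key (lam.colLen 0)
    rw [hr0 (lam.colLen 0 + 1) (by omega)] at this
    have e1 : ∑ i ∈ range N, nu.rowLen i = ∑ i ∈ range (lam.colLen 0 + 1), f i :=
      Finset.sum_congr rfl fun i _ => hnu i
    rw [e1]
    have e3 : ∑ i ∈ range N, lam.rowLen i = ∑ i ∈ range (lam.colLen 0 + 1), r i := rfl
    rw [e3]
    omega

end Sx
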