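import Mathlib
import Pool.Agent.Saxl2.YFaux
import Pool.Agent.Saxl2.YC1

/-! Soundness of the checks on lists. -/

namespace Sx

open Finset Equiv

lemma YC2_le {nu lam : List ℕ} (hn : nu.SortedGE) (hl : lam.SortedGE)
    (h : ∀ i, rl nu i ≤ rl lam i) : YD nu ≤ YD lam := by
  rintro ⟨i, j⟩ hp
  have hp' := YoungDiagram.mem_iff_lt_rowLen.1 hp
  rw [YD_rowLen hn] at hp'
  refine YoungDiagram.mem_iff_lt_rowLen.2 ?_
  rw [YD_rowLen hl]
  exact lt_of_lt_of_le hp' (h i)

lemma YC2_rl_zero {l : List ℕ} {i : ℕ} (h : l.length ≤ i) : rl l i = 0 := by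
  unfold rl
  exact List.getD_eq_default _ _ h

lemma YC2_col {nu lam : List ℕ} (hn : nu.SortedGE) (hl : lam.SortedGE) {d : ℕ}
    (h : ∀ i, rl lam (i + d) ≤ rl nu i) (j : ℕ) :
    (YD lam).colLen j ≤ (YD nu).colLen j + d := by
  by_contra hcon
  push Not at hcon
  have h1 := YoungDiagram.mem_iff_lt_rowLen.1 (YoungDiagram.mem_iff_lt_colLen.2 hcon)
  rw [YD_rowLen hl] at h1
  have h2 := lt_of_lt_of_le h1 (h _)
  rw [← YD_rowLen hn] at h2
  have h3 := YoungDiagram.mem_iff_lt_colLen.1 (YoungDiagram.mem_iff_lt_rowLen.2 h2)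
  exact lt_irrefl _ h3

theorem hsL_sound {m : ℕ} {nu lam : List ℕ} (hn : nu.SortedGE) (hl : lam.SortedGE)
    (h : hsL m nu lam = true) : HStrip m (YD nu) (YD lam) := by
  unfold hsL at h
  rw [Bool.and_eq_true, decide_eq_true_eq, List.all_eq_true] at h
  obtain ⟨h1, h2⟩ := h
  have h3 : ∀ i, rl nu i ≤ rl lam i ∧ rl lam (i + 1) ≤ rl nu i := by
    intro i
    by_cases hi : i < lam.length + nu.length + 1
    · have := h2 i (List.mem_range.2 hi)
      simpa using this
    · rw [YC2_rl_zero (l := nu) (i := i) (by omega), YC2_rl_zero (l := lam) (i := i) (by omega),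
        YC2_rl_zero (l := lam) (i := i + 1) (by omega)]
      exact ⟨le_rfl, le_rfl⟩
  exact ⟨YC2_le hn hl fun i => (h3 i).1, by rw [YD_card hl, YD_card hn, h1],
    YC2_col hn hl fun i => (h3 i).2⟩

theorem csL_sound {m : ℕ} {nu lam : List ℕ} (hn : nu.SortedGE) (hl : lam.SortedGE)
    (h : csL m nu lam = true) : CStrip m (YD nu) (YD lam) := by
  unfold csL at h
  rw [Bool.and_eq_true, decide_eq_true_eq, List.all_eq_true] at h
  obtain ⟨h1, h2⟩ := h
  have h3 : ∀ i, rl nu i ≤ rl lam i ∧ rl lam (i + 4) ≤ rl nu i := by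
    intro i
    by_cases hi : i < lam.length + nu.length + 1
    · have := h2 i (List.mem_range.2 hi)
      simpa using this
    · rw [YC2_rl_zero (l := nu) (i := i) (by omega), YC2_rl_zero (l := lam) (i := i) (by omega),
        YC2_rl_zero (l := lam) (i := i + 4) (by omega)]
      exact ⟨le_rfl, le_rfl⟩
  exact ⟨YC2_le hn hl fun i => (h3 i).1, by rw [YD_card hl, YD_card hn, h1],
    YC2_col hn hl fun i => (h3 i).2⟩

lemma YC2_nc {nu lam : List ℕ} (hn : nu.SortedGE) (hl : lam.SortedGE) (h : ℕ) :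
    nc (YD nu) (YD lam) h = ncL nu lam h := by
  unfold nc ncL
  rw [YD_rowLen hl 0]
  have e : (range (rl lam 0)).filter (fun j => (YD lam).colLen j - (YD nu).colLen j = h) =
      ((List.range (rl lam 0)).filter fun j => decide (cl lam j - cl nu j = h)).toFinset := by
    ext j
    simp only [Finset.mem_filter, Finset.mem_range, List.mem_toFinset, List.mem_filter,
      List.mem_range, decide_eq_true_eq, YD_colLen hn, YD_colLen hl]
  rw [e, List.toFinset_card_of_nodup (List.nodup_range.filter _)]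

theorem dlL_sound {nu lam : List ℕ} (hn : nu.SortedGE) (hl : lam.SortedGE) :
    dlt (YD nu) (YD lam) = if dlL nu lam = true then 1 else -1 := by
  unfold dlt dlL
  rw [YC2_nc hn hl, YC2_nc hn hl, YC2_nc hn hl]
  rcases Nat.mod_two_eq_zero_or_one (ncL nu lam 4) with h4 | h4
  · have e : ((-1 : ℚ)) ^ ncL nu lam 4 = 1 := Even.neg_one_pow (Nat.even_iff.2 h4)
    rw [e, h4]
    by_cases hc : ncL nu lam 3 % 2 = 1 ∧ ncL nu lam 2 % 2 = 0
    · simp [hc]
    · simp [hc]
  · have e : ((-1 : ℚ)) ^ ncL nu lam 4 = -1 := Odd.neg_one_pow (Nat.odd_iff.2 h4)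
    rw [e, h4]
    by_cases hc : ncL nu lam 3 % 2 = 1 ∧ ncL nu lam 2 % 2 = 0
    · simp [hc]
    · simp [hc]

end Sx
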