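import Mathlib
import Pool.Agent.Saxl2.XO
import Pool.Agent.Saxl2.XP
import Pool.Agent.Saxl2.YC1
import Pool.Agent.Saxl2.YC2
import Pool.Agent.Saxl2.YDefs

/-!
SAXL2, tables for the levels `k ≤ 6` (MP_2a22ca_al).
-/

namespace Sx

open Finset Equiv

/-- conjugate list. -/
def conjL (l : List ℕ) : List ℕ := (List.range (rl l 0)).map (cl l)

/-- some member of `T` is obtained from `lam` by removing a horizontal `m`-strip. -/
def supH (m : ℕ) (T : List (List ℕ)) (lam : List ℕ) : Bool := T.any fun nu => hsL m nu lam

/-- two-column rule with sign bookkeeping. -/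
def supX (m : ℕ) (Tp Tm : List (List ℕ)) (s : Bool) (lam : List ℕ) : Bool :=
  (Tp.any fun nu => csL m nu lam && (dlL nu lam == s)) ||
    (Tm.any fun nu => csL m nu lam && (dlL nu lam == !s))

def G2p : List (List ℕ) := [[3], [2, 1]]
def G2m : List (List ℕ) := [[1, 1, 1]]
def G3p : List (List ℕ) := (parts 6).filter fun l => supH 3 G2p l || supX 5 [[1]] [] true l
def G3m : List (List ℕ) :=
  ((parts 6).filter fun l => supH 3 G2m l || supX 5 [[1]] [] false l) ++
    [[3, 2, 1], [2, 2, 1, 1]]
def G4p : List (List ℕ) := (parts 10).filter fun l => supH 4 G3p l || supX 7 G2p G2m true l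
def G4m : List (List ℕ) :=
  ((parts 10).filter fun l => supH 4 G3m l || supX 7 G2p G2m false l) ++ [[4, 4, 2]]
def isG (k : ℕ) (l : List ℕ) : Bool := decide (3 ≤ cl l 0) && decide (cl l 0 ≤ k)
def G5 : List (List ℕ) := (parts 15).filter (isG 5)

theorem chk5p : ((parts 15).all fun l =>
    !(isG 5 l) || (supH 5 G4p l || supX 9 G3p G3m true l)) = true := by decide +kernel
theorem chk5m : ((parts 15).all fun l =>
    !(isG 5 l) || (supH 5 G4m l || supX 9 G3p G3m false l)) = true := by decide +kernel
theorem chk6p : ((parts 21).all fun l =>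
    !(isG 6 l) || (supH 6 G5 l || supX 11 G4p G4m true l)) = true := by decide +kernel
theorem chk6m : ((parts 21).all fun l =>
    !(isG 6 l) || (supH 6 G5 l || supX 11 G4p G4m false l)) = true := by decide +kernel

/-- a table of good shapes. -/
def TabG (k : ℕ) (e : ℚ) (T : List (List ℕ)) : Prop :=
  ∀ l ∈ T, l.SortedGE ∧ GoodW k e (YD l)

theorem supH_good {k m : ℕ} {e : ℚ} {T : List (List ℕ)} (hT : TabG k e T) (hm : m = k + 1)
    {lam : List ℕ} (hl : lam.SortedGE) (h : supH m T lam = true) :
    GoodW (k + 1) e (YD lam) := by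
  subst hm
  obtain ⟨nu, hnu, hs⟩ := List.any_eq_true.1 h
  exact goodW_h (hT nu hnu).2 (hsL_sound (hT nu hnu).1 hl hs)

theorem supX_good {k m K : ℕ} {Tp Tm : List (List ℕ)} (hp : TabG k 1 Tp) (hn : TabG k (-1) Tm)
    (hm : m = 2 * k + 3) (hK : K = k + 2) {s : Bool} {lam : List ℕ} (hl : lam.SortedGE)
    (h : supX m Tp Tm s lam = true) :
    GoodW K (if s then 1 else -1) (YD lam) := by
  subst hm
  subst hK
  rw [supX, Bool.or_eq_true] at h
  rcases h with h | h
  · obtain ⟨nu, hnu, hs⟩ := List.any_eq_true.1 h
    rw [Bool.and_eq_true, beq_iff_eq] at hs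
    have := goodW_x (hp nu hnu).2 (csL_sound (hp nu hnu).1 hl hs.1)
    rw [dlL_sound (hp nu hnu).1 hl, hs.2] at this
    cases s <;> simpa using this
  · obtain ⟨nu, hnu, hs⟩ := List.any_eq_true.1 h
    rw [Bool.and_eq_true, beq_iff_eq] at hs
    have := goodW_x (hn nu hnu).2 (csL_sound (hn nu hnu).1 hl hs.1)
    rw [dlL_sound (hn nu hnu).1 hl, hs.2] at this
    cases s <;> simpa using this

theorem TabG.filter {k n : ℕ} {e : ℚ} {p : List ℕ → Bool}
    (h : ∀ l : List ℕ, l ∈ parts n → p l = true → GoodW k e (YD l)) :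
    TabG k e ((parts n).filter p) := by
  intro l hl
  rw [List.mem_filter] at hl
  exact ⟨(parts_sorted hl.1).1, h l hl.1 hl.2⟩

theorem TabG.append {k : ℕ} {e : ℚ} {S T : List (List ℕ)} (hS : TabG k e S) (hT : TabG k e T) :
    TabG k e (S ++ T) := by
  intro l hl
  rcases List.mem_append.1 hl with h | h
  · exact hS l h
  · exact hT l h

theorem sortedGE_dec {l : List ℕ} (h : (l.zip l.tail).all (fun p => decide (p.2 ≤ p.1)) = true) :
    l.SortedGE := by
  rw [List.sortedGE_iff_isChain]
  induction l with
  | nil => exact List.IsChain.nil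
  | cons a l ih =>
    cases l with
    | nil => exact List.IsChain.singleton a
    | cons b l =>
      simp only [List.tail_cons, List.zip_cons_cons, List.all_cons, Bool.and_eq_true,
        decide_eq_true_eq] at h
      exact List.IsChain.cons_cons h.1 (ih h.2)

theorem tab0 : TabG 0 1 [[]] := by
  intro l hl
  simp only [List.mem_singleton] at hl
  subst hl
  exact ⟨sortedGE_dec (by decide), goodW_zero (by rw [YD_card (sortedGE_dec (by decide))]; rfl)⟩

theorem tabNil (k : ℕ) (e : ℚ) : TabG k e [] := fun l hl => by simp at hl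

theorem tab1 : TabG 1 1 [[1]] := by
  intro l hl
  simp only [List.mem_singleton] at hl
  subst hl
  exact ⟨sortedGE_dec (by decide), supH_good tab0 rfl (sortedGE_dec (by decide)) (by decide)⟩

theorem tab2p : TabG 2 1 G2p := by
  intro l hl
  simp only [G2p, List.mem_cons, List.not_mem_nil, or_false] at hl
  rcases hl with rfl | rfl
  · exact ⟨sortedGE_dec (by decide), supH_good tab1 rfl (sortedGE_dec (by decide)) (by decide)⟩
  · exact ⟨sortedGE_dec (by decide), supH_good tab1 rfl (sortedGE_dec (by decide)) (by decide)⟩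

theorem tab2m : TabG 2 (-1) G2m := by
  intro l hl
  simp only [G2m, List.mem_singleton] at hl
  subst hl
  refine ⟨sortedGE_dec (by decide), ?_⟩
  exact supX_good (m := 3) (s := false) tab0 (tabNil 0 (-1)) rfl rfl (sortedGE_dec (by decide))
    (by decide)

theorem tab3p : TabG 3 1 G3p := by
  apply TabG.filter
  intro l hl h
  have hs := (parts_sorted hl).1
  rw [Bool.or_eq_true] at h
  rcases h with h | h
  · exact supH_good tab2p rfl hs h
  · exact supX_good (s := true) tab1 (tabNil 1 (-1)) rfl rfl hs h

theorem tab3m : TabG 3 (-1) G3m := by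
  apply TabG.append
  · apply TabG.filter
    intro l hl h
    have hs := (parts_sorted hl).1
    rw [Bool.or_eq_true] at h
    rcases h with h | h
    · exact supH_good tab2m rfl hs h
    · exact supX_good (s := false) tab1 (tabNil 1 (-1)) rfl rfl hs h
  · intro l hl
    simp only [List.mem_cons, List.not_mem_nil, or_false] at hl
    rcases hl with rfl | rfl
    · have hs : ([3, 2, 1] : List ℕ).SortedGE := sortedGE_dec (by decide)
      exact ⟨hs, goodW_321 (by rw [YD_card hs]; rfl) (by rw [YD_rowLen hs]; rfl)
        (by rw [YD_rowLen hs]; rfl) (by rw [YD_rowLen hs]; rfl)⟩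
    · have hs : ([2, 2, 1, 1] : List ℕ).SortedGE := sortedGE_dec (by decide)
      exact ⟨hs, goodW_2211 (by rw [YD_card hs]; rfl) (by rw [YD_rowLen hs]; rfl)
        (by rw [YD_rowLen hs]; rfl) (by rw [YD_rowLen hs]; rfl)⟩

theorem tab4p : TabG 4 1 G4p := by
  apply TabG.filter
  intro l hl h
  have hs := (parts_sorted hl).1
  rw [Bool.or_eq_true] at h
  rcases h with h | h
  · exact supH_good tab3p rfl hs h
  · exact supX_good (s := true) tab2p tab2m rfl rfl hs h

theorem tab4m : TabG 4 (-1) G4m := by
  apply TabG.append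
  · apply TabG.filter
    intro l hl h
    have hs := (parts_sorted hl).1
    rw [Bool.or_eq_true] at h
    rcases h with h | h
    · exact supH_good tab3m rfl hs h
    · exact supX_good (s := false) tab2p tab2m rfl rfl hs h
  · intro l hl
    simp only [List.mem_singleton] at hl
    subst hl
    have hs : ([4, 4, 2] : List ℕ).SortedGE := sortedGE_dec (by decide)
    exact ⟨hs, goodW_442 (by rw [YD_card hs]; rfl) (by rw [YD_rowLen hs]; rfl)
      (by rw [YD_rowLen hs]; rfl) (by rw [YD_rowLen hs]; rfl)⟩

theorem GG5 : GG 5 := by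
  intro lam hc h3 h5
  obtain ⟨l, hl, rfl⟩ := exists_parts (n := 15) hc
  have hs := (parts_sorted hl).1
  rw [YD_colLen hs] at h3 h5
  have hG : isG 5 l = true := by simp [isG, h3, h5]
  constructor
  · have := List.all_eq_true.1 chk5p l hl
    simp only [hG, Bool.not_true, Bool.false_or, Bool.or_eq_true] at this
    rcases this with h | h
    · exact supH_good tab4p rfl hs h
    · exact supX_good (s := true) tab3p tab3m rfl rfl hs h
  · have := List.all_eq_true.1 chk5m l hl
    simp only [hG, Bool.not_true, Bool.false_or, Bool.or_eq_true] at this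
    rcases this with h | h
    · exact supH_good tab4m rfl hs h
    · exact supX_good (s := false) tab3p tab3m rfl rfl hs h

theorem tab5 (e : ℚ) (he : e = 1 ∨ e = -1) : TabG 5 e G5 := by
  apply TabG.filter
  intro l hl h
  have hs := (parts_sorted hl).1
  simp only [isG, Bool.and_eq_true, decide_eq_true_eq] at h
  have := GG5 (YD l) (by rw [YD_card hs, (parts_sorted hl).2.2]; rfl)
    (by rw [YD_colLen hs]; exact h.1) (by rw [YD_colLen hs]; exact h.2)
  rcases he with rfl | rfl
  · exact this.1
  · exact this.2

theorem GG6 : GG 6 := by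
  intro lam hc h3 h5
  obtain ⟨l, hl, rfl⟩ := exists_parts (n := 21) hc
  have hs := (parts_sorted hl).1
  rw [YD_colLen hs] at h3 h5
  have hG : isG 6 l = true := by simp [isG, h3, h5]
  constructor
  · have := List.all_eq_true.1 chk6p l hl
    simp only [hG, Bool.not_true, Bool.false_or, Bool.or_eq_true] at this
    rcases this with h | h
    · exact supH_good (tab5 1 (Or.inl rfl)) rfl hs h
    · exact supX_good (s := true) tab4p tab4m rfl rfl hs h
  · have := List.all_eq_true.1 chk6m l hl
    simp only [hG, Bool.not_true, Bool.false_or, Bool.or_eq_true] at this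
    rcases this with h | h
    · exact supH_good (tab5 (-1) (Or.inr rfl)) rfl hs h
    · exact supX_good (s := false) tab4p tab4m rfl rfl hs h

end Sx
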