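import Mathlib
import Pool.Agent.Helper87.Saxl.Both
import Pool.Agent.Helper87.Saxl.VStep
import Pool.Agent.Saxl2.YG
import Pool.Agent.Saxl2.YA
import Pool.Agent.Saxl2.YB1
import Pool.Agent.Saxl2.YB2
import Pool.Agent.Saxl2.BFK
import Pool.Agent.Saxl2.BFM1
import Pool.Agent.Saxl2.BFM2
import Pool.Agent.Saxl2.BFQ1
import Pool.Agent.Saxl2.BFQ2

/-!
SAXL2, tables for the symmetric square, the exterior square and the `Zfree` part at the levels
`k ≤ 4` (MP_2a22ca_al).
-/

namespace Sx

open Finset Equiv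

/-- the exceptions of the exterior square, on lists. -/
def excL (k : ℕ) (l : List ℕ) : Bool :=
  decide (l.sum - rl l 0 ≤ 1) || (decide (l.sum - rl l 0 = 2) && decide (rl l 1 = 2)) ||
    (decide (rl l 0 = 1) && decide (k % 4 ≠ 2)) ||
    (decide (k = 3) && decide (rl l 0 = 2) && decide (rl l 2 = 2))

theorem excL_iff {k : ℕ} {l : List ℕ} (hs : l.SortedGE) : ExcA k (YD l) ↔ excL k l = true := by
  unfold ExcA excL rest
  rw [YD_card hs, YD_rowLen hs, YD_rowLen hs, YD_rowLen hs]
  simp only [Bool.or_eq_true, Bool.and_eq_true, decide_eq_true_eq]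
  tauto

/-- a table of shapes of the `Zfree` part. -/
def TabW (k : ℕ) (T : List (List ℕ)) : Prop := ∀ l ∈ T, l.SortedGE ∧ WW k (YD l)

def W3 : List (List ℕ) := (parts 6).filter fun l => decide (2 ≤ l.sum - rl l 0)
def A3 : List (List ℕ) := (parts 6).filter fun l => !(excL 3 l)
def spec (l : List ℕ) : Bool := (decide (rl l 0 = 2)) && (decide (rl l 1 = 1))

theorem chkS3 : ((parts 6).all fun l => decide (rl l 0 = 1) ||
    supH 3 G2p l || supH 3 G2m (conjL l) || G3p.contains l || spec l) = true := by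
  decide +kernel
theorem chkA3 : ((parts 6).all fun l => excL 3 l ||
    supH 3 G2m l || supH 3 G2m (conjL l) || G3m.contains l || spec l ||
    decide (l = [3, 3])) = true := by
  decide +kernel
theorem chkW3 : ((parts 6).all fun l => decide (l.sum - rl l 0 ≤ 1) ||
    decide (rl l 0 < 3) || supH 3 G2m l || decide (l = [4, 2]) || decide (l = [3, 3]) ||
    decide (l = [3, 2, 1])) = true := by
  decide +kernel
theorem chkS4 : ((parts 10).all fun l => decide (rl l 0 = 1) ||
    supH 4 (parts 6) l || supH 4 W3 (conjL l) || G4p.contains l || spec l) = true := by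
  decide +kernel
theorem chkA4 : ((parts 10).all fun l => excL 4 l ||
    supH 4 A3 l || supH 4 W3 (conjL l) || G4m.contains l || spec l ||
    decide (l = [6, 4]) || decide (l = [5, 5]) || decide (l = [2, 2, 2, 2, 2])) = true := by
  decide +kernel
theorem chkW4 : ((parts 10).all fun l => decide (l.sum - rl l 0 ≤ 1) ||
    decide (l = [5, 5]) || decide (rl l 0 < 4) || supH 4 W3 l ||
    (W3.any fun nu => hsL 4 (conjL nu) (conjL l))) = true := by
  decide +kernel

theorem conjL_sorted {l : List ℕ} (hs : l.SortedGE) : (conjL l).SortedGE := (YD_transpose hs).2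

theorem conjL_YD {l : List ℕ} (hs : l.SortedGE) : (YD l).transpose = YD (conjL l) :=
  (YD_transpose hs).1

theorem transpose_transpose' (mu : YoungDiagram) : mu.transpose.transpose = mu :=
  YoungDiagram.transpose_transpose mu

theorem supH_w {k m : ℕ} {T : List (List ℕ)} (hT : TabW k T) (hm : m = k + 1)
    {lam : List ℕ} (hl : lam.SortedGE) (h : supH m T lam = true) : WW (k + 1) (YD lam) := by
  subst hm
  obtain ⟨nu, hnu, hs⟩ := List.any_eq_true.1 h
  exact wW_h (hT nu hnu).2 (hsL_sound (hT nu hnu).1 hl hs)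

theorem supH_both {k m : ℕ} {T : List (List ℕ)} (hT : TabW k T) (hm : m = k + 1)
    {lam : List ℕ} (hl : lam.SortedGE) (h : supH m T (conjL lam) = true) :
    SymW (k + 1) (YD lam) ∧ AltW (k + 1) (YD lam) := by
  subst hm
  obtain ⟨nu, hnu, hs⟩ := List.any_eq_true.1 h
  have := both (hT nu hnu).2 (hsL_sound (hT nu hnu).1 (conjL_sorted hl) hs)
  rwa [← conjL_YD hl, YoungDiagram.transpose_transpose] at this

theorem supH_v {k m : ℕ} {T : List (List ℕ)} (hT : TabW k T) (hm : m = k + 1)
    {lam : List ℕ} (hl : lam.SortedGE)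
    (h : (T.any fun nu => hsL m (conjL nu) (conjL lam)) = true) : WW (k + 1) (YD lam) := by
  subst hm
  obtain ⟨nu, hnu, hs⟩ := List.any_eq_true.1 h
  have h1 := (hsL_sound (conjL_sorted (hT nu hnu).1) (conjL_sorted hl) hs).transpose
  rw [← conjL_YD hl, ← conjL_YD (hT nu hnu).1, YoungDiagram.transpose_transpose,
    YoungDiagram.transpose_transpose] at h1
  exact wW_v (hT nu hnu).2 h1

theorem tabW2 : TabW 2 G2m := by
  intro l hl
  simp only [G2m, List.mem_singleton] at hl
  subst hl
  have hs : ([1, 1, 1] : List ℕ).SortedGE := sortedGE_dec (by decide)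
  refine ⟨hs, ww_small (vW_of_altW (altW_of_goodW (tab2m _ (by simp [G2m])).2)) ?_⟩
  rw [YD_rowLen hs]
  decide

theorem mem_one {T : List (List ℕ)} {l : List ℕ} {e : ℚ} {k : ℕ} (hT : TabG k e T)
    (h : T.contains l = true) : GoodW k e (YD l) := by
  have : l ∈ T := by simpa using h
  exact (hT l this).2

theorem SS1 : SS 1 := by
  intro lam hc _
  obtain ⟨l, hl, rfl⟩ := exists_parts (n := 1) hc
  have h : ∀ l ∈ parts 1, l = [1] := by decide
  obtain rfl := h l hl
  exact symW_of_goodW (tab1 _ (by simp)).2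

theorem AA1 : AA 1 := by
  intro lam hc h
  obtain ⟨l, hl, rfl⟩ := exists_parts (n := 1) hc
  have h' : ∀ l ∈ parts 1, l = [1] := by decide
  obtain rfl := h' l hl
  exact absurd ((excL_iff (sortedGE_dec (by decide))).2 (by decide)) h

theorem SS2 : SS 2 := by
  intro lam hc h
  obtain ⟨l, hl, rfl⟩ := exists_parts (n := 3) hc
  have h' : ∀ l ∈ parts 3, l ∈ G2p ∨ rl l 0 = 1 := by decide
  have hs := (parts_sorted hl).1
  rw [YD_rowLen hs] at h
  rcases h' l hl with h1 | h1
  · exact symW_of_goodW (tab2p _ h1).2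
  · exact absurd ⟨h1, rfl⟩ h

theorem AA2 : AA 2 := by
  intro lam hc h
  obtain ⟨l, hl, rfl⟩ := exists_parts (n := 3) hc
  have h' : ∀ l ∈ parts 3, l ∈ G2m ∨ excL 2 l = true := by decide
  have hs := (parts_sorted hl).1
  rw [excL_iff hs] at h
  rcases h' l hl with h1 | h1
  · exact altW_of_goodW (tab2m _ h1).2
  · exact absurd h1 h

theorem SS3 : SS 3 := by
  intro lam hc _
  obtain ⟨l, hl, rfl⟩ := exists_parts (n := 6) hc
  have hs := (parts_sorted hl).1
  have := List.all_eq_true.1 chkS3 l hl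
  simp only [Bool.or_eq_true, decide_eq_true_eq] at this
  rcases this with (((h | h) | h) | h) | h
  · exact symW_one (by norm_num) (by norm_num) hc (by rw [YD_rowLen hs]; exact h)
  · obtain ⟨nu, hnu, hh⟩ := List.any_eq_true.1 h
    exact symW_h (symW_of_goodW (tab2p nu hnu).2) (hsL_sound (tab2p nu hnu).1 hs hh)
  · exact (supH_both tabW2 rfl hs h).1
  · exact symW_of_goodW (mem_one tab3p h)
  · simp only [spec, Bool.and_eq_true, decide_eq_true_eq] at h
    exact (special_two (by norm_num) hc (by rw [YD_rowLen hs]; exact h.1)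
      (by rw [YD_rowLen hs]; exact h.2)).1

theorem AA3 : AA 3 := by
  intro lam hc hE
  obtain ⟨l, hl, rfl⟩ := exists_parts (n := 6) hc
  have hs := (parts_sorted hl).1
  rw [excL_iff hs] at hE
  have := List.all_eq_true.1 chkA3 l hl
  simp only [Bool.or_eq_true, decide_eq_true_eq] at this
  rcases this with ((((h | h) | h) | h) | h) | h
  · exact absurd h hE
  · obtain ⟨nu, hnu, hh⟩ := List.any_eq_true.1 h
    exact altW_h (altW_of_goodW (tab2m nu hnu).2) (hsL_sound (tab2m nu hnu).1 hs hh)
  · exact (supH_both tabW2 rfl hs h).2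
  · exact altW_of_goodW (mem_one tab3m h)
  · simp only [spec, Bool.and_eq_true, decide_eq_true_eq] at h
    exact (special_two (by norm_num) hc (by rw [YD_rowLen hs]; exact h.1)
      (by rw [YD_rowLen hs]; exact h.2)).2
  · subst h
    exact altW3_33 hc (by rw [YD_rowLen hs]; rfl) (by rw [YD_rowLen hs]; rfl)

theorem WW3 : WWk 3 := by
  intro lam hc h2 _
  obtain ⟨l, hl, rfl⟩ := exists_parts (n := 6) hc
  have hs := (parts_sorted hl).1
  rw [rest, YD_card hs, YD_rowLen hs] at h2
  have := List.all_eq_true.1 chkW3 l hl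
  simp only [Bool.or_eq_true, decide_eq_true_eq] at this
  rcases this with ((((h | h) | h) | h) | h) | h
  · omega
  · exact ww_small (vW_of_symW (SS3 _ hc (by norm_num))) (by rw [YD_rowLen hs]; exact h)
  · exact supH_w tabW2 rfl hs h
  · subst h
    exact ww3_42 hc (by rw [YD_rowLen hs]; rfl) (by rw [YD_rowLen hs]; rfl)
  · subst h
    exact ww3_33 hc (by rw [YD_rowLen hs]; rfl) (by rw [YD_rowLen hs]; rfl)
  · subst h
    exact ww3_321 hc (by rw [YD_rowLen hs]; rfl) (by rw [YD_rowLen hs]; rfl)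

theorem not_chain3 (lam : YoungDiagram) : ¬ Chain 3 lam := fun h => by
  have := h.1
  omega

theorem tabW3 : TabW 3 W3 := by
  intro l hl
  rw [W3, List.mem_filter, decide_eq_true_eq] at hl
  have hs := (parts_sorted hl.1).1
  refine ⟨hs, WW3 _ ?_ ?_ (not_chain3 _)⟩
  · rw [YD_card hs, (parts_sorted hl.1).2.2]
    rfl
  · rw [rest, YD_card hs, YD_rowLen hs]
    exact hl.2

theorem SS4 : SS 4 := by
  intro lam hc _
  obtain ⟨l, hl, rfl⟩ := exists_parts (n := 10) hc
  have hs := (parts_sorted hl).1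
  have := List.all_eq_true.1 chkS4 l hl
  simp only [Bool.or_eq_true, decide_eq_true_eq] at this
  rcases this with (((h | h) | h) | h) | h
  · exact symW_one (by norm_num) (by norm_num) hc (by rw [YD_rowLen hs]; exact h)
  · obtain ⟨nu, hnu, hh⟩ := List.any_eq_true.1 h
    have hn := parts_sorted hnu
    exact symW_h (SS3 _ (by rw [YD_card hn.1, hn.2.2]; rfl) (by norm_num))
      (hsL_sound hn.1 hs hh)
  · exact (supH_both tabW3 rfl hs h).1
  · exact symW_of_goodW (mem_one tab4p h)
  · simp only [spec, Bool.and_eq_true, decide_eq_true_eq] at h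
    exact (special_two (by norm_num) hc (by rw [YD_rowLen hs]; exact h.1)
      (by rw [YD_rowLen hs]; exact h.2)).1

theorem AA4 : AA 4 := by
  intro lam hc hE
  obtain ⟨l, hl, rfl⟩ := exists_parts (n := 10) hc
  have hs := (parts_sorted hl).1
  rw [excL_iff hs] at hE
  have := List.all_eq_true.1 chkA4 l hl
  simp only [Bool.or_eq_true, decide_eq_true_eq] at this
  rcases this with (((((((h | h) | h) | h) | h) | h) | h) | h)
  · exact absurd h hE
  · obtain ⟨nu, hnu, hh⟩ := List.any_eq_true.1 h
    rw [A3, List.mem_filter] at hnu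
    have hn := parts_sorted hnu.1
    have hx : ¬ ExcA 3 (YD nu) := by
      rw [excL_iff hn.1]
      simpa using hnu.2
    exact altW_h (AA3 _ (by rw [YD_card hn.1, hn.2.2]; rfl) hx) (hsL_sound hn.1 hs hh)
  · exact (supH_both tabW3 rfl hs h).2
  · exact altW_of_goodW (mem_one tab4m h)
  · simp only [spec, Bool.and_eq_true, decide_eq_true_eq] at h
    exact (special_two (by norm_num) hc (by rw [YD_rowLen hs]; exact h.1)
      (by rw [YD_rowLen hs]; exact h.2)).2
  · subst h
    exact altW4_64 hc (by rw [YD_rowLen hs]; rfl) (by rw [YD_rowLen hs]; rfl)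
  · subst h
    exact altW4_55 hc (by rw [YD_rowLen hs]; rfl) (by rw [YD_rowLen hs]; rfl)
  · subst h
    exact altW4_22222 hc (by rw [YD_rowLen hs]; rfl) (by rw [YD_colLen hs]; rfl)

theorem WW4 : WWk 4 := by
  intro lam hc h2 hC
  obtain ⟨l, hl, rfl⟩ := exists_parts (n := 10) hc
  have hs := (parts_sorted hl).1
  rw [rest, YD_card hs, YD_rowLen hs] at h2
  have := List.all_eq_true.1 chkW4 l hl
  simp only [Bool.or_eq_true, decide_eq_true_eq] at this
  rcases this with (((h | h) | h) | h) | h
  · omega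
  · subst h
    refine absurd ⟨le_refl 4, fun i => ?_⟩ hC
    rw [YD_rowLen hs]
    match i with
    | 0 => rfl
    | 1 => rfl
    | i + 2 =>
      have h1 : ¬ (i + 2 + 5 < 4) := by omega
      have h2 : ¬ (i + 2 + 2 < 4) := by omega
      simp [rl, h1, h2]
  · exact ww_small (vW_of_symW (SS4 _ hc (by norm_num))) (by rw [YD_rowLen hs]; exact h)
  · exact supH_w tabW3 rfl hs h
  · exact supH_v tabW3 rfl hs h

end Sx
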