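import Mathlib

/-!
Young diagrams of every intermediate size.
-/

namespace Sx

open Finset

/-- remove a maximal cell. -/
def YE1_erase (b : YoungDiagram) (p : ℕ × ℕ) (hmax : ∀ q ∈ b, p ≤ q → q = p) : YoungDiagram where
  cells := b.cells.erase p
  isLowerSet := by
    intro x y hyx hx
    simp only [coe_erase, Set.mem_sdiff, mem_coe, Set.mem_singleton_iff] at hx ⊢
    refine ⟨b.isLowerSet hyx hx.1, ?_⟩
    rintro rfl
    exact hx.2 (hmax x ((YoungDiagram.mem_cells _).1 hx.1) hyx)

theorem exists_between {a b : YoungDiagram} (h : a ≤ b) {m : ℕ} (h1 : a.card ≤ m)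
    (h2 : m ≤ b.card) : ∃ c : YoungDiagram, a ≤ c ∧ c ≤ b ∧ c.card = m := by
  obtain ⟨n, hn⟩ : ∃ n, b.card = m + n := ⟨b.card - m, by omega⟩
  induction n generalizing b with
  | zero => exact ⟨b, h, le_rfl, by omega⟩
  | succ n ih =>
    have hsub : a.cells ⊆ b.cells := YoungDiagram.cells_subset_iff.2 h
    have hne : (b.cells \ a.cells).Nonempty := by
      rw [← card_pos, card_sdiff_of_subset hsub]
      have e1 : b.cells.card = b.card := rfl
      have e2 : a.cells.card = a.card := rfl
      omega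
    obtain ⟨p, hp, hmax⟩ := exists_maximal hne
    rw [mem_sdiff] at hp
    have hmax' : ∀ q ∈ b, p ≤ q → q = p := by
      intro q hq hpq
      by_cases hqa : q ∈ a.cells
      · exact absurd (a.isLowerSet hpq hqa) hp.2
      · exact le_antisymm (hmax (mem_sdiff.2 ⟨(YoungDiagram.mem_cells _).2 hq, hqa⟩) hpq) hpq
    have hc : (YE1_erase b p hmax').card = b.card - 1 := card_erase_of_mem hp.1
    have hle : YE1_erase b p hmax' ≤ b := YoungDiagram.cells_subset_iff.1 (erase_subset _ _)
    have hale : a ≤ YE1_erase b p hmax' := by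
      refine YoungDiagram.cells_subset_iff.1 ?_
      intro x hx
      exact mem_erase.2 ⟨fun e => hp.2 (e ▸ hx), hsub hx⟩
    obtain ⟨c, c1, c2, c3⟩ := ih hale (by omega) (by omega)
    exact ⟨c, c1, c2.trans hle, c3⟩

end Sx
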