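import Mathlib
import Pool.Agent.Saxl2.YDefs
import Pool.Agent.Saxl2.YE1

/-!
The two-column step exists.
-/

namespace Sx

open Finset

theorem YE2_card {lam : YoungDiagram} {N : ℕ} (h : lam.colLen 0 ≤ N) :
    lam.card = ∑ i ∈ range N, lam.rowLen i := by
  have hm : ∀ p ∈ lam.cells, p.1 ∈ range N := by
    intro p hp
    have h1 : (p.1, p.2) ∈ lam := hp
    have h2 : (p.1, 0) ∈ lam := lam.up_left_mem le_rfl (Nat.zero_le _) h1
    rw [YoungDiagram.mem_iff_lt_colLen] at h2
    exact mem_range.2 (by omega)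
  have h1 : lam.card = lam.cells.card := rfl
  rw [h1, card_eq_sum_card_fiberwise hm]
  refine sum_congr rfl fun i _ => ?_
  rw [YoungDiagram.rowLen_eq_card]
  rfl

/-- the cells in the first `k` rows. -/
def YE2_top (lam : YoungDiagram) (k : ℕ) : YoungDiagram where
  cells := lam.cells.filter fun p => p.1 < k
  isLowerSet := by
    intro x y hyx hx
    simp only [coe_filter, Set.mem_ofPred_eq] at hx ⊢
    exact ⟨lam.isLowerSet hyx hx.1, lt_of_le_of_lt hyx.1 hx.2⟩

/-- the shifted diagram and three cells. -/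
def YE2_low (lam : YoungDiagram) : YoungDiagram where
  cells := lam.cells.filter fun p => (p.1 + 4, p.2) ∈ lam ∨ (p.2 = 0 ∧ p.1 < 3)
  isLowerSet := by
    intro x y hyx hx
    simp only [coe_filter, Set.mem_ofPred_eq] at hx ⊢
    obtain ⟨h1, h2⟩ := Prod.mk_le_mk.1 (show (y.1, y.2) ≤ (x.1, x.2) from hyx)
    refine ⟨lam.isLowerSet hyx hx.1, ?_⟩
    rcases hx.2 with h | h
    · left
      exact lam.up_left_mem (by omega) h2 h
    · right
      omega

theorem YE2_mem_top {lam : YoungDiagram} {k : ℕ} {p : ℕ × ℕ} :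
    p ∈ YE2_top lam k ↔ p ∈ lam ∧ p.1 < k := by
  show p ∈ (YE2_top lam k).cells ↔ _
  simp [YE2_top]

theorem YE2_mem_low {lam : YoungDiagram} {p : ℕ × ℕ} :
    p ∈ YE2_low lam ↔ p ∈ lam ∧ ((p.1 + 4, p.2) ∈ lam ∨ (p.2 = 0 ∧ p.1 < 3)) := by
  show p ∈ (YE2_low lam).cells ↔ _
  simp [YE2_low]

theorem YE2_rowLen_anti (lam : YoungDiagram) {i j : ℕ} (h : i ≤ j) :
    lam.rowLen j ≤ lam.rowLen i := lam.rowLen_anti i j h

theorem YE2_top_card {lam : YoungDiagram} {k : ℕ} (h : lam.colLen 0 ≤ k + 2) :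
    (YE2_top lam k).card + (lam.rowLen k + lam.rowLen (k + 1)) = lam.card := by
  have h0 : (YE2_top lam k).colLen 0 ≤ k := by
    by_contra hc
    have : (k, 0) ∈ YE2_top lam k := YoungDiagram.mem_iff_lt_colLen.2 (by omega)
    exact absurd (YE2_mem_top.1 this).2 (lt_irrefl _)
  rw [YE2_card h0, YE2_card h, sum_range_succ, sum_range_succ, ← add_assoc]
  congr 1
  congr 1
  refine sum_congr rfl fun i hi => ?_
  rw [mem_range] at hi
  refine le_antisymm ?_ ?_
  · by_contra hc
    have h1 : (i, lam.rowLen i) ∈ YE2_top lam k := YoungDiagram.mem_iff_lt_rowLen.2 (by omega)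
    have h2 := YoungDiagram.mem_iff_lt_rowLen.1 (YE2_mem_top.1 h1).1
    exact lt_irrefl _ h2
  · by_contra hc
    have h1 : (i, (YE2_top lam k).rowLen i) ∈ lam := YoungDiagram.mem_iff_lt_rowLen.2 (by omega)
    have h2 : (i, (YE2_top lam k).rowLen i) ∈ YE2_top lam k := YE2_mem_top.2 ⟨h1, hi⟩
    exact lt_irrefl _ (YoungDiagram.mem_iff_lt_rowLen.1 h2)

theorem YE2_low_card {lam : YoungDiagram} {N : ℕ} (h : lam.colLen 0 ≤ N + 4) :
    (YE2_low lam).card ≤ ∑ i ∈ range N, lam.rowLen (i + 4) + (3 - (lam.colLen 0 - 4)) := by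
  have e1 : (YE2_low lam).cells ⊆ (lam.cells.filter fun p => (p.1 + 4, p.2) ∈ lam) ∪
      (Ico (lam.colLen 0 - 4) 3).image (fun i => ((i, 0) : ℕ × ℕ)) := by
    intro p hp
    have hp' := YE2_mem_low.1 ((YoungDiagram.mem_cells _).1 hp)
    rw [mem_union, mem_filter]
    by_cases hq : (p.1 + 4, p.2) ∈ lam
    · exact Or.inl ⟨hp'.1, hq⟩
    · right
      rcases hp'.2 with h1 | h1
      · exact absurd h1 hq
      · rw [mem_image]
        refine ⟨p.1, ?_, Prod.ext rfl h1.1.symm⟩
        rw [mem_Ico]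
        refine ⟨?_, h1.2⟩
        rw [h1.1, YoungDiagram.mem_iff_lt_colLen] at hq
        omega
  have e2 : (lam.cells.filter fun p => (p.1 + 4, p.2) ∈ lam).card =
      ∑ i ∈ range N, lam.rowLen (i + 4) := by
    have hm : ∀ p ∈ (lam.cells.filter fun p => (p.1 + 4, p.2) ∈ lam), p.1 ∈ range N := by
      intro p hp
      have h1 := (mem_filter.1 hp).2
      have h2 : (p.1 + 4, 0) ∈ lam := lam.up_left_mem le_rfl (Nat.zero_le _) h1
      rw [YoungDiagram.mem_iff_lt_colLen] at h2
      exact mem_range.2 (by omega)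
    rw [card_eq_sum_card_fiberwise hm]
    refine sum_congr rfl fun i _ => ?_
    have : (lam.cells.filter fun p => (p.1 + 4, p.2) ∈ lam).filter (fun p => p.1 = i) =
        (range (lam.rowLen (i + 4))).image (fun j => ((i, j) : ℕ × ℕ)) := by
      ext p
      simp only [mem_filter, mem_image, mem_range, YoungDiagram.mem_cells]
      constructor
      · rintro ⟨⟨h1, h2⟩, rfl⟩
        exact ⟨p.2, YoungDiagram.mem_iff_lt_rowLen.1 h2, rfl⟩
      · rintro ⟨j, hj, rfl⟩
        have h1 : (i + 4, j) ∈ lam := YoungDiagram.mem_iff_lt_rowLen.2 hj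
        exact ⟨⟨lam.up_left_mem (by omega) le_rfl h1, h1⟩, rfl⟩
    rw [this, card_image_of_injective _ (fun a b hab => (Prod.mk.inj hab).2), card_range]
  calc (YE2_low lam).card ≤ _ := card_le_card e1
    _ ≤ _ := card_union_le _ _
    _ ≤ ∑ i ∈ range N, lam.rowLen (i + 4) + (3 - (lam.colLen 0 - 4)) := by
        rw [e2]
        refine Nat.add_le_add_left ?_ _
        refine card_image_le.trans ?_
        rw [Nat.card_Ico]

theorem YE2_nk (k : ℕ) : nk (k + 2) = nk k + (2 * k + 3) := by
  unfold nk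
  have h1 : (k + 2) * (k + 2 + 1) = k * (k + 1) + 2 * (2 * k + 3) := by ring
  rw [h1, Nat.add_mul_div_left _ _ (by norm_num)]

theorem YE2_nk2 (k : ℕ) : 2 * nk k = k * (k + 1) := by
  unfold nk
  exact Nat.mul_div_cancel' (Nat.even_mul_succ_self k).two_dvd

theorem x_step {k : ℕ} (hk : 4 ≤ k) {lam : YoungDiagram} (hc : lam.card = nk (k + 2))
    (h3 : 3 ≤ lam.colLen 0) (hl : lam.colLen 0 ≤ k + 2) :
    ∃ nu : YoungDiagram, CStrip (2 * k + 3) nu lam ∧ nu.card = nk k ∧ 3 ≤ nu.colLen 0 ∧
      nu.colLen 0 ≤ k := by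
  have hn2 := YE2_nk2 (k + 2)
  have hle : YE2_low lam ≤ YE2_top lam k := by
    intro p hp
    obtain ⟨h1, h2⟩ := YE2_mem_low.1 hp
    refine YE2_mem_top.2 ⟨h1, ?_⟩
    rcases h2 with h | h
    · have h2 : (p.1 + 4, 0) ∈ lam := lam.up_left_mem le_rfl (Nat.zero_le _) h
      rw [YoungDiagram.mem_iff_lt_colLen] at h2
      omega
    · omega
  -- the cardinality of the top part
  have htop : nk k ≤ (YE2_top lam k).card := by
    have e := YE2_top_card hl
    have e2 := YE2_nk k
    have hr : lam.rowLen k + lam.rowLen (k + 1) ≤ 2 * k + 3 := by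
      by_contra hcon
      have a1 := YE2_rowLen_anti lam (show k ≤ k + 1 by omega)
      have a2 : k + 2 ≤ lam.rowLen k := by omega
      have a3 : (k + 1) * (k + 2) ≤ lam.card := by
        rw [YE2_card hl, sum_range_succ]
        have : (k + 1) * (k + 2) ≤ ∑ i ∈ range (k + 1), lam.rowLen i := by
          calc (k + 1) * (k + 2) = ∑ i ∈ range (k + 1), (k + 2) := by simp
            _ ≤ _ := sum_le_sum fun i hi => a2.trans
                (YE2_rowLen_anti lam (by rw [mem_range] at hi; omega))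
        omega
      rw [hc] at a3
      nlinarith
    omega
  -- the cardinality of the lower part
  have hlow : (YE2_low lam).card ≤ nk k := by
    have hs : lam.card = ∑ i ∈ range (k + 2), lam.rowLen i := YE2_card hl
    obtain ⟨N, hN⟩ : ∃ N, k = N + 2 := ⟨k - 2, by omega⟩
    have e := YE2_low_card (lam := lam) (N := N) (by omega)
    have hs2 : lam.card = (lam.rowLen 0 + lam.rowLen 1 + lam.rowLen 2 + lam.rowLen 3) +
        ∑ i ∈ range N, lam.rowLen (i + 4) := by
      rw [hs, show k + 2 = 4 + N by omega, sum_range_add]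
      congr 1
      · simp [sum_range_succ]
      · exact sum_congr rfl fun i _ => by rw [add_comm]
    have e2 := YE2_nk k
    have a01 := YE2_rowLen_anti lam (show 0 ≤ 1 by omega)
    have a12 := YE2_rowLen_anti lam (show 1 ≤ 2 by omega)
    have a23 := YE2_rowLen_anti lam (show 2 ≤ 3 by omega)
    -- bound of the tail
    have ht : ∑ i ∈ range N, lam.rowLen (i + 4) ≤ (lam.colLen 0 - 4) * lam.rowLen 3 := by
      have hz : ∀ i, lam.colLen 0 ≤ i → lam.rowLen i = 0 := by
        intro i hi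
        by_contra hne
        have : (i, 0) ∈ lam := YoungDiagram.mem_iff_lt_rowLen.2 (by omega)
        rw [YoungDiagram.mem_iff_lt_colLen] at this
        omega
      have hsub : ∑ i ∈ range N, lam.rowLen (i + 4) =
          ∑ i ∈ range (lam.colLen 0 - 4), lam.rowLen (i + 4) := by
        symm
        refine sum_subset (fun i hi => ?_) fun i _ hi => ?_
        · rw [mem_range] at hi ⊢
          omega
        · rw [mem_range] at hi
          exact hz _ (by omega)
      rw [hsub]
      calc ∑ i ∈ range (lam.colLen 0 - 4), lam.rowLen (i + 4)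
          ≤ ∑ i ∈ range (lam.colLen 0 - 4), lam.rowLen 3 :=
            sum_le_sum fun i _ => YE2_rowLen_anti lam (by omega)
        _ = _ := by simp
    set s := lam.rowLen 0 + lam.rowLen 1 + lam.rowLen 2 + lam.rowLen 3 with hsdef
    have h4r : 4 * lam.rowLen 3 ≤ s := by omega
    set T := ∑ i ∈ range N, lam.rowLen (i + 4) with hT
    have hk2 : lam.card = nk k + (2 * k + 3) := by rw [hc, e2]
    have hcc : 2 * lam.card = (k + 2) * (k + 2 + 1) := by rw [hc]; exact hn2
    suffices hsuff : 2 * k + 3 + (3 - (lam.colLen 0 - 4)) ≤ s by omega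
    rcases le_or_gt (lam.colLen 0) 4 with h4 | h4
    · have hz : lam.colLen 0 - 4 = 0 := by omega
      rw [hz] at ht ⊢
      have hT0 : T = 0 := by omega
      have : lam.card = s := by omega
      have h6 : 2 * (2 * k + 6) ≤ 2 * lam.card := by
        rw [hcc]
        nlinarith
      omega
    · obtain ⟨l, hl'⟩ : ∃ l, lam.colLen 0 = l + 4 := ⟨lam.colLen 0 - 4, by omega⟩
      have hl4 : lam.colLen 0 - 4 = l := by omega
      rw [hl4] at ht ⊢
      have h4n : 4 * lam.card ≤ (l + 4) * s := by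
        have h41 : 4 * T ≤ l * s := by
          calc 4 * T ≤ 4 * (l * lam.rowLen 3) := Nat.mul_le_mul_left _ ht
            _ = l * (4 * lam.rowLen 3) := by ring
            _ ≤ l * s := Nat.mul_le_mul_left _ h4r
        rw [hs2]
        linarith [add_mul l 4 s]
      clear_value s T
      clear hs2 ht h4r hsdef hT hs e hn2 htop hle a01 a12 a23
      have hlk : l + 2 ≤ k := by omega
      rcases le_or_gt 3 l with h7 | h7
      · have h30 : 3 - l = 0 := by omega
        rw [h30]
        by_contra hcon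
        push Not at hcon
        have : s ≤ 2 * k + 2 := by omega
        have h8 : (l + 4) * s ≤ (k + 2) * (2 * k + 2) := Nat.mul_le_mul (by omega) this
        nlinarith
      · have hl12 : l = 1 ∨ l = 2 := by omega
        rcases hl12 with rfl | rfl
        · norm_num
          by_contra hcon
          push Not at hcon
          nlinarith
        · norm_num
          by_contra hcon
          push Not at hcon
          nlinarith
  obtain ⟨nu, n1, n2, n3⟩ := exists_between hle hlow htop
  refine ⟨nu, ⟨n2.trans fun p hp => (YE2_mem_top.1 hp).1, by rw [n3, hc, YE2_nk], ?_⟩, n3, ?_, ?_⟩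
  · intro j
    by_contra hcon
    push Not at hcon
    have h1 : (nu.colLen j + 4, j) ∈ lam := YoungDiagram.mem_iff_lt_colLen.2 hcon
    have h2 : (nu.colLen j, j) ∈ lam := lam.up_left_mem (by omega) le_rfl h1
    have h3' : (nu.colLen j, j) ∈ nu := n1 (YE2_mem_low.2 ⟨h2, Or.inl h1⟩)
    exact lt_irrefl _ (YoungDiagram.mem_iff_lt_colLen.1 h3')
  · have h1 : ((2, 0) : ℕ × ℕ) ∈ lam := YoungDiagram.mem_iff_lt_colLen.2 (by omega)
    have h2 : ((2, 0) : ℕ × ℕ) ∈ nu := n1 (YE2_mem_low.2 ⟨h1, Or.inr ⟨rfl, by norm_num⟩⟩)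
    have := YoungDiagram.mem_iff_lt_colLen.1 h2
    omega
  · by_contra hcon
    push Not at hcon
    have h1 : (k, 0) ∈ nu := YoungDiagram.mem_iff_lt_colLen.2 hcon
    exact lt_irrefl _ (YE2_mem_top.1 (n2 h1)).2

end Sx
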