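import Mathlib
import Pool.Agent.Saxl2.YDefs
import Pool.Agent.Saxl2.YE2
import Pool.Agent.Saxl2.XO

/-!
The two-column step for good shapes.
-/

namespace Sx

open Finset Equiv

theorem YE3_dlt (nu lam : YoungDiagram) : dlt nu lam = 1 ∨ dlt nu lam = -1 := by
  unfold dlt
  rcases neg_one_pow_eq_or ℚ (nc nu lam 4) with h | h <;> rw [h] <;> split_ifs <;> norm_num

theorem GG_step {k : ℕ} (hk : 4 ≤ k) (h : GG k) : GG (k + 2) := by
  intro lam hc h3 hl
  obtain ⟨nu, hs, hn, n3, nk'⟩ := x_step hk hc h3 hl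
  obtain ⟨g1, g2⟩ := h nu hn n3 nk'
  have x1 := goodW_x g1 hs
  have x2 := goodW_x g2 hs
  rcases YE3_dlt nu lam with e | e
  · rw [e] at x1 x2
    norm_num at x1 x2
    exact ⟨x1, x2⟩
  · rw [e] at x1 x2
    norm_num at x1 x2
    exact ⟨x2, x1⟩

end Sx
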