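import Mathlib
import Pool.Agent.Saxl2.YFaux

/-! The horizontal strip step for the `Zfree` part. -/

namespace Sx

open Finset Equiv

/-- The first row of a chain shape. -/
lemma YF1_chain_zero {k : ℕ} {nu : YoungDiagram} (h : Chain k nu) :
    nu.rowLen 0 = if 5 < k then k else 5 := by
  have h4 := h.1
  have := h.2 0
  rw [this]
  split_ifs <;> omega

lemma YF1_row_sum (lam : YoungDiagram) : lam.rowLen 0 + lam.rowLen 1 ≤ lam.card := by
  rw [YFaux_card lam (N := lam.colLen 0 + 2) (by omega)]
  have h : range 2 ⊆ range (lam.colLen 0 + 2) := by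
    intro i hi
    simp only [Finset.mem_range] at hi ⊢
    omega
  calc lam.rowLen 0 + lam.rowLen 1 = ∑ i ∈ range 2, lam.rowLen i := by
        simp [Finset.sum_range_succ]
    _ ≤ _ := Finset.sum_le_sum_of_subset h

theorem w_step {k : ℕ} (hk : 4 ≤ k) {lam : YoungDiagram} (hc : lam.card = nk (k + 1))
    (h0 : k + 1 ≤ lam.rowLen 0) (h2 : 2 ≤ rest lam) (hn : ¬ Chain (k + 1) lam) :
    ∃ nu : YoungDiagram, HStrip (k + 1) nu lam ∧ nu.card = nk k ∧ 2 ≤ rest nu ∧ ¬ Chain k nu := by
  have hs := YFaux_nk_succ k
  have hk2 := YFaux_nk2 k
  have hk3 := YFaux_nk2 (k + 1)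
  have hrs := YF1_row_sum lam
  have h10 : lam.rowLen 1 ≤ lam.rowLen 0 := lam.rowLen_anti 0 1 (by omega)
  have hsq : 4 * k ≤ k * k := Nat.mul_le_mul_right k hk
  have hkk : k * (k + 1) = k * k + k := by ring
  have hkk' : (k + 1) * (k + 1 + 1) = k * k + 3 * k + 2 := by ring
  unfold rest at h2
  -- the first choice
  set M := lam.rowLen 0 - (k + 1) with hM
  obtain ⟨nu, hnu, hst⟩ := YFaux_strip lam (a := max M (lam.rowLen 1)) (m := min M (lam.rowLen 1))
    (le_max_right _ _) (by omega) (min_le_right _ _)
  have hamt : lam.rowLen 0 - max M (lam.rowLen 1) + (lam.rowLen 1 - min M (lam.rowLen 1)) =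
      k + 1 := by omega
  rw [hamt] at hst
  have hnuc : nu.card = nk k := by
    have := hst.card
    omega
  have hnu0 : nu.rowLen 0 = max M (lam.rowLen 1) := by simpa using hnu 0
  have hrest : 2 ≤ rest nu := by
    unfold rest
    rw [hnuc, hnu0]
    rcases le_total M (lam.rowLen 1) with h | h
    · rw [max_eq_right h]
      omega
    · rw [max_eq_left h]
      omega
  by_cases hch : Chain k nu
  · have hc0 := YF1_chain_zero hch
    rw [hnu0] at hc0
    by_cases hcase : lam.rowLen 0 = k + 1
    · -- only one choice: `lam` is a chain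
      exfalso
      apply hn
      refine ⟨by omega, ?_⟩
      intro i
      have hM0 : M = 0 := by omega
      rcases i with _ | i
      · rw [hcase]
        split_ifs <;> omega
      · have h5 : nu.rowLen i = lam.rowLen (i + 1) := by
          rw [hnu i]
          split_ifs with hi
          · subst hi
            rw [hM0]
            simp
          · rw [hM0]
            have := lam.rowLen_anti i (i + 1) (by omega)
            omega
        rw [← h5, hch.2 i]
        split_ifs <;> omega
    · -- the second choice
      have hne : lam.rowLen 1 < lam.rowLen 0 := by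
        rcases Nat.lt_or_ge (lam.rowLen 1) (lam.rowLen 0) with h | h
        · exact h
        · exfalso
          have : max M (lam.rowLen 1) = lam.rowLen 0 := by omega
          rw [this] at hc0
          split_ifs at hc0 <;> omega
      have h1pos : 1 ≤ lam.rowLen 1 := by
        by_contra hcon
        have h1 : lam.rowLen 1 = 0 := by omega
        have hcl : lam.colLen 0 ≤ 1 := by
          by_contra hcl
          push Not at hcl
          have := YoungDiagram.mem_iff_lt_rowLen.1 (YoungDiagram.mem_iff_lt_colLen.2 hcl)
          omega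
        have := YFaux_card lam hcl
        simp only [Finset.sum_range_one] at this
        omega
      obtain ⟨nu', hnu', hst'⟩ := YFaux_strip lam (a := max M (lam.rowLen 1) + 1)
        (m := min M (lam.rowLen 1) - 1) (by omega) (by omega) (by omega)
      have hamt' : lam.rowLen 0 - (max M (lam.rowLen 1) + 1) +
          (lam.rowLen 1 - (min M (lam.rowLen 1) - 1)) = k + 1 := by omega
      rw [hamt'] at hst'
      have hnuc' : nu'.card = nk k := by
        have := hst'.card
        omega
      have hnu0' : nu'.rowLen 0 = max M (lam.rowLen 1) + 1 := by simpa using hnu' 0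
      refine ⟨nu', hst', hnuc', ?_, ?_⟩
      · unfold rest
        rw [hnuc', hnu0', hc0]
        split_ifs <;> omega
      · intro hch'
        have := YF1_chain_zero hch'
        rw [hnu0', hc0] at this
        omega
  · exact ⟨nu, hst, hnuc, hrest, hch⟩

end Sx
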