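import Mathlib
import Pool.Agent.Saxl2.YFaux

/-! The horizontal strip step for shapes with at most two rows. -/

namespace Sx

open Finset Equiv

theorem two_step {k : ℕ} (hk : 4 ≤ k) {lam : YoungDiagram} (hc : lam.card = nk (k + 1))
    (h0 : lam.colLen 0 ≤ 2) :
    ∃ nu : YoungDiagram, HStrip (k + 1) nu lam ∧ nu.card = nk k ∧ nu.colLen 0 ≤ 2 ∧
      (3 ≤ rest lam → 3 ≤ rest nu) := by
  have hs := YFaux_nk_succ k
  have hk2 := YFaux_nk2 k
  have hk3 := YFaux_nk2 (k + 1)
  have hsum : lam.card = lam.rowLen 0 + lam.rowLen 1 := by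
    rw [YFaux_card lam h0]
    simp [Finset.sum_range_succ]
  have h10 : lam.rowLen 1 ≤ lam.rowLen 0 := lam.rowLen_anti 0 1 (by omega)
  have hsq : 4 * k ≤ k * k := Nat.mul_le_mul_right k hk
  have hkk : k * (k + 1) = k * k + k := by ring
  have hkk' : (k + 1) * (k + 1 + 1) = k * k + 3 * k + 2 := by ring
  have hr2 : ∀ i, 2 ≤ i → lam.rowLen i = 0 := by
    intro i hi
    by_contra hne
    have := YoungDiagram.mem_iff_lt_colLen.1
      (YoungDiagram.mem_iff_lt_rowLen.2 (Nat.pos_of_ne_zero hne))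
    omega
  have main : ∀ a m : ℕ, lam.rowLen 1 ≤ a → a ≤ lam.rowLen 0 → m ≤ lam.rowLen 1 →
      lam.rowLen 0 - a + (lam.rowLen 1 - m) = k + 1 → (3 ≤ rest lam → 3 ≤ nk k - a) →
      ∃ nu : YoungDiagram, HStrip (k + 1) nu lam ∧ nu.card = nk k ∧ nu.colLen 0 ≤ 2 ∧
      (3 ≤ rest lam → 3 ≤ rest nu) := by
    intro a m h1 h2 h3 h4 h5
    obtain ⟨nu, hnu, hst⟩ := YFaux_strip lam h1 h2 h3
    rw [h4] at hst
    have hnuc : nu.card = nk k := by
      have := hst.card
      omega
    refine ⟨nu, hst, hnuc, ?_, ?_⟩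
    · by_contra hcon
      push Not at hcon
      have := YoungDiagram.mem_iff_lt_rowLen.1 (YoungDiagram.mem_iff_lt_colLen.2 hcon)
      rw [hnu 2, if_neg (by omega), hr2 2 le_rfl] at this
      simp at this
    · intro h
      have := hnu 0
      rw [if_pos rfl] at this
      unfold rest
      rw [hnuc, this]
      exact h5 h
  rcases Nat.lt_or_ge (lam.rowLen 0) (lam.rowLen 1 + (k + 1)) with h | h
  · refine main (lam.rowLen 1) (lam.rowLen 0 - (k + 1)) le_rfl h10 (by omega) (by omega) ?_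
    intro _
    omega
  · refine main (lam.rowLen 0 - (k + 1)) (lam.rowLen 1) (by omega) (by omega) le_rfl (by omega) ?_
    intro h6
    unfold rest at h6
    omega

end Sx
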