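import Mathlib
import Pool.Agent.Helper87.Saxl.Both
import Pool.Agent.Helper87.Saxl.HStep
import Pool.Agent.Saxl2.XO
import Pool.Agent.Saxl2.YA
import Pool.Agent.Saxl2.YB1
import Pool.Agent.Saxl2.YB2
import Pool.Agent.Saxl2.YE3
import Pool.Agent.Saxl2.YF1
import Pool.Agent.Saxl2.YF2

/-! Assembly: all levels. -/

namespace Sx

open Finset Equiv

lemma YH_nk_ge {k : ℕ} (hk : 4 ≤ k) : 10 ≤ nk k := by
  have h := YFaux_nk2 k
  nlinarith

lemma YH_card_le {lam : YoungDiagram} {c : ℕ} (h : lam.colLen 0 ≤ c) :
    lam.card ≤ c * lam.rowLen 0 := by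
  rw [YFaux_card lam h]
  calc ∑ i ∈ range c, lam.rowLen i ≤ ∑ _i ∈ range c, lam.rowLen 0 :=
        Finset.sum_le_sum fun i _ => lam.rowLen_anti 0 i (Nat.zero_le _)
    _ = c * lam.rowLen 0 := by simp

/-- tall shapes. -/
lemma YH_tall {k : ℕ} (hk : 4 ≤ k) (hW : WWk k) {lam : YoungDiagram}
    (hc : lam.card = nk (k + 1)) (h : k + 2 ≤ lam.colLen 0) :
    (SymW (k + 1) lam ∧ AltW (k + 1) lam) ∨ lam.rowLen 0 = 1 := by
  have hcard : lam.transpose.card = nk (k + 1) := by
    rw [← hc]
    unfold YoungDiagram.card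
    show (lam.transpose).cells.card = _
    simp [YoungDiagram.transpose, Finset.card_map]
  have hrow0 : lam.transpose.rowLen 0 = lam.colLen 0 := by
    rw [YoungDiagram.rowLen_transpose]
  have hk1 := YH_nk_ge (k := k + 1) (by omega)
  by_cases hr : 2 ≤ rest lam.transpose
  · left
    have hnc : ¬ Chain (k + 1) lam.transpose := by
      intro hch
      have := YF1_chain_zero hch
      rw [hrow0] at this
      split_ifs at this <;> omega
    obtain ⟨nu, hst, hnc, hrn, hchn⟩ := w_step hk hcard (by omega) hr hnc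
    have hb := both (hW nu hnc hrn hchn) hst
    rw [YoungDiagram.transpose_transpose] at hb
    exact hb
  · push Not at hr
    unfold rest at hr
    rw [hcard, hrow0] at hr
    -- `lam` has first column `n` or `n - 1`
    have hsum := YFaux_card lam (N := lam.colLen 0) le_rfl
    have hpos : ∀ i ∈ range (lam.colLen 0), 1 ≤ lam.rowLen i := by
      intro i hi
      have := YoungDiagram.mem_iff_lt_rowLen.1
        (YoungDiagram.mem_iff_lt_colLen.2 (Finset.mem_range.1 hi))
      omega
    have hcl : lam.colLen 0 ≠ 0 := by omega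
    -- split off the first row
    obtain ⟨c, hcc⟩ := Nat.exists_eq_succ_of_ne_zero hcl
    have hsum2 : lam.card = lam.rowLen 0 + ∑ i ∈ range c, lam.rowLen (i + 1) := by
      rw [hsum, hcc, Finset.sum_range_succ']
      omega
    have hge : c ≤ ∑ i ∈ range c, lam.rowLen (i + 1) := by
      calc c = ∑ _i ∈ range c, 1 := by simp
        _ ≤ _ := Finset.sum_le_sum fun i hi => hpos (i + 1) (by
            rw [Finset.mem_range] at hi ⊢; omega)
    have h1 := hpos 0 (by rw [Finset.mem_range]; omega)
    rcases Nat.lt_or_ge (lam.rowLen 0) 2 with h2 | h2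
    · right; omega
    · left
      have h0 : lam.rowLen 0 = 2 := by omega
      have hc1 : ∑ i ∈ range c, lam.rowLen (i + 1) = c := by omega
      have hr1 : lam.rowLen 1 = 1 := by
        obtain ⟨d, hd⟩ : ∃ d, c = d + 1 := ⟨c - 1, by omega⟩
        rw [hd, Finset.sum_range_succ'] at hc1
        have hge2 : d ≤ ∑ i ∈ range d, lam.rowLen (i + 1 + 1) := by
          calc d = ∑ _i ∈ range d, 1 := by simp
            _ ≤ _ := Finset.sum_le_sum fun i hi => hpos (i + 1 + 1) (by
                rw [Finset.mem_range] at hi ⊢; omega)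
        have := hpos 1 (by rw [Finset.mem_range]; omega)
        have e : lam.rowLen (0 + 1) = lam.rowLen 1 := rfl
        omega
      exact special_two (k := k + 1) (by omega) hc h0 hr1

theorem level_step {k : ℕ} (hk : 4 ≤ k) (hG : GG (k + 1)) (hS : SS k) (hA : AA k) (hW : WWk k) :
    SS (k + 1) ∧ AA (k + 1) ∧ WWk (k + 1) := by
  have hkk := YH_nk_ge hk
  have hkk1 := YH_nk_ge (k := k + 1) (by omega)
  have hSS : SS (k + 1) := by
    intro lam hc hne
    rcases Nat.lt_or_ge (lam.colLen 0) 3 with h | h
    · obtain ⟨nu, hst, hnc, hcl, _⟩ := two_step hk hc (by omega)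
      refine symW_h (hS nu hnc ?_) hst
      rintro ⟨h1, _⟩
      have := YH_card_le hcl
      rw [h1] at this
      omega
    · rcases Nat.lt_or_ge (lam.colLen 0) (k + 2) with h' | h'
      · exact symW_of_goodW (hG lam hc h (by omega)).1
      · rcases YH_tall hk hW hc h' with h1 | h1
        · exact h1.1
        · exact symW_one (by omega) (fun h4 => hne ⟨h1, h4⟩) hc h1
  have hAA : AA (k + 1) := by
    intro lam hc hne
    unfold ExcA at hne
    push Not at hne
    obtain ⟨e1, e2, e3, _⟩ := hne
    rcases Nat.lt_or_ge (lam.colLen 0) 3 with h | h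
    · have h3 : 3 ≤ rest lam := by
        have hs : lam.card = lam.rowLen 0 + lam.rowLen 1 := by
          rw [YFaux_card lam (N := 2) (by omega)]
          simp [Finset.sum_range_succ]
        have hr : rest lam = lam.rowLen 1 := by
          unfold rest
          omega
        by_contra hcon
        have h2 : rest lam = 2 := by omega
        exact e2 h2 (by omega)
      obtain ⟨nu, hst, hnc, hcl, hr⟩ := two_step hk hc (by omega)
      refine altW_h (hA nu hnc ?_) hst
      have h3' := hr h3
      rintro (h1 | ⟨h1, _⟩ | ⟨h1, _⟩ | ⟨h1, _⟩)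
      · omega
      · omega
      · have := YH_card_le hcl
        rw [h1] at this
        omega
      · omega
    · rcases Nat.lt_or_ge (lam.colLen 0) (k + 2) with h' | h'
      · exact altW_of_goodW (hG lam hc h (by omega)).2
      · rcases YH_tall hk hW hc h' with h1 | h1
        · exact h1.2
        · exact altW_one (e3 h1) hc h1
  refine ⟨hSS, hAA, ?_⟩
  intro lam hc hr hch
  rcases Nat.lt_or_ge (lam.rowLen 0) (k + 1) with h | h
  · refine ww_small ?_ h
    by_cases hx : lam.rowLen 0 = 1 ∧ (k + 1) % 4 = 2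
    · apply vW_of_altW
      apply hAA lam hc
      unfold ExcA rest
      rintro (h1 | ⟨h1, _⟩ | ⟨_, h1⟩ | ⟨h1, _⟩)
      · omega
      · omega
      · exact h1 hx.2
      · omega
    · exact vW_of_symW (hSS lam hc hx)
  · obtain ⟨nu, hst, hnc, hrn, hchn⟩ := w_step hk hc h hr hch
    exact wW_h (hW nu hnc hrn hchn) hst

lemma YH_GG (g5 : GG 5) (g6 : GG 6) (n : ℕ) : GG (n + 5) := by
  induction n using Nat.strong_induction_on with
  | _ n ih =>
    match n, ih with
    | 0, _ => exact g5
    | 1, _ => exact g6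
    | m + 2, ih =>
      have := GG_step (k := m + 5) (by omega) (ih m (by omega))
      exact this

/-- all levels from level `4`. -/
lemma YH_levels (g5 : GG 5) (g6 : GG 6) (s4 : SS 4) (a4 : AA 4) (w4 : WWk 4) (n : ℕ) :
    SS (n + 4) ∧ AA (n + 4) ∧ WWk (n + 4) := by
  induction n with
  | zero => exact ⟨s4, a4, w4⟩
  | succ n ih => exact level_step (k := n + 4) (by omega) (YH_GG g5 g6 n) ih.1 ih.2.1 ih.2.2

end Sx
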