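import Mathlib

import Pool.Agent.Saxl2.YGb
import Pool.Agent.Saxl2.YH1

/-!
SAXL2: all levels of the refined Saxl conjecture (MP_2a22ca_al).
-/

namespace Sx

open Finset Equiv

theorem all_levels (k : ℕ) (hk : 1 ≤ k) : SS k ∧ AA k := by
  by_cases h : k < 4
  · interval_cases k
    · exact ⟨SS1, AA1⟩
    · exact ⟨SS2, AA2⟩
    · exact ⟨SS3, AA3⟩
  · obtain ⟨m, rfl⟩ : ∃ m, k = m + 4 := ⟨k - 4, by omega⟩
    have h := YH_levels GG5 GG6 SS4 AA4 WW4 m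
    exact ⟨h.1, h.2.1⟩

end Sx
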