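import Pool.Agent.Helper87.Saxl.Fwd
import Pool.Agent.Helper87.Saxl.Back
import Pool.Agent.Saxl2.YH
import Pool.Agent.Saxl2.NB
import Pool.Agent.Saxl2.JJ

/-!
SAXL2: the symmetric square of the staircase character, for all levels (MP_2a22ca_al, Q1).
-/

namespace Sx

open Finset Equiv

theorem constSym_iff (k : ℕ) (hk : 1 ≤ k) (lam : YoungDiagram)
    (hl : lam.card = k * (k + 1) / 2) :
    ConstSym (k * (k + 1) / 2) lam (stair k) ↔ ¬ (k % 4 = 2 ∧ lam.rowLen 0 = 1) := by
  constructor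
  · rintro h ⟨h4, h1⟩
    exact not_symW_col h1 h4 (symW_of_constSym hl h)
  · intro h
    exact constSym_of_symW ((all_levels k hk).1 lam hl (fun hh => h ⟨hh.2, hh.1⟩))


end Sx
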