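import Mathlib

/-!
# SAXL2 NC1: elements are inverted by elements of `S_{n-2} × S_2`
-/

namespace Sx

open Finset Equiv

theorem nc1_wd {X : Type} (g : Perm X) {b t : X} (ht : g.SameCycle b t) {i j : ℤ}
    (h : (g ^ i) b = (g ^ j) b) : (g ^ (-i)) t = (g ^ (-j)) t := by
  obtain ⟨k, rfl⟩ := ht
  have h1 := congrArg (g ^ (-i - j + k)) h
  simp only [← Perm.mul_apply, ← zpow_add] at h1 ⊢
  rw [show -i - j + k + i = -j + k by ring, show -i - j + k + j = -i + k by ring] at h1
  exact h1.symm

theorem nc1_main {X : Type} (g : Perm X) (base tgt : X → X)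
    (hb : ∀ z w, g.SameCycle z w → base z = base w)
    (ht : ∀ z w, g.SameCycle z w → tgt z = tgt w)
    (hb' : ∀ z, g.SameCycle (base z) z) (ht' : ∀ z, g.SameCycle (tgt z) z) :
    ∃ h : Perm X, h * g * h⁻¹ = g⁻¹ ∧ ∀ (z : X) (i : ℤ), (g ^ i) (base z) = z →
      h z = (g ^ (-i)) (tgt z) := by
  choose e he using hb'
  set f : X → X := fun z => (g ^ (-(e z))) (tgt z) with hf
  have hbt : ∀ z, g.SameCycle (base z) (tgt z) := by
    intro z
    have h1 : g.SameCycle (base z) z := ⟨e z, he z⟩
    exact h1.trans (ht' z).symm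
  have hfp : ∀ (z : X) (i : ℤ), (g ^ i) (base z) = z → f z = (g ^ (-i)) (tgt z) := by
    intro z i hi
    exact nc1_wd g (hbt z) ((he z).trans hi.symm)
  have hsc : ∀ z, g.SameCycle z (f z) := by
    intro z
    refine (ht' z).symm.trans ⟨-(e z), rfl⟩
  have hinv : Function.Involutive f := by
    intro z
    obtain ⟨k, hk⟩ := hbt z
    have h1 : base (f z) = base z := (hb _ _ (hsc z)).symm
    have h2 : tgt (f z) = tgt z := (ht _ _ (hsc z)).symm
    have h3 : (g ^ (-(e z) + k)) (base (f z)) = f z := by
      rw [h1, zpow_add, Perm.mul_apply, hk]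
    rw [hfp _ _ h3, h2, ← hk, ← Perm.mul_apply, ← zpow_add,
      show -(-(e z) + k) + k = e z by ring]
    exact he z
  refine ⟨hinv.toPerm f, ?_, hfp⟩
  have hcomm : ∀ z, f (g z) = g⁻¹ (f z) := by
    intro z
    have hs : g.SameCycle z (g z) := ⟨1, by simp⟩
    have h1 : base (g z) = base z := (hb _ _ hs).symm
    have h2 : tgt (g z) = tgt z := (ht _ _ hs).symm
    have h3 : (g ^ (1 + e z)) (base (g z)) = g z := by
      rw [h1, zpow_add, Perm.mul_apply, he z, zpow_one]
    rw [hfp _ _ h3, h2]
    simp only [hf]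
    rw [← zpow_neg_one, ← Perm.mul_apply, ← zpow_add]
    congr 2
    ring
  rw [mul_inv_eq_iff_eq_mul]
  ext z
  exact hcomm z

theorem inv_conj {X : Type} [Fintype X] [DecidableEq X] (g : Perm X) (p q : X) :
    ∃ h : Perm X, h * g * h⁻¹ = g⁻¹ ∧ ((h p = p ∧ h q = q) ∨ (h p = q ∧ h q = p)) := by
  classical
  obtain ⟨rep, hrep, hrep'⟩ : ∃ rep : X → X, (∀ z w, g.SameCycle z w → rep z = rep w) ∧
      ∀ z, g.SameCycle (rep z) z := by
    refine ⟨fun z => Quotient.out (Quotient.mk (Perm.SameCycle.setoid g) z), ?_, ?_⟩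
    · intro z w h
      simp only
      congr 1
      exact Quotient.sound h
    · intro z
      exact Quotient.mk_out (s := Perm.SameCycle.setoid g) z
  have hiff : ∀ z w x, g.SameCycle z w → (g.SameCycle z x ↔ g.SameCycle w x) := fun z w x h =>
    ⟨fun h1 => h.symm.trans h1, fun h1 => h.trans h1⟩
  by_cases hpq : g.SameCycle p q
  · obtain ⟨h, h1, h2⟩ := nc1_main g (fun z => if g.SameCycle z p then p else rep z)
      (fun z => if g.SameCycle z p then q else rep z) (fun z w hzw => by
        simp only [hiff z w p hzw, hrep z w hzw]) (fun z w hzw => by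
        simp only [hiff z w p hzw, hrep z w hzw]) (fun z => by
        by_cases hz : g.SameCycle z p
        · rw [if_pos hz]; exact hz.symm
        · rw [if_neg hz]; exact hrep' z) (fun z => by
        by_cases hz : g.SameCycle z p
        · rw [if_pos hz]; exact (hz.trans hpq).symm
        · rw [if_neg hz]; exact hrep' z)
    refine ⟨h, h1, Or.inr ⟨?_, ?_⟩⟩
    · have := h2 p 0 (by rw [if_pos (Perm.SameCycle.refl g p)]; simp)
      rw [if_pos (Perm.SameCycle.refl g p)] at this
      simpa using this
    · have hqp : g.SameCycle q p := hpq.symm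
      obtain ⟨d, hd⟩ := hpq
      have := h2 q d (by rw [if_pos hqp]; exact hd)
      rw [if_pos hqp] at this
      rw [this, ← hd, ← Perm.mul_apply, ← zpow_add]
      simp
  · have hqp : ¬ g.SameCycle q p := fun h => hpq h.symm
    obtain ⟨h, h1, h2⟩ := nc1_main g
      (fun z => if g.SameCycle z p then p else if g.SameCycle z q then q else rep z)
      (fun z => if g.SameCycle z p then p else if g.SameCycle z q then q else rep z)
      (fun z w hzw => by
        simp only [hiff z w p hzw, hiff z w q hzw, hrep z w hzw]) (fun z w hzw => by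
        simp only [hiff z w p hzw, hiff z w q hzw, hrep z w hzw]) (fun z => by
        by_cases hz : g.SameCycle z p
        · rw [if_pos hz]; exact hz.symm
        · rw [if_neg hz]
          by_cases hz' : g.SameCycle z q
          · rw [if_pos hz']; exact hz'.symm
          · rw [if_neg hz']; exact hrep' z) (fun z => by
        by_cases hz : g.SameCycle z p
        · rw [if_pos hz]; exact hz.symm
        · rw [if_neg hz]
          by_cases hz' : g.SameCycle z q
          · rw [if_pos hz']; exact hz'.symm
          · rw [if_neg hz']; exact hrep' z)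
    refine ⟨h, h1, Or.inl ⟨?_, ?_⟩⟩
    · have := h2 p 0 (by rw [if_pos (Perm.SameCycle.refl g p)]; simp)
      rw [if_pos (Perm.SameCycle.refl g p)] at this
      simpa using this
    · have := h2 q 0 (by rw [if_neg hqp, if_pos (Perm.SameCycle.refl g q)]; simp)
      rw [if_neg hqp, if_pos (Perm.SameCycle.refl g q)] at this
      simpa using this

end Sx
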