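import Mathlib
import Pool.Agent.Saxl2.JTDefs
import Pool.Agent.Helper87.Saxl.Irr
import Pool.Agent.Saxl2.NC1

/-!
NC2: invariants of `S_{n-2} × S_2` in the tensor square of a Specht module are symmetric.
-/

namespace Sx

open Finset Equiv TensorProduct

section
variable {n : ℕ} {mu : YoungDiagram}

/-- the polytabloid as an element of the Specht module. -/
noncomputable def ncE {t : Fin n → ℕ × ℕ} (ht : IsTab t mu) : Specht n mu :=
  ⟨polytabloid t, Submodule.subset_span ⟨t, ht, rfl⟩⟩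

/-- the tensors `T a`. -/
noncomputable def ncT {t : Fin n → ℕ × ℕ} (ht : IsTab t mu) (a : Perm (Fin n)) :
    Specht n mu ⊗[ℂ] Specht n mu :=
  ∑ g : Perm (Fin n), (spRep n mu (a * g) (ncE ht)) ⊗ₜ[ℂ] (spRep n mu g (ncE ht))

lemma ncT_comm {t : Fin n → ℕ × ℕ} (ht : IsTab t mu) (a : Perm (Fin n)) :
    TensorProduct.comm ℂ (Specht n mu) (Specht n mu) (ncT ht a) = ncT ht a⁻¹ := by
  unfold ncT
  rw [map_sum]
  refine Fintype.sum_equiv (Equiv.mulLeft a) _ _ ?_
  intro g
  rw [TensorProduct.comm_tmul, Equiv.coe_mulLeft, inv_mul_cancel_left]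

lemma ncT_map {t : Fin n → ℕ × ℕ} (ht : IsTab t mu) (a c d : Perm (Fin n)) :
    TensorProduct.map (spRep n mu c) (spRep n mu d) (ncT ht a) = ncT ht (c * a * d⁻¹) := by
  unfold ncT
  rw [map_sum]
  refine Fintype.sum_equiv (Equiv.mulLeft d) _ _ ?_
  intro g
  rw [TensorProduct.map_tmul, Equiv.coe_mulLeft]
  have h1 : c * a * d⁻¹ * (d * g) = c * (a * g) := by group
  rw [h1, map_mul (spRep n mu) c (a * g), map_mul (spRep n mu) d g]
  rfl

/-- the span of the tensors `T a`. -/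
noncomputable def ncS {t : Fin n → ℕ × ℕ} (ht : IsTab t mu) :
    Submodule ℂ (Specht n mu ⊗[ℂ] Specht n mu) := Submodule.span ℂ (Set.range (ncT ht))

lemma ncS_stable {t : Fin n → ℕ × ℕ} (ht : IsTab t mu) (c d : Perm (Fin n))
    {z : Specht n mu ⊗[ℂ] Specht n mu} (hz : z ∈ ncS ht) :
    TensorProduct.map (spRep n mu c) (spRep n mu d) z ∈ ncS ht := by
  refine Submodule.span_induction
    (p := fun z _ => TensorProduct.map (spRep n mu c) (spRep n mu d) z ∈ ncS ht) ?_ ?_ ?_ ?_ hz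
  · rintro _ ⟨a, rfl⟩
    rw [ncT_map]
    exact Submodule.subset_span ⟨_, rfl⟩
  · rw [map_zero]
    exact Submodule.zero_mem _
  · intro a b _ _ ha hb
    rw [map_add]
    exact Submodule.add_mem _ ha hb
  · intro a b _ hb
    rw [map_smul]
    exact Submodule.smul_mem _ a hb

/-- the column antisymmetriser on the Specht module. -/
noncomputable def ncK (t : Fin n → ℕ × ℕ) : Specht n mu →ₗ[ℂ] Specht n mu :=
  ∑ c ∈ colS t, irrSg c • spRep n mu c

/-- integral polytabloid. -/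
def ncP (t : Fin n → ℕ × ℕ) (w : Fin n → ℕ) : ℤ :=
  ∑ c ∈ colS t, (Perm.sign c : ℤ) * (if w = (fun x => (t (c x)).1) then 1 else 0)

lemma ncP_cast (t : Fin n → ℕ × ℕ) (w : Fin n → ℕ) : polytabloid t w = (ncP t w : ℂ) := by
  unfold polytabloid ncP
  push_cast
  rfl

/-- the integral coefficient. -/
def ncM (t : Fin n → ℕ × ℕ) (g : Perm (Fin n)) : ℤ :=
  ∑ c ∈ colS t, (Perm.sign c : ℤ) * ncP t ((fun x => (t (c x)).1) ∘ g)

lemma ncK_apply {t : Fin n → ℕ × ℕ} (ht : IsTab t mu) (g : Perm (Fin n)) :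
    ncK t (spRep n mu g (ncE ht)) = (ncM t g : ℂ) • ncE ht := by
  apply Subtype.ext
  have h1 : ((ncK t (spRep n mu g (ncE ht)) : Specht n mu) : (Fin n → ℕ) → ℂ) =
      irrKap t ((spRep n mu g (ncE ht) : Specht n mu) : (Fin n → ℕ) → ℂ) := by
    unfold ncK irrKap
    rw [LinearMap.sum_apply, Submodule.coe_sum]
    rfl
  rw [h1, irrKap_eq (spRep n mu g (ncE ht)).2 ht]
  rw [Submodule.coe_smul]
  congr 1
  unfold ncM
  push_cast
  apply Finset.sum_congr rfl
  intro c _
  congr 1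
  show polytabloid t ((fun x => (t (c x)).1) ∘ g) = _
  rw [ncP_cast]

lemma ncM_one {t : Fin n → ℕ × ℕ} (ht : IsTab t mu) : 0 < ncM t 1 := by
  have h1 : ∀ c ∈ colS t, (Perm.sign c : ℤ) * ncP t ((fun x => (t (c x)).1) ∘ (1 : Perm (Fin n))) = 1 := by
    intro c hc
    have h2 : ((ncP t ((fun x => (t (c x)).1) ∘ (1 : Perm (Fin n))) : ℤ) : ℂ) = irrSg c := by
      rw [← ncP_cast]
      exact irr_polytabloid_apply ht hc
    have h3 : (ncP t ((fun x => (t (c x)).1) ∘ (1 : Perm (Fin n))) : ℤ) = (Perm.sign c : ℤ) := by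
      unfold irrSg at h2
      exact_mod_cast h2
    rw [h3]
    rcases Int.units_eq_one_or (Perm.sign c) with h | h <;> simp [h]
  unfold ncM
  rw [Finset.sum_congr rfl h1]
  simp only [Finset.sum_const, mul_one, nsmul_eq_mul]
  have : 0 < (colS t).card := by
    rw [Finset.card_pos]
    exact ⟨1, by simp [colS]⟩
  exact_mod_cast this

lemma ncE_mem {t : Fin n → ℕ × ℕ} (ht : IsTab t mu) :
    (ncE ht) ⊗ₜ[ℂ] (ncE ht) ∈ ncS ht := by
  have h1 : TensorProduct.map (ncK t) (ncK t) (ncT ht 1) ∈ ncS ht := by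
    have h2 : TensorProduct.map (ncK (mu := mu) t) (ncK (mu := mu) t) =
        ∑ c ∈ colS t, ∑ d ∈ colS t, (irrSg c * irrSg d) •
          TensorProduct.map (spRep n mu c) (spRep n mu d) := by
      unfold ncK
      rw [← TensorProduct.mapBilinear_apply (R := ℂ), LinearMap.map_sum₂]
      apply Finset.sum_congr rfl
      intro c _
      rw [LinearMap.map_smul₂, map_sum, Finset.smul_sum]
      apply Finset.sum_congr rfl
      intro d _
      rw [map_smul, smul_smul, TensorProduct.mapBilinear_apply]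
    rw [h2, LinearMap.sum_apply]
    apply Submodule.sum_mem
    intro c _
    rw [LinearMap.sum_apply]
    apply Submodule.sum_mem
    intro d _
    rw [LinearMap.smul_apply]
    apply Submodule.smul_mem
    exact ncS_stable ht c d (Submodule.subset_span ⟨1, rfl⟩)
  have h3 : TensorProduct.map (ncK t) (ncK t) (ncT ht 1) =
      ((∑ g : Perm (Fin n), ncM t g ^ 2 : ℤ) : ℂ) • ((ncE ht) ⊗ₜ[ℂ] (ncE ht)) := by
    unfold ncT
    rw [map_sum, Int.cast_sum, Finset.sum_smul]
    apply Finset.sum_congr rfl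
    intro g _
    rw [TensorProduct.map_tmul, one_mul, ncK_apply, TensorProduct.smul_tmul_smul]
    congr 1
    push_cast
    ring
  rw [h3] at h1
  have h4 : (0 : ℤ) < ∑ g : Perm (Fin n), ncM t g ^ 2 := by
    apply Finset.sum_pos'
    · intro g _
      positivity
    · exact ⟨1, mem_univ _, by have := ncM_one ht; positivity⟩
  have h5 : ((∑ g : Perm (Fin n), ncM t g ^ 2 : ℤ) : ℂ) ≠ 0 := by
    exact_mod_cast h4.ne'
  have h6 := Submodule.smul_mem (ncS ht) (((∑ g : Perm (Fin n), ncM t g ^ 2 : ℤ) : ℂ))⁻¹ h1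
  rwa [smul_smul, inv_mul_cancel₀ h5, one_smul] at h6

lemma ncE_perm {t t' : Fin n → ℕ × ℕ} (ht : IsTab t mu) (ht' : IsTab t' mu) :
    ∃ g : Perm (Fin n), ncE ht' = spRep n mu g (ncE ht) := by
  obtain ⟨τ, hτ⟩ := irr_tab_perm ht ht'
  refine ⟨τ.symm, ?_⟩
  apply Subtype.ext
  show polytabloid t' = permAct τ.symm (polytabloid t)
  rw [permAct_polytabloid]
  congr 1
  funext x
  rw [Equiv.symm_symm, Function.comp_apply, hτ]

lemma ncS_tmul {t : Fin n → ℕ × ℕ} (ht : IsTab t mu) (v w : Specht n mu) :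
    v ⊗ₜ[ℂ] w ∈ ncS ht := by
  have key : ∀ (f : (Fin n → ℕ) → ℂ) (hf : f ∈ Specht n mu) (d : Perm (Fin n)),
      (⟨f, hf⟩ : Specht n mu) ⊗ₜ[ℂ] (spRep n mu d (ncE ht)) ∈ ncS ht := by
    intro f hf d
    refine Submodule.span_induction
      (p := fun f hf => (⟨f, hf⟩ : Specht n mu) ⊗ₜ[ℂ] (spRep n mu d (ncE ht)) ∈ ncS ht)
      ?_ ?_ ?_ ?_ hf
    · rintro e ⟨t', ht', rfl⟩
      obtain ⟨c, hc⟩ := ncE_perm ht ht'
      have h1 : (⟨polytabloid t', Submodule.subset_span ⟨t', ht', rfl⟩⟩ : Specht n mu) =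
        spRep n mu c (ncE ht) := hc
      rw [h1, ← TensorProduct.map_tmul]
      exact ncS_stable ht c d (ncE_mem ht)
    · have h1 : (⟨0, Submodule.zero_mem _⟩ : Specht n mu) = 0 := rfl
      rw [h1, TensorProduct.zero_tmul]
      exact Submodule.zero_mem _
    · intro a b ha hb h1 h2
      have h3 : (⟨a + b, Submodule.add_mem _ ha hb⟩ : Specht n mu) = ⟨a, ha⟩ + ⟨b, hb⟩ := rfl
      rw [h3, TensorProduct.add_tmul]
      exact Submodule.add_mem _ h1 h2
    · intro a b hb h1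
      have h3 : (⟨a • b, Submodule.smul_mem _ a hb⟩ : Specht n mu) = a • ⟨b, hb⟩ := rfl
      rw [h3, ← TensorProduct.smul_tmul']
      exact Submodule.smul_mem _ a h1
  have key2 : ∀ (f : (Fin n → ℕ) → ℂ) (hf : f ∈ Specht n mu),
      v ⊗ₜ[ℂ] (⟨f, hf⟩ : Specht n mu) ∈ ncS ht := by
    intro f hf
    refine Submodule.span_induction
      (p := fun f hf => v ⊗ₜ[ℂ] (⟨f, hf⟩ : Specht n mu) ∈ ncS ht) ?_ ?_ ?_ ?_ hf
    · rintro e ⟨t', ht', rfl⟩
      obtain ⟨c, hc⟩ := ncE_perm ht ht'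
      have h1 : (⟨polytabloid t', Submodule.subset_span ⟨t', ht', rfl⟩⟩ : Specht n mu) =
        spRep n mu c (ncE ht) := hc
      rw [h1]
      exact key v.1 v.2 c
    · have h1 : (⟨0, Submodule.zero_mem _⟩ : Specht n mu) = 0 := rfl
      rw [h1, TensorProduct.tmul_zero]
      exact Submodule.zero_mem _
    · intro a b ha hb h1 h2
      have h3 : (⟨a + b, Submodule.add_mem _ ha hb⟩ : Specht n mu) = ⟨a, ha⟩ + ⟨b, hb⟩ := rfl
      rw [h3, TensorProduct.tmul_add]
      exact Submodule.add_mem _ h1 h2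
    · intro a b hb h1
      have h3 : (⟨a • b, Submodule.smul_mem _ a hb⟩ : Specht n mu) = a • ⟨b, hb⟩ := rfl
      rw [h3, TensorProduct.tmul_smul]
      exact Submodule.smul_mem _ a h1
  exact key2 w.1 w.2

lemma ncS_top {t : Fin n → ℕ × ℕ} (ht : IsTab t mu) (z : Specht n mu ⊗[ℂ] Specht n mu) :
    z ∈ ncS ht := by
  induction z using TensorProduct.induction_on with
  | zero => exact Submodule.zero_mem _
  | tmul v w => exact ncS_tmul ht v w
  | add a b ha hb => exact Submodule.add_mem _ ha hb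

/-- the stabilizer of the pair. -/
def ncH (p q : Fin n) : Finset (Perm (Fin n)) :=
  univ.filter fun h => (h p = p ∧ h q = q) ∨ (h p = q ∧ h q = p)

lemma ncH_mul {p q : Fin n} {a b : Perm (Fin n)} (ha : a ∈ ncH p q) (hb : b ∈ ncH p q) :
    a * b ∈ ncH p q := by
  simp only [ncH, mem_filter, mem_univ, true_and, Perm.mul_apply] at *
  rcases hb with ⟨h1, h2⟩ | ⟨h1, h2⟩ <;> rw [h1, h2] <;> tauto

lemma ncH_inv {p q : Fin n} {a : Perm (Fin n)} (ha : a ∈ ncH p q) : a⁻¹ ∈ ncH p q := by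
  simp only [ncH, mem_filter, mem_univ, true_and, Perm.inv_eq_iff_eq] at *
  rcases ha with ⟨h1, h2⟩ | ⟨h1, h2⟩
  · left
    exact ⟨h1.symm, h2.symm⟩
  · right
    exact ⟨h2.symm, h1.symm⟩

lemma ncH_avg {t : Fin n → ℕ × ℕ} (ht : IsTab t mu) (p q : Fin n)
    (z : Specht n mu ⊗[ℂ] Specht n mu) :
    TensorProduct.comm ℂ (Specht n mu) (Specht n mu)
      (∑ h ∈ ncH p q, TensorProduct.map (spRep n mu h) (spRep n mu h) z) =
      ∑ h ∈ ncH p q, TensorProduct.map (spRep n mu h) (spRep n mu h) z := by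
  refine Submodule.span_induction
    (p := fun z _ => TensorProduct.comm ℂ (Specht n mu) (Specht n mu)
      (∑ h ∈ ncH p q, TensorProduct.map (spRep n mu h) (spRep n mu h) z) =
      ∑ h ∈ ncH p q, TensorProduct.map (spRep n mu h) (spRep n mu h) z) ?_ ?_ ?_ ?_ (ncS_top ht z)
  · rintro _ ⟨a, rfl⟩
    obtain ⟨k, hk, hk2⟩ := inv_conj a p q
    have hkH : k ∈ ncH p q := by
      simp only [ncH, mem_filter, mem_univ, true_and]
      exact hk2
    rw [map_sum]
    simp only [ncT_map, ncT_comm]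
    refine Finset.sum_bij (fun h _ => h * k) (fun h hh => ncH_mul hh hkH) ?_ ?_ ?_
    · intro a _ b _ hab
      exact mul_right_cancel hab
    · intro h hh
      exact ⟨h * k⁻¹, ncH_mul hh (ncH_inv hkH), by group⟩
    · intro h _
      congr 1
      rw [mul_inv_rev, mul_inv_rev, inv_inv, ← hk]
      group
  · simp
  · intro a b _ _ ha hb
    simp only [map_add, Finset.sum_add_distrib, ha, hb]
  · intro a b _ hb
    simp only [map_smul, ← Finset.smul_sum, hb]

end

theorem inv_sym {n : ℕ} {mu : YoungDiagram} (p q : Fin n)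
    (z : Specht n mu ⊗[ℂ] Specht n mu)
    (hz : ∀ h : Perm (Fin n), ((h p = p ∧ h q = q) ∨ (h p = q ∧ h q = p)) →
      TensorProduct.map (spechtAct mu h) (spechtAct mu h) z = z) :
    TensorProduct.comm ℂ (Specht n mu) (Specht n mu) z = z := by
  by_cases hex : ∃ t : Fin n → ℕ × ℕ, IsTab t mu
  · obtain ⟨t, ht⟩ := hex
    have h1 := ncH_avg ht p q z
    have h2 : ∑ h ∈ ncH p q, TensorProduct.map (spRep n mu h) (spRep n mu h) z =
        ((ncH p q).card : ℂ) • z := by
      rw [Nat.cast_smul_eq_nsmul ℂ, ← Finset.sum_const]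
      apply Finset.sum_congr rfl
      intro h hh
      simp only [ncH, mem_filter, mem_univ, true_and] at hh
      exact hz h hh
    rw [h2, map_smul] at h1
    have h3 : ((ncH p q).card : ℂ) ≠ 0 := by
      have : 0 < (ncH p q).card := by
        rw [Finset.card_pos]
        exact ⟨1, by simp [ncH]⟩
      exact_mod_cast this.ne'
    exact smul_right_injective _ h3 h1
  · have hbot : ∀ v : Specht n mu, v = 0 := by
      intro v
      apply Subtype.ext
      have h1 : Specht n mu = ⊥ := by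
        unfold Specht
        rw [Submodule.span_eq_bot]
        rintro e ⟨t, ht, rfl⟩
        exact absurd ⟨t, ht⟩ hex
      have h2 := v.2
      have h3 : (v : (Fin n → ℕ) → ℂ) ∈ (⊥ : Submodule ℂ ((Fin n → ℕ) → ℂ)) := h1 ▸ h2
      exact (Submodule.mem_bot ℂ).1 h3
    have hz0 : ∀ z : Specht n mu ⊗[ℂ] Specht n mu, z = 0 := by
      intro z
      induction z using TensorProduct.induction_on with
      | zero => rfl
      | tmul v w => rw [hbot v, TensorProduct.zero_tmul]
      | add a b ha hb => rw [ha, hb, add_zero]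
    rw [hz0 z, map_zero]

end Sx
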