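import Mathlib
import Pool.Agent.Helper87.Saxl.Defs
import Pool.Agent.Helper87.Saxl.FinDefs
import Pool.Agent.Helper87.Saxl.Jinj
import Pool.Agent.Helper87.Saxl.Back
import Pool.Agent.Saxl2.NC2

/-!
NC3: the characters of `(n)`, `(n-1,1)`, `(n-2,2)` are not constituents of the exterior square of
an irreducible character.
-/

namespace Sx

open Finset Equiv TensorProduct

theorem nc3_pair {n : ℕ} {lam : YoungDiagram} (hn : 0 < n) {t : Fin n → ℕ × ℕ}
    (ht : IsTab t lam) (h2 : lam.colLen 0 ≤ 2) (h : lam.rowLen 1 ≤ 2) :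
    ∃ p q : Fin n, ∀ g : Perm (Fin n), ((g p = p ∧ g q = q) ∨ (g p = q ∧ g q = p)) →
      g ∈ rowS t := by
  have hrow : ∀ x, (t x).1 ≤ 1 := by
    intro x
    have hm : t x ∈ lam := (ht.mem _).2 ⟨x, rfl⟩
    have h3 : ((t x).1, (t x).2) ∈ lam := hm
    rw [YoungDiagram.mem_iff_lt_colLen] at h3
    have h4 := lam.colLen_anti 0 (t x).2 (Nat.zero_le _)
    omega
  have hcol : ∀ x, (t x).1 = 1 → (t x).2 < lam.rowLen 1 := by
    intro x hx
    have hm : t x ∈ lam := (ht.mem _).2 ⟨x, rfl⟩
    have h3 : ((t x).1, (t x).2) ∈ lam := hm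
    rw [YoungDiagram.mem_iff_lt_rowLen, hx] at h3
    exact h3
  -- it is enough to have a pair whose set contains the second row and is row-homogeneous
  have key : ∀ p q : Fin n, (t p).1 = (t q).1 → (∀ x, (t x).1 = 1 → x = p ∨ x = q) →
      ∀ g : Perm (Fin n), ((g p = p ∧ g q = q) ∨ (g p = q ∧ g q = p)) → g ∈ rowS t := by
    intro p q hpq hx g hg
    rw [jinj_mem_rowS]
    have hin : ∀ x, x = p ∨ x = q → (g x = p ∨ g x = q) := by
      rintro x (rfl | rfl)
      · rcases hg with hg | hg
        · exact Or.inl hg.1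
        · exact Or.inr hg.1
      · rcases hg with hg | hg
        · exact Or.inr hg.2
        · exact Or.inl hg.2
    have hout : ∀ x, (g x = p ∨ g x = q) → x = p ∨ x = q := by
      rintro x (hx1 | hx1)
      · rcases hg with hg | hg
        · exact Or.inl (g.injective (hx1.trans hg.1.symm))
        · exact Or.inr (g.injective (hx1.trans hg.2.symm))
      · rcases hg with hg | hg
        · exact Or.inr (g.injective (hx1.trans hg.2.symm))
        · exact Or.inl (g.injective (hx1.trans hg.1.symm))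
    have hval : ∀ x, x = p ∨ x = q → (t x).1 = (t p).1 := by
      rintro x (rfl | rfl)
      · rfl
      · exact hpq.symm
    intro x
    by_cases hxp : x = p ∨ x = q
    · rw [hval x hxp, hval _ (hin x hxp)]
    · have h5 : (t x).1 ≠ 1 := fun h6 => hxp (hx x h6)
      have h6 : (t (g x)).1 ≠ 1 := fun h7 => hxp (hout x (hx _ h7))
      have h7 := hrow x
      have h8 := hrow (g x)
      omega
  rcases Nat.lt_or_ge 1 (lam.rowLen 1) with h5 | h5
  · -- two cells in the second row
    obtain ⟨p, hp⟩ := (ht.mem (1, 0)).1 (by rw [YoungDiagram.mem_iff_lt_rowLen]; omega)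
    obtain ⟨q, hq⟩ := (ht.mem (1, 1)).1 (by rw [YoungDiagram.mem_iff_lt_rowLen]; omega)
    refine ⟨p, q, key p q (by rw [hp, hq]) ?_⟩
    intro x hx
    have h6 := hcol x hx
    have h7 : (t x).2 = 0 ∨ (t x).2 = 1 := by omega
    rcases h7 with h7 | h7
    · left
      apply ht.inj
      rw [hp]
      exact Prod.ext hx h7
    · right
      apply ht.inj
      rw [hq]
      exact Prod.ext hx h7
  · rcases Nat.eq_zero_or_pos (lam.rowLen 1) with h6 | h6
    · refine ⟨⟨0, hn⟩, ⟨0, hn⟩, key _ _ rfl ?_⟩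
      intro x hx
      have := hcol x hx
      omega
    · obtain ⟨p, hp⟩ := (ht.mem (1, 0)).1 (by rw [YoungDiagram.mem_iff_lt_rowLen]; omega)
      refine ⟨p, p, key p p rfl ?_⟩
      intro x hx
      have h7 := hcol x hx
      left
      apply ht.inj
      rw [hp]
      exact Prod.ext hx (by show (t x).2 = 0; omega)

theorem nc3_poly_row {n : ℕ} {t : Fin n → ℕ × ℕ} (ht : Function.Injective t) :
    polytabloid t (fun x => (t x).1) = 1 := by
  unfold polytabloid
  rw [Finset.sum_eq_single (1 : Perm (Fin n))]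
  · simp
  · intro c hc hne
    rw [if_neg, mul_zero]
    intro h
    apply hne
    ext x
    have h1 := congrFun h x
    have h2 := (jinj_mem_colS.1 hc) x
    have h3 : t (c x) = t x := Prod.ext h1.symm h2
    rw [ht h3]
    rfl
  · intro h
    exact absurd (jinj_one_mem_col t) h

theorem not_constAlt_big {n : ℕ} {lam mu : YoungDiagram} (hn : 0 < n) (hc : lam.card = n)
    (hm : mu.card = n) (h2 : lam.colLen 0 ≤ 2) (h : lam.rowLen 1 ≤ 2) : ¬ ConstAlt n lam mu := by
  rintro ⟨φ, hφ, halt, hg⟩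
  obtain ⟨t, ht⟩ := back_exists_tab hc
  obtain ⟨p, q, hpq⟩ := nc3_pair hn ht h2 h
  let e : Specht n lam := ⟨polytabloid t, Submodule.subset_span ⟨t, ht, rfl⟩⟩
  let u : Specht n lam := ∑ r ∈ rowS t, spechtAct lam r e
  have huw : ∀ w, (u : (Fin n → ℕ) → ℂ) w = ∑ r ∈ rowS t, polytabloid t (w ∘ r) := by
    intro w
    simp only [u, AddSubmonoidClass.coe_finsetSum, Finset.sum_apply]
    rfl
  have hu : u ≠ 0 := by
    intro h0
    have h1 : (u : (Fin n → ℕ) → ℂ) (fun x => (t x).1) = 0 := by rw [h0]; rfl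
    rw [huw] at h1
    have h3 : ∀ r ∈ rowS t, polytabloid t ((fun x => (t x).1) ∘ r) = 1 := by
      intro r hr
      have h4 : (fun x => (t x).1) ∘ r = fun x => (t x).1 := by
        funext x
        exact jinj_mem_rowS.1 hr x
      rw [h4]
      exact nc3_poly_row ht.inj
    rw [Finset.sum_congr rfl h3, Finset.sum_const, nsmul_eq_mul, mul_one, Nat.cast_eq_zero,
      Finset.card_eq_zero] at h1
    have h4 := jinj_one_mem t
    rw [h1] at h4
    simp at h4
  have hinv : ∀ g ∈ rowS t, spechtAct lam g u = u := by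
    intro g hgr
    apply Subtype.ext
    funext w
    show (u : (Fin n → ℕ) → ℂ) (w ∘ g) = (u : (Fin n → ℕ) → ℂ) w
    rw [huw, huw]
    refine Finset.sum_bij (fun r _ => g * r) ?_ ?_ ?_ ?_
    · intro r hr
      exact (jinj_rowS_mul hgr).2 hr
    · intro r _ s _ h5
      exact mul_left_cancel h5
    · intro s hs
      refine ⟨g⁻¹ * s, ?_, by simp⟩
      rw [← jinj_rowS_mul hgr]
      simpa using hs
    · intro r _
      rfl
  have hsym := inv_sym p q (φ u) (fun g hg' => by rw [← hg, hinv g (hpq g hg')])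
  rw [halt] at hsym
  have h0 : φ u = 0 := by
    have h5 : (2 : ℂ) • φ u = 0 := by
      rw [two_smul]
      calc φ u + φ u = -φ u + φ u := by rw [hsym]
        _ = 0 := neg_add_cancel (φ u)
    exact (smul_eq_zero.1 h5).resolve_left two_ne_zero
  exact hu (hφ (by rw [h0, map_zero]))

end Sx
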