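import Mathlib
import Pool.Agent.Saxl2.NC2
import Pool.Agent.Helper87.Saxl.Fwd
import Pool.Agent.Helper87.Saxl.Back

/-!
ND: `(2,2,2)` is not in the exterior square of the character of the staircase `(3,2,1)`.

The proof uses the transitive subgroup `PGL_2(5)` of `S_6` (the stabilizer of a one-factorization of
the complete graph with six vertices): every element of `S_6` is inverted by an element of this
subgroup, so its invariants in a tensor square of an irreducible module are symmetric; and it has a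
nonzero invariant in the Specht module of `(2,2,2)`.
-/

namespace Sx

open Finset Equiv TensorProduct

section
variable {n : ℕ} {mu : YoungDiagram}

/-- invariants of a subgroup inverting all elements are symmetric. -/
theorem nd_sym (H : Finset (Perm (Fin n))) (h1 : (1 : Perm (Fin n)) ∈ H)
    (hmul : ∀ a ∈ H, ∀ b ∈ H, a * b ∈ H) (hinv : ∀ a ∈ H, a⁻¹ ∈ H)
    (hconj : ∀ a : Perm (Fin n), ∃ k ∈ H, k * a * k⁻¹ = a⁻¹) {t : Fin n → ℕ × ℕ}
    (ht : IsTab t mu) (z : Specht n mu ⊗[ℂ] Specht n mu)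
    (hz : ∀ h ∈ H, TensorProduct.map (spechtAct mu h) (spechtAct mu h) z = z) :
    TensorProduct.comm ℂ (Specht n mu) (Specht n mu) z = z := by
  have havg : TensorProduct.comm ℂ (Specht n mu) (Specht n mu)
      (∑ h ∈ H, TensorProduct.map (spRep n mu h) (spRep n mu h) z) =
      ∑ h ∈ H, TensorProduct.map (spRep n mu h) (spRep n mu h) z := by
    refine Submodule.span_induction
      (p := fun z _ => TensorProduct.comm ℂ (Specht n mu) (Specht n mu)
        (∑ h ∈ H, TensorProduct.map (spRep n mu h) (spRep n mu h) z) =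
        ∑ h ∈ H, TensorProduct.map (spRep n mu h) (spRep n mu h) z) ?_ ?_ ?_ ?_ (ncS_top ht z)
    · rintro _ ⟨a, rfl⟩
      obtain ⟨k, hkH, hk⟩ := hconj a
      rw [map_sum]
      simp only [ncT_map, ncT_comm]
      refine Finset.sum_bij (fun h _ => h * k) (fun h hh => hmul _ hh _ hkH) ?_ ?_ ?_
      · intro a _ b _ hab
        exact mul_right_cancel hab
      · intro h hh
        exact ⟨h * k⁻¹, hmul _ hh _ (hinv _ hkH), by group⟩
      · intro h _
        congr 1
        rw [mul_inv_rev, mul_inv_rev, inv_inv, ← hk]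
        group
    · simp
    · intro a b _ _ ha hb
      simp only [map_add, Finset.sum_add_distrib, ha, hb]
    · intro a b _ hb
      simp only [map_smul, ← Finset.smul_sum, hb]
  have h2 : ∑ h ∈ H, TensorProduct.map (spRep n mu h) (spRep n mu h) z = (H.card : ℂ) • z := by
    rw [Nat.cast_smul_eq_nsmul ℂ, ← Finset.sum_const]
    exact Finset.sum_congr rfl fun h hh => hz h hh
  rw [h2, map_smul] at havg
  have h3 : (H.card : ℂ) ≠ 0 := by
    have : 0 < H.card := Finset.card_pos.2 ⟨1, h1⟩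
    exact_mod_cast this.ne'
  exact smul_right_injective _ h3 havg

theorem nd_main {lam : YoungDiagram} (H : Finset (Perm (Fin n))) (h1 : (1 : Perm (Fin n)) ∈ H)
    (hmul : ∀ a ∈ H, ∀ b ∈ H, a * b ∈ H) (hinv : ∀ a ∈ H, a⁻¹ ∈ H)
    (hconj : ∀ a : Perm (Fin n), ∃ k ∈ H, k * a * k⁻¹ = a⁻¹) {s t : Fin n → ℕ × ℕ}
    (hs : IsTab s mu) (ht : IsTab t lam)
    (hval : ∑ h ∈ H, ncP t (fun x => (t (h x)).1) ≠ 0) : ¬ ConstAlt n lam mu := by
  rintro ⟨φ, hφ, halt, hg⟩
  let u : Specht n lam := ∑ r ∈ H, spechtAct lam r (ncE ht)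
  have huw : ∀ w, (u : (Fin n → ℕ) → ℂ) w = ∑ r ∈ H, polytabloid t (w ∘ r) := by
    intro w
    simp only [u, AddSubmonoidClass.coe_finsetSum, Finset.sum_apply]
    rfl
  have hu : u ≠ 0 := by
    intro h0
    have h2 : (u : (Fin n → ℕ) → ℂ) (fun x => (t x).1) = 0 := by rw [h0]; rfl
    rw [huw] at h2
    have h5 : ∀ r ∈ H, polytabloid t ((fun x => (t x).1) ∘ r) =
        ((ncP t (fun x => (t (r x)).1) : ℤ) : ℂ) := by
      intro r _
      rw [ncP_cast]
      rfl
    rw [Finset.sum_congr rfl h5, ← Int.cast_sum] at h2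
    exact hval (by exact_mod_cast h2)
  have hinv' : ∀ g ∈ H, spechtAct lam g u = u := by
    intro g hgr
    apply Subtype.ext
    funext w
    show (u : (Fin n → ℕ) → ℂ) (w ∘ g) = (u : (Fin n → ℕ) → ℂ) w
    rw [huw, huw]
    refine Finset.sum_bij (fun r _ => g * r) ?_ ?_ ?_ ?_
    · intro r hr
      exact hmul _ hgr _ hr
    · intro r _ s _ h5
      exact mul_left_cancel h5
    · intro s hs
      exact ⟨g⁻¹ * s, hmul _ (hinv _ hgr) _ hs, by simp⟩
    · intro r _
      rfl
  have hsym := nd_sym H h1 hmul hinv hconj hs (φ u) (fun g hg' => by rw [← hg, hinv' g hg'])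
  rw [halt] at hsym
  have h0 : φ u = 0 := by
    have h5 : (2 : ℂ) • φ u = 0 := by
      rw [two_smul]
      calc φ u + φ u = -φ u + φ u := by rw [hsym]
        _ = 0 := neg_add_cancel (φ u)
    exact (smul_eq_zero.1 h5).resolve_left two_ne_zero
  exact hu (hφ (by rw [h0, map_zero]))

end

/-! ### The subgroup -/

/-- the one-factorization: the colour of the edge `a b`. -/
def ndCol (a b : Fin 6) : ℕ := 9902080498940347721619358715 / 6 ^ (6 * a.val + b.val) % 6

/-- the function with the given code. -/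
def ndF (N : ℕ) (i : Fin 6) : Fin 6 := ⟨N / 6 ^ i.val % 6, Nat.mod_lt _ (by norm_num)⟩

/-- preservation of the one-factorization. -/
def ndP (g : Fin 6 → Fin 6) : Prop :=
  ∀ a b c d, ndCol a b = ndCol c d ↔ ndCol (g a) (g b) = ndCol (g c) (g d)

instance : DecidablePred ndP := fun g => by unfold ndP; infer_instance

/-- the stabilizer of the one-factorization. -/
def ndH : Finset (Perm (Fin 6)) := univ.filter fun g => ndP g

/-- codes of involutions in the subgroup. -/
def ndK : List ℕ :=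
  [44790, 27150, 38280, 21150, 40740, 12630, 29665, 43640, 37665, 16390, 5735, 42265, 13640,
    44115, 39190, 2045, 38125, 20485, 37820, 8350]

theorem ndK_inv : ∀ k ∈ ndK, ∀ i, ndF k (ndF k i) = i := by decide +kernel

theorem ndK_mem : ∀ k ∈ ndK, ndP (ndF k) := by decide +kernel


/-- the element with code `N` is inverted by one of the involutions. -/
def ndOk (N : ℕ) : Bool := ndK.any fun k => decide (∀ i, ndF k (ndF N (ndF k (ndF N i))) = i)

theorem ndOk_all : ((List.range 6).all fun a0 => (List.range 6).all fun a1 => a0 == a1 ||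
    ((List.range 6).all fun a2 => a0 == a2 || (a1 == a2 ||
    ((List.range 6).all fun a3 => a0 == a3 || (a1 == a3 || (a2 == a3 ||
    ((List.range 6).all fun a4 => a0 == a4 || (a1 == a4 || (a2 == a4 || (a3 == a4 ||
    ((List.range 6).all fun a5 => a0 == a5 || (a1 == a5 || (a2 == a5 || (a3 == a5 || (a4 == a5 ||
      ndOk (a0 + 6 * a1 + 36 * a2 + 216 * a3 + 1296 * a4 + 7776 * a5)))))))))))))))) = true := by
  decide +kernel

theorem ndK_conj (a0 a1 a2 a3 a4 a5 : ℕ) (h0 : a0 < 6) (h1 : a1 < 6) (h2 : a2 < 6) (h3 : a3 < 6)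
    (h4 : a4 < 6) (h5 : a5 < 6) (h01 : a0 ≠ a1) (h02 : a0 ≠ a2) (h12 : a1 ≠ a2) (h03 : a0 ≠ a3)
    (h13 : a1 ≠ a3) (h23 : a2 ≠ a3) (h04 : a0 ≠ a4) (h14 : a1 ≠ a4) (h24 : a2 ≠ a4)
    (h34 : a3 ≠ a4) (h05 : a0 ≠ a5) (h15 : a1 ≠ a5) (h25 : a2 ≠ a5) (h35 : a3 ≠ a5)
    (h45 : a4 ≠ a5) :
    ∃ k ∈ ndK, ∀ i,
      ndF k (ndF (a0 + 6 * a1 + 36 * a2 + 216 * a3 + 1296 * a4 + 7776 * a5) (ndF k
        (ndF (a0 + 6 * a1 + 36 * a2 + 216 * a3 + 1296 * a4 + 7776 * a5) i))) = i := by
  have h := ndOk_all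
  simp only [List.all_eq_true, List.mem_range, Bool.or_eq_true, beq_iff_eq] at h
  have h := ((h a0 h0 a1 h1).resolve_left h01) a2 h2
  have h := ((h.resolve_left h02).resolve_left h12) a3 h3
  have h := (((h.resolve_left h03).resolve_left h13).resolve_left h23) a4 h4
  have h := ((((h.resolve_left h04).resolve_left h14).resolve_left h24).resolve_left h34) a5 h5
  have h := ((((h.resolve_left h05).resolve_left h15).resolve_left h25).resolve_left
    h35).resolve_left h45
  unfold ndOk at h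
  simpa only [List.any_eq_true, decide_eq_true_eq] using h

theorem ndH_one : (1 : Perm (Fin 6)) ∈ ndH := by
  simp only [ndH, mem_filter, mem_univ, true_and]
  intro a b c d
  rfl

theorem ndH_mul : ∀ a ∈ ndH, ∀ b ∈ ndH, a * b ∈ ndH := by
  intro a ha b hb
  simp only [ndH, mem_filter, mem_univ, true_and] at *
  intro x y z w
  rw [hb x y z w, ha (b x) (b y) (b z) (b w)]
  rfl

theorem ndH_inv : ∀ a ∈ ndH, a⁻¹ ∈ ndH := by
  intro a ha
  simp only [ndH, mem_filter, mem_univ, true_and] at *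
  intro x y z w
  rw [ha (a⁻¹ x) (a⁻¹ y) (a⁻¹ z) (a⁻¹ w)]
  simp

theorem nd_perm (g : Perm (Fin 6)) : ∃ N, (∀ i, ndF N i = g i) ∧
    ∃ k ∈ ndK, ∀ i, ndF k (ndF N (ndF k (ndF N i))) = i := by
  refine ⟨(g 0).val + 6 * (g 1).val + 36 * (g 2).val + 216 * (g 3).val + 1296 * (g 4).val +
    7776 * (g 5).val, ?_, ?_⟩
  · intro i
    apply Fin.ext
    have h0 := (g 0).2
    have h1 := (g 1).2
    have h2 := (g 2).2
    have h3 := (g 3).2
    have h4 := (g 4).2
    have h5 := (g 5).2
    show ((g 0).val + 6 * (g 1).val + 36 * (g 2).val + 216 * (g 3).val + 1296 * (g 4).val +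
      7776 * (g 5).val) / 6 ^ i.val % 6 = (g i).val
    fin_cases i <;> simp only [Fin.zero_eta, Fin.mk_one, Fin.reduceFinMk, Fin.isValue] <;>
      norm_num <;> omega
  · have hne : ∀ i j : Fin 6, i ≠ j → (g i).val ≠ (g j).val := by
      intro i j hij h
      exact hij (g.injective (Fin.ext h))
    exact ndK_conj _ _ _ _ _ _ (g 0).2 (g 1).2 (g 2).2 (g 3).2 (g 4).2 (g 5).2
      (hne _ _ (by decide)) (hne _ _ (by decide)) (hne _ _ (by decide)) (hne _ _ (by decide))
      (hne _ _ (by decide)) (hne _ _ (by decide)) (hne _ _ (by decide)) (hne _ _ (by decide))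
      (hne _ _ (by decide)) (hne _ _ (by decide)) (hne _ _ (by decide)) (hne _ _ (by decide))
      (hne _ _ (by decide)) (hne _ _ (by decide)) (hne _ _ (by decide))

theorem nd_conj (a : Perm (Fin 6)) : ∃ k ∈ ndH, k * a * k⁻¹ = a⁻¹ := by
  obtain ⟨N, hN, k, hk, hc⟩ := nd_perm a
  let p : Perm (Fin 6) := Function.Involutive.toPerm (ndF k) (ndK_inv k hk)
  have hp : ∀ i, p i = ndF k i := fun i => rfl
  have hpp : p⁻¹ = p := rfl
  refine ⟨p, ?_, ?_⟩
  · simp only [ndH, mem_filter, mem_univ, true_and]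
    exact ndK_mem k hk
  · rw [hpp, eq_inv_iff_mul_eq_one]
    ext i
    have := hc i
    rw [hN, hN] at this
    rw [Perm.mul_apply, Perm.mul_apply, Perm.mul_apply, hp, hp, this]
    rfl

/-- the tableau. -/
def ndT (x : Fin 6) : ℕ × ℕ := (x.val / 2, x.val % 2)

theorem nd_val : ∑ h ∈ ndH, ncP ndT (fun x => (ndT (h x)).1) = 24 := by decide +kernel


theorem nd_tab {lam : YoungDiagram} (hc : lam.card = 6) (h0 : lam.rowLen 0 = 2)
    (h1 : lam.rowLen 1 = 2) (h2 : lam.rowLen 2 = 2) : IsTab ndT lam := by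
  have hinj : Function.Injective ndT := by
    intro x y h
    simp only [ndT, Prod.mk.injEq] at h
    apply Fin.ext
    omega
  refine ⟨hinj, ?_⟩
  have hsub : (univ.map ⟨ndT, hinj⟩ : Finset (ℕ × ℕ)) ⊆ lam.cells := by
    intro p hp
    rw [mem_map] at hp
    obtain ⟨x, _, rfl⟩ := hp
    show ndT x ∈ lam
    have hx := x.2
    unfold ndT
    rw [YoungDiagram.mem_iff_lt_rowLen]
    have h3 : x.val / 2 = 0 ∨ x.val / 2 = 1 ∨ x.val / 2 = 2 := by omega
    rcases h3 with h3 | h3 | h3 <;> rw [h3] <;> omega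
  have heq : (univ.map ⟨ndT, hinj⟩ : Finset (ℕ × ℕ)) = lam.cells := by
    apply Finset.eq_of_subset_of_card_le hsub
    rw [Finset.card_map, Finset.card_univ, Fintype.card_fin]
    exact hc.le
  intro p
  rw [← YoungDiagram.mem_cells, ← heq]
  simp

theorem not_altW_222 {lam : YoungDiagram} (hc : lam.card = 6) (h0 : lam.rowLen 0 = 2)
    (h1 : lam.rowLen 1 = 2) (h2 : lam.rowLen 2 = 2) : ¬ AltW 3 lam := fun hW =>
  nd_main ndH ndH_one ndH_mul ndH_inv nd_conj (back_exists_tab (n := 6) (by decide)).choose_spec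
    (nd_tab hc h0 h1 h2) (by rw [nd_val]; norm_num) (constAlt_of_altW hW)

end Sx
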