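import Mathlib

/-!
ND0: every permutation of six points is inverted by a permutation preserving a fixed perfect
matching.
-/

set_option autoImplicit false

namespace Sx

open Finset Equiv

/-- the matching `{0,3}, {1,4}, {2,5}`. -/
def ndm : Fin 6 → Fin 6 := ![3, 4, 5, 0, 1, 2]

/-- the stabilizer of the matching. -/
def ndB : Finset (Perm (Fin 6)) := univ.filter fun h => ∀ x, h (ndm x) = ndm (h x)

set_option maxRecDepth 100000 in
theorem nd_inv : ∀ g : Perm (Fin 6), ∃ h ∈ ndB, ∀ x, g (h (g x)) = h x := by
  decide +kernel

end Sx
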