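import Pool.Agent.Saxl2.YH
import Pool.Agent.Saxl2.JJ
import Pool.Agent.Saxl2.NB
import Pool.Agent.Saxl2.NC3
import Pool.Agent.Saxl2.ND
import Pool.Agent.Helper87.Saxl.Fwd
import Pool.Agent.Helper87.Saxl.Back

/-! # The exterior square of the staircase character (question Q2 of MP_2a22ca_al) -/

set_option autoImplicit false

namespace Sx

open Finset Equiv

theorem q2_colLen {D : YoungDiagram} : D.colLen 0 ≤ D.card := by
  have h : (D.col 0).card ≤ D.cells.card := Finset.card_le_card (Finset.filter_subset _ _)
  rw [← YoungDiagram.colLen_eq_card] at h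
  exact h

theorem q2_sum {D : YoungDiagram} {n : ℕ} (h : D.card = n) : ∑ i ∈ range n, D.rowLen i = n := by
  rw [← YFaux_card D (N := n) (by rw [← h]; exact q2_colLen), h]

theorem q2_zero {D : YoungDiagram} {n m : ℕ} (h : D.card = n) (hm : m ≤ n)
    (hs : ∑ i ∈ range m, D.rowLen i = n) : ∀ i, m ≤ i → i < n → D.rowLen i = 0 := by
  intro i hi hin
  have h1 := Finset.sum_range_add_sum_Ico (fun i => D.rowLen i) hm
  rw [hs, q2_sum h] at h1
  have h2 : ∑ i ∈ Ico m n, D.rowLen i = 0 := by omega
  rw [Finset.sum_eq_zero_iff] at h2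
  exact h2 i (Finset.mem_Ico.2 ⟨hi, hin⟩)

/-- the exceptions, as functions on `Fin n` -/
theorem q2_exc {k n : ℕ} (hk : 1 ≤ k) (hn : n = k * (k + 1) / 2) {D : YoungDiagram}
    (hD : D.card = n) {lam : Fin n → ℕ} (hl : rv n D = lam) :
    ExcA k D ↔ ((lam = fun i => if i.val = 0 then n else 0) ∨
      (lam = fun i => if i.val = 0 then n - 1 else if i.val = 1 then 1 else 0) ∨
      (lam = fun i => if i.val = 0 then n - 2 else if i.val = 1 then 2 else 0) ∨
      (k % 4 ≠ 2 ∧ lam = fun _ => 1) ∨
      (k = 3 ∧ lam = fun i => if i.val < 3 then 2 else 0)) := by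
  have hn0 : 1 ≤ n := by
    rw [hn]
    have : 1 * (1 + 1) ≤ k * (k + 1) := Nat.mul_le_mul hk (by omega)
    omega
  have hrow : ∀ (i : ℕ) (hi : i < n), lam ⟨i, hi⟩ = D.rowLen i := by
    intro i hi; rw [← hl]; rfl
  have h0 : D.rowLen 0 ≤ n := by
    have h1 := Finset.single_le_sum (f := fun i => D.rowLen i) (s := range n)
      (fun i _ => Nat.zero_le _) (Finset.mem_range.2 hn0)
    rw [q2_sum hD] at h1
    exact h1
  have h01 : ∀ (hn1 : 2 ≤ n), D.rowLen 0 + D.rowLen 1 ≤ n := by
    intro hn1
    have h1 : ∑ i ∈ range 2, D.rowLen i ≤ ∑ i ∈ range n, D.rowLen i :=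
      Finset.sum_le_sum_of_subset (Finset.range_subset_range.2 hn1)
    rw [q2_sum hD, Finset.sum_range_succ, Finset.sum_range_one] at h1
    exact h1
  unfold ExcA rest
  rw [hD]
  constructor
  · rintro (h | ⟨h, h'⟩ | ⟨h, h'⟩ | ⟨h, h', h''⟩)
    · rcases Nat.lt_or_ge (D.rowLen 0) n with h2 | h2
      · right; left
        have h3 : D.rowLen 0 = n - 1 := by omega
        have hn1 : 2 ≤ n := by
          by_contra hc
          have h4 : n = 1 := by omega
          have h5 := q2_sum hD
          rw [h4, Finset.sum_range_one] at h5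
          omega
        have h4 : D.rowLen 1 = 1 := by
          have h5 := h01 hn1
          by_contra h6
          have h7 : D.rowLen 1 = 0 := by omega
          have h8 : ∑ i ∈ range n, D.rowLen i = D.rowLen 0 := by
            rw [Finset.sum_eq_single_of_mem 0 (Finset.mem_range.2 hn0)]
            intro i _ hi
            have := D.rowLen_anti 1 i (by omega)
            omega
          rw [q2_sum hD] at h8
          omega
        funext i
        obtain ⟨i, hi⟩ := i
        rw [hrow]
        show D.rowLen i = if i = 0 then n - 1 else if i = 1 then 1 else 0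
        rcases Nat.lt_or_ge i 2 with h5 | h5
        · interval_cases i
          · rw [h3]; rfl
          · rw [h4]; rfl
        · rw [if_neg (by omega), if_neg (by omega)]
          refine q2_zero hD hn1 ?_ i h5 hi
          rw [Finset.sum_range_succ, Finset.sum_range_one, h3, h4]
          omega
      · left
        have h3 : D.rowLen 0 = n := by omega
        funext i
        obtain ⟨i, hi⟩ := i
        rw [hrow]
        show D.rowLen i = if i = 0 then n else 0
        rcases Nat.eq_zero_or_pos i with h5 | h5
        · rw [h5, h3]; rfl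
        · rw [if_neg (by omega)]
          refine q2_zero hD hn0 ?_ i h5 hi
          rw [Finset.sum_range_one, h3]
    · right; right; left
      have hn1 : 2 ≤ n := by omega
      funext i
      obtain ⟨i, hi⟩ := i
      rw [hrow]
      show D.rowLen i = if i = 0 then n - 2 else if i = 1 then 2 else 0
      rcases Nat.lt_or_ge i 2 with h5 | h5
      · interval_cases i
        · show D.rowLen 0 = n - 2
          omega
        · rw [h']; rfl
      · rw [if_neg (by omega), if_neg (by omega)]
        refine q2_zero hD hn1 ?_ i h5 hi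
        rw [Finset.sum_range_succ, Finset.sum_range_one]
        omega
    · right; right; right; left
      refine ⟨h', ?_⟩
      funext i
      obtain ⟨i, hi⟩ := i
      rw [hrow]
      have hle : ∀ j, D.rowLen j ≤ 1 := by
        intro j
        rw [← h]
        exact D.rowLen_anti 0 j (Nat.zero_le _)
      by_contra h4
      have h5 : ∑ i ∈ range n, D.rowLen i < ∑ i ∈ range n, 1 := by
        refine Finset.sum_lt_sum (fun i _ => hle i) ⟨i, Finset.mem_range.2 hi, ?_⟩
        have := hle i
        omega
      rw [q2_sum hD] at h5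
      simp at h5
    · right; right; right; right
      subst h
      have hn6 : n = 6 := by omega
      refine ⟨rfl, ?_⟩
      have h1 : D.rowLen 1 = 2 := by
        have a := D.rowLen_anti 0 1 (by omega)
        have b := D.rowLen_anti 1 2 (by omega)
        omega
      funext i
      obtain ⟨i, hi⟩ := i
      rw [hrow]
      show D.rowLen i = if i < 3 then 2 else 0
      rcases Nat.lt_or_ge i 3 with h5 | h5
      · rw [if_pos h5]
        interval_cases i
        · exact h'
        · exact h1
        · exact h''
      · rw [if_neg (by omega)]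
        refine q2_zero hD (by omega) ?_ i h5 hi
        rw [Finset.sum_range_succ, Finset.sum_range_succ, Finset.sum_range_one, h', h1, h'', hn6]
  · have e0 : D.rowLen 0 = lam ⟨0, hn0⟩ := (hrow 0 hn0).symm
    rintro (h | h | h | ⟨h', h⟩ | ⟨h', h⟩)
    · left
      rw [e0, h]
      simp
    · left
      rw [e0, h]
      simp
      omega
    · rcases Nat.lt_or_ge n 2 with hn1 | hn1
      · left; omega
      · right; left
        have e1 : D.rowLen 1 = lam ⟨1, hn1⟩ := (hrow 1 hn1).symm
        rw [e0, e1, h]
        simp
        omega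
    · right; right; left
      refine ⟨?_, h'⟩
      rw [e0, h]
    · right; right; right
      subst h'
      have hn6 : n = 6 := by omega
      have e2 : D.rowLen 2 = lam ⟨2, by omega⟩ := (hrow 2 (by omega)).symm
      refine ⟨rfl, ?_, ?_⟩
      · rw [e0, h]; simp
      · rw [e2, h]; simp

theorem constAlt_iff {k : ℕ} (hk : 1 ≤ k) {D : YoungDiagram} (hD : D.card = k * (k + 1) / 2) :
    ConstAlt (k * (k + 1) / 2) D (stair k) ↔ ¬ ExcA k D := by
  constructor
  · intro h he
    have hn0 : 0 < k * (k + 1) / 2 := by
      have : 1 * (1 + 1) ≤ k * (k + 1) := Nat.mul_le_mul hk (by omega)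
      omega
    have hsum := q2_sum hD
    generalize hn : k * (k + 1) / 2 = n at hD h hn0 hsum
    have hbig : ∀ m, 1 ≤ m → rest D ≤ m → m ≤ 2 → (2 ≤ m → D.rowLen 1 = 2) →
        D.colLen 0 ≤ 2 ∧ D.rowLen 1 ≤ 2 := by
      intro m hm1 hm hm2 h2
      have h1 : D.rowLen 1 ≤ 2 ∧ D.rowLen 2 = 0 := by
        have hc : 2 < D.colLen 0 → 3 ≤ n := by
          intro h3
          have := q2_colLen (D := D)
          omega
        have hr2 : D.rowLen 2 = 0 := by
          by_contra h3
          have h4 : 2 < D.colLen 0 := by
            rw [← YoungDiagram.mem_iff_lt_colLen, YoungDiagram.mem_iff_lt_rowLen]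
            omega
          have hn3 := hc h4
          have h5 : ∑ i ∈ range 3, D.rowLen i ≤ ∑ i ∈ range n, D.rowLen i :=
            Finset.sum_le_sum_of_subset (Finset.range_subset_range.2 hn3)
          rw [hsum, Finset.sum_range_succ, Finset.sum_range_succ, Finset.sum_range_one] at h5
          have h6 := D.rowLen_anti 1 2 (by omega)
          unfold rest at hm
          rcases Nat.lt_or_ge m 2 with h7 | h7
          · omega
          · have := h2 h7
            omega
        refine ⟨?_, hr2⟩
        rcases Nat.lt_or_ge m 2 with h7 | h7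
        · by_contra h8
          have h9 : 1 < D.colLen 0 := by
            rw [← YoungDiagram.mem_iff_lt_colLen, YoungDiagram.mem_iff_lt_rowLen]
            omega
          have := q2_colLen (D := D)
          have h5 : ∑ i ∈ range 2, D.rowLen i ≤ ∑ i ∈ range n, D.rowLen i :=
            Finset.sum_le_sum_of_subset (Finset.range_subset_range.2 (by omega))
          rw [hsum, Finset.sum_range_succ, Finset.sum_range_one] at h5
          unfold rest at hm
          omega
        · exact (h2 h7).le
      refine ⟨?_, h1.1⟩
      by_contra h3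
      have h4 : (2, 0) ∈ D := by
        rw [YoungDiagram.mem_iff_lt_colLen]
        omega
      rw [YoungDiagram.mem_iff_lt_rowLen, h1.2] at h4
      omega
    rcases he with he | ⟨he, he'⟩ | ⟨he, he'⟩ | ⟨he, he', he''⟩
    · obtain ⟨a, b⟩ := hbig 1 le_rfl he (by omega) (by omega)
      exact not_constAlt_big hn0 hD (by rw [stair_card, hn]) a b h
    · obtain ⟨a, b⟩ := hbig 2 (by omega) he.le le_rfl (fun _ => he')
      exact not_constAlt_big hn0 hD (by rw [stair_card, hn]) a b h
    · subst hn
      exact not_altW_col he.le he' (altW_of_constAlt hD h)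
    · subst hn
      subst he
      have h1 : D.rowLen 1 = 2 := by
        have a := D.rowLen_anti 0 1 (by omega)
        have b := D.rowLen_anti 1 2 (by omega)
        omega
      exact not_altW_222 hD he' h1 he'' (altW_of_constAlt hD h)
  · intro h
    exact constAlt_of_altW ((all_levels k hk).2 D hD h)

/-- Question Q2 in the format of the frozen statement of Q1. -/
theorem exterior_square : ∀ k : ℕ, 1 ≤ k → ∀ n : ℕ, n = k * (k + 1) / 2 →
    ∀ χ : (Fin n → ℕ) → Equiv.Perm (Fin n) → ℤ,
    (∀ (lam : Fin n → ℕ) (g : Equiv.Perm (Fin n)),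
      χ lam g = ∑ σ : Equiv.Perm (Fin n), ((Equiv.Perm.sign σ : ℤˣ) : ℤ) *
        ((Finset.univ.filter (fun f : Fin n → Fin n =>
            (∀ i : Fin n, (((Finset.univ.filter (fun x : Fin n => f x = i)).card : ℕ) : ℤ)
                = ((lam i : ℕ) : ℤ) - ((i.val : ℕ) : ℤ) + (((σ i).val : ℕ) : ℤ)) ∧
            ∀ x : Fin n, f (g x) = f x)).card : ℤ)) →
    ∀ lam : Fin n → ℕ, Antitone lam → ∑ i, lam i = n →
      (0 < ∑ g : Equiv.Perm (Fin n),
          (χ (fun i => k - i.val) g ^ 2 - χ (fun i => k - i.val) (g * g)) * χ lam g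
        ↔ ¬ ((lam = fun i => if i.val = 0 then n else 0) ∨
          (lam = fun i => if i.val = 0 then n - 1 else if i.val = 1 then 1 else 0) ∨
          (lam = fun i => if i.val = 0 then n - 2 else if i.val = 1 then 2 else 0) ∨
          (k % 4 ≠ 2 ∧ lam = fun _ => 1) ∨
          (k = 3 ∧ lam = fun i => if i.val < 3 then 2 else 0))) := by
  intro k hk n hn χ hχ lam ha hs
  have hχ' : ∀ (lam : Fin n → ℕ) (g : Perm (Fin n)), χ lam g = JT lam g := by
    intro lam g
    rw [hχ]
    rfl
  obtain ⟨D, hD, hrD⟩ := exists_diagram lam ha hs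
  have hst : (stair k).card = n := by rw [stair_card, hn]
  have h1 := pos_iff_constAlt (n := n) (lam := D) (mu := stair k) hD hst
  rw [rv_stair hn, hrD] at h1
  simp_rw [hχ']
  rw [h1]
  have h2 := constAlt_iff hk (D := D) (by rw [hD, hn])
  rw [← hn] at h2
  rw [h2, q2_exc hk hn hD hrD]

end Sx
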